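import Pool.Agent.MP_6d695c_gt.p.Spec

/-! PROJECT P: shared small lemmas. -/

open scoped ContDiff Topology
open Set Metric Filter Real

namespace Pool.Agent.MP_6d695c_gt.P

open SW T1 Theta

section Alg
variable {m : ℕ}

theorem mul_def (p η : Y m) :
    mul p η = (p.1 + (η.1 - ∑ j, p.2.2 j * η.2.1 j), p.2 + η.2) := rfl

theorem ldiv_def (p y : Y m) :
    ldiv p y = (y.1 - p.1 + ∑ j, p.2.2 j * (y.2.1 j - p.2.1 j), y.2 - p.2) := by
  ext <;> simp [ldiv, Lt_apply]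

theorem dil_def (w : ℝ) (y : Y m) : dil w y = (w ^ 2 * y.1, w • y.2) := rfl

theorem hq_add (u v : Hor m) : hq (u + v) = hq u + hq v + ∑ j, u.2 j * v.1 j - om u v / 2 := by
  simp only [hq, om, Prod.fst_add, Prod.snd_add, Pi.add_apply, add_mul, mul_add,
    Finset.sum_add_distrib, Finset.sum_sub_distrib]
  rw [Finset.sum_congr rfl fun j _ => mul_comm (v.1 j) (u.2 j)]
  ring

theorem hq_smul (w : ℝ) (u : Hor m) : hq (w • u) = w ^ 2 * hq u := by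
  simp only [hq, Prod.smul_fst, Prod.smul_snd, Pi.smul_apply, smul_eq_mul]
  rw [Finset.sum_congr rfl fun j _ => show w * u.1 j * (w * u.2 j) = w ^ 2 * (u.1 j * u.2 j) by
    ring, ← Finset.mul_sum]
  ring

theorem hq_zero : hq (0 : Hor m) = 0 := by simp [hq]

theorem om_self (u : Hor m) : om u u = 0 := by simp [om, mul_comm]

theorem om_swap (u v : Hor m) : om u v = -om v u := by
  simp only [om, ← Finset.sum_neg_distrib]
  exact Finset.sum_congr rfl fun j _ => by ring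

theorem mul_assoc' (a b c : Y m) : mul (mul a b) c = mul a (mul b c) := by
  simp only [mul_def, Prod.snd_add, Prod.fst_add, Pi.add_apply, add_mul, mul_add,
    Finset.sum_add_distrib]
  ext <;> simp [add_assoc]
  ring

theorem mul_zero' (a : Y m) : mul a 0 = a := by simp [mul]

theorem zero_mul' (a : Y m) : mul 0 a = a := by simp [mul_def]

theorem mul_ldiv' (a y : Y m) : mul a (ldiv a y) = y := by
  simp only [mul_def, ldiv_def]
  ext <;> simp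

theorem ldiv_mul' (a y : Y m) : ldiv a (mul a y) = y := by
  simp only [mul_def, ldiv_def]
  ext <;> simp

theorem ldiv_self' (a : Y m) : ldiv a a = 0 := by simp [ldiv]

theorem ldiv_mul_right (a b c : Y m) : ldiv a (mul b c) = mul (ldiv a b) c := by
  conv_lhs => rw [← mul_ldiv' a b, mul_assoc', ldiv_mul']

theorem ldiv_mul_mul (a b c : Y m) : ldiv (mul a b) (mul a c) = ldiv b c := by
  conv_lhs => rw [← mul_ldiv' b c, ← mul_assoc', ldiv_mul']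

theorem dil_dil' (a b : ℝ) (y : Y m) : dil a (dil b y) = dil (a * b) y := by
  simp only [dil_def, smul_smul]
  ext <;> simp
  ring

theorem dil_one' (y : Y m) : dil 1 y = y := by simp [dil_def]

theorem dil_zero' (w : ℝ) : dil w (0 : Y m) = 0 := by simp [dil_def]

theorem dil_mul' (w : ℝ) (a b : Y m) : dil w (mul a b) = mul (dil w a) (dil w b) := by
  simp only [dil_def, mul_def, Prod.smul_fst, Prod.smul_snd, Pi.smul_apply, smul_eq_mul, smul_add]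
  rw [Finset.sum_congr rfl fun j _ => show w * a.2.2 j * (w * b.2.1 j) =
    w ^ 2 * (a.2.2 j * b.2.1 j) by ring, ← Finset.mul_sum]
  ext <;> simp
  ring

theorem dil_ldiv' (w : ℝ) (a b : Y m) : dil w (ldiv a b) = ldiv (dil w a) (dil w b) := by
  conv_rhs => rw [← mul_ldiv' a b, dil_mul', ldiv_mul']

variable {A A' B B' D D' : Hor m →L[ℝ] Hor m} {f f' s : ℝ}

theorem hom_hom (A A' : Hor m →L[ℝ] Hor m) (f f' : ℝ) (y : Y m) :
    hom A f (hom A' f' y) = hom (A.comp A') (f * f') y := by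
  simp only [hom, ContinuousLinearMap.comp_apply]
  ext <;> simp
  ring

theorem hom_id (h : ∀ u, A u = u) (y : Y m) : hom A 1 y = y := by
  simp [hom, h]

theorem hom_zero (A : Hor m →L[ℝ] Hor m) (f : ℝ) : hom A f 0 = 0 := by
  simp [hom, hq_zero]

theorem hom_dil (A : Hor m →L[ℝ] Hor m) (f w : ℝ) (y : Y m) :
    hom A f (dil w y) = dil w (hom A f y) := by
  simp only [hom, dil_def, map_smul, hq_smul]
  ext <;> simp
  ring

theorem Sym.hom_mul (h : Sym A f) (a b : Y m) :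
    hom A f (mul a b) = mul (hom A f a) (hom A f b) := by
  simp only [hom, mul_def, map_add, hq_add, h a.2 b.2]
  ext <;> simp
  ring

theorem Sym.hom_ldiv (h : Sym A f) (a b : Y m) :
    hom A f (ldiv a b) = ldiv (hom A f a) (hom A f b) := by
  conv_rhs => rw [← mul_ldiv' a b, h.hom_mul, ldiv_mul']

theorem Sym.comp (h : Sym A f) (h' : Sym A' f') : Sym (A.comp A') (f * f') := fun u v => by
  rw [ContinuousLinearMap.comp_apply, ContinuousLinearMap.comp_apply, h, h', mul_assoc]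

theorem Sym.inv (h : Sym B 1) (ri : ∀ u, B (B' u) = u) : Sym B' 1 := fun u v => by
  have := h (B' u) (B' v)
  rw [ri, ri] at this
  linarith

theorem hom_inv (ri : ∀ u, B (B' u) = u) (y : Y m) : hom B 1 (hom B' 1 y) = y := by
  rw [hom_hom, one_mul]
  exact hom_id ri y

theorem eta_self (s : ℝ) (c : Y m) (B' : Hor m →L[ℝ] Hor m) : eta s c B' c = 0 := by
  rw [eta, ldiv_self', hom_zero, dil_zero']

theorem zeta_eta (hs : s ≠ 0) (ri : ∀ u, B (B' u) = u) (c y : Y m) :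
    zeta s c B (eta s c B' y) = y := by
  rw [zeta, eta, dil_dil', mul_inv_cancel₀ hs, dil_one', hom_inv ri, mul_ldiv']

theorem eta_zeta (hs : s ≠ 0) (li : ∀ u, B' (B u) = u) (c y : Y m) :
    eta s c B' (zeta s c B y) = y := by
  rw [zeta, eta, ldiv_mul', hom_inv li, dil_dil', inv_mul_cancel₀ hs, dil_one']

/-- change of the centre -/
theorem eta_mul (hs : s ≠ 0) (h : Sym D' 1) (c c' y : Y m) :
    eta s c' D' (mul c (dil s y)) = mul (eta s c' D' c) (hom D' 1 y) := by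
  rw [eta, eta, ldiv_mul_right, h.hom_mul, dil_mul', hom_dil, dil_dil', inv_mul_cancel₀ hs,
    dil_one']

/-- the transition between two nodes -/
theorem eta_trans (hs : s ≠ 0) (h : Sym D' 1) (B : Hor m →L[ℝ] Hor m) (c c' y : Y m) :
    eta s c' D' (zeta s c B y) = mul (eta s c' D' c) (hom (D'.comp B) 1 y) := by
  rw [zeta, hom_dil, eta_mul hs h, hom_hom, one_mul]

/-- the coordinates at `y` in terms of the coordinates at `c` -/
theorem eta_eta (hs : s ≠ 0) (h : Sym B 1) (ri : ∀ u, B (B' u) = u) (D' : Hor m →L[ℝ] Hor m)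
    (c y y' : Y m) :
    eta s y D' y' = hom (D'.comp B) 1 (ldiv (eta s c B' y) (eta s c B' y')) := by
  conv_lhs => rw [← zeta_eta hs ri c y, ← zeta_eta hs ri c y']
  rw [eta, zeta, zeta, ldiv_mul_mul, ← h.hom_ldiv, ← dil_ldiv', hom_hom, one_mul, hom_dil,
    dil_dil', inv_mul_cancel₀ hs, dil_one']

theorem sum_le (a b : Fin m → ℝ) : |∑ j, a j * b j| ≤ m * (‖a‖ * ‖b‖) := by
  refine (Finset.abs_sum_le_sum_abs _ _).trans ?_
  have := Finset.sum_le_card_nsmul Finset.univ (fun j => |a j * b j|) (‖a‖ * ‖b‖) fun j _ => by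
    rw [abs_mul]
    exact mul_le_mul (norm_le_pi_norm a j) (norm_le_pi_norm b j) (abs_nonneg _) (norm_nonneg _)
  simpa using this

theorem hq_le (u : Hor m) : |hq u| ≤ m * ‖u‖ ^ 2 := by
  rw [hq, abs_div, abs_two]
  have h1 := sum_le u.1 u.2
  have h2 : ‖u.1‖ * ‖u.2‖ ≤ ‖u‖ ^ 2 := by
    rw [sq]
    exact mul_le_mul (norm_fst_le u) (norm_snd_le u) (norm_nonneg _) (norm_nonneg _)
  have h3 : (m : ℝ) * (‖u.1‖ * ‖u.2‖) ≤ m * ‖u‖ ^ 2 := by gcongr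
  have := abs_nonneg (∑ j, u.1 j * u.2 j)
  linarith

theorem norm_Lt_le (p ξ : Y m) : ‖Lt p ξ‖ ≤ (1 + m * ‖p‖) * ‖ξ‖ := by
  have h1 := sum_le p.2.2 ξ.2.1
  have h2 : ‖p.2.2‖ * ‖ξ.2.1‖ ≤ ‖p‖ * ‖ξ‖ :=
    mul_le_mul ((norm_snd_le _).trans (norm_snd_le p)) ((norm_fst_le _).trans (norm_snd_le ξ))
      (norm_nonneg _) (norm_nonneg _)
  have h3 : (m : ℝ) * (‖p.2.2‖ * ‖ξ.2.1‖) ≤ m * (‖p‖ * ‖ξ‖) := by gcongr
  have h4 : |ξ.1| ≤ ‖ξ‖ := norm_fst_le ξ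
  have h5 : 0 ≤ (m : ℝ) * (‖p‖ * ‖ξ‖) := by positivity
  refine max_le ?_ (show ‖ξ.2‖ ≤ _ by nlinarith [norm_snd_le ξ])
  change |ξ.1 - ∑ j, p.2.2 j * ξ.2.1 j| ≤ _
  refine (abs_sub _ _).trans ?_
  nlinarith

theorem norm_dil_le {w : ℝ} (h0 : 0 ≤ w) (h1 : w ≤ 1) (y : Y m) : ‖dil w y‖ ≤ w * ‖y‖ := by
  refine max_le ?_ ?_
  · change |w ^ 2 * y.1| ≤ _
    rw [abs_mul, abs_of_nonneg (sq_nonneg w)]
    exact mul_le_mul (by nlinarith) (norm_fst_le y) (abs_nonneg _) h0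
  · change ‖w • y.2‖ ≤ _
    rw [norm_smul, Real.norm_of_nonneg h0]
    exact mul_le_mul_of_nonneg_left (norm_snd_le y) h0

theorem norm_hom_le {C R : ℝ} {y : Y m} (hA : ‖A‖ ≤ C) (hC : 1 ≤ C) (h0 : 0 ≤ f) (h1 : f ≤ 1)
    (hy : ‖y‖ ≤ R) : ‖hom A f y‖ ≤ C * R + 2 * m * (C * R) ^ 2 := by
  have r0 : 0 ≤ R := (norm_nonneg _).trans hy
  have a1 : ‖y.2‖ ≤ R := (norm_snd_le y).trans hy
  have a2 : ‖A y.2‖ ≤ C * R := (A.le_opNorm _).trans (by gcongr)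
  have a3 : R ≤ C * R := by nlinarith
  have a4 : |hq y.2| ≤ m * (C * R) ^ 2 := (hq_le _).trans (by gcongr; exact a1.trans a3)
  have a5 : |hq (A y.2)| ≤ m * (C * R) ^ 2 := (hq_le _).trans (by gcongr)
  have a6 : |y.1| ≤ R := (norm_fst_le y).trans hy
  have a7 : 0 ≤ (m : ℝ) * (C * R) ^ 2 := by positivity
  refine max_le ?_ (show ‖A y.2‖ ≤ _ by nlinarith)
  change |f * (y.1 + hq y.2) - hq (A y.2)| ≤ _
  refine (abs_sub _ _).trans ?_
  rw [abs_mul, abs_of_nonneg h0]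
  have a8 := abs_add_le y.1 (hq y.2)
  have a9 : f * |y.1 + hq y.2| ≤ |y.1 + hq y.2| := mul_le_of_le_one_left (abs_nonneg _) h1
  nlinarith

theorem hq_smooth : ContDiff ℝ ∞ (hq (m := m)) := by
  unfold hq
  fun_prop

theorem hom_smooth (A : Hor m →L[ℝ] Hor m) (f : ℝ) : ContDiff ℝ ∞ (hom A f) := by
  have := hq_smooth (m := m)
  unfold hom
  fun_prop

theorem GoodP.mono {C f₀ f₁ : ℝ} {p : Sp m} (h : GoodP C f₀ p) (hf : f₀ ≤ f₁) : GoodP C f₁ p :=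
  ⟨h.1, h.2.1, h.2.2.1, h.2.2.2.1, h.2.2.2.2.trans hf⟩

end Alg

section Crv
variable {X : Type} [NormedAddCommGroup X] [NormedSpace ℝ X]

theorem Crv_sub {Z : X → X} {ε ε' a b a' b' : ℝ} {c : ℝ → X} (h : Crv Z ε c a b) (ha : a ≤ a')
    (hb : b' ≤ b) (hε : ε ≤ ε') : Crv Z ε' c a' b' :=
  ⟨h.1.mono (Icc_subset_Icc ha hb), fun t ht => (h.2 t ⟨ha.trans ht.1, ht.2.trans_le hb⟩).mono hε⟩

theorem Ly_nonneg {Z : X → X} {Φ : X → ℝ} {S : Set X} {x : X} (h : Ly S Z Φ x) :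
    0 ≤ fderiv ℝ Φ x (Z x) := by
  rcases h with h | ⟨u, h, -⟩
  · exact h.le
  · rw [h.1, map_zero]

theorem Ly_pos {Z : X → X} {Φ : X → ℝ} {S : Set X} {x : X} (h : Ly S Z Φ x) (hx : Z x ≠ 0) :
    0 < fderiv ℝ Φ x (Z x) :=
  h.resolve_right fun ⟨_, h, _⟩ => hx h.1

end Crv

section Tow
variable {m : ℕ} {ι : Type} {η : ι → Y m → Y m} {act : ι → Prop} {Γ : ι → Set (Y m)}
  {Ra R β κ a b Ra' β' κ' : ℝ} {F Λ : ℝ × Y m → ℝ}

theorem Tow.mono (h : Tow η act Γ Ra R β κ a b F Λ) (h1 : Ra' ≤ Ra) (h2 : β ≤ β') (h3 : κ' ≤ κ) :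
    Tow η act Γ Ra' R β' κ' a b F Λ :=
  ⟨h.le, h.sF, h.sΛ, h.out, h.lyap, h.bd, fun Ω hΩ => by
    obtain ⟨ε, hε, H⟩ := h.dyn Ω hΩ
    refine ⟨ε, hε, fun γ s t hst hγ hm c hc => ?_⟩
    obtain ⟨H1, H2⟩ := H γ s t hst hγ hm c (hc.trans h1)
    exact ⟨fun r hr => (H1 r hr).trans h2, fun ha hb hc p hp => h3.trans (H2 ha hb hc p hp)⟩⟩

end Tow

section Box
variable {m : ℕ} {V : Type} [NormedAddCommGroup V] [NormedSpace ℝ V] {M K' K'' : Set V}
  {l : V → V →L[ℝ] ℝ} {φ : V → ℝ} {Z : V → V} {fl : ℝ → V → V} {I : Type} {τ : TD V m I}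
  {H S₀ S : ℝ}

theorem Ps_zero (hf : IsFlow Z fl) (g : Y m → V) (y : Y m) : Ps fl g (0, y) = g y := hf.zero _

theorem fl_Ps (hf : IsFlow Z fl) (g : Y m → V) (t : ℝ) (q : ℝ × Y m) :
    fl t (Ps fl g q) = Ps fl g (t + q.1, q.2) := (hf.add _ _ _).symm

omit [NormedAddCommGroup V] [NormedSpace ℝ V] in
theorem TD.reg_mono (h : 0 ≤ τ.ρ) (i : I) {a b k a' b' k' : ℝ} (ha : a' ≤ a) (hb : b ≤ b')
    (hk : k ≤ k') : τ.reg i a b k ⊆ τ.reg i a' b' k' :=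
  prod_mono (Icc_subset_Icc ha hb) (cthickening_mono (by gcongr) _)

theorem Tw.reg_cpt (h : Tw M l φ fl τ K' K'' H S₀) (i : I) (a b k : ℝ) :
    IsCompact (τ.reg i a b k) := isCompact_Icc.prod (h.cpt i).cthickening

theorem Tw.mem (h : Tw M l φ fl τ K' K'' H S₀) {i : I} {q : ℝ × Y m}
    (hq : q ∈ τ.reg i (-1) (H + 1) 10) : q ∈ Ioo (-2) (H + 2) ×ˢ τ.D i :=
  ⟨⟨by linarith [hq.1.1], by linarith [hq.1.2]⟩, h.sub i hq.2⟩

/-- the chart inverts the parametrisation -/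
theorem Tw.kap (h : Tw M l φ fl τ K' K'' H S₀) {i : I} {q : ℝ × Y m}
    (hq : q ∈ τ.reg i (-1) (H + 1) 10) :
    Ps fl (τ.g i) q ∈ M ∧ Ps fl (τ.g i) q ∈ τ.N i ∧ τ.κ i (Ps fl (τ.g i) q) = q :=
  (h.box i).par.gm q (h.mem hq)

/-- the towers are disjoint and embedded -/
theorem Tw.inj (h : Tw M l φ fl τ K' K'' H S₀) {i j : I} {q q' : ℝ × Y m}
    (hq : q ∈ τ.reg i (-1) (H + 1) 10) (hq' : q' ∈ τ.reg j (-1) (H + 1) 10)
    (e : Ps fl (τ.g i) q = Ps fl (τ.g j) q') : i = j ∧ q = q' := by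
  obtain rfl : i = j := by_contra fun c => h.disj i j c q hq q' hq' e
  exact ⟨rfl, by rw [← (h.kap hq).2.2, e, (h.kap hq').2.2]⟩

theorem Tw.bot (h : Tw M l φ fl τ K' K'' H S₀) {i : I} {y : Y m} {k : ℝ} (hk : k ≤ 10)
    (hy : y ∈ cthickening (k * τ.ρ) (τ.A i)) : ((0 : ℝ), y) ∈ τ.reg i (-1) (H + 1) 10 :=
  ⟨⟨by norm_num, by linarith [h.Hle]⟩, cthickening_mono (by have := h.ρpos; gcongr) _ hy⟩

/-- the value of the holonomy -/
theorem ALk.hol_eq (hf : IsFlow Z fl) (h : Tw M l φ fl τ K' K'' H S₀) {i j : I} {y y' : Y m}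
    {t : ℝ} (a : ALk fl τ H S i y t j y') : hol fl τ i j t y = y' := by
  rw [hol, a.hit, ← Ps_zero hf (τ.g j), (h.kap (h.bot (by norm_num) a.my')).2.2]

theorem Ps_smooth (hf : IsFlow Z fl) {g : Y m → V} (hg : ContDiff ℝ ∞ g) :
    ContDiff ℝ ∞ (Ps fl g) :=
  hf.sm.comp (contDiff_fst.prodMk (hg.comp contDiff_snd))

end Box

end Pool.Agent.MP_6d695c_gt.P
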