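import Pool.Agent.MP_6d695c_gt.p.Alg

/-! PROJECT P, row Attr: a time function outside a small neighbourhood of the skeleton. -/

open scoped Manifold ContDiff Topology MeasureTheory
open Set Metric Filter Real

namespace Pool.Agent.MP_6d695c_gt.P

open SW T1 Theta

namespace AttrAux

theorem bump : ∃ b β : ℝ → ℝ, ContDiff ℝ ∞ b ∧ (∀ x, HasDerivAt b (β x) x) ∧
    (∀ x ∈ Ioo (1 : ℝ) 3, 0 < β x) ∧ (∀ x ∉ Ioo (1 : ℝ) 3, β x = 0) ∧ (∀ x ≤ 1, b x = 0) ∧
    ∀ x, 1 < x → 0 < b x := by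
  obtain ⟨p, hp, -, hd⟩ := exists_primitive
    (b := fun x => expNegInvGlue (x - 1) * expNegInvGlue (3 - x))
    ((expNegInvGlue.contDiff.comp (by fun_prop)).mul (expNegInvGlue.contDiff.comp (by fun_prop)))
  have h1 : ∀ x ∈ Ioo (1 : ℝ) 3, 0 < expNegInvGlue (x - 1) * expNegInvGlue (3 - x) := fun x hx =>
    mul_pos (expNegInvGlue.pos_of_pos (sub_pos.2 hx.1)) (expNegInvGlue.pos_of_pos (sub_pos.2 hx.2))
  have h2 : ∀ x ∉ Ioo (1 : ℝ) 3, expNegInvGlue (x - 1) * expNegInvGlue (3 - x) = 0 := fun x hx => by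
    rcases le_or_gt x 1 with h | h
    · rw [expNegInvGlue.zero_of_nonpos (sub_nonpos.2 h), zero_mul]
    · rw [expNegInvGlue.zero_of_nonpos (sub_nonpos.2 (not_lt.1 fun h' => hx ⟨h, h'⟩)), mul_zero]
  have hD : Differentiable ℝ p := fun x => (hd x).differentiableAt
  have h3 : Monotone p := monotone_of_deriv_nonneg hD fun x => by
    rw [(hd x).deriv]
    exact mul_nonneg (expNegInvGlue.nonneg _) (expNegInvGlue.nonneg _)
  have h4 : StrictMonoOn p (Icc 1 3) := strictMonoOn_of_deriv_pos (convex_Icc 1 3)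
    hp.continuous.continuousOn fun x hx => by
      rw [interior_Icc] at hx
      rw [(hd x).deriv]
      exact h1 x hx
  have h5 : AntitoneOn p (Iic 1) := antitoneOn_of_deriv_nonpos (convex_Iic 1)
    hp.continuous.continuousOn hD.differentiableOn fun x hx => by
      rw [interior_Iic] at hx
      rw [(hd x).deriv, h2 x fun h => lt_asymm h.1 hx]
  refine ⟨fun x => p x - p 1, _, hp.sub contDiff_const, fun x => (hd x).sub_const _, h1, h2,
    fun x hx => sub_eq_zero.2 (le_antisymm (h3 hx) (h5 hx self_mem_Iic hx)), fun x hx => ?_⟩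
  have h6 : 1 < min x 3 := lt_min hx (by norm_num)
  exact sub_pos.2 ((h4 ⟨le_rfl, by norm_num⟩ ⟨h6.le, min_le_right _ _⟩ h6).trans_le
    (h3 (min_le_left _ _)))

variable {V : Type} [NormedAddCommGroup V] [NormedSpace ℝ V] {Z : V → V} {fl : ℝ → V → V}

theorem along (hf : IsFlow Z fl) {u : V → ℝ} (hu : ContDiff ℝ ∞ u) (x : V) (t : ℝ) :
    HasDerivAt (fun s => u (fl s x)) (fderiv ℝ u (fl t x) (Z (fl t x))) t :=
  (hu.differentiable (by simp) _).hasFDerivAt.comp_hasDerivAt t (hf.der x t)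

theorem smt (hf : IsFlow Z fl) (t : ℝ) : ContDiff ℝ ∞ (fl t) :=
  hf.sm.comp (contDiff_const.prodMk contDiff_id)

/-- the derivative of a sum of translates -/
theorem dsum (hf : IsFlow Z fl) {φ : V → ℝ} (hφ : ContDiff ℝ ∞ φ) {b β : ℝ → ℝ}
    (hb : ContDiff ℝ ∞ b) (hd : ∀ x, HasDerivAt b (β x) x) (n : ℕ) (t : ℕ → ℝ) (x : V) :
    fderiv ℝ (fun y => ∑ k ∈ Finset.range n, b (φ (fl (t k) y))) x (Z x) =
      ∑ k ∈ Finset.range n, β (φ (fl (t k) x)) * fderiv ℝ φ (fl (t k) x) (Z (fl (t k) x)) := by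
  have h1 := along hf (u := fun y => ∑ k ∈ Finset.range n, b (φ (fl (t k) y)))
    (ContDiff.sum fun k _ => hb.comp (hφ.comp (smt hf _))) x 0
  rw [hf.zero] at h1
  refine h1.unique (HasDerivAt.fun_sum fun k _ => ?_)
  have h2 := (hd _).comp 0 (along hf hφ (fl (t k) x) 0)
  rw [hf.zero] at h2
  refine h2.congr_of_eventuallyEq (Eventually.of_forall fun s => ?_)
  simp only [Function.comp, ← hf.add, add_comm]

/-- decay along the backward flow -/
theorem decay (hf : IsFlow Z fl) {L : V → ℝ} (hL : ContDiff ℝ ∞ L) {x : V} {t C : ℝ} {s : ℝ}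
    (hs : s ≤ t) (h : ∀ r ∈ Ioo s t, C ≤ fderiv ℝ L (fl (-r) x) (Z (fl (-r) x))) :
    L (fl (-t) x) - L (fl (-s) x) ≤ -C * (t - s) := by
  have hd : ∀ r, HasDerivAt (fun r => L (fl (-r) x))
      (fderiv ℝ L (fl (-r) x) (Z (fl (-r) x)) * -1) r := fun r =>
    (along hf hL x (-r)).comp r (hasDerivAt_neg r)
  refine (convex_Icc s t).image_sub_le_mul_sub_of_deriv_le (f := fun r => L (fl (-r) x))
    (fun r _ => (hd r).continuousAt.continuousWithinAt)
    (fun r _ => (hd r).differentiableAt.differentiableWithinAt) (fun r hr => ?_) s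
    (left_mem_Icc.2 hs) t (right_mem_Icc.2 hs) hs
  rw [interior_Icc] at hr
  rw [(hd r).deriv]
  linarith [h r hr]

end AttrAux

open AttrAux in
theorem attr : AttrStmt := by
  intro V E _ _ _ _ _ M U l Pi φ Z fl hA hC hK hU hS
  have hf := hC.flow
  obtain ⟨b, β, hb, hd, β1, β0, b0, b1⟩ := bump
  have b2 : ∀ x, 0 ≤ b x := fun x => (le_or_gt x 1).elim (fun h => (b0 x h).ge) fun h => (b1 x h).le
  have c2 := hA.cpt 2 (by norm_num)
  have hcont : Continuous fun q : ℝ × V => φ (fl q.1 q.2) := hA.sφ.continuous.comp hf.sm.continuous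
  -- the step
  obtain ⟨τ, τ0, hτ⟩ : ∃ τ, 0 < τ ∧ ∀ y ∈ M, φ y ≤ 1 → φ (fl τ y) < 3 := by
    have h1 : ∀ᶠ t in 𝓝 (0 : ℝ), ∀ y ∈ {x ∈ M | φ x ≤ 1}, φ (fl t y) < 3 :=
      (hA.cpt 1 (by norm_num)).eventually_forall_of_forall_eventually fun y hy =>
        hcont.continuousAt.eventually_lt continuousAt_const (by
          simp only [hf.zero]
          linarith [hy.2])
    obtain ⟨τ, h2, h3⟩ := ((h1.filter_mono nhdsWithin_le_nhds).and
      (self_mem_nhdsWithin (s := Ioi (0 : ℝ)))).exists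
    exact ⟨τ, h3, fun y hy h => h2 y ⟨hy, h⟩⟩
  -- the number of steps
  obtain ⟨n, hn⟩ : ∃ n : ℕ, ∀ x ∈ {x ∈ M | φ x ≤ 2} \ U, ∃ k < n, 1 < φ (fl (k * τ) x) := by
    obtain ⟨T, hT⟩ := (c2.diff hU).elim_finite_subcover (fun k : ℕ => {x | 1 < φ (fl (k * τ) x)})
      (fun k => isOpen_lt continuous_const (hA.sφ.comp (smt hf _)).continuous) fun x hx => by
        obtain ⟨t, t0, ht⟩ : ∃ t, 0 ≤ t ∧ 2 < φ (fl t x) := by
          by_contra! h
          exact hx.2 (hS ⟨hx.1.1, h⟩)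
        obtain ⟨k, hk⟩ := exists_nat_ge (t / τ)
        refine mem_iUnion.2 ⟨k, show 1 < φ (fl (k * τ) x) from not_le.1 fun h => ?_⟩
        have h1 := hK.back _ (hC.inv (k * τ) x hx.1.1 (by linarith [hx.1.2])).1 (by linarith)
          (k * τ - t) (sub_nonneg.2 ((div_le_iff₀ τ0).1 hk))
        rw [← hf.add, show -(k * τ - t) + k * τ = t by ring] at h1
        linarith [max_le h (show (1 / 2 : ℝ) ≤ 1 by norm_num)]
    refine ⟨T.sup id + 1, fun x hx => ?_⟩
    obtain ⟨k, hk, h⟩ := mem_iUnion₂.1 (hT hx)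
    exact ⟨k, Nat.lt_succ_of_le (Finset.le_sup (f := id) hk), h⟩
  obtain ⟨L0, hL0⟩ : ∃ L0 : V → ℝ,
    L0 = fun y => ∑ k ∈ Finset.range n, b (φ (fl (k * τ) y)) := ⟨_, rfl⟩
  have sm : ContDiff ℝ ∞ L0 :=
    hL0 ▸ ContDiff.sum fun k _ => hb.comp (hA.sφ.comp (smt hf _))
  have pos : ∀ y ∈ M, φ y ∈ Ioo (1 : ℝ) 3 → 0 < β (φ y) * fderiv ℝ φ y (Z y) := fun y hy h => by
    rw [hC.eq y hy (by linarith [h.2])]
    exact mul_pos (β1 _ h) (hA.shell y hy (by linarith [h.1]))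
  have nn : ∀ y ∈ M, 0 ≤ β (φ y) * fderiv ℝ φ y (Z y) := fun y hy => by
    by_cases h : φ y ∈ Ioo (1 : ℝ) 3
    · exact (pos y hy h).le
    · rw [β0 _ h, zero_mul]
  have d0 : ∀ x ∈ M, φ x ≤ 2 → 0 ≤ fderiv ℝ L0 x (Z x) := fun x hx h => by
    rw [hL0, dsum hf hA.sφ hb hd]
    exact Finset.sum_nonneg fun k _ => nn _ (hC.inv _ x hx (by linarith)).1
  have d1 : ∀ x ∈ M, φ x ≤ 2 → 0 < L0 x → 0 < fderiv ℝ L0 x (Z x) := fun x hx h hp => by
    have ex : ∃ k, k < n ∧ 1 < φ (fl (k * τ) x) := by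
      by_contra! h'
      rw [hL0] at hp
      exact hp.ne' (Finset.sum_eq_zero fun k hk => b0 _ (h' k (Finset.mem_range.1 hk)))
    have inv := fun t => (hC.inv t x hx (by linarith)).1
    have h1 := Nat.find_spec ex
    rw [hL0, dsum hf hA.sφ hb hd]
    refine Finset.sum_pos' (fun k _ => nn _ (inv _))
      ⟨Nat.find ex, Finset.mem_range.2 h1.1, pos _ (inv _) ⟨h1.2, ?_⟩⟩
    rcases h2 : Nat.find ex with _ | j
    · simp only [Nat.cast_zero, zero_mul, hf.zero]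
      linarith
    · have h3 := Nat.find_min ex (show j < Nat.find ex by omega)
      have h4 := hτ _ (inv (j * τ)) (not_lt.1 fun h' => h3 ⟨by omega, h'⟩)
      rwa [← hf.add, show τ + j * τ = (j + 1 : ℕ) * τ by push_cast; ring] at h4
  obtain ⟨c0, c0p, hc0⟩ := exists_pos_le (c2.diff hU) sm.continuous.continuousOn fun x hx => by
    obtain ⟨k, hk, h⟩ := hn x hx
    rw [hL0]
    exact Finset.sum_pos' (fun k _ => b2 _) ⟨k, Finset.mem_range.2 hk, b1 _ h⟩
  obtain ⟨μ, μp, hμ⟩ := exists_pos_le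
    (c2.inter_right (isClosed_le (continuous_const (y := c0 / 4)) sm.continuous))
    (Lyap.contD sm hC.sZ).continuousOn fun x hx =>
      d1 x hx.1.1 hx.1.2 (lt_of_lt_of_le (by positivity) hx.2)
  obtain ⟨a, ap, a1, a2⟩ : ∃ a, 0 < a ∧ a ≤ μ ∧ a ≤ c0 / 4 :=
    ⟨min μ (c0 / 4), by positivity, min_le_left _ _, min_le_right _ _⟩
  have sL : ContDiff ℝ ∞ fun x => (L0 x - c0 / 2) / a := (sm.sub contDiff_const).div_const a
  have dL : ∀ x v, fderiv ℝ (fun x => (L0 x - c0 / 2) / a) x v = fderiv ℝ L0 x v / a :=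
    fun x v => by
      have h := (((sm.differentiable (by simp) x).hasFDerivAt.sub_const (c0 / 2)).mul_const a⁻¹)
      simp only [div_eq_mul_inv _ a]
      rw [h.fderiv]
      simp [mul_comm]
  have up : ∀ x ∈ M, φ x ≤ 2 → -1 ≤ (L0 x - c0 / 2) / a →
      1 ≤ fderiv ℝ (fun x => (L0 x - c0 / 2) / a) x (Z x) := fun x hx h h1 => by
    rw [le_div_iff₀ ap] at h1
    rw [dL, le_div_iff₀ ap, one_mul]
    exact a1.trans (hμ x ⟨⟨hx, h⟩, show c0 / 4 ≤ L0 x by linarith⟩)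
  refine ⟨_, sL, fun x hx => by_contra fun h => ?_, up, fun x hx h t t0 => ?_⟩
  · have h1 := hc0 x ⟨⟨hx.1, hx.2.1⟩, h⟩
    have h2 := (div_le_iff₀ ap).1 hx.2.2
    linarith
  · have m1 : ∀ r, fl (-r) x ∈ M := fun r => (hC.inv _ x hx (by linarith)).1
    have m2 : ∀ r, 0 ≤ r → φ (fl (-r) x) ≤ 2 := fun r hr =>
      (hK.back x hx (by linarith) r hr).trans (max_le h (by norm_num))
    rcases le_total ((L0 (fl (-t) x) - c0 / 2) / a) (-1) with h1 | h1
    · exact h1.trans (le_max_right _ _)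
    · have h2 := decay hf sL (x := x) (C := 1) t0 fun r hr => up _ (m1 r) (m2 r hr.1.le) (by
        have h3 := decay hf sL (x := x) (C := 0) hr.2.le fun r' hr' => by
          rw [dL]
          exact div_nonneg (d0 _ (m1 r') (m2 r' (hr.1.trans hr'.1).le)) ap.le
        linarith)
      rw [neg_zero, hf.zero] at h2
      exact le_max_of_le_left (by linarith)

end Pool.Agent.MP_6d695c_gt.P
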