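import Pool.Agent.MP_6d695c_gt.p.Alg

/-! PROJECT P, row AutE: the coordinates of a node are automorphisms; slopes. -/

open scoped Manifold ContDiff Topology MeasureTheory
open Set Metric Filter Real

namespace Pool.Agent.MP_6d695c_gt.P

open SW T1 Theta

namespace AutEAux

variable {m : ℕ}

theorem hom_line (A : Hor m →L[ℝ] Hor m) (f : ℝ) (ξ : Y m) :
    HasDerivAt (fun t : ℝ => hom A f (t • ξ)) ((f * ξ.1, A ξ.2) : Y m) 0 := by
  have e : (fun t : ℝ => hom A f (t • ξ)) = fun t : ℝ => t • ((f * ξ.1, A ξ.2) : Y m) +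
      t ^ 2 • ((f * hq ξ.2 - hq (A ξ.2), 0) : Y m) := by
    funext t
    simp only [hom, Prod.smul_fst, Prod.smul_snd, map_smul, hq_smul, smul_eq_mul, Prod.smul_mk,
      Prod.mk_add_mk, smul_zero, add_zero]
    refine Prod.ext ?_ rfl
    simp only
    ring
  rw [e]
  have h1 := (hasDerivAt_id (0 : ℝ)).smul_const ((f * ξ.1, A ξ.2) : Y m)
  have h2 := (hasDerivAt_pow 2 (0 : ℝ)).smul_const ((f * hq ξ.2 - hq (A ξ.2), 0) : Y m)
  have h3 := h1.add h2
  refine (h3.congr_deriv ?_).congr_of_eventuallyEq (Eventually.of_forall fun t => rfl)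
  simp

theorem key {h : Y m → Y m} {y : Y m} (hd : DifferentiableAt ℝ h y) {A : Hor m →L[ℝ] Hor m}
    {f : ℝ} (e : ∀ η, h (mul y η) = mul (h y) (hom A f η)) (ξ : Y m) :
    fderiv ℝ h y (Lt y ξ) = Lt (h y) ((f * ξ.1, A ξ.2) : Y m) := by
  have h0 := (hasDerivAt_id (0 : ℝ)).smul_const ξ
  have h1 : HasDerivAt (fun t : ℝ => mul y (t • ξ)) (Lt y ξ) 0 := by
    have := ((Lt y).hasFDerivAt.comp_hasDerivAt (0 : ℝ) h0).const_add y
    rw [one_smul] at this
    exact this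
  have h2 : HasDerivAt (fun t : ℝ => h (mul y (t • ξ))) (fderiv ℝ h y (Lt y ξ)) 0 :=
    hd.hasFDerivAt.comp_hasDerivAt_of_eq 0 h1 (by rw [zero_smul, mul_zero'])
  have h4 : HasDerivAt (fun t : ℝ => mul (h y) (hom A f (t • ξ)))
      (Lt (h y) ((f * ξ.1, A ξ.2) : Y m)) 0 :=
    ((Lt (h y)).hasFDerivAt.comp_hasDerivAt (0 : ℝ) (hom_line A f ξ)).const_add (h y)
  simp only [e] at h2
  exact h2.unique h4

theorem dil_hom (w : ℝ) (A : Hor m →L[ℝ] Hor m) (f : ℝ) (y : Y m) :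
    dil w (hom A f y) = hom (w • A) (w ^ 2 * f) y := by
  simp only [hom, dil_def, smul_apply, hq_smul]
  refine Prod.ext ?_ rfl
  simp only
  ring

theorem dil_smooth (w : ℝ) : ContDiff ℝ ∞ (dil w : Y m → Y m) := by
  unfold dil
  fun_prop

theorem mul_smooth (c : Y m) : ContDiff ℝ ∞ (mul c : Y m → Y m) :=
  contDiff_const.add (Lt c).contDiff

theorem ldiv_smooth (c : Y m) : ContDiff ℝ ∞ (ldiv c : Y m → Y m) :=
  (Lt (-c)).contDiff.comp (contDiff_id.sub contDiff_const)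

theorem lam0_eq (x v : ℝ × Y m) : lam0 x v = exp x.1 * (Lt (-x.2) v.2).1 := rfl

theorem form {h : Y m → Y m} (hs : ContDiff ℝ ∞ h) {A : Hor m →L[ℝ] Hor m} {f : ℝ}
    (e : ∀ y η, h (mul y η) = mul (h y) (hom A f η)) (x v : ℝ × Y m) :
    lam0 ((x.1, h x.2) : ℝ × Y m) (fderiv ℝ (fun x : ℝ × Y m => (x.1, h x.2)) x v) =
      f * lam0 x v := by
  have hd : DifferentiableAt ℝ h x.2 := (hs.differentiable (by simp)) x.2
  have d : HasFDerivAt (fun x : ℝ × Y m => (x.1, h x.2)) ((ContinuousLinearMap.fst ℝ ℝ (Y m)).prod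
      ((fderiv ℝ h x.2).comp (ContinuousLinearMap.snd ℝ ℝ (Y m)))) x :=
    hasFDerivAt_fst.prodMk (hd.hasFDerivAt.comp x hasFDerivAt_snd)
  have k := key hd (e x.2) (Lt (-x.2) v.2)
  rw [Lt_Lt_neg] at k
  rw [d.fderiv, lam0_eq, lam0_eq]
  change exp x.1 * (Lt (-h x.2) (fderiv ℝ h x.2 v.2)).1 = _
  rw [k, Lt_neg_Lt]
  ring

end AutEAux

open AutEAux in
theorem autE : AutEStmt := by
  intro m
  refine ⟨fun s c B B' hs hB li ri => ?_, fun g U ψ hU hψ y => ?_⟩
  · have s1 : ContDiff ℝ ∞ (eta s c B') :=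
      (dil_smooth s⁻¹).comp ((hom_smooth B' 1).comp (ldiv_smooth c))
    have s2 : ContDiff ℝ ∞ (zeta s c B) :=
      (mul_smooth c).comp ((hom_smooth B 1).comp (dil_smooth s))
    refine ⟨by positivity, contDiff_fst.prodMk (s1.comp contDiff_snd),
      contDiff_fst.prodMk (s2.comp contDiff_snd), fun x => ?_, fun x => ?_, fun x v => ?_⟩
    · exact Prod.ext rfl (zeta_eta hs.ne' ri c x.2)
    · exact Prod.ext rfl (eta_zeta hs.ne' li c x.2)
    · have := form s1 (A := s⁻¹ • B') (f := s⁻¹ ^ 2 * 1) (fun y η => by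
        rw [eta, eta, ldiv_mul_right, (hB.inv ri).hom_mul, dil_mul', dil_hom s⁻¹ B' 1 η]) x v
      rw [mul_one] at this
      exact this
  · have s1 : ContDiff ℝ ∞ fun y => mul g (hom U 1 y) := (mul_smooth g).comp (hom_smooth U 1)
    have hd : DifferentiableAt ℝ (fun y => mul g (hom U 1 y)) y := (s1.differentiable (by simp)) y
    have hp : DifferentiableAt ℝ ψ (mul g (hom U 1 y)) := (hψ.differentiable (by simp)) _
    have d := hp.hasFDerivAt.comp y hd.hasFDerivAt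
    refine ContinuousLinearMap.opNorm_le_bound _ (by positivity) fun ξ => ?_
    have k := key hd (A := U) (f := 1) (fun η => by rw [hU.hom_mul, mul_assoc']) ξ
    have e : nab (fun y => ψ (mul g (hom U 1 y))) y ξ =
        nab ψ (mul g (hom U 1 y)) ((1 * ξ.1, U ξ.2) : Y m) := by
      rw [nab_apply, nab_apply, ← k]
      exact congrArg (fun L : Y m →L[ℝ] ℝ => L (Lt y ξ)) d.fderiv
    have n : ‖((1 * ξ.1, U ξ.2) : Y m)‖ ≤ max 1 ‖U‖ * ‖ξ‖ := by
      refine max_le ?_ ?_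
      · change ‖1 * ξ.1‖ ≤ _
        rw [one_mul]
        exact (norm_fst_le ξ).trans (le_mul_of_one_le_left (norm_nonneg _) (le_max_left _ _))
      · exact (U.le_opNorm _).trans
          (mul_le_mul (le_max_right _ _) (norm_snd_le ξ) (norm_nonneg _) (by positivity))
    rw [e]
    refine ((nab ψ _).le_opNorm _).trans ?_
    rw [mul_comm (max 1 ‖U‖), mul_assoc]
    exact mul_le_mul_of_nonneg_left n (norm_nonneg _)

end Pool.Agent.MP_6d695c_gt.P
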