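import Pool.Agent.MP_6d695c_gt.p.Alg

/-! PROJECT P: the passage through a tower. -/

open scoped Manifold ContDiff Topology MeasureTheory
open Set Metric Filter Real

namespace Pool.Agent.MP_6d695c_gt.P

open SW T1 Theta

namespace BackAux

/-- continuation to the left -/
theorem cont_left {G : Set ℝ} (hG : IsClosed G) {b : ℝ} (hb : b ∈ G)
    (ext : ∀ s ≤ b, (∀ r ∈ Icc s b, r ∈ G) → ∃ δ, 0 < δ ∧ ∀ r ∈ Icc (s - δ) s, r ∈ G) :
    ∀ r ≤ b, r ∈ G := by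
  intro r₀ hr₀
  by_contra hn
  obtain ⟨s, hs, hsT, hno⟩ := last_time (T := closure (Gᶜ ∩ Iic b)) isClosed_closure
    (subset_closure (show r₀ ∈ Gᶜ ∩ Iic b from ⟨hn, hr₀⟩)) hr₀
  have h1 : ∀ r ∈ Ioc s b, r ∈ G := fun r hr => by
    by_contra h
    exact hno r hr (subset_closure ⟨h, hr.2⟩)
  have h2 : ∀ r ∈ Icc s b, r ∈ G := by
    rcases hs.2.eq_or_lt with e | hlt
    · intro r hr
      have : r = b := le_antisymm hr.2 (e ▸ hr.1)
      exact this ▸ hb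
    · intro r hr
      rw [← closure_Ioc hlt.ne] at hr
      exact hG.closure_subset_iff.2 h1 hr
  obtain ⟨δ, hδ, h3⟩ := ext s hs.2 h2
  obtain ⟨r, hr1, hr2, hr3⟩ := mem_closure_iff.1 hsT (Ioi (s - δ)) isOpen_Ioi
    (show s - δ < s by linarith)
  rcases le_total r s with h | h
  · exact hr2 (h3 r ⟨le_of_lt hr1, h⟩)
  · exact hr2 (h2 r ⟨h, hr3⟩)

end BackAux

theorem back (_hNbr : NbrStmt) : BackStmt := by
  intro V _ _ _ m M K' K'' l φ Z X fl I _ τ H S₀ ε₀ j F hfl hT hK hKM hε₀ hX hF hlat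
  have hρ := hT.ρpos
  have hH := hT.Hle
  have sκ : ContDiff ℝ ∞ (τ.κ j) := (hT.box j).sκ
  have cκ : Continuous (τ.κ j) := sκ.continuous
  have cP : Continuous (Ps fl (τ.g j)) := (Ps_smooth hfl (hT.box j).sg).continuous
  obtain ⟨C, hC⟩ := hK.exists_bound_of_continuousOn
    (f := fun x => fderiv ℝ (τ.κ j) x) (sκ.continuous_fderiv (by simp)).continuousOn
  have hC1 : 0 < max C 1 := lt_max_of_lt_right one_pos
  have he : 0 < min ε₀ (1 / 2) := lt_min hε₀ (by norm_num)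
  refine ⟨min ε₀ (1 / 2) / max C 1, div_pos he hC1, fun c hc t' q hq hct => ?_⟩
  have cγ : Continuous fun r => τ.κ j (c r) := cκ.comp hc.cont
  have near : ∀ r, τ.κ j (c r) ∈ τ.reg j (-1) (H + 1) 9 → Ps fl (τ.g j) (τ.κ j (c r)) = c r →
      Near (fun r => τ.κ j (c r)) r (XY F (τ.κ j (c r))) (min ε₀ (1 / 2)) := by
    intro r h1 h2
    have h3 := (hc.near r).comp (u := τ.κ j) (sκ.differentiable (by simp) _)
    have h4 := hX _ h1
    rw [h2] at h4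
    rw [h4] at h3
    refine h3.mono ?_
    calc ‖fderiv ℝ (τ.κ j) (c r)‖ * (min ε₀ (1 / 2) / max C 1)
        ≤ max C 1 * (min ε₀ (1 / 2) / max C 1) :=
          mul_le_mul_of_nonneg_right ((hC _ (hc.mem r)).trans (le_max_left _ _))
            (div_pos he hC1).le
      _ = min ε₀ (1 / 2) := by field_simp
  have sub9 : τ.reg j 0 (H + 1 / 2) 5 ⊆ τ.reg j (-1) (H + 1) 9 :=
    TD.reg_mono hρ.le j (by norm_num) (by linarith) (by norm_num)
  have sub10 : τ.reg j 0 (H + 1 / 2) 5 ⊆ τ.reg j (-1) (H + 1) 10 :=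
    TD.reg_mono hρ.le j (by norm_num) (by linarith) (by norm_num)
  have sub5 : τ.reg j 1 (H + 1 / 2) 4 ⊆ τ.reg j 0 (H + 1 / 2) 5 :=
    TD.reg_mono hρ.le j (by norm_num) le_rfl (by norm_num)
  have hq' : τ.κ j (c t') = q := by rw [hct, (hT.kap (sub10 (sub5 hq))).2.2]
  obtain ⟨G, hGdef⟩ : ∃ G : Set ℝ, ∀ r, r ∈ G ↔ τ.κ j (c r) ∈ τ.reg j 0 (H + 1 / 2) 5 ∧
      Ps fl (τ.g j) (τ.κ j (c r)) = c r := ⟨{r | _}, fun _ => Iff.rfl⟩
  have hG : IsClosed G := by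
    have : G = (fun r => τ.κ j (c r)) ⁻¹' τ.reg j 0 (H + 1 / 2) 5 ∩
        {r | Ps fl (τ.g j) (τ.κ j (c r)) = c r} := Set.ext hGdef
    rw [this]
    exact ((hT.reg_cpt j _ _ _).isClosed.preimage cγ).inter
      (isClosed_eq (cP.comp cγ) hc.cont)
  have ht' : t' ∈ G := (hGdef t').2 ⟨hq' ▸ sub5 hq, by rw [hq', hct]⟩
  have crv : ∀ s, (∀ r ∈ Icc s t', r ∈ G) → Crv (XY F) ε₀ (fun r => τ.κ j (c r)) s t' :=
    fun s h => ⟨cγ.continuousOn, fun r hr =>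
      (near r (sub9 ((hGdef r).1 (h r ⟨hr.1, hr.2.le⟩)).1)
        ((hGdef r).1 (h r ⟨hr.1, hr.2.le⟩)).2).mono (min_le_left _ _)⟩
  by_cases hA : ∃ s ≤ t', (τ.κ j (c s)).1 = 0 ∧ ∀ r ∈ Icc s t', r ∈ G
  · obtain ⟨s, hs, h0, hall⟩ := hA
    exact Or.inl ⟨s, hs, h0, crv s hall, fun r hr => (hGdef r).1 (hall r hr)⟩
  have hpos : ∀ s ≤ t', (∀ r ∈ Icc s t', r ∈ G) → 0 < (τ.κ j (c s)).1 := fun s hs h =>
    lt_of_le_of_ne ((hGdef s).1 (h s ⟨le_rfl, hs⟩)).1.1.1 fun e => hA ⟨s, hs, e.symm, h⟩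
  have hall : ∀ r ≤ t', r ∈ G := by
    refine BackAux.cont_left hG ht' fun s hs h => ?_
    obtain ⟨hs1, hs2⟩ := (hGdef s).1 (h s ⟨le_rfl, hs⟩)
    have hl := hlat _ s t' hs (crv s h) (fun r hr => ((hGdef r).1 (h r hr)).1)
      (by rw [hq']; exact hq.2)
    simp only [hq'] at hl
    have hN : c s ∈ τ.N j := hs2 ▸ (hT.kap (sub10 hs1)).2.1
    have c1 : Continuous fun r => (τ.κ j (c r)).1 := continuous_fst.comp cγ
    have c2 : Continuous fun r => (τ.κ j (c r)).2 := continuous_snd.comp cγ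
    have e1 : ∀ᶠ r in 𝓝 s, c r ∈ τ.N j :=
      hc.cont.continuousAt.eventually ((hT.box j).par.oN.mem_nhds hN)
    have e2 : ∀ᶠ r in 𝓝 s, dist (τ.κ j (c r)).2 (τ.κ j (c s)).2 < τ.ρ / 2 :=
      c2.continuousAt.eventually (ball_mem_nhds _ (by linarith))
    have e3 : ∀ᶠ r in 𝓝 s, 0 < (τ.κ j (c r)).1 :=
      c1.continuousAt.eventually (lt_mem_nhds (hpos s hs h))
    have e4 : ∀ᶠ r in 𝓝 s, dist (τ.κ j (c r)).1 (τ.κ j (c s)).1 < 1 / 2 :=
      c1.continuousAt.eventually (ball_mem_nhds _ (by norm_num))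
    obtain ⟨δ, hδ, hb⟩ := Metric.eventually_nhds_iff.1 (((e1.and e2).and e3).and e4)
    have W : ∀ r ∈ Icc (s - δ / 2) s, Ps fl (τ.g j) (τ.κ j (c r)) = c r ∧
        (τ.κ j (c r)).2 ∈ cthickening (5 * τ.ρ) (τ.A j) ∧ 0 < (τ.κ j (c r)).1 ∧
        |(τ.κ j (c r)).1 - (τ.κ j (c s)).1| < 1 / 2 := by
      intro r hr
      obtain ⟨⟨⟨w1, w2⟩, w3⟩, w4⟩ := hb (y := r)
        (by rw [Real.dist_eq, abs_lt]; constructor <;> linarith [hr.1, hr.2])
      refine ⟨((hT.box j).par.rm _ (hKM (hc.mem r)) w1).2, ?_, w3, w4⟩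
      have d1 : dist (τ.κ j (c r)).2 q.2 ≤ τ.ρ := by
        have := dist_triangle (τ.κ j (c r)).2 (τ.κ j (c s)).2 q.2
        rw [← dist_eq_norm] at hl
        linarith
      have d2 := cthickening_cthickening_subset hρ.le (show 0 ≤ 4 * τ.ρ by linarith) (τ.A j)
        (mem_cthickening_of_dist_le _ _ _ _ hq.2 d1)
      rwa [show τ.ρ + 4 * τ.ρ = 5 * τ.ρ by ring] at d2
    refine ⟨δ / 2, by linarith, fun r hr => (hGdef r).2 ⟨⟨⟨(W r hr).2.2.1.le, ?_⟩, (W r hr).2.1⟩,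
      (W r hr).1⟩⟩
    have hs3 : (τ.κ j (c s)).1 ≤ H + 1 / 2 := hs1.1.2
    rcases le_total (τ.κ j (c s)).1 H with hlo | hhi
    · linarith [(abs_lt.1 (W r hr).2.2.2).2]
    · have sp := speed_ge (f := fun r => (τ.κ j (c r)).1) (m := 0) hr.2 c1.continuousOn
        fun u hu => by
          obtain ⟨u1, u2, u3, u4⟩ := W u ⟨hr.1.trans hu.1, hu.2.le⟩
          obtain ⟨u5, u6⟩ := abs_lt.1 u4
          have hm : τ.κ j (c u) ∈ τ.reg j (-1) (H + 1) 9 :=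
            ⟨⟨by linarith, by linarith⟩, cthickening_mono (by linarith) _ u2⟩
          obtain ⟨v, v1, v2⟩ := near u hm u1
          have z : XY F (τ.κ j (c u)) = (1, 0) := XS_of_zero (by
            have : ∀ᶠ y in 𝓝 (τ.κ j (c u)), H - 1 < y.1 :=
              continuous_fst.continuousAt.eventually (lt_mem_nhds (by linarith))
            exact this.mono fun y hy => hF y hy.le)
          rw [z] at v2
          have v3 : |v.1 - 1| ≤ 1 / 2 :=
            ((norm_fst_le (v - (1, 0))).trans v2).trans (min_le_right _ _)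
          refine ⟨v.1, (ContinuousLinearMap.fst ℝ ℝ (Y m)).hasFDerivAt.comp_hasDerivWithinAt u v1,
            by linarith [(abs_le.1 v3).1]⟩
      linarith
  obtain ⟨p, hp, hper⟩ := hc.per
  have hshift : ∀ r, ∃ r' ≤ t', c r' = c r := fun r => by
    obtain ⟨n, hn⟩ := exists_nat_ge ((r - t') / p)
    refine ⟨r - n * p, ?_, hper.sub_nat_mul_eq n⟩
    have := (div_le_iff₀ hp).1 hn
    linarith
  have fin : ∀ r, (τ.κ j (c r) ∈ τ.reg j 0 (H + 1 / 2) 5 ∧ Ps fl (τ.g j) (τ.κ j (c r)) = c r) ∧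
      0 < (τ.κ j (c r)).1 := fun r => by
    obtain ⟨r', h1, h2⟩ := hshift r
    rw [← h2]
    exact ⟨(hGdef r').1 (hall r' h1), hpos r' h1 fun u hu => hall u hu.2⟩
  exact Or.inr ⟨⟨cγ, ⟨p, hp, hper.comp (τ.κ j)⟩, fun r => (fin r).1.1,
    fun r => (near r (sub9 (fin r).1.1) (fin r).1.2).mono (min_le_left _ _)⟩,
    fun r => ⟨(fin r).2, (fin r).1.2⟩⟩

end Pool.Agent.MP_6d695c_gt.P
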