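import Pool.Agent.MP_6d695c_gt.p.Alg

/-! PROJECT P, row BLOW: a contact map is a homomorphism at small scales. -/

open scoped Manifold ContDiff Topology MeasureTheory
open Set Metric Filter Real

namespace Pool.Agent.MP_6d695c_gt.P

open SW T1 Theta

namespace BlowAux

variable {m : ℕ}

theorem al0_def (z v : Y m) : al0 z v = v.1 + ∑ j, z.2.2 j * v.2.1 j := by
  simp [al0, Lt_apply]

theorem sum_le' {a b : Fin m → ℝ} {t α β : ℝ} (hm : (m : ℝ) ≤ t) (ha : ‖a‖ ≤ α) (hb : ‖b‖ ≤ β) :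
    |∑ j, a j * b j| ≤ t * (α * β) := by
  have h0 := (norm_nonneg _).trans ha
  have h1 := (Nat.cast_nonneg m).trans hm
  refine (sum_le a b).trans ?_
  gcongr

theorem om_le {u v : Hor m} {t α β : ℝ} (hm : (m : ℝ) ≤ t) (hu : ‖u‖ ≤ α) (hv : ‖v‖ ≤ β) :
    |om u v| ≤ 2 * (t * (α * β)) := by
  have h1 := sum_le' hm ((norm_snd_le u).trans hu) ((norm_fst_le v).trans hv)
  have h2 := sum_le' hm ((norm_fst_le u).trans hu) ((norm_snd_le v).trans hv)
  rw [om, Finset.sum_sub_distrib]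
  exact (abs_sub _ _).trans (by linarith)

theorem om_sub (w v : Hor m) (τ : ℝ) : om (w - τ • v) v = om w v := by
  refine Finset.sum_congr rfl fun j _ => ?_
  simp only [Prod.fst_sub, Prod.snd_sub, Prod.smul_fst, Prod.smul_snd, Pi.sub_apply,
    Pi.smul_apply, smul_eq_mul]
  ring

theorem hq_sub {u v : Hor m} {t α β : ℝ} (hm : (m : ℝ) ≤ t) (hu : ‖u‖ ≤ α) (hv : ‖v‖ ≤ α)
    (hd : ‖u - v‖ ≤ β) : |hq u - hq v| ≤ t * (α * β) := by
  have h1 := sum_le' hm ((norm_fst_le u).trans hu) ((norm_snd_le (u - v)).trans hd)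
  have h2 := sum_le' hm ((norm_snd_le v).trans hv) ((norm_fst_le (u - v)).trans hd)
  have e : hq u - hq v = (∑ j, u.1 j * (u - v).2 j + ∑ j, v.2 j * (u - v).1 j) / 2 := by
    rw [hq, hq, ← sub_div, ← Finset.sum_sub_distrib, ← Finset.sum_add_distrib]
    refine congrArg (· / 2) (Finset.sum_congr rfl fun j _ => ?_)
    simp only [Prod.fst_sub, Prod.snd_sub, Pi.sub_apply]
    ring
  have h3 := abs_add_le (∑ j, u.1 j * (u - v).2 j) (∑ j, v.2 j * (u - v).1 j)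
  rw [e, abs_div, abs_two]
  linarith

/-- the derivative of the symmetric vertical coordinate along a curve -/
theorem der_th (g : Y m) {c : ℝ → Y m} {c' : Y m} {τ : ℝ} (hc : HasDerivAt c c' τ) :
    HasDerivAt (fun τ => (ldiv g (c τ)).1 + hq ((c τ).2 - g.2))
      (al0 (c τ) c' - om ((c τ).2 - g.2) c'.2 / 2) τ := by
  have d1 : HasDerivAt (fun τ => (c τ).1) c'.1 τ := hc.fst
  have dq : ∀ j, HasDerivAt (fun τ => (c τ).2.1 j - g.2.1 j) (c'.2.1 j) τ := fun j =>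
    (hasDerivAt_pi.1 hc.snd.fst j).sub_const _
  have db : ∀ j, HasDerivAt (fun τ => (c τ).2.2 j - g.2.2 j) (c'.2.2 j) τ := fun j =>
    (hasDerivAt_pi.1 hc.snd.snd j).sub_const _
  have d := ((d1.sub_const g.1).fun_add (HasDerivAt.fun_sum (u := Finset.univ) fun j _ =>
    (dq j).const_mul (g.2.2 j))).fun_add ((HasDerivAt.fun_sum (u := Finset.univ) fun j _ =>
      (dq j).fun_mul (db j)).div_const 2)
  refine HasDerivAt.congr_deriv (by simpa only [ldiv_def, hq, Prod.fst_sub, Prod.snd_sub,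
    Pi.sub_apply] using d) ?_
  rw [al0_def, om, add_assoc, add_sub_assoc, Finset.sum_div, Finset.sum_div,
    ← Finset.sum_add_distrib, ← Finset.sum_sub_distrib]
  refine congrArg _ (Finset.sum_congr rfl fun j _ => ?_)
  simp only [Prod.fst_sub, Prod.snd_sub, Pi.sub_apply]
  ring

/-- the path from `0` to `dil s η` along which the contact form is constant -/
noncomputable def gam (s : ℝ) (η : Y m) (τ : ℝ) : Y m :=
  (τ * (s ^ 2 * (η.1 + hq η.2)) - τ ^ 2 * (s ^ 2 * hq η.2), τ • s • η.2)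

noncomputable def gad (s : ℝ) (η : Y m) (τ : ℝ) : Y m :=
  (s ^ 2 * (η.1 + hq η.2) - 2 * τ * (s ^ 2 * hq η.2), s • η.2)

theorem gam_der (s : ℝ) (η : Y m) (τ : ℝ) : HasDerivAt (gam s η) (gad s η τ) τ := by
  have h1 := ((hasDerivAt_id τ).mul_const (s ^ 2 * (η.1 + hq η.2))).fun_sub
    ((hasDerivAt_pow 2 τ).mul_const (s ^ 2 * hq η.2))
  have h2 := (hasDerivAt_id τ).smul_const (s • η.2)
  refine HasDerivAt.congr_deriv (h1.prodMk h2) ?_
  simp [gad]

theorem gam_zero (s : ℝ) (η : Y m) : gam s η 0 = 0 := by simp [gam]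

theorem gam_one (s : ℝ) (η : Y m) : gam s η 1 = dil s η := by
  rw [gam, dil_def, one_smul]
  refine Prod.ext ?_ rfl
  simp only
  ring

theorem al0_gam (y : Y m) (s : ℝ) (η : Y m) (τ : ℝ) :
    al0 (mul y (gam s η τ)) (Lt y (gad s η τ)) = s ^ 2 * (η.1 + hq η.2) := by
  simp only [al0_def, mul_def, Lt_apply, gam, gad, hq, Prod.snd_add, Pi.add_apply, add_mul,
    Finset.sum_add_distrib, Prod.smul_fst, Prod.smul_snd, Pi.smul_apply, smul_eq_mul]
  rw [Finset.sum_congr rfl fun j _ => show τ * (s * η.2.2 j) * (s * η.2.1 j) =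
    τ * s ^ 2 * (η.2.1 j * η.2.2 j) by ring, ← Finset.mul_sum]
  ring

theorem main {t r s f : ℝ} {h : Y m → Y m} {y η : Y m} {e : Y m → ℝ} (hm : (m : ℝ) ≤ t)
    (ht : 1 ≤ t) (hs : 0 < s) (hr : 6 * t ^ 5 * s ≤ r) (hs1 : 52 * t ^ 11 * s ≤ 1)
    (sm : ContDiff ℝ ∞ h) (hy : ‖y‖ ≤ t) (hhy : ‖h y‖ ≤ t) (hη : ‖η‖ ≤ t)
    (b1 : ∀ z, ‖z - y‖ ≤ r → ‖fderiv ℝ h z‖ ≤ t ∧ ‖fderiv ℝ (fderiv ℝ h) z‖ ≤ t) (ey : e y = f)
    (ct : ∀ z, ‖z - y‖ ≤ r → ∀ v, al0 (h z) (fderiv ℝ h z v) = e z * al0 z v) :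
    ‖dil s⁻¹ (ldiv (h y) (h (mul y (dil s η)))) - hom (hA h y) f η‖ ≤ 1100 * t ^ 18 * s := by
  have t0 : 0 < t := by linarith
  have pw : ∀ a b : ℕ, a ≤ b → t ^ a ≤ t ^ b := fun a b hab => pow_le_pow_right₀ ht hab
  have p1 : ∀ a : ℕ, 1 ≤ t ^ a := fun a => one_le_pow₀ ht
  have s1 : s ≤ 1 := by nlinarith [p1 11]
  have r0 : 0 ≤ r := le_trans (by positivity) hr
  have hu : ‖η.2‖ ≤ t := (norm_snd_le η).trans hη
  have hqu : |hq η.2| ≤ t ^ 3 := (hq_le _).trans (by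
    calc (m : ℝ) * ‖η.2‖ ^ 2 ≤ t * t ^ 2 := by gcongr
      _ = t ^ 3 := by ring)
  have hζ : |η.1 + hq η.2| ≤ 2 * t ^ 3 := by
    have h1 : |η.1| ≤ t := (norm_fst_le η).trans hη
    have h2 := pw 1 3 (by norm_num)
    have h3 := abs_add_le η.1 (hq η.2)
    rw [pow_one] at h2
    linarith
  have hsu : ‖s • η.2‖ ≤ t ^ 3 * s := by
    have h2 := pw 1 3 (by norm_num)
    rw [pow_one] at h2
    rw [norm_smul, Real.norm_of_nonneg hs.le, mul_comm]
    gcongr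
    exact hu.trans h2
  have a1 : |s ^ 2 * (η.1 + hq η.2)| ≤ 2 * t ^ 3 * s ^ 2 := by
    rw [abs_mul, abs_of_nonneg (sq_nonneg s), mul_comm]
    gcongr
  have a2 : |s ^ 2 * hq η.2| ≤ t ^ 3 * s ^ 2 := by
    rw [abs_mul, abs_of_nonneg (sq_nonneg s), mul_comm]
    gcongr
  have ss : t ^ 3 * s ^ 2 ≤ t ^ 3 * s := by
    gcongr
    nlinarith
  have s0 : 0 ≤ t ^ 3 * s := by positivity
  have hL : ∀ (z ξ : Y m) (α : ℝ), ‖z‖ ≤ t → ‖ξ‖ ≤ α → ‖Lt z ξ‖ ≤ 2 * t ^ 2 * α :=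
    fun z ξ α hz hξ => (norm_Lt_le z ξ).trans (by
      have h1 : (m : ℝ) * ‖z‖ ≤ t * t := by gcongr
      have h2 := p1 2
      gcongr
      nlinarith)
  have g1 : ∀ τ ∈ Icc (0 : ℝ) 1, ‖gam s η τ‖ ≤ 3 * t ^ 3 * s := fun τ hτ => by
    refine max_le ?_ ?_
    · change |τ * (s ^ 2 * (η.1 + hq η.2)) - τ ^ 2 * (s ^ 2 * hq η.2)| ≤ _
      refine (abs_sub _ _).trans ?_
      rw [abs_mul τ, abs_mul (τ ^ 2), abs_of_nonneg hτ.1, abs_of_nonneg (sq_nonneg τ)]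
      have h1 := mul_le_of_le_one_left (abs_nonneg (s ^ 2 * (η.1 + hq η.2))) hτ.2
      have h2 := mul_le_of_le_one_left (abs_nonneg (s ^ 2 * hq η.2)) (pow_le_one₀ (n := 2) hτ.1 hτ.2)
      linarith
    · change ‖τ • s • η.2‖ ≤ _
      rw [norm_smul, Real.norm_of_nonneg hτ.1]
      have h1 := mul_le_of_le_one_left (norm_nonneg (s • η.2)) hτ.2
      linarith
  have g2 : ∀ τ ∈ Icc (0 : ℝ) 1, |(gad s η τ).1| ≤ 4 * t ^ 3 * s ^ 2 := fun τ hτ => by
    change |s ^ 2 * (η.1 + hq η.2) - 2 * τ * (s ^ 2 * hq η.2)| ≤ _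
    refine (abs_sub _ _).trans ?_
    rw [mul_assoc 2 τ, abs_mul 2, abs_mul τ, abs_two, abs_of_nonneg hτ.1]
    have h2 := mul_le_of_le_one_left (abs_nonneg (s ^ 2 * hq η.2)) hτ.2
    linarith
  have g3 : ∀ τ ∈ Icc (0 : ℝ) 1, ‖gad s η τ‖ ≤ 4 * t ^ 3 * s := fun τ hτ =>
    max_le ((g2 τ hτ).trans (by linarith)) (hsu.trans (by linarith))
  have q1 : ∀ τ ∈ Icc (0 : ℝ) 1, ‖mul y (gam s η τ) - y‖ ≤ 6 * t ^ 5 * s := fun τ hτ => by
    rw [mul, add_sub_cancel_left]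
    exact (hL _ _ _ hy (g1 τ hτ)).trans (le_of_eq (by ring))
  have q2 : ∀ τ ∈ Icc (0 : ℝ) 1, ‖Lt y (gad s η τ)‖ ≤ 8 * t ^ 5 * s := fun τ hτ =>
    (hL _ _ _ hy (g3 τ hτ)).trans (le_of_eq (by ring))
  have d1 : Differentiable ℝ h := sm.differentiable (by simp)
  have d2 : Differentiable ℝ (fderiv ℝ h) :=
    (sm.fderiv_right (m := ∞) (by simp)).differentiable (by simp)
  have my : y ∈ closedBall y r := mem_closedBall_self r0
  have l1 : ∀ z, ‖z - y‖ ≤ 6 * t ^ 5 * s → ‖h z - h y‖ ≤ 6 * t ^ 6 * s := fun z hz =>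
    ((convex_closedBall y r).norm_image_sub_le_of_norm_fderiv_le (𝕜 := ℝ) (fun x _ => d1 x)
      (fun x hx => (b1 x (mem_closedBall_iff_norm.1 hx)).1) my
      (mem_closedBall_iff_norm.2 (hz.trans hr))).trans (by
        calc t * ‖z - y‖ ≤ t * (6 * t ^ 5 * s) := by gcongr
          _ = _ := by ring)
  have l2 : ∀ z, ‖z - y‖ ≤ 6 * t ^ 5 * s → ‖fderiv ℝ h z - fderiv ℝ h y‖ ≤ 6 * t ^ 6 * s :=
    fun z hz =>
    ((convex_closedBall y r).norm_image_sub_le_of_norm_fderiv_le (𝕜 := ℝ) (fun x _ => d2 x)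
      (fun x hx => (b1 x (mem_closedBall_iff_norm.1 hx)).2) my
      (mem_closedBall_iff_norm.2 (hz.trans hr))).trans (by
        calc t * ‖z - y‖ ≤ t * (6 * t ^ 5 * s) := by gcongr
          _ = _ := by ring)
  have Dy : ‖fderiv ℝ h y‖ ≤ t := (b1 y (by simpa using r0)).1
  have dc : ∀ τ, HasDerivAt (fun τ => h (mul y (gam s η τ)))
      (fderiv ℝ h (mul y (gam s η τ)) (Lt y (gad s η τ))) τ := fun τ =>
    (d1 _).hasFDerivAt.comp_hasDerivAt τ
      (((Lt y).hasFDerivAt.comp_hasDerivAt τ (gam_der s η τ)).const_add y)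
  have dc2 : ∀ τ, HasDerivAt (fun τ => (h (mul y (gam s η τ))).2)
      (fderiv ℝ h (mul y (gam s η τ)) (Lt y (gad s η τ))).2 τ := fun τ => (dc τ).snd
  have c1 : ∀ τ ∈ Icc (0 : ℝ) 1,
      ‖(fderiv ℝ h (mul y (gam s η τ)) (Lt y (gad s η τ))).2‖ ≤ 8 * t ^ 6 * s := fun τ hτ => by
    refine (norm_snd_le _).trans ((ContinuousLinearMap.le_opNorm _ _).trans ?_)
    calc _ ≤ t * (8 * t ^ 5 * s) := by
          gcongr
          exacts [(b1 _ ((q1 τ hτ).trans hr)).1, q2 τ hτ]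
      _ = _ := by ring
  have w1 : ∀ τ ∈ Icc (0 : ℝ) 1, ‖(fderiv ℝ h (mul y (gam s η τ)) (Lt y (gad s η τ))).2 -
      s • hA h y η.2‖ ≤ 52 * t ^ 11 * s ^ 2 := fun τ hτ => by
    have e1 : Lt y (gad s η τ) = ((gad s η τ).1, 0) + s • Lt y (0, η.2) := by
      rw [← map_smul, show gad s η τ = ((gad s η τ).1, 0) + s • ((0 : ℝ), η.2) by simp [gad],
        map_add]
      simp [Lt_apply]
    have e2 : (fderiv ℝ h (mul y (gam s η τ)) (Lt y (gad s η τ))).2 - s • hA h y η.2 =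
        ((fderiv ℝ h (mul y (gam s η τ)) - fderiv ℝ h y) (Lt y (gad s η τ)) +
          fderiv ℝ h y ((gad s η τ).1, 0)).2 := by
      have e3 : fderiv ℝ h y (Lt y (gad s η τ)) =
          fderiv ℝ h y ((gad s η τ).1, 0) + s • fderiv ℝ h y (Lt y (0, η.2)) := by
        rw [← map_smul, ← map_add, ← e1]
      rw [sub_apply, e3]
      simp [hA]
      abel
    rw [e2]
    refine (norm_snd_le _).trans ((norm_add_le _ _).trans ?_)
    have h1 : ‖(fderiv ℝ h (mul y (gam s η τ)) - fderiv ℝ h y) (Lt y (gad s η τ))‖ ≤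
        6 * t ^ 6 * s * (8 * t ^ 5 * s) := (ContinuousLinearMap.le_opNorm _ _).trans (by
      gcongr
      exacts [l2 _ (q1 τ hτ), q2 τ hτ])
    have h2 : ‖fderiv ℝ h y ((gad s η τ).1, 0)‖ ≤ t * (4 * t ^ 3 * s ^ 2) :=
      (ContinuousLinearMap.le_opNorm _ _).trans (by
        gcongr
        simpa using g2 τ hτ)
    have h3 : t ^ 4 * s ^ 2 ≤ t ^ 11 * s ^ 2 := by
      gcongr
      norm_num
    nlinarith
  have w2 : ∀ τ ∈ Icc (0 : ℝ) 1, ‖(h (mul y (gam s η τ))).2 - (h y).2 - τ • s • hA h y η.2‖ ≤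
      52 * t ^ 11 * s ^ 2 := fun τ hτ => by
    have h1 := norm_image_sub_le_of_norm_deriv_le_segment' (a := 0) (b := 1)
      (f := fun τ => (h (mul y (gam s η τ))).2 - τ • s • hA h y η.2)
      (fun x _ => ((dc2 x).sub
        ((hasDerivAt_id x).smul_const (s • hA h y η.2))).hasDerivWithinAt)
      (fun x hx => by
        rw [one_smul]
        exact w1 x (Ico_subset_Icc_self hx)) τ hτ
    rw [gam_zero, mul_zero', zero_smul, sub_zero, sub_zero, sub_right_comm] at h1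
    exact h1.trans (mul_le_of_le_one_right (by positivity) hτ.2)
  have w3 : ∀ τ ∈ Icc (0 : ℝ) 1, |om ((h (mul y (gam s η τ))).2 - (h y).2)
      (fderiv ℝ h (mul y (gam s η τ)) (Lt y (gad s η τ))).2| ≤ 1664 * t ^ 18 * s ^ 3 :=
    fun τ hτ => by
    rw [← om_sub _ _ τ]
    refine (om_le hm (α := 104 * t ^ 11 * s ^ 2) ?_ (c1 τ hτ)).trans (le_of_eq (by ring))
    have e1 : ∀ a b c : Hor m, a - τ • b = (a - τ • c) - τ • (b - c) := fun a b c => by
      rw [smul_sub]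
      abel
    rw [e1 _ _ (s • hA h y η.2)]
    refine (norm_sub_le _ _).trans ?_
    rw [norm_smul τ, Real.norm_of_nonneg hτ.1]
    have h1 := (mul_le_of_le_one_left (norm_nonneg _) hτ.2).trans (w1 τ hτ)
    linarith [w2 τ hτ]
  have nR : ‖eR m‖ ≤ 1 := by simp [eR]
  have e1 : ∀ z, ‖z - y‖ ≤ 6 * t ^ 5 * s → |e z - f| ≤ 18 * t ^ 8 * s := fun z hz => by
    have k1 := ct z (hz.trans hr) (eR m)
    have k2 := ct y (by simpa using r0) (eR m)
    have k3 : ∀ z : Y m, al0 z (eR m) = 1 := fun z => by simp [al0_def, eR]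
    rw [k3, mul_one] at k1 k2
    have k4 : e z - f = al0 (h y) ((fderiv ℝ h z - fderiv ℝ h y) (eR m)) +
        ∑ j, (h z - h y).2.2 j * (fderiv ℝ h z (eR m)).2.1 j := by
      rw [← ey, ← k1, ← k2, sub_apply, map_sub, al0_def (h z),
        al0_def (h y) (fderiv ℝ h z (eR m))]
      simp only [Prod.snd_sub, Pi.sub_apply, sub_mul, Finset.sum_sub_distrib]
      ring
    have k5 : ‖(fderiv ℝ h z - fderiv ℝ h y) (eR m)‖ ≤ 6 * t ^ 6 * s :=
      (ContinuousLinearMap.le_opNorm _ _).trans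
        ((mul_le_of_le_one_right (norm_nonneg _) nR).trans (l2 z hz))
    have k6 : |al0 (h y) ((fderiv ℝ h z - fderiv ℝ h y) (eR m))| ≤ 2 * t ^ 2 * (6 * t ^ 6 * s) :=
      (norm_fst_le (Lt (-h y) _)).trans (hL _ _ _ (by rwa [norm_neg]) k5)
    have k7 : ‖fderiv ℝ h z (eR m)‖ ≤ t := (ContinuousLinearMap.le_opNorm _ _).trans
      ((mul_le_of_le_one_right (norm_nonneg _) nR).trans (b1 z (hz.trans hr)).1)
    have k8 := sum_le' hm (((norm_snd_le _).trans (norm_snd_le _)).trans (l1 z hz))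
      (((norm_fst_le _).trans (norm_snd_le _)).trans k7)
    rw [k4]
    refine (abs_add_le _ _).trans ((add_le_add k6 k8).trans (le_of_eq (by ring)))
  have v1 : |(ldiv (h y) (h (mul y (dil s η)))).1 + hq ((h (mul y (dil s η))).2 - (h y).2) -
      f * (s ^ 2 * (η.1 + hq η.2))| ≤ 868 * t ^ 18 * s ^ 3 := by
    have h1 := norm_image_sub_le_of_norm_deriv_le_segment_01' (C := 868 * t ^ 18 * s ^ 3)
      (f := fun τ => (ldiv (h y) (h (mul y (gam s η τ)))).1 +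
        hq ((h (mul y (gam s η τ))).2 - (h y).2) - τ * (f * (s ^ 2 * (η.1 + hq η.2))))
      (fun x _ => ((der_th (h y) (dc x)).sub
        ((hasDerivAt_id x).mul_const (f * (s ^ 2 * (η.1 + hq η.2))))).hasDerivWithinAt)
      (fun x hx => by
        have hx' := Ico_subset_Icc_self hx
        rw [ct _ ((q1 x hx').trans hr), al0_gam, one_mul, sub_right_comm, ← sub_mul,
          Real.norm_eq_abs]
        refine (abs_sub _ _).trans ?_
        rw [abs_mul, abs_div, abs_two]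
        have k1 : |e (mul y (gam s η x)) - f| * |s ^ 2 * (η.1 + hq η.2)| ≤
            18 * t ^ 8 * s * (2 * t ^ 3 * s ^ 2) := by
          gcongr
          exact e1 _ (q1 x hx')
        have k2 : t ^ 11 * s ^ 3 ≤ t ^ 18 * s ^ 3 := by
          gcongr
          norm_num
        nlinarith [w3 x hx'])
    simpa only [gam_zero, gam_one, mul_zero', ldiv_self', sub_self, hq_zero, one_mul, zero_mul,
      Prod.fst_zero, add_zero, sub_zero, Real.norm_eq_abs] using h1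
  have v2 : ‖s⁻¹ • ((h (mul y (dil s η))).2 - (h y).2) - hA h y η.2‖ ≤ 52 * t ^ 11 * s := by
    have h1 := w2 1 ⟨zero_le_one, le_rfl⟩
    rw [gam_one, one_smul] at h1
    have e2 : s⁻¹ • ((h (mul y (dil s η))).2 - (h y).2) - hA h y η.2 =
        s⁻¹ • ((h (mul y (dil s η))).2 - (h y).2 - s • hA h y η.2) := by
      rw [smul_sub s⁻¹ _ (s • _), smul_smul, inv_mul_cancel₀ hs.ne', one_smul]
    rw [e2, norm_smul, Real.norm_of_nonneg (inv_nonneg.2 hs.le), inv_mul_le_iff₀ hs]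
    exact h1.trans (le_of_eq (by ring))
  have v3 : ‖hA h y η.2‖ ≤ 2 * t ^ 4 := by
    refine (norm_snd_le (fderiv ℝ h y (Lt y (0, η.2)))).trans
      ((ContinuousLinearMap.le_opNorm _ _).trans ?_)
    calc _ ≤ t * (2 * t ^ 2 * t) := by
          gcongr
          exact hL _ _ _ hy (by simpa using hu)
      _ = _ := by ring
  have v4 : ‖s⁻¹ • ((h (mul y (dil s η))).2 - (h y).2)‖ ≤ 3 * t ^ 4 := by
    have h1 := norm_le_insert' (s⁻¹ • ((h (mul y (dil s η))).2 - (h y).2)) (hA h y η.2)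
    linarith [p1 4]
  have v5 := hq_sub hm v4 (v3.trans (by linarith [p1 4])) v2
  have v6 : t ^ 11 * s ≤ t ^ 18 * s := by
    gcongr
    norm_num
  have v7 : t ^ 16 * s ≤ t ^ 18 * s := by
    gcongr
    norm_num
  have v8 : 0 ≤ t ^ 18 * s := by positivity
  refine max_le ?_ (v2.trans (by linarith))
  change |s⁻¹ ^ 2 * (ldiv (h y) (h (mul y (dil s η)))).1 -
    (f * (η.1 + hq η.2) - hq (hA h y η.2))| ≤ _
  have e2 : s⁻¹ ^ 2 * (ldiv (h y) (h (mul y (dil s η)))).1 -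
      (f * (η.1 + hq η.2) - hq (hA h y η.2)) =
      s⁻¹ ^ 2 * ((ldiv (h y) (h (mul y (dil s η)))).1 + hq ((h (mul y (dil s η))).2 - (h y).2) -
        f * (s ^ 2 * (η.1 + hq η.2))) -
      (hq (s⁻¹ • ((h (mul y (dil s η))).2 - (h y).2)) - hq (hA h y η.2)) := by
    rw [hq_smul]
    field_simp
    ring
  rw [e2]
  refine (abs_sub _ _).trans ?_
  have k1 : |s⁻¹ ^ 2 * ((ldiv (h y) (h (mul y (dil s η)))).1 +
      hq ((h (mul y (dil s η))).2 - (h y).2) - f * (s ^ 2 * (η.1 + hq η.2)))| ≤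
      868 * t ^ 18 * s := by
    rw [abs_mul, abs_of_nonneg (sq_nonneg _), inv_pow, inv_mul_le_iff₀ (by positivity)]
    exact v1.trans (le_of_eq (by ring))
  nlinarith

end BlowAux

theorem blow : BlowStmt := by
  intro m
  have m0 : (0 : ℝ) ≤ m := Nat.cast_nonneg m
  refine ⟨1100 * (m + 1) ^ 18, 18, by nlinarith [one_le_pow₀ (n := 18) (show (1 : ℝ) ≤ m + 1 by
    linarith)], fun C R s δ f h y η hC hR hs hδ hsm hc hη => ?_⟩
  obtain ⟨e, ey, ct⟩ := hc.ct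
  have k0 : 1 ≤ C * R := by nlinarith
  have k1 : C ≤ (m + 1) * (C * R) := by nlinarith
  have k2 : R ≤ (m + 1) * (C * R) := by nlinarith
  have k3 : (m : ℝ) ≤ (m + 1) * (C * R) := by nlinarith
  have k4 : 1100 * ((m + 1) * (C * R)) ^ 18 * s ≤ δ := by
    rw [mul_pow, ← mul_assoc]
    exact hsm
  generalize ((m : ℝ) + 1) * (C * R) = t at k1 k2 k3 k4
  have ht : 1 ≤ t := hC.trans k1
  have k5 : t ^ 11 * s ≤ t ^ 18 * s := by
    gcongr
    norm_num
  have k6 : t ^ 6 * s ≤ t ^ 18 * s := by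
    gcongr
    norm_num
  have k7 : 0 ≤ t ^ 18 * s := by positivity
  refine (BlowAux.main (r := C⁻¹) k3 ht hs ?_ (by linarith) hc.sm (hc.b0.1.trans k1)
    (hc.b0.2.trans k1) (hη.trans k2)
    (fun z hz => ⟨(hc.b1 z hz).1.trans k1, (hc.b1 z hz).2.trans k1⟩) ey ct).trans k4
  rw [inv_eq_one_div, le_div_iff₀ (by linarith)]
  calc 6 * t ^ 5 * s * C ≤ 6 * t ^ 5 * s * t := by gcongr
    _ = 6 * (t ^ 6 * s) := by ring
    _ ≤ 1 := by linarith

end Pool.Agent.MP_6d695c_gt.P
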