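import Pool.Agent.MP_6d695c_gt.p.Alg

/-! PROJECT P, row Cat: uniform traps for lists of sheets. -/

open scoped Manifold ContDiff Topology MeasureTheory
open Set Metric Filter Real

namespace Pool.Agent.MP_6d695c_gt.P

open SW T1 Theta

namespace CatAux

variable {m b : ℕ}

theorem raw_mono {U C O : Set (Y m)} {Cu η T T' B : ℝ} {f Λ : ℝ × Y m → ℝ}
    (h : RawP U Cu η T B C O f Λ) (hT : T ≤ T') : RawP U Cu η T' B C O f Λ := fun u a c => by
  obtain ⟨Ξ, E, k⟩ := h u a c
  exact ⟨Ξ, E, { k with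
    far := fun x hx => k.far x (hT.trans hx)
    low := fun x hx => k.low x (hx.trans (neg_le_neg hT))
    high := fun x hx => k.high x (hT.trans hx) }⟩

theorem cont_sh : Continuous fun z : Sp m × Y m => mul z.1.1 (hom z.1.2.1 z.1.2.2 z.2) := by
  simp only [mul_def, hom, hq]
  fun_prop

theorem sh_cpt (R : ℝ) (p : Sp m) : IsCompact (Sh R p) :=
  (isCompact_closedBall 0 R).image (cont_sh.comp (Continuous.prodMk_right p))

theorem good_cpt (C : ℝ) : IsCompact {p : Sp m | GoodP C 1 p} := by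
  refine Metric.isCompact_of_isClosed_isBounded ?_
    ((isBounded_closedBall (x := 0) (r := max C 1)).subset ?_)
  · have h1 : IsClosed {p : Sp m | Sym p.2.1 p.2.2} := by
      have e : {p : Sp m | Sym p.2.1 p.2.2} =
          ⋂ u, ⋂ v, {p : Sp m | om (p.2.1 u) (p.2.1 v) = p.2.2 * om u v} := by
        ext p
        simp only [Sym, mem_ofPred_eq, mem_iInter]
      rw [e]
      refine isClosed_iInter fun u => isClosed_iInter fun v => isClosed_eq ?_ (by fun_prop)
      simp only [om]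
      fun_prop
    exact (isClosed_le continuous_fst.norm continuous_const).inter
      ((isClosed_le continuous_snd.fst.norm continuous_const).inter (h1.inter
      ((isClosed_le continuous_const continuous_snd.snd).inter
        (isClosed_le continuous_snd.snd continuous_const))))
  · rintro p ⟨a, c, -, d, e⟩
    rw [mem_closedBall_zero_iff, Prod.norm_def, Prod.norm_def p.2]
    refine max_le (a.trans (le_max_left _ _)) (max_le (c.trans (le_max_left _ _)) ?_)
    rw [Real.norm_of_nonneg d]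
    exact e.trans (le_max_right _ _)

/-- points near the sheets of nearby parameters lie in `O` -/
theorem tube {R R' : ℝ} {O : Set (Y m)} (hO : IsOpen O) (P₀ : Fin b → Sp m) (i : Fin b)
    (h : ∀ y ∈ Sh R (P₀ i), ‖y‖ ≤ R' → y ∈ O) :
    ∀ᶠ x : ℝ × (Fin b → Sp m) in 𝓝 (0, P₀), ∀ y : Y m, ‖y‖ ≤ R' → ∀ p ∈ Sh R (x.2 i),
      ‖y - p‖ < x.1 → y ∈ O := by
  have k := ((isCompact_closedBall (0 : Y m) R').prod
    (isCompact_closedBall (0 : Y m) R)).eventually_forall_of_forall_eventually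
    (x₀ := ((0 : ℝ), P₀)) (P := fun x w =>
      ‖w.1 - mul (x.2 i).1 (hom (x.2 i).2.1 (x.2 i).2.2 w.2)‖ < x.1 → w.1 ∈ O) (by
    rintro ⟨y, z⟩ ⟨hy, hz⟩
    by_cases c : y ∈ O
    · have c1 : Continuous fun v : (ℝ × (Fin b → Sp m)) × Y m × Y m => v.2.1 := by fun_prop
      filter_upwards [c1.continuousAt.eventually (hO.mem_nhds c)] with v hv _
      exact hv
    · have c1 : Continuous fun v : (ℝ × (Fin b → Sp m)) × Y m × Y m =>
          ‖v.2.1 - mul (v.1.2 i).1 (hom (v.1.2 i).2.1 (v.1.2 i).2.2 v.2.2)‖ :=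
        (continuous_snd.fst.sub (cont_sh.comp (Continuous.prodMk
          ((continuous_apply i).comp continuous_fst.snd) continuous_snd.snd))).norm
      have c2 : 0 < ‖y - mul (P₀ i).1 (hom (P₀ i).2.1 (P₀ i).2.2 z)‖ := by
        rw [norm_pos_iff, sub_ne_zero]
        intro e
        exact c (h y ⟨z, hz, e.symm⟩ (mem_closedBall_zero_iff.1 hy))
      filter_upwards [continuous_fst.fst.continuousAt.eventually_lt c1.continuousAt
        (x₀ := (((0 : ℝ), P₀), (y, z))) c2] with v hv hv'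
      exact absurd hv' hv.not_gt)
  filter_upwards [k] with x hx y hy p hp hyp
  obtain ⟨z, hz, rfl⟩ := hp
  exact hx (y, z) ⟨mem_closedBall_zero_iff.2 hy, hz⟩ hyp

end CatAux

open CatAux in
theorem cat (hRawP : RawPStmt) (hShN : ShNStmt) : CatStmt := by
  intro m b R₀ Cg Cu η hη
  have k := (isCompact_univ_pi fun _ : Fin b =>
    good_cpt (m := m) Cg).eventually_forall_of_forall_eventually (x₀ := (0 : ℝ))
    (P := fun t P => 0 < t → (∀ i, GoodP Cg t (P i)) → ∃ B C O f Λ,
      RawP (ball 0 (R₀ + 3)) Cu η t⁻¹ B C O f Λ ∧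
      ∀ y : Y m, ‖y‖ ≤ R₀ + 1 → ∀ i, ∀ p ∈ Sh Cg (P i), ‖y - p‖ < t → y ∈ O) (by
    intro P₀ hP
    by_cases c : ∀ i, (P₀ i).2.2 ≤ 0
    · have hK : IsCompact ((⋃ i, Sh Cg (P₀ i)) ∩ closedBall 0 (R₀ + 2)) :=
        (isCompact_iUnion fun i => sh_cpt Cg (P₀ i)).inter_right isClosed_closedBall
      obtain ⟨T, B, C, O, f, Λ, hO, hKO, hR⟩ := hRawP m _ (ball 0 (R₀ + 3)) Cu η hK isOpen_ball
        (fun y hy => closedBall_subset_ball (by linarith) hy.2)
        (MeasureTheory.measure_mono_null inter_subset_left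
          (MeasureTheory.measure_iUnion_null fun i => by
            obtain ⟨-, -, s, d, -⟩ := hP i (mem_univ i)
            have e : (P₀ i).2.2 = 0 := le_antisymm (c i) d
            have := hShN m Cg (P₀ i).1 (P₀ i).2.1 (e ▸ s)
            rwa [← e] at this)) hη
      have k1 := eventually_all.2 fun i => tube (R := Cg) (R' := R₀ + 1) hO P₀ i fun y hy h1 =>
        hKO ⟨mem_iUnion.2 ⟨i, hy⟩, mem_closedBall_zero_iff.2 (by linarith)⟩
      have c1 : Continuous fun x : ℝ × (Fin b → Sp m) => x.1 * T := by fun_prop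
      filter_upwards [k1, c1.continuousAt.eventually_lt continuousAt_const
        (x₀ := ((0 : ℝ), P₀)) (show (0 : ℝ) * T < 1 by simp)] with x h1 h2 h0 _
      refine ⟨B, C, O, f, Λ, raw_mono hR ?_, fun y hy i => h1 i y hy⟩
      rw [← mul_one x.1⁻¹, le_inv_mul_iff₀ h0]
      exact h2.le
    · push Not at c
      obtain ⟨i, hi⟩ := c
      have c1 : Continuous fun x : ℝ × (Fin b → Sp m) => (x.2 i).2.2 := by fun_prop
      filter_upwards [continuous_fst.continuousAt.eventually_lt c1.continuousAt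
        (x₀ := ((0 : ℝ), P₀)) hi] with x h1 _ h2
      exact absurd (h2 i).2.2.2.2 h1.not_ge)
  obtain ⟨t, ⟨h1, h2⟩, h0⟩ := (((k.and (gt_mem_nhds one_pos)).filter_mono
    (nhdsWithin_le_nhds (s := Ioi 0))).and self_mem_nhdsWithin).exists
  exact ⟨t⁻¹, t, t, (inv_pos.2 h0).le, h0, h0, h2.le, fun P hP =>
    h1 P (fun i _ => (hP i).mono h2.le) h0 hP⟩

end Pool.Agent.MP_6d695c_gt.P
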