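import Pool.Agent.MP_6d695c_gt.p.Alg
import Mathlib.Order.Interval.Set.Nat

/-! PROJECT P, row Cfg: nodes, ranks and lists of sheets. -/

open scoped Manifold ContDiff Topology MeasureTheory
open Set Metric Filter Real

namespace Pool.Agent.MP_6d695c_gt.P

open SW T1 Theta

namespace CfgAux

theorem small {C s a a' : ℝ} {j j' : ℕ} (hC : 1 ≤ C) (hs : 0 < s) (h0 : 0 ≤ a) (ha : a ≤ a')
    (hj : j ≤ j') (h : a' * C ^ j' * s ≤ 1) : a * C ^ j * s ≤ 1 := by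
  refine le_trans (mul_le_mul_of_nonneg_right ?_ hs.le) h
  exact mul_le_mul ha (pow_le_pow_right₀ hC hj) (by positivity) (h0.trans ha)

theorem ncard_fib {α : Type} (g : α → ℕ → Prop) (M : ℕ) (h : ∀ k, {a | g a k}.ncard ≤ M)
    (n : ℕ) : {a | ∃ k < n, g a k}.ncard ≤ n * M := by
  induction n with
  | zero => simp
  | succ n ih =>
    have e : {a | ∃ k < n + 1, g a k} = {a | ∃ k < n, g a k} ∪ {a | g a n} := by
      ext a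
      constructor
      · rintro ⟨k, hk, hg⟩
        rcases Nat.lt_succ_iff_lt_or_eq.1 hk with h1 | rfl
        · exact Or.inl ⟨k, h1, hg⟩
        · exact Or.inr hg
      · rintro (⟨k, hk, hg⟩ | hg)
        · exact ⟨k, by omega, hg⟩
        · exact ⟨n, by omega, hg⟩
    rw [e, Nat.succ_mul]
    exact (ncard_union_le _ _).trans (add_le_add ih (h n))

theorem enum {α : Type} {S : Set α} (hS : S.Finite) {b : ℕ} (hb : S.ncard ≤ b) (d : α) :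
    ∃ P : Fin b → α, (∀ i, P i ∈ S ∨ P i = d) ∧ ∀ p ∈ S, ∃ i, P i = p := by
  rw [ncard_eq_toFinset_card S hS, ← Finset.length_toList] at hb
  refine ⟨fun i => hS.toFinset.toList.getD i d, fun i => ?_, fun p hp => ?_⟩
  · by_cases hi : (i : ℕ) < hS.toFinset.toList.length
    · left
      simp only [List.getD_eq_getElem _ _ hi]
      exact hS.mem_toFinset.1 (Finset.mem_toList.1 (List.getElem_mem hi))
    · right
      exact List.getD_eq_default _ _ (not_lt.1 hi)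
  · obtain ⟨n, hn, e⟩ := List.getElem_of_mem (Finset.mem_toList.2 (hS.mem_toFinset.2 hp))
    refine ⟨⟨n, hn.trans_le hb⟩, ?_⟩
    simp only [List.getD_eq_getElem _ _ hn]
    exact e

variable {m : ℕ}

theorem thick {A : Set (Y m)} {ρ a : ℝ} {x y : Y m} (hρ : 0 ≤ ρ) (ha : 0 ≤ a)
    (hy : y ∈ cthickening (a * ρ) A) (h : ‖x - y‖ ≤ ρ) : x ∈ cthickening ((a + 1) * ρ) A := by
  rw [show (a + 1) * ρ = ρ + a * ρ by ring]
  exact cthickening_cthickening_subset hρ (mul_nonneg ha hρ) A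
    (mem_cthickening_of_dist_le x y ρ _ hy (by rwa [dist_eq_norm]))

theorem norm_half {x y c : Y m} {r : ℝ} (hx : ‖x - c‖ ≤ r / 4) (hy : ‖y - c‖ ≤ r / 4) :
    ‖x - y‖ ≤ r / 2 := by
  have := norm_sub_le (x - c) (y - c)
  rw [sub_sub_sub_cancel_right] at this
  linarith

theorem good_mono {C C' f₀ : ℝ} {p : Sp m} (h : GoodP C f₀ p) (hC : C ≤ C') : GoodP C' f₀ p :=
  ⟨h.1.trans hC, h.2.1.trans hC, h.2.2⟩

theorem good_zero {C f₀ : ℝ} (hC : 0 ≤ C) (hf : 0 ≤ f₀) : GoodP C f₀ ((0, 0, 0) : Sp m) :=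
  ⟨by simpa using hC, by simpa using hC, fun u v => by simp [om], le_rfl, hf⟩

theorem sh_mono {R R' : ℝ} (h : R ≤ R') (p : Sp m) : Sh R p ⊆ Sh R' p :=
  image_mono (closedBall_subset_closedBall h)

/-- the conclusion of GEO for all towers -/
def GeoI {I : Type} (A : I → Set (Y m)) (ρ : ℝ) (B' : I → Y m → Hor m →L[ℝ] Hor m)
    (s C R R' : ℝ) : Prop :=
  ∀ i, ∀ c ∈ cthickening (8 * ρ) (A i), ∀ y, ‖eta s c (B' i c) y‖ ≤ R → ‖y - c‖ ≤ C⁻¹ / 4 ∧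
    (y ∈ cthickening (8 * ρ) (A i) → ∀ y', ‖eta s c (B' i c) y'‖ ≤ R → ‖eta s y (B' i y) y'‖ ≤ R')

/-- the conclusion of SHEET -/
def ShI (m : ℕ) (s C f₀ Cb R Cg κ : ℝ) : Prop :=
  ∀ (f : ℝ) (h : Y m → Y m) (y y' c : Y m) (B B' D' : Hor m →L[ℝ] Hor m), Ctc C h y f → 0 ≤ f →
    f ≤ f₀ → Sym B 1 → (∀ u, B (B' u) = u) → Sym D' 1 → ‖B‖ ≤ C → ‖D'‖ ≤ C →
    ‖D'.comp ((hA h y).comp B)‖ ≤ Cb → ‖eta s y B' y'‖ ≤ R → ‖eta s c D' (h y)‖ ≤ R →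
    GoodP Cg f₀ (eta s c D' (h y), D'.comp ((hA h y).comp B), f) ∧ ‖eta s c D' (h y')‖ ≤ Cg ∧
      ∃ p ∈ Sh Cg (eta s c D' (h y), D'.comp ((hA h y).comp B), f), ‖eta s c D' (h y') - p‖ ≤ κ

/-- the parameter of the sheet of a link seen from the centre `c` -/
noncomputable def par {I : Type} (B B' : I → Y m → Hor m →L[ℝ] Hor m) (s : ℝ) (c : Y m)
    (e : Lk I m) : Sp m :=
  (eta s c (B' e.j c) (e.h e.y), (B' e.j c).comp ((hA e.h e.y).comp (B e.i e.y)), e.f)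

/-- the link `e` leads from the cell of `u` to the cell of `c` -/
def Wit {I ι : Type} (𝓛 : Set (Lk I m)) (tw : ι → I) (η : ι → Y m → Y m) (R : ℝ) (u c : ι)
    (e : Lk I m) : Prop :=
  e ∈ 𝓛 ∧ tw u = e.i ∧ tw c = e.j ∧ ‖η u e.y‖ ≤ R ∧ ‖η c (e.h e.y)‖ ≤ R

section Main
variable {I : Type} {A : I → Set (Y m)} {ρ : ℝ} {B B' : I → Y m → Hor m →L[ℝ] Hor m}
  {𝓛 : Set (Lk I m)} {C Cb f₀ s R₁ R₁' R₂ R₂' R₃' Cg κ : ℝ} {nb ne : ℕ}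

theorem rho_pos (hC : 1 ≤ C) (hS : Sys A ρ B B' 𝓛 C Cb f₀ nb ne) : 0 < ρ :=
  (inv_pos.2 (by linarith)).trans_le hS.le

theorem mem8 (hC : 1 ≤ C) (hS : Sys A ρ B B' 𝓛 C Cb f₀ nb ne) {e : Lk I m} (he : e ∈ 𝓛) :
    e.y ∈ cthickening (8 * ρ) (A e.i) ∧ e.h e.y ∈ cthickening (8 * ρ) (A e.j) := by
  have h := rho_pos hC hS
  have h78 : 7 * ρ ≤ 8 * ρ := by linarith
  exact ⟨cthickening_mono h78 _ (hS.mem e he).1, cthickening_mono h78 _ (hS.mem e he).2.1⟩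

/-- two links of the same index from the same cell -/
theorem key (hC : 1 ≤ C) (hCb : 1 ≤ Cb) (hS : Sys A ρ B B' 𝓛 C Cb f₀ nb ne)
    (g1 : GeoI A ρ B' s C R₁ R₁') (hR : R₁ ≤ R₁') (hsh : ShI m s C f₀ (Cb ^ 2) R₁' Cg κ)
    {e₀ e : Lk I m} (h0 : e₀ ∈ 𝓛) (he : e ∈ 𝓛) (hi : e₀.i = e.i) (hk : e₀.k = e.k) {a c : Y m}
    (ha : a ∈ cthickening (8 * ρ) (A e₀.i)) (hc : c ∈ cthickening (8 * ρ) (A e₀.j))
    (a0 : ‖eta s a (B' e₀.i a) e₀.y‖ ≤ R₁) (a1 : ‖eta s a (B' e₀.i a) e.y‖ ≤ R₁)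
    (c0 : ‖eta s c (B' e₀.j c) (e₀.h e₀.y)‖ ≤ R₁) :
    e₀.j = e.j ∧ GoodP Cg f₀ (par B B' s c e₀) ∧ ‖eta s c (B' e₀.j c) (e.h e.y)‖ ≤ Cg ∧
      ∃ p ∈ Sh Cg (par B B' s c e₀), ‖eta s c (B' e₀.j c) (e.h e.y) - p‖ ≤ κ := by
  have hCi : 0 < C⁻¹ := inv_pos.2 (by linarith)
  obtain ⟨m1, m2⟩ := mem8 hC hS h0
  obtain ⟨d0, d1⟩ := g1 _ a ha _ a0
  have d2 := (g1 _ a ha _ a1).1
  have d3 := (g1 _ c hc _ c0).1
  obtain ⟨j1, j2⟩ := hS.coh e₀ h0 e he hi hk ((norm_half d0 d2).trans (by linarith))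
  have fi := hS.fr e₀.i
  have fj := hS.fr e₀.j
  have n1 : ‖(B' e₀.j c).comp (B e₀.j (e₀.h e₀.y))‖ ≤ Cb :=
    fj.near c hc _ m2 (by rw [norm_sub_rev]; linarith)
  have n2 := hS.nrm e₀ h0
  have n3 : ‖(B' e₀.j c).comp ((hA e₀.h e₀.y).comp (B e₀.i e₀.y))‖ ≤ Cb ^ 2 := by
    have e1 : (B' e₀.j c).comp ((hA e₀.h e₀.y).comp (B e₀.i e₀.y)) =
        ((B' e₀.j c).comp (B e₀.j (e₀.h e₀.y))).comp
          ((B' e₀.j (e₀.h e₀.y)).comp ((hA e₀.h e₀.y).comp (B e₀.i e₀.y))) := by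
      refine ContinuousLinearMap.ext fun u => ?_
      simp only [ContinuousLinearMap.comp_apply, fj.ri _ m2]
    rw [e1, sq]
    exact (ContinuousLinearMap.opNorm_comp_le _ _).trans
      (mul_le_mul n1 n2 (norm_nonneg _) (by linarith))
  have H := hsh e₀.f e₀.h e₀.y e.y c (B e₀.i e₀.y) (B' e₀.i e₀.y) (B' e₀.j c) (hS.ctc e₀ h0)
    (hS.mem e₀ h0).2.2.2.1.le (hS.mem e₀ h0).2.2.2.2 (fi.sym _ m1) (fi.ri _ m1)
    ((fj.sym _ hc).inv (fj.ri _ hc)) (fi.bd _ m1).2.1 (fj.bd _ hc).2.2 n3 (d1 m1 _ a1)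
    (c0.trans hR)
  rw [j2] at H
  exact ⟨j1, H⟩

variable {ι : Type} {R₀ : ℝ} {M₀ : ℕ} {tw : ι → I} {ce : ι → Y m} {col : ι → ℕ}

/-- the out-degree for one index -/
theorem outdeg [Finite ι] (hC : 1 ≤ C) (hCb : 1 ≤ Cb) (hS : Sys A ρ B B' 𝓛 C Cb f₀ nb ne)
    (hN : Nods A ρ B B' s R₀ R₃' M₀ tw ce col) (h0 : 0 ≤ R₁)
    (g1 : GeoI A ρ B' s C R₁ R₁') (hR : R₁ ≤ R₁') (hsh : ShI m s C f₀ (Cb ^ 2) R₁' Cg κ)
    (g2 : GeoI A ρ B' s C R₂ R₂') (h21 : R₁ ≤ R₂) (h22 : Cg ≤ R₂) (g3 : GeoI A ρ B' s C R₂' R₃')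
    (u : ι) (k : ℕ) :
    {c | ∃ e, Wit 𝓛 tw (fun c => eta s (ce c) (B' (tw c) (ce c))) R₁ u c e ∧ e.k = k}.ncard ≤
      M₀ := by
  by_cases hn : ∃ c e, Wit 𝓛 tw (fun c => eta s (ce c) (B' (tw c) (ce c))) R₁ u c e ∧ e.k = k
  swap
  · have : {c | ∃ e, Wit 𝓛 tw (fun c => eta s (ce c) (B' (tw c) (ce c))) R₁ u c e ∧ e.k = k} = ∅ :=
      eq_empty_of_forall_notMem fun c hc => hn ⟨c, hc⟩
    rw [this, ncard_empty]
    exact Nat.zero_le _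
  obtain ⟨c₀, e₀, ⟨w1, w2, -, w4, -⟩, k0⟩ := hn
  have m2 := (mem8 hC hS w1).2
  refine le_trans (ncard_le_ncard ?_ (toFinite _)) (hN.pack e₀.j _ m2)
  rintro c ⟨e, ⟨v1, v2, v3, v4, v5⟩, k1⟩
  have z0 : ∀ (y : Y m) (D' : Hor m →L[ℝ] Hor m), ‖eta s y D' y‖ ≤ R₁ := fun y D' => by
    rw [eta_self, norm_zero]
    exact h0
  have hu := hN.mem u
  have hc := hN.mem c
  simp only at w4 v4 v5
  rw [w2] at hu w4 v4
  obtain ⟨j1, -, b1, -⟩ := key hC hCb hS g1 hR hsh w1 v1 (w2.symm.trans v2) (k0.trans k1.symm)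
    hu m2 w4 v4 (z0 _ _)
  have m3 := (mem8 hC hS v1).2
  rw [v3] at hc v5
  rw [← j1] at hc v5 m3 v3
  refine ⟨v3, ?_⟩
  have s1 := (g2 _ _ hc _ (v5.trans h21)).2 m3 _ ((z0 _ _).trans h21)
  have s2 := (g2 _ _ m2 _ (b1.trans h22)).2 m3 _ ((z0 _ _).trans h21)
  exact (g3 _ _ m3 _ s2).2 m2 _ s1

/-- long chains meet an active node -/
theorem chain (hC : 1 ≤ C) (hS : Sys A ρ B B' 𝓛 C Cb f₀ nb ne)
    (hN : Nods A ρ B B' s R₀ R₃' M₀ tw ce col) (g1 : GeoI A ρ B' s C R₁ R₁') (u : ℕ → ι)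
    (hu : ∀ a < ne, ∃ e, Wit 𝓛 tw (fun c => eta s (ce c) (B' (tw c) (ce c))) R₁ (u a) (u (a + 1)) e) :
    ∃ a < ne, ce (u (a + 1)) ∈ cthickening (2 * ρ) (A (tw (u (a + 1)))) := by
  have hCi : 0 < C⁻¹ := inv_pos.2 (by linarith)
  have hρ := rho_pos hC hS
  have : Nonempty (Lk I m) := ⟨⟨tw (u 0), 0, 0, tw (u 0), id, 0⟩⟩
  choose! e he using hu
  obtain ⟨a, ha, H⟩ := hS.edge e (fun a ha => (he a ha).1) fun a ha => by
    obtain ⟨-, -, v3, -, v5⟩ := he a (by omega)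
    obtain ⟨-, w2, -, w4, -⟩ := he (a + 1) ha
    refine ⟨v3.symm.trans w2, ?_⟩
    exact (norm_half (g1 _ _ (hN.mem _) _ v5).1 (g1 _ _ (hN.mem _) _ w4).1).trans (by linarith)
  obtain ⟨-, -, v3, -, v5⟩ := he a ha
  refine ⟨a, ha, ?_⟩
  have d := (g1 _ _ (hN.mem _) _ v5).1
  rw [v3, show (2 : ℝ) = 1 + 1 by norm_num]
  refine thick hρ.le zero_le_one (by rwa [one_mul]) ?_
  rw [norm_sub_rev]
  linarith [hS.le]

/-- the list of sheets of a node -/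
theorem lists [Finite ι] (hC : 1 ≤ C) (hCb : 1 ≤ Cb) (hS : Sys A ρ B B' 𝓛 C Cb f₀ nb ne)
    (hN : Nods A ρ B B' s R₀ R₃' M₀ tw ce col) (hf : 0 ≤ f₀) (hg : 0 ≤ Cg)
    (g1 : GeoI A ρ B' s C R₁ R₁') (hR : R₁ ≤ R₁') (hsh : ShI m s C f₀ (Cb ^ 2) R₁' Cg κ)
    (c : ι) (S : Set ι) {b₀ : ℕ} (hb : S.ncard ≤ b₀) :
    ∃ P : Fin (b₀ * nb) → Sp m, (∀ i, GoodP Cg f₀ (P i)) ∧ ∀ u ∈ S, ∀ e,
      Wit 𝓛 tw (fun c => eta s (ce c) (B' (tw c) (ce c))) R₁ u c e →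
      ∃ i, ∃ p ∈ Sh Cg (P i), ‖eta s (ce c) (B' (tw c) (ce c)) (e.h e.y) - p‖ ≤ κ := by
  have : Nonempty (Lk I m) := ⟨⟨tw c, 0, 0, tw c, id, 0⟩⟩
  have hw : ∀ q : ι × ℕ,
      (∃ e, Wit 𝓛 tw (fun c => eta s (ce c) (B' (tw c) (ce c))) R₁ q.1 c e ∧ e.k = q.2) →
      ∃ e, Wit 𝓛 tw (fun c => eta s (ce c) (B' (tw c) (ce c))) R₁ q.1 c e ∧ e.k = q.2 :=
    fun _ h => h
  choose! w hw using hw
  have K : ∀ (u : ι) (e₀ e : Lk I m),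
      Wit 𝓛 tw (fun c => eta s (ce c) (B' (tw c) (ce c))) R₁ u c e₀ →
      Wit 𝓛 tw (fun c => eta s (ce c) (B' (tw c) (ce c))) R₁ u c e → e₀.k = e.k →
      GoodP Cg f₀ (par B B' s (ce c) e₀) ∧ ∃ p ∈ Sh Cg (par B B' s (ce c) e₀),
        ‖eta s (ce c) (B' (tw c) (ce c)) (e.h e.y) - p‖ ≤ κ := by
    rintro u e₀ e ⟨w1, w2, w3, w4, w5⟩ ⟨v1, v2, -, v4, -⟩ hk
    have hu := hN.mem u
    have hc := hN.mem c
    simp only at w4 w5 v4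
    rw [w2] at hu w4 v4
    rw [w3] at hc w5 ⊢
    obtain ⟨-, b0, -, b2⟩ := key hC hCb hS g1 hR hsh w1 v1 (w2.symm.trans v2) hk hu hc w4 v4 w5
    exact ⟨b0, b2⟩
  set T : Set (ι × ℕ) := {q | q.1 ∈ S ∧
    ∃ e, Wit 𝓛 tw (fun c => eta s (ce c) (B' (tw c) (ce c))) R₁ q.1 c e ∧ e.k = q.2} with hT
  have sub : T ⊆ S ×ˢ Iio nb := by
    rintro q ⟨h1, e, h2, h3⟩
    exact ⟨h1, h3 ▸ (hS.mem e h2.1).2.2.1⟩
  have fin : (S ×ˢ Iio nb).Finite := (toFinite S).prod (finite_Iio nb)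
  have fT := fin.subset sub
  have cT : T.ncard ≤ b₀ * nb := by
    refine (ncard_le_ncard sub fin).trans ?_
    rw [ncard_prod, ncard_Iio_nat]
    exact Nat.mul_le_mul_right _ hb
  obtain ⟨P, p1, p2⟩ := enum (fT.image fun q => par B B' s (ce c) (w q))
    ((ncard_image_le fT).trans cT) (0, 0, 0)
  refine ⟨P, fun i => ?_, fun u hu e he => ?_⟩
  · rcases p1 i with ⟨q, hq, e1⟩ | e1
    · rw [← e1]
      exact (K _ _ _ (hw q hq.2).1 (hw q hq.2).1 rfl).1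
    · rw [e1]
      exact good_zero hg hf
  · have hq : (u, e.k) ∈ T := ⟨hu, e, he, rfl⟩
    obtain ⟨i, hi⟩ := p2 _ ⟨_, hq, rfl⟩
    refine ⟨i, ?_⟩
    rw [hi]
    exact (K _ _ _ (hw _ hq.2).1 he (hw _ hq.2).2).2

end Main

end CfgAux

open CfgAux in
theorem cfg (hNodes : NodesStmt) (hGeo : GeoStmt) (hSheet : SheetStmt) (hRank : RankStmt)
    (hAutE : AutEStmt) : CfgStmt := by
  intro m Cb nb ne hCb
  obtain ⟨R₀, hR₀, HN⟩ := hNodes m Cb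
  obtain ⟨R₁', C₁, k₁, hR₁, hC₁, G₁⟩ := hGeo m Cb (R₀ + 4)
  obtain ⟨Cg, hCg, HS⟩ := hSheet m (Cb ^ 2) R₁'
  obtain ⟨R₂', C₂, k₂, -, hC₂, G₂⟩ := hGeo m Cb (max Cg (R₀ + 4))
  obtain ⟨R₃', C₃, k₃, -, hC₃, G₃⟩ := hGeo m Cb R₂'
  obtain ⟨M₀, C₄, k₄, hC₄, HN⟩ := HN R₃'
  obtain ⟨b₀, HR⟩ := hRank (nb * M₀) ne
  refine ⟨R₀, max Cg Cb, M₀ + 1, b₀ * nb, hR₀, hCg.trans (le_max_left _ _), fun κ hκ => ?_⟩
  obtain ⟨C₅, k₅, hC₅, HS⟩ := HS (κ / 2) (by linarith)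
  refine ⟨C₁ + C₂ + C₃ + C₄ + C₅, k₁ + k₂ + k₃ + k₄ + k₅, by linarith, ?_⟩
  intro I _ A ρ B B' 𝓛 C f₀ s hC hS hf1 hf0 hs hsm
  have hCi : 0 < C⁻¹ := inv_pos.2 (by linarith)
  have hρ := rho_pos hC hS
  have g1 : GeoI A ρ B' s C (R₀ + 4) R₁' := fun i =>
    G₁ _ _ _ C s (hS.fr i) hs (small hC hs (by linarith) (by linarith) (by omega) hsm)
  have g2 : GeoI A ρ B' s C (max Cg (R₀ + 4)) R₂' := fun i =>
    G₂ _ _ _ C s (hS.fr i) hs (small hC hs (by linarith) (by linarith) (by omega) hsm)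
  have g3 : GeoI A ρ B' s C R₂' R₃' := fun i =>
    G₃ _ _ _ C s (hS.fr i) hs (small hC hs (by linarith) (by linarith) (by omega) hsm)
  have hsh : ShI m s C f₀ (Cb ^ 2) R₁' Cg (κ / 2) := fun f h y y' c D D' E' a1 a2 a3 =>
    HS C s f f₀ h y y' c D D' E' hC hs (small hC hs (by linarith) (by linarith) (by omega) hsm)
      a1 a2 a3 hf1
  obtain ⟨ι, _, tw, ce, col, hN⟩ := HN I A ρ B B' C s hS.cpt hS.fr hs
    (small hC hs (by linarith) (by linarith) (by omega) hsm)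
  obtain ⟨rk, hrk⟩ := HR ι
    (fun u c => ∃ e, Wit 𝓛 tw (fun c => eta s (ce c) (B' (tw c) (ce c))) (R₀ + 4) u c e)
    (fun c => ce c ∈ cthickening (2 * ρ) (A (tw c)))
    (fun u => by
      refine le_trans (ncard_le_ncard ?_ (toFinite _)) (ncard_fib _ M₀ (outdeg hC hCb hS hN
        (by linarith) g1 hR₁ hsh g2 (le_max_right _ _) (le_max_left _ _) g3 u) nb)
      rintro c ⟨e, he⟩
      exact ⟨e.k, (hS.mem e he.1).2.2.1, e, he, rfl⟩)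
    (chain hC hS hN g1)
  have HP : ∀ c, ∃ P : Fin (b₀ * nb) → Sp m, (∀ i, GoodP Cg f₀ (P i)) ∧
      (ce c ∈ cthickening (2 * ρ) (A (tw c)) → ∀ u, rk c ≤ rk u → ∀ e,
        Wit 𝓛 tw (fun c => eta s (ce c) (B' (tw c) (ce c))) (R₀ + 4) u c e →
        ∃ i, ∃ p ∈ Sh Cg (P i), ‖eta s (ce c) (B' (tw c) (ce c)) (e.h e.y) - p‖ ≤ κ / 2) := by
    intro c
    by_cases hc : ce c ∈ cthickening (2 * ρ) (A (tw c))
    · obtain ⟨P, p1, p2⟩ := lists hC hCb hS hN hf0 (by linarith) g1 hR₁ hsh c _ ((hrk c).1 hc)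
      exact ⟨P, p1, fun _ u hu e he => p2 u ⟨⟨e, he⟩, hu⟩ e he⟩
    · exact ⟨fun _ => (0, 0, 0), fun _ => good_zero (by linarith) hf0, fun h => absurd h hc⟩
  choose P p1 p2 using HP
  refine ⟨ι, inferInstance, tw, fun c => eta s (ce c) (B' (tw c) (ce c)),
    fun c => zeta s (ce c) (B (tw c) (ce c)), fun c => ce c ∈ cthickening (2 * ρ) (A (tw c)), col,
    P, rk, fun i => ⟨fun c => ?_, ?_⟩, hN.lt, hN.sep,
    fun c i => good_mono (p1 c i) (le_max_left _ _), fun i y hy => ?_, fun c y y' h1 h2 => ?_,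
    fun c y hc hy => ?_, fun e he u c h1 h2 h3 h4 => ?_⟩
  · have fr := hS.fr (tw c)
    have hm := hN.mem c
    exact ⟨_, (hAutE m).1 s _ _ _ hs (fr.sym _ hm) (fr.li _ hm) (fr.ri _ hm)⟩
  · rintro ⟨c, rfl⟩ ⟨c', hc'⟩ ⟨y₀, h1, h2⟩ ψ hψ y
    have fr := hS.fr (tw c)
    have hm := hN.mem c
    have hm' := hN.mem c'
    have d1 := (g1 _ _ hm _ h1).1
    have d2 := (g1 _ _ hm' _ h2).1
    simp only [hc'] at hm' ⊢
    have sy : Sym (B' (tw c) (ce c')) 1 := (fr.sym _ hm').inv (fr.ri _ hm')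
    have sU : Sym ((B' (tw c) (ce c')).comp (B (tw c) (ce c))) 1 := by
      simpa only [one_mul] using sy.comp (fr.sym _ hm)
    have nU : ‖(B' (tw c) (ce c')).comp (B (tw c) (ce c))‖ ≤ Cb := by
      refine fr.near _ hm' _ hm ?_
      rw [norm_sub_rev] at d1 d2
      exact (norm_half d2 d1).trans (by linarith)
    simp only [eta_trans hs.ne' sy]
    refine ((hAutE m).2 _ _ ψ sU hψ y).trans (mul_le_mul_of_nonneg_right ?_ (norm_nonneg _))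
    exact (max_le hCb nU).trans (le_max_right _ _)
  · obtain ⟨c, rfl, hc⟩ := hN.cover i y hy
    exact ⟨c, rfl, hc⟩
  · exact (norm_half (g1 _ _ (hN.mem c) _ h1).1 (g1 _ _ (hN.mem c) _ h2).1).trans
      (by linarith [hS.le])
  · rw [show (3 : ℝ) = 2 + 1 by norm_num]
    exact thick hρ.le zero_le_two hc ((g1 _ _ (hN.mem c) _ hy).1.trans (by linarith [hS.le]))
  · have w : Wit 𝓛 tw (fun c => eta s (ce c) (B' (tw c) (ce c))) (R₀ + 4) u c e :=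
      ⟨he, h1, h2, h3.trans (by linarith), h4.trans (by linarith)⟩
    by_cases hlt : rk u < rk c
    · exact Or.inl hlt
    by_cases hc : ce c ∈ cthickening (2 * ρ) (A (tw c))
    · obtain ⟨i, p, hp, hd⟩ := p2 c hc u (not_lt.1 hlt) e w
      exact Or.inr ⟨hc, i, p, sh_mono (le_max_left _ _) _ hp, hd⟩
    · exact Or.inl ((hrk c).2 hc u ⟨e, w⟩)

end Pool.Agent.MP_6d695c_gt.P
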