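import Pool.Agent.MP_6d695c_gt.p.Alg

/-! PROJECT P: nearby links with the same index have the same holonomy. -/

open scoped Manifold ContDiff Topology MeasureTheory
open Set Metric Filter Real

namespace Pool.Agent.MP_6d695c_gt.P

open SW T1 Theta

namespace CohAux

theorem uc {X X' : Type} [PseudoMetricSpace X] [PseudoMetricSpace X'] {f : X → X'}
    (hf : Continuous f) {C : Set X} (hC : IsCompact C) {ε : ℝ} (hε : 0 < ε) :
    ∃ δ, 0 < δ ∧ ∀ x ∈ C, ∀ x', dist x x' ≤ δ → dist (f x) (f x') ≤ ε := by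
  obtain ⟨δ, h0, h1⟩ := mem_uniformity_dist.1 (hC.uniformContinuousAt_of_continuousAt f
    (fun _ _ => hf.continuousAt) (dist_mem_uniformity hε))
  exact ⟨δ / 2, by positivity, fun x hx x' h =>
    le_of_lt (h1 (a := x) (b := x') (by linarith) hx)⟩

theorem gap {t t' H : ℝ} (hH : 0 < H) (h0 : 0 ≤ t') (e : ⌊t / H⌋₊ = ⌊t' / H⌋₊) : t - t' ≤ H := by
  have a := Nat.lt_floor_add_one (t / H)
  have b := Nat.floor_le (div_nonneg h0 hH.le)
  rw [e] at a
  have : (t - t') / H ≤ 1 := by rw [sub_div]; linarith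
  exact (div_le_one hH).1 this

end CohAux

open CohAux in
theorem coh (hNbr : NbrStmt) : CohStmt := by
  intro V E _ _ _ _ _ m M K' K'' l Pi φ Z fl I _ τ H S₀ S hcut hT
  have hf := hcut.flow
  have hρ := hT.ρpos
  have hH := hT.Hle
  obtain ⟨ε, hε, hN⟩ := hNbr V m M K' K'' l φ Z fl I τ H S₀ (min τ.ρ 1) hf hT (by positivity)
  choose d hd0 hd using fun i => uc (Ps_smooth hf (hT.box i).sg).continuous
    (hT.reg_cpt i (-S) 0 7) hε
  have hev : ∀ᶠ δ in 𝓝[>] (0 : ℝ), ∀ i, δ ≤ d i := eventually_all.2 fun i =>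
    (eventually_le_nhds (hd0 i)).filter_mono nhdsWithin_le_nhds
  obtain ⟨δ, hδ, hδ0⟩ := (hev.and self_mem_nhdsWithin).exists
  refine ⟨δ, hδ0, ?_⟩
  rintro ⟨i, y, k, j, h, f⟩ ⟨t, y1, a, ek, eh, -⟩ ⟨i', y', k', j', h', f'⟩ ⟨t', y1', a', ek', eh', -⟩
    ei ee hy
  simp only at a a' ek ek' eh eh' ei ee hy ⊢
  subst ei eh eh'
  have t0 : 0 ≤ t := by linarith [a.mt.1]
  have t0' : 0 ≤ t' := by linarith [a'.mt.1]
  have g1 := gap (by linarith) t0' (ek.symm.trans (ee.trans ek'))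
  have g2 := gap (by linarith) t0 (ek.symm.trans (ee.trans ek')).symm
  have b' := hT.bot (by norm_num) a'.my
  have xM : fl (-t) (τ.g i y') ∈ M := by
    have u := (hT.kap b').1
    have v := (hT.box i).low _ (hT.mem b')
    rw [Ps_zero hf] at u v
    exact (hcut.inv _ _ u (by linarith)).1
  have near := hd i (-t, y) ⟨⟨by linarith [a.mt.2], by linarith⟩, a.my⟩ (-t, y') (by
    rw [Prod.dist_eq, dist_self, dist_eq_norm]
    exact max_le (hd0 i).le (hy.trans (hδ i)))
  obtain ⟨-, n1, n2⟩ := hN j (0, y1) (hT.bot (by norm_num) a.my') _ xM (by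
    rw [Ps_zero hf, ← a.hit, ← dist_eq_norm, dist_comm]
    exact near)
  have s1 : |(τ.κ j (fl (-t) (τ.g i y'))).1| ≤ 1 := by
    simpa using (norm_fst_le _).trans (n1.trans (min_le_right _ _))
  have s2 : (τ.κ j (fl (-t) (τ.g i y'))).2 ∈ cthickening (10 * τ.ρ) (τ.A j) :=
    cthickening_mono (by linarith) _ (cthickening_cthickening_subset hρ.le (by positivity) _
      (mem_cthickening_of_dist_le _ _ _ _ a.my' (by
        rw [dist_eq_norm]
        exact (norm_snd_le (τ.κ j (fl (-t) (τ.g i y')) - (0, y1))).trans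
          (n1.trans (min_le_left _ _)))))
  have c1 := le_max_left (t - t') 0
  have c2 := le_max_right (t - t') 0
  have c3 : max (t - t') 0 ≤ H := max_le g1 (by linarith)
  have c4 : max (t - t') 0 ≤ H + (t - t') := max_le (by linarith) (by linarith)
  obtain ⟨e1, e2⟩ := hT.inj (i := j) (j := j')
    (q := (max (t - t') 0 + (τ.κ j (fl (-t) (τ.g i y'))).1, (τ.κ j (fl (-t) (τ.g i y'))).2))
    (q' := (max (t - t') 0 - (t - t'), y1'))
    ⟨⟨by linarith [(abs_le.1 s1).1], by linarith [(abs_le.1 s1).2]⟩, s2⟩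
    ⟨⟨by linarith, by linarith⟩, cthickening_mono (by linarith) _ a'.my'⟩ (by
      rw [← fl_Ps hf, n2, Ps, ← a'.hit, ← hf.add, ← hf.add]
      congr 1
      ring)
  exact ⟨e1, (congrArg Prod.snd e2).trans (a'.hol_eq hf hT).symm⟩

end Pool.Agent.MP_6d695c_gt.P
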