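import Pool.Agent.MP_6d695c_gt.p.Alg

/-! PROJECT P: greedy colouring. -/

open scoped Manifold ContDiff Topology MeasureTheory
open Set Metric Filter Real

namespace Pool.Agent.MP_6d695c_gt.P

open SW T1 Theta

theorem col : ColStmt := by
  intro ι _ r M₀ hs hb
  classical
  have key : ∀ S : Finset ι, ∃ c : ι → ℕ, (∀ a, c a < M₀ + 1) ∧
      ∀ a ∈ S, ∀ b ∈ S, a ≠ b → r a b → c a ≠ c b := by
    intro S
    induction S using Finset.induction_on with
    | empty => exact ⟨fun _ => 0, fun _ => Nat.succ_pos _, by simp⟩
    | insert x S hx ih =>
      obtain ⟨c, h1, h2⟩ := ih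
      have h3 : ((toFinite {b | r x b}).toFinset.image c).card < (Finset.range (M₀ + 1)).card := by
        rw [Finset.card_range]
        refine Nat.lt_succ_of_le (Finset.card_image_le.trans ?_)
        rw [← Set.ncard_eq_toFinset_card]
        exact hb x
      obtain ⟨k, hk, hk'⟩ := Finset.exists_mem_notMem_of_card_lt_card h3
      have h4 : ∀ b, r x b → k ≠ c b := fun b hb' e =>
        hk' (Finset.mem_image.2 ⟨b, by simpa using hb', e.symm⟩)
      refine ⟨Function.update c x k, fun a => ?_, fun a ha b hb' hab hr => ?_⟩
      · by_cases e : a = x
        · rw [e, Function.update_self]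
          exact Finset.mem_range.1 hk
        · rw [Function.update_of_ne e]
          exact h1 a
      · by_cases e : a = x
        · subst e
          rw [Function.update_self, Function.update_of_ne hab.symm]
          exact h4 b hr
        · by_cases e' : b = x
          · subst e'
            rw [Function.update_self, Function.update_of_ne e]
            exact (h4 a (hs _ _ hr)).symm
          · rw [Function.update_of_ne e, Function.update_of_ne e']
            exact h2 a ((Finset.mem_insert.1 ha).resolve_left e) b
              ((Finset.mem_insert.1 hb').resolve_left e') hab hr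
  obtain ⟨c, h1, h2⟩ := key (toFinite (univ : Set ι)).toFinset
  exact ⟨c, h1, fun a b => h2 a (by simp) b (by simp)⟩

end Pool.Agent.MP_6d695c_gt.P
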