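import Pool.Agent.MP_6d695c_gt.p.Alg

/-! PROJECT P, row Conf: periodic pseudo-orbits stay near the skeleton. -/

open scoped Manifold ContDiff Topology MeasureTheory
open Set Metric Filter Real

namespace Pool.Agent.MP_6d695c_gt.P

open SW T1 Theta

theorem conf : ConfStmt := by
  intro V _ _ M U φ L Z X fl hA hK hX
  have hc : Continuous fun x => ‖fderiv ℝ L x‖ :=
    (hA.sm.continuous_fderiv (by simp)).norm
  obtain ⟨B, hB⟩ := hK.bddAbove_image hc.continuousOn
  have hB' : ∀ x ∈ {x ∈ M | φ x ≤ 2}, ‖fderiv ℝ L x‖ ≤ max B 1 := fun x hx =>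
    (hB ⟨x, hx, rfl⟩).trans (le_max_left _ _)
  have h1 : (0 : ℝ) < max B 1 := lt_of_lt_of_le one_pos (le_max_right _ _)
  refine ⟨1 / (2 * max B 1), by positivity, fun c hcy t => ?_⟩
  obtain ⟨τ, hτ, hp⟩ := hcy.per
  have hm := hcy.mem t
  refine ⟨hm.1, hm.2, ?_⟩
  refine band_le (f := fun s => L (c s)) (τ := τ) (α := 0) (hA.sm.continuous.comp hcy.cont) hτ
    (fun s => by simp only [hp s]) (fun s hs => ?_) t
  have hs' := hcy.mem s
  have hd : DifferentiableAt ℝ L (c s) := hA.sm.differentiable (by simp) _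
  refine ((hcy.near s).comp hd).rd.mono fun a ha => ?_
  have e1 : X (c s) = Z (c s) := hX _ hs'.1 hs'.2 (by linarith)
  have e2 := hA.up _ hs'.1 hs'.2 (by linarith)
  have e3 : ‖fderiv ℝ L (c s)‖ * (1 / (2 * max B 1)) ≤ 1 / 2 := by
    calc ‖fderiv ℝ L (c s)‖ * (1 / (2 * max B 1)) ≤ max B 1 * (1 / (2 * max B 1)) := by
          gcongr
          exact hB' _ hs'
      _ = 1 / 2 := by field_simp
  rw [e1] at ha
  linarith [ha.1]

end Pool.Agent.MP_6d695c_gt.P
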