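import Pool.Agent.MP_6d695c_gt.p.Alg

/-! PROJECT P, row Cyc: the rank argument. -/

open scoped Manifold ContDiff Topology MeasureTheory
open Set Metric Filter Real

namespace Pool.Agent.MP_6d695c_gt.P

open SW T1 Theta

namespace CycAux

/-- a positive lower bound of finitely many positive numbers -/
theorem fin_pos {I : Type} [Finite I] (e : I → ℝ) (h : ∀ i, 0 < e i) :
    ∃ a, 0 < a ∧ ∀ i, a ≤ e i := by
  have h1 : ∀ᶠ a in 𝓝[>] (0 : ℝ), ∀ i, a ≤ e i :=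
    eventually_all.2 fun i => mem_nhdsWithin_of_mem_nhds (Iic_mem_nhds (h i))
  obtain ⟨a, ha, hb⟩ := (h1.and self_mem_nhdsWithin).exists
  exact ⟨a, hb, ha⟩

theorem cyc_mono {X : Type} [NormedAddCommGroup X] [NormedSpace ℝ X] {S : Set X} {Z : X → X}
    {ε ε' : ℝ} {c : ℝ → X} (h : Cyc S Z ε c) (hε : ε ≤ ε') : Cyc S Z ε' c :=
  ⟨h.cont, h.per, h.mem, fun t => (h.near t).mono hε⟩

/-- no function on a finite type increases for ever -/
theorem no_asc {ι : Type} [Finite ι] (rk : ι → ℕ) (Q : ι → Prop) (h0 : ∃ u, Q u)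
    (h : ∀ u, Q u → ∃ c, Q c ∧ rk u < rk c) : False := by
  obtain ⟨u, hu, hm⟩ := Set.exists_max_image {u | Q u} rk (Set.toFinite _) h0
  obtain ⟨c, hc, hlt⟩ := h u hu
  exact absurd (hm c hc) (not_le.2 hlt)

end CycAux

open CycAux in
theorem cyc (hLast : LastStmt) (hPrev : PrevStmt) (hBack : BackStmt) (hNoCyc : NoCycStmt) :
    CycStmt := by
  intro V _ _ _ m M K' K'' l φ Z X fl I _ τ H H₁ S₀ R₀ Cg f₀ κ M₀ b ι _ tw η ζ act col P rk F Λ x₀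
    hf hT hK hKM hX hin hκ hH hC hTow hx₀
  have hρ := hT.ρpos
  have hH10 := hT.Hle
  have th : ∀ {i : I} {k k' : ℝ}, k ≤ k' →
      cthickening (k * τ.ρ) (τ.A i) ⊆ cthickening (k' * τ.ρ) (τ.A i) := fun hk =>
    cthickening_mono (by gcongr) _
  -- continuity of the coordinates
  have hη : ∀ c, Continuous (η c) := fun c => by
    obtain ⟨k, hk⟩ := (hC.nod (tw c)).aut ⟨c, rfl⟩
    exact continuous_snd.comp (hk.sA.continuous.comp (Continuous.prodMk_right (0 : ℝ)))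
  have hu : ∀ c, ∃ δ, 0 < δ ∧ ∀ y ∈ cthickening (8 * τ.ρ) (τ.A (tw c)),
      ∀ y' ∈ cthickening (8 * τ.ρ) (τ.A (tw c)), dist y y' < δ →
        dist (η c y) (η c y') < min 1 (κ / 2) := fun c =>
    Metric.uniformContinuousOn_iff.1 ((hT.cpt (tw c)).cthickening.uniformContinuousOn_of_continuous
      (hη c).continuousOn) _ (lt_min one_pos (half_pos hκ))
  choose δ₀ δp hδ using hu
  obtain ⟨δ, hδ0, hδ1⟩ := fin_pos δ₀ δp
  -- the constants of the towers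
  choose e₁ e₁p dyn using fun j => (hTow j).dyn _ (hT.reg_cpt j 0 (H + 1 / 2) 5)
  have hno : ∀ j, ∃ ε, 0 < ε ∧ ∀ γ, Cyc (τ.reg j 0 (H + 1 / 2) 5) (XY (F j)) ε γ → ∀ t,
      Ps fl (τ.g j) (γ t) = x₀ → γ t ≠ τ.κ j x₀ := fun j => by
    by_cases c : XY (F j) (τ.κ j x₀) = 0
    · refine ⟨1, one_pos, fun γ hγ t h1 h2 => hx₀ j (γ t) (hγ.mem t) ?_ h1⟩
      rwa [h2]
    · obtain ⟨ε, hε, h⟩ := hNoCyc _ (XY (F j)) (Λ j) _ (τ.κ j x₀) ((model m).2.2 _ (hTow j).sF)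
        (hTow j).sΛ (hT.reg_cpt j 0 (H + 1 / 2) 5) (fun x _ => (hTow j).lyap x) c
      exact ⟨ε, hε, fun γ hγ t _ => h γ hγ t⟩
  choose e₂ e₂p hno using hno
  have hb := fun j => hBack V m M K' K'' l φ Z X fl I τ H S₀ (min (e₁ j) (e₂ j)) j (F j) hf hT hK
    hKM (lt_min (e₁p j) (e₂p j)) (hin j)
    (fun x hx => (hTow j).out x (Or.inr (Or.inl (by linarith))))
    (fun γ s t hst hγ hm ht => by
      obtain ⟨c, hc, h1⟩ := hC.cover j _ (th (by norm_num) ht)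
      have h2 := (dyn j γ s t hst (Crv_sub hγ le_rfl le_rfl (min_le_left _ _)) hm ⟨c, hc⟩ h1).1 s
        ⟨le_rfl, hst⟩
      have h3 := norm_le_norm_add_norm_sub' (η c (γ s).2) (η c (γ t).2)
      exact hC.small c _ _ (by dsimp only at h2; linarith) (by linarith))
  choose e₃ e₃p hb using hb
  obtain ⟨e₄, e₄p, he₄⟩ := fin_pos e₃ e₃p
  obtain ⟨e₅, e₅p, last⟩ := hLast V m M K' K'' l φ Z X fl I τ H S₀ hf hT hK hKM hX
  obtain ⟨e₆, e₆p, prev⟩ := hPrev V m M K' K'' l φ Z X fl I τ H S₀ (δ / 2) hf hT hK hKM hX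
    (half_pos hδ0)
  refine ⟨min e₄ (min e₅ e₆), lt_min e₄p (lt_min e₅p e₆p), fun c hc t₀ h0 => ?_⟩
  -- the passage through a tower ends at the bottom
  have back : ∀ t' j, ∀ q ∈ τ.reg j 1 (H + 1 / 2) 4, c t' = Ps fl (τ.g j) q →
      ∃ t ≤ t', (τ.κ j (c t)).1 = 0 ∧ Crv (XY (F j)) (e₁ j) (fun r => τ.κ j (c r)) t t' ∧
        (∀ r ∈ Icc t t', τ.κ j (c r) ∈ τ.reg j 0 (H + 1 / 2) 5) ∧
        (τ.κ j (c t)).2 ∈ cthickening (5 * τ.ρ) (τ.A j) ∧ c t = τ.g j (τ.κ j (c t)).2 := by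
    intro t' j q hq e
    rcases hb j c (cyc_mono hc ((min_le_left _ _).trans (he₄ j))) t' q hq e with
      ⟨t, ht, h1, h2, h3⟩ | ⟨h1, h2⟩
    · refine ⟨t, ht, h1, Crv_sub h2 le_rfl le_rfl (min_le_left _ _), fun r hr => (h3 r hr).1,
        (h3 t ⟨le_rfl, ht⟩).1.2, ?_⟩
      rw [← Ps_zero hf (τ.g j), ← h1]
      exact (h3 t ⟨le_rfl, ht⟩).2.symm
    · exact (hno j _ (cyc_mono h1 (min_le_right _ _)) t₀ ((h2 t₀).2.trans h0) (by rw [h0])).elim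
  refine no_asc rk (fun u => ∃ t, ∃ y ∈ cthickening (5 * τ.ρ) (τ.A (tw u)),
    c t = τ.g (tw u) y ∧ ‖η u y‖ ≤ R₀ + 1) ?_ ?_
  · obtain ⟨t', -, h1, -⟩ := last c
      (cyc_mono hc ((min_le_right _ _).trans (min_le_left _ _))) t₀
    obtain ⟨j, q, hq, e⟩ : ∃ j, ∃ q ∈ τ.reg j 1 (H + 1 / 2) 4, Ps fl (τ.g j) q = c t' := by
      rcases h1 with h1 | h1
      · obtain ⟨j, q, hq, e⟩ := mem_iUnion.1 h1
        exact ⟨j, q, TD.reg_mono hρ.le j (by linarith) le_rfl le_rfl hq, e⟩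
      · obtain ⟨j, q, hq, e⟩ := mem_iUnion.1 h1
        exact ⟨j, q, TD.reg_mono hρ.le j le_rfl (by linarith) (by norm_num) hq, e⟩
    obtain ⟨t, -, -, -, -, h2, h3⟩ := back t' j q hq e.symm
    obtain ⟨u, rfl, h4⟩ := hC.cover j _ (th (by norm_num) h2)
    exact ⟨u, t, _, h2, h3, by linarith⟩
  · rintro u ⟨t, y, hy, e, hu⟩
    obtain ⟨t', -, j, q, hq, e', s, y', lk, hy'⟩ := prev c
      (cyc_mono hc ((min_le_right _ _).trans (min_le_right _ _))) t (tw u) y hy e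
    obtain ⟨w, rfl, hw⟩ := hC.cover j _ (th (by norm_num) hq.2)
    have hd := hδ w y' (th (by norm_num) lk.my') q.2 (th (by norm_num) hq.2) (by
      rw [dist_eq_norm]
      linarith [hδ1 w])
    rw [dist_eq_norm, lt_min_iff] at hd
    obtain ⟨t₁, ht₁, a1, a2, a3, a4, a5⟩ := back t' (tw w) q
      (TD.reg_mono hρ.le _ (by linarith) le_rfl le_rfl hq) e'
    have eq : τ.κ (tw w) (c t') = q := by
      rw [e']
      exact (hT.kap (TD.reg_mono hρ.le _ (by linarith) (by linarith) (by norm_num) hq)).2.2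
    obtain ⟨b1, b2⟩ := dyn (tw w) _ t₁ t' ht₁ a2 a3 ⟨w, rfl⟩ (by rw [eq]; exact hw)
    have b3 := b1 t₁ ⟨le_rfl, ht₁⟩
    dsimp only at b2 b3
    rw [eq] at b2 b3
    refine ⟨w, ⟨t₁, _, a4, a5, ?_⟩, ?_⟩
    · linarith [norm_le_norm_add_norm_sub' (η w (τ.κ (tw w) (c t₁)).2) (η w q.2)]
    have c1 := hC.link ⟨tw u, y, ⌊s / H⌋₊, tw w, hol fl τ (tw u) (tw w) s, exp (-s)⟩
      ⟨s, y', lk, rfl, rfl, rfl⟩ u w rfl rfl hu
    dsimp only at c1
    rw [lk.hol_eq hf hT] at c1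
    refine (c1 (by linarith [norm_le_norm_add_norm_sub' (η w y') (η w q.2)])).resolve_right ?_
    rintro ⟨c2, i, p, hp, c3⟩
    have c4 := b2 a1.le (hH.trans hq.1.1) c2 p (mem_iUnion.2 ⟨i, hp⟩)
    have c5 := norm_sub_le_norm_sub_add_norm_sub (η w q.2) (η w y') p
    rw [norm_sub_rev (η w q.2) (η w y')] at c5
    linarith [hd.2]

end Pool.Agent.MP_6d695c_gt.P
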