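import Pool.Agent.MP_6d695c_gt.p.Alg

/-! PROJECT P, row DarbN: a short chart in which `l = lam0`. -/

open scoped Manifold ContDiff Topology MeasureTheory
open Set Metric Filter Real

namespace Pool.Agent.MP_6d695c_gt.P

open SW SW.Darb T1 T1.Chart Theta

namespace DarbNAux

variable {n : ℕ}

/-- from the symplectisation of the Heisenberg group to the model of Darboux -/
noncomputable def cw (x : ℝ × Y n) : Q n := cv x.2 + x.1 • one n

theorem cw_base : cw ((0, y1 n) : ℝ × Y n) = 0 := by simp [cw, cv_y1]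

theorem sm_cw {x : ℝ × Y n} (hx : x.2 ∈ Up n) : ContDiffAt ℝ ∞ cw x :=
  ((contDiffAt_cv hx).comp x contDiffAt_snd).add (contDiffAt_fst.smul contDiffAt_const)

theorem l0_cw {x : ℝ × Y n} (hx : x.2 ∈ Up n) (v : ℝ × Y n) :
    l0 (cw x) (fderiv ℝ cw x v) = lam0 x v := by
  have d : fderiv ℝ cw x = _ := ((((contDiffAt_cv hx).differentiableAt (by simp)).hasFDerivAt.comp
    x hasFDerivAt_snd).add (hasFDerivAt_fst.smul_const (one n))).fderiv
  rw [Chart.lam0_apply, ← l0_cv hx, d, l0_apply, l0_apply, Finset.mul_sum]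
  refine Finset.sum_congr rfl fun j _ => ?_
  simp [cw, one, exp_add]
  ring

end DarbNAux

open DarbNAux in
theorem darbN : DarbNStmt := by
  intro V _ _ _ m M l Pi φ s h p hp hZ
  have hS := smp_of_amb h
  obtain ⟨g, r, O, N, hP, hN⟩ := h.sub p hp
  obtain ⟨hy, hg⟩ := hP.rm p hp hN
  obtain ⟨n, Θ, sΘ, Θ0, hr, hΘ⟩ := loc hS hP hy (by
    by_contra hc
    push Not at hc
    rw [hg] at hc
    exact hZ (hS.nondeg hp (hS.tan p hp _) fun v hv => (hS.dual p hp _ v hv).trans (hc v hv)))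
  obtain rfl : n = m := by
    rw [finrank_Q] at hr
    simp at hr
    omega
  have hc : ContinuousAt cw ((0, y1 n) : ℝ × Y n) := (sm_cw y1_mem).continuousAt
  obtain ⟨U0, hU0, oU0, yU0⟩ := _root_.eventually_nhds_iff.1 (hc.eventually (cw_base ▸ hΘ))
  have oU := oU0.inter ((isOpen_Up (n := n)).preimage (continuous_snd (X := ℝ)))
  have cf : ∀ x ∈ U0 ∩ Prod.snd ⁻¹' Up n, ContDiffAt ℝ ∞ (Θ ∘ cw) x := fun x hx =>
    sΘ.contDiffAt.comp x (sm_cw hx.2)
  have hF : ∀ x ∈ U0 ∩ Prod.snd ⁻¹' Up n, pb l (g ∘ Θ ∘ cw) x = lam0 x := fun x hx => by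
    obtain ⟨k1, k2⟩ := hU0 x hx.1
    refine ContinuousLinearMap.ext fun v => ?_
    rw [← Function.comp_assoc, pb_comp ((hP.cg k1).comp _ sΘ.contDiffAt) (sm_cw hx.2), pb_apply, k2,
      l0_cw hx.2]
  obtain ⟨κ, O', N', hP', hO, hb⟩ := repar hP oU (fun x hx => (cf x hx).contDiffWithinAt)
    (fun x hx => by
      have k1 := (hU0 x hx.1).1
      have hi : Function.Injective (fderiv ℝ (Θ ∘ cw) x).toLinearMap :=
        (injective_iff_map_eq_zero _).2 fun w hw =>
          (T1.model n).1.nondeg (x := x) trivial (tg_univ _ _) fun v _ => by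
            rw [← dd_congr (eventually_of_mem (oU.mem_nhds hx) hF),
              dd_pb hS.sl.contDiffAt ((hP.cg k1).comp x (cf x hx)),
              fderiv_comp x (hP.dg k1) ((cf x hx).differentiableAt (by simp)),
              ContinuousLinearMap.comp_apply, show fderiv ℝ (Θ ∘ cw) x w = 0 from hw]
            simp [dd]
      exact ⟨k1, ((fderiv ℝ (Θ ∘ cw) x).toLinearMap.linearEquivOfInjective hi (by
        rw [Module.finrank_prod, Chart.finrank_Y]
        simp
        ring)).toContinuousLinearEquiv, ContinuousLinearMap.ext fun _ => rfl⟩)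
    (y := (0, y1 n)) ⟨yU0, y1_mem⟩
  refine ⟨_, κ, O', N', hP', ?_, fun q hq v => ?_⟩
  · simpa [cw_base, Θ0, hg] using (hP'.gm _ hb).2.1
  · rw [← hF q (hO hq), pb_apply]

end Pool.Agent.MP_6d695c_gt.P
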