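import Pool.Agent.MP_6d695c_gt.t1.All

/-! PROJECT P: definitions.  See /team-store/P_6d695c_BLUEPRINT.md. -/

open scoped Manifold ContDiff Topology MeasureTheory
open Set Metric Filter Real

namespace Pool.Agent.MP_6d695c_gt.P

open SW T1 Theta

noncomputable section

/-! ### The hypotheses on the manifold -/

section Mfd
variable {d : ℕ} {W : Type} [TopologicalSpace W] [ChartedSpace (EuclideanSpace ℝ (Fin d)) W]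

/-- `F` is the flow of `Z`. -/
def FlowOf (Z : VField (𝓡 d) W) (F : ℝ → W → W) : Prop :=
  ∀ x, F 0 x = x ∧ IsMIntegralCurve (fun t => F t x) Z

/-- The derivative at `x` in the direction `v` of a map to the model space. -/
def dE (f : W → EuclideanSpace ℝ (Fin d)) (x : W) (v : TangentSpace (𝓡 d) x) :
    EuclideanSpace ℝ (Fin d) := mfderiv (𝓡 d) (𝓡 d) f x v

variable (d) in
/-- Along the orbits in `K` the differential of the backward flow grows at most like `exp (ε t)`;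
the norms are those of the charts at `p` and `q`, for orbits from near `p` to near `q`. -/
def SlowBack (F : ℝ → W → W) (K : Set W) (ε : ℝ) : Prop :=
  ∀ p q : W, ∃ C : ℝ, ∀ᶠ z : W × W in 𝓝 (p, q), z.1 ∈ K → ∀ t : ℝ, 0 ≤ t → F (-t) z.1 = z.2 →
    ∀ v : TangentSpace (𝓡 d) z.1, ‖dE (fun y => extChartAt (𝓡 d) q (F (-t) y)) z.1 v‖ ≤
      C * exp (ε * t) * ‖dE (extChartAt (𝓡 d) p) z.1 v‖

omit [TopologicalSpace W] in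
/-- No point of `K` is fixed or has a period at most `T`. -/
def NoShort (F : ℝ → W → W) (K : Set W) (T : ℝ) : Prop :=
  ∀ x ∈ K, ∀ t : ℝ, 0 < t → t ≤ T → F t x ≠ x

end Mfd

/-! ### The hypotheses in the ambient space -/

section Amb
variable {V : Type} [NormedAddCommGroup V] [NormedSpace ℝ V]

omit [NormedAddCommGroup V] [NormedSpace ℝ V] in
/-- the skeleton -/
def Ksk (M : Set V) (φ : V → ℝ) (fl : ℝ → V → V) : Set V := {x ∈ M | ∀ t, 0 ≤ t → φ (fl t x) ≤ 2}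

/-- slow growth of the backward flow on `ker l / Z` -/
def Rate (M : Set V) (l : V → V →L[ℝ] ℝ) (φ : V → ℝ) (Z : V → V) (fl : ℝ → V → V) (ε : ℝ) :
    Prop :=
  ∃ C : ℝ, ∀ x ∈ Ksk M φ fl, ∀ t, 0 ≤ t → ∀ v ∈ Tg M x, l x v = 0 →
    ∃ a : ℝ, ‖fderiv ℝ (fl (-t)) x v - a • Z (fl (-t) x)‖ ≤ C * exp (ε * t) * ‖v‖

/-- the dual bound for the forward flow -/
def RateF (M : Set V) (l : V → V →L[ℝ] ℝ) (φ : V → ℝ) (Z : V → V) (fl : ℝ → V → V) (ε : ℝ) :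
    Prop :=
  ∃ C : ℝ, ∀ x ∈ Ksk M φ fl, ∀ t, 0 ≤ t → ∀ v ∈ Tg M x, l x v = 0 →
    ∃ a : ℝ, ‖fderiv ℝ (fl t) x v - a • Z (fl t x)‖ ≤ C * exp ((1 + ε) * t) * ‖v‖

omit [NormedAddCommGroup V] [NormedSpace ℝ V] in
/-- no zero and no short closed orbit -/
def Aper (M : Set V) (φ : V → ℝ) (fl : ℝ → V → V) (T : ℝ) : Prop :=
  ∀ x ∈ Ksk M φ fl, ∀ t, 0 < t → t ≤ T → fl t x ≠ x

/-- elementary facts on the flow -/
structure Kin (M : Set V) (φ : V → ℝ) (fl : ℝ → V → V) : Prop where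
  cpt : IsCompact (Ksk M φ fl)
  inv : ∀ x ∈ Ksk M φ fl, ∀ t, fl t x ∈ Ksk M φ fl
  low : ∀ x ∈ Ksk M φ fl, φ x ≤ 1 / 2
  back : ∀ x ∈ M, φ x ≤ 4 → ∀ t, 0 ≤ t → φ (fl (-t) x) ≤ max (φ x) (1 / 2)
  per : ∀ x ∈ M, φ x ≤ 2 → ∀ t, 0 < t → fl t x = x → x ∈ Ksk M φ fl

/-- the flow scales `l` and `d l` -/
def Lie (M : Set V) (l : V → V →L[ℝ] ℝ) (φ : V → ℝ) (fl : ℝ → V → V) : Prop :=
  ∀ x ∈ M, ∀ t, (∀ s ∈ uIcc 0 t, φ (fl s x) < 4) → ∀ v ∈ Tg M x,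
    fderiv ℝ (fl t) x v ∈ Tg M (fl t x) ∧ l (fl t x) (fderiv ℝ (fl t) x v) = exp t * l x v ∧
    ∀ w ∈ Tg M x, dd l (fl t x) (fderiv ℝ (fl t) x v) (fderiv ℝ (fl t) x w) = exp t * dd l x v w

omit [NormedAddCommGroup V] [NormedSpace ℝ V] in
/-- a sublevel set of `L` -/
def Kl (M : Set V) (φ L : V → ℝ) (c : ℝ) : Set V := {x ∈ M | φ x ≤ 2 ∧ L x ≤ c}

/-- a function that grows like the time outside a small neighbourhood of the skeleton -/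
structure Attr (M : Set V) (φ : V → ℝ) (Z : V → V) (fl : ℝ → V → V) (U : Set V) (L : V → ℝ) :
    Prop where
  sm : ContDiff ℝ ∞ L
  sub : Kl M φ L 1 ⊆ U
  up : ∀ x ∈ M, φ x ≤ 2 → -1 ≤ L x → 1 ≤ fderiv ℝ L x (Z x)
  back : ∀ x ∈ M, φ x ≤ 2 → ∀ t, 0 ≤ t → L (fl (-t) x) ≤ max (L x - t) (-1)

/-- a two-sided Lyapunov form on `ker l / Z` over `U`; the bounds hold on `K` up to the time `S` -/
structure LyQ (M : Set V) (l : V → V →L[ℝ] ℝ) (Z : V → V) (fl : ℝ → V → V) (S : ℝ) (U K : Set V)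
    (c : ℝ) (Q : V → V →L[ℝ] V →L[ℝ] ℝ) : Prop where
  cont : ContinuousOn Q U
  symm : ∀ x v w, Q x v w = Q x w v
  nn : ∀ x v, 0 ≤ Q x v v
  kill : ∀ x ∈ U, ∀ v, Q x (Z x) v = 0
  pos : ∀ x ∈ U, ∀ v, Q x v v = 0 → ∃ a : ℝ, v = a • Z x
  bd : ∀ x ∈ M, x ∈ K → ∀ t ∈ Icc 0 S, fl (-t) x ∈ K → ∀ v ∈ Tg M x, l x v = 0 →
    Q (fl (-t) x) (fderiv ℝ (fl (-t)) x v) (fderiv ℝ (fl (-t)) x v) ≤ c * Q x v v ∧
    exp (-t) ^ 2 * Q x v v ≤ c * Q (fl (-t) x) (fderiv ℝ (fl (-t)) x v) (fderiv ℝ (fl (-t)) x v)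

end Amb

/-! ### Homomorphisms of the Heisenberg group -/

/-- the horizontal space -/
abbrev Hor (m : ℕ) : Type := (Fin m → ℝ) × (Fin m → ℝ)

/-- parameters of a sheet -/
abbrev Sp (m : ℕ) : Type := Y m × (Hor m →L[ℝ] Hor m) × ℝ

section Heis
variable {m : ℕ}

/-- `db ∧ dq` -/
def om (u v : Hor m) : ℝ := ∑ j, (u.2 j * v.1 j - u.1 j * v.2 j)

/-- half of `q · b` -/
def hq (u : Hor m) : ℝ := (∑ j, u.1 j * u.2 j) / 2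

/-- the complex structure -/
def JH (u : Hor m) : Hor m := (u.2, -u.1)

/-- `A` is conformally symplectic with the factor `f` -/
def Sym (A : Hor m →L[ℝ] Hor m) (f : ℝ) : Prop := ∀ u v, om (A u) (A v) = f * om u v

/-- the homomorphism with horizontal part `A` and vertical part `f` -/
def hom (A : Hor m →L[ℝ] Hor m) (f : ℝ) (y : Y m) : Y m := (f * (y.1 + hq y.2) - hq (A y.2), A y.2)

/-- the horizontal part of the differential of `h` at `y` -/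
def hA (h : Y m → Y m) (y : Y m) : Hor m →L[ℝ] Hor m :=
  (ContinuousLinearMap.snd ℝ ℝ (Hor m)).comp ((fderiv ℝ h y).comp
    ((Lt y).comp (ContinuousLinearMap.inr ℝ ℝ (Hor m))))

/-- coordinates of size `s` centred at `c` -/
def eta (s : ℝ) (c : Y m) (B' : Hor m →L[ℝ] Hor m) (y : Y m) : Y m :=
  dil s⁻¹ (hom B' 1 (ldiv c y))

/-- the inverse map -/
def zeta (s : ℝ) (c : Y m) (B : Hor m →L[ℝ] Hor m) (y : Y m) : Y m := mul c (hom B 1 (dil s y))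

/-- a sheet -/
def Sh (R : ℝ) (p : Sp m) : Set (Y m) :=
  (fun y => mul p.1 (hom p.2.1 p.2.2 y)) '' closedBall 0 R

/-- admissible parameters -/
def GoodP (C f₀ : ℝ) (p : Sp m) : Prop :=
  ‖p.1‖ ≤ C ∧ ‖p.2.1‖ ≤ C ∧ Sym p.2.1 p.2.2 ∧ 0 ≤ p.2.2 ∧ p.2.2 ≤ f₀

/-- a symplectic frame in which the form `q` commutes with the complex structure -/
structure Adp (q : Hor m →L[ℝ] Hor m →L[ℝ] ℝ) (B B' : Hor m →L[ℝ] Hor m) : Prop where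
  symm : ∀ u v, q u v = q v u
  pos : ∀ u, u ≠ 0 → 0 < q u u
  sym : Sym B 1
  li : ∀ u, B' (B u) = u
  ri : ∀ u, B (B' u) = u
  cm : ∀ u, q (B (JH u)) (B (JH u)) = q (B u) (B u)

/-- frames over `A` -/
structure Fr (A : Set (Y m)) (B B' : Y m → Hor m →L[ℝ] Hor m) (C Cb : ℝ) : Prop where
  one : 1 ≤ C
  sym : ∀ y ∈ A, Sym (B y) 1
  li : ∀ y ∈ A, ∀ u, B' y (B y u) = u
  ri : ∀ y ∈ A, ∀ u, B y (B' y u) = u
  bd : ∀ y ∈ A, ‖y‖ ≤ C ∧ ‖B y‖ ≤ C ∧ ‖B' y‖ ≤ C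
  near : ∀ y ∈ A, ∀ y' ∈ A, ‖y - y'‖ ≤ C⁻¹ → ‖(B' y).comp (B y')‖ ≤ Cb

/-- a contact map near `y` with bounds; `f` is the conformal factor at `y` -/
structure Ctc (C : ℝ) (h : Y m → Y m) (y : Y m) (f : ℝ) : Prop where
  sm : ContDiff ℝ ∞ h
  b0 : ‖y‖ ≤ C ∧ ‖h y‖ ≤ C
  b1 : ∀ z, ‖z - y‖ ≤ C⁻¹ → ‖fderiv ℝ h z‖ ≤ C ∧ ‖fderiv ℝ (fderiv ℝ h) z‖ ≤ C
  ct : ∃ e : Y m → ℝ, e y = f ∧
    ∀ z, ‖z - y‖ ≤ C⁻¹ → ∀ v, al0 (h z) (fderiv ℝ h z v) = e z * al0 z v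

/-! ### Traps in the model -/

/-- a trap that is slow for all functions of bounded slope -/
def RawP (U : Set (Y m)) (Cu η T B : ℝ) (C O : Set (Y m)) (f Λ : ℝ × Y m → ℝ) : Prop :=
  ∀ u : Y m → ℝ, ContDiff ℝ ∞ u → (∀ y, ‖nab u y‖ ≤ Cu) → ∃ Ξ E, Raw U u η T B C O f Λ Ξ E

/-- `u` decreases along the field of `f` -/
def Mono (f u : ℝ × Y m → ℝ) : Prop := ContDiff ℝ ∞ u ∧ ∀ x, fderiv ℝ u x (XY f x) ≤ 0

/-- a Hamiltonian over the compact set `C` between the heights `a` and `b` -/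
structure Pl (C : Set (Y m)) (a b : ℝ) (f Λ : ℝ × Y m → ℝ) : Prop where
  sf : ContDiff ℝ ∞ f
  sΛ : ContDiff ℝ ∞ Λ
  cpt : IsCompact C
  out : ∀ x : ℝ × Y m, x.1 ≤ a + 1 ∨ b - 1 ≤ x.1 ∨ x.2 ∉ C → f x = 0
  lyap : ∀ x, Ly univ (XY f) Λ x
  bd : ∃ B, ∀ x, |Λ x - x.1| ≤ B

/-- nodes of one tower: coordinates `η c` with inverse `ζ c` -/
structure Nod {ι : Type} (η ζ : ι → Y m → Y m) (R Cg : ℝ) : Prop where
  aut : ∀ c, ∃ k, Aut k (fun x : ℝ × Y m => (x.1, η c x.2)) fun x => (x.1, ζ c x.2)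
  slope : ∀ c c', (∃ y, ‖η c y‖ ≤ R ∧ ‖η c' y‖ ≤ R) → ∀ ψ : Y m → ℝ, ContDiff ℝ ∞ ψ → ∀ y,
    ‖nab (fun y => ψ (η c' (ζ c y))) y‖ ≤ Cg * ‖nab ψ (η c' (ζ c y))‖

/-- what a stack of traps between the heights `a` and `b` does: `Ra` is the radius in which the
curves are controlled, `R` bounds the supports, `β` the kicks, `κ` is the margin -/
structure Tow {ι : Type} (η : ι → Y m → Y m) (act : ι → Prop) (Γ : ι → Set (Y m))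
    (Ra R β κ a b : ℝ) (F Λ : ℝ × Y m → ℝ) : Prop where
  le : a ≤ b
  sF : ContDiff ℝ ∞ F
  sΛ : ContDiff ℝ ∞ Λ
  out : ∀ x : ℝ × Y m, x.1 ≤ a + 1 ∨ b - 1 ≤ x.1 ∨ (∀ c, act c → R ≤ ‖η c x.2‖) → F x = 0
  lyap : ∀ x, Ly univ (XY F) Λ x
  bd : ∃ B, ∀ x, |Λ x - x.1| ≤ B
  dyn : ∀ Ω : Set (ℝ × Y m), IsCompact Ω → ∃ ε, 0 < ε ∧ ∀ (γ : ℝ → ℝ × Y m) (s t : ℝ), s ≤ t →
    Crv (XY F) ε γ s t → (∀ r ∈ Icc s t, γ r ∈ Ω) → ∀ c, ‖η c (γ t).2‖ ≤ Ra →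
      (∀ r ∈ Icc s t, ‖η c (γ r).2 - η c (γ t).2‖ ≤ β) ∧
      ((γ s).1 ≤ a → b ≤ (γ t).1 → act c → ∀ p ∈ Γ c, κ ≤ ‖η c (γ t).2 - p‖)

/-! ### Link systems and configurations -/

/-- a link: the backward flow leads from `y` in the tower `i` to `h y` in the tower `j` -/
structure Lk (I : Type) (m : ℕ) where
  i : I
  y : Y m
  k : ℕ
  j : I
  h : Y m → Y m
  f : ℝ

/-- an abstract system of links between the sets `A i` -/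
structure Sys {I : Type} (A : I → Set (Y m)) (ρ : ℝ) (B B' : I → Y m → Hor m →L[ℝ] Hor m)
    (𝓛 : Set (Lk I m)) (C Cb f₀ : ℝ) (nb ne : ℕ) : Prop where
  cpt : ∀ i, IsCompact (A i)
  le : C⁻¹ ≤ ρ
  fr : ∀ i, Fr (cthickening (8 * ρ) (A i)) (B i) (B' i) C Cb
  mem : ∀ e ∈ 𝓛, e.y ∈ cthickening (7 * ρ) (A e.i) ∧ e.h e.y ∈ cthickening (7 * ρ) (A e.j) ∧
    e.k < nb ∧ 0 < e.f ∧ e.f ≤ f₀
  ctc : ∀ e ∈ 𝓛, Ctc C e.h e.y e.f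
  nrm : ∀ e ∈ 𝓛, ‖(B' e.j (e.h e.y)).comp ((hA e.h e.y).comp (B e.i e.y))‖ ≤ Cb
  coh : ∀ e ∈ 𝓛, ∀ e' ∈ 𝓛, e.i = e'.i → e.k = e'.k → ‖e.y - e'.y‖ ≤ C⁻¹ →
    e.j = e'.j ∧ e.h e'.y = e'.h e'.y
  edge : ∀ e : ℕ → Lk I m, (∀ a < ne, e a ∈ 𝓛) →
    (∀ a, a + 1 < ne → (e a).j = (e (a + 1)).i ∧ ‖(e a).h (e a).y - (e (a + 1)).y‖ ≤ C⁻¹) →
    ∃ a < ne, (e a).h (e a).y ∈ cthickening ρ (A (e a).j)

/-- nodes of all towers (without the ranks) -/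
structure Nods {I ι : Type} (A : I → Set (Y m)) (ρ : ℝ) (B B' : I → Y m → Hor m →L[ℝ] Hor m)
    (s R₀ R : ℝ) (M₀ : ℕ) (tw : ι → I) (ce : ι → Y m) (col : ι → ℕ) : Prop where
  mem : ∀ c, ce c ∈ cthickening (8 * ρ) (A (tw c))
  cover : ∀ i, ∀ y ∈ cthickening (8 * ρ) (A i), ∃ c, tw c = i ∧
    ‖eta s (ce c) (B' i (ce c)) y‖ ≤ R₀
  pack : ∀ i, ∀ y ∈ cthickening (8 * ρ) (A i),
    {c | tw c = i ∧ ‖eta s y (B' i y) (ce c)‖ ≤ R}.ncard ≤ M₀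
  lt : ∀ c, col c < M₀ + 1
  sep : ∀ c c', c ≠ c' → tw c = tw c' → col c = col c' → ∀ y,
    ‖eta s (ce c) (B' (tw c) (ce c)) y‖ ≤ R₀ + 4 → R₀ + 4 < ‖eta s (ce c') (B' (tw c') (ce c')) y‖

/-- the configuration of nodes, lists of sheets and ranks -/
structure Cfg {I ι : Type} (A : I → Set (Y m)) (ρ : ℝ) (𝓛 : Set (Lk I m)) (R₀ Cg f₀ κ : ℝ)
    (M₀ b : ℕ) (tw : ι → I) (η ζ : ι → Y m → Y m) (act : ι → Prop) (col : ι → ℕ)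
    (P : ι → Fin b → Sp m) (rk : ι → ℕ) : Prop where
  nod : ∀ i, Nod (fun c : {c // tw c = i} => η c) (fun c => ζ c) (R₀ + 4) Cg
  lt : ∀ c, col c < M₀
  sep : ∀ c c', c ≠ c' → tw c = tw c' → col c = col c' → ∀ y,
    ‖η c y‖ ≤ R₀ + 4 → R₀ + 4 < ‖η c' y‖
  good : ∀ c i, GoodP Cg f₀ (P c i)
  cover : ∀ i, ∀ y ∈ cthickening (8 * ρ) (A i), ∃ c, tw c = i ∧ ‖η c y‖ ≤ R₀
  small : ∀ c y y', ‖η c y‖ ≤ R₀ + 4 → ‖η c y'‖ ≤ R₀ + 4 → ‖y - y'‖ ≤ ρ / 2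
  supp : ∀ c y, act c → ‖η c y‖ ≤ R₀ + 4 → y ∈ cthickening (3 * ρ) (A (tw c))
  link : ∀ e ∈ 𝓛, ∀ u c, tw u = e.i → tw c = e.j → ‖η u e.y‖ ≤ R₀ + 1 →
    ‖η c (e.h e.y)‖ ≤ R₀ + 1 →
    rk u < rk c ∨ (act c ∧ ∃ i, ∃ p ∈ Sh Cg (P c i), ‖η c (e.h e.y) - p‖ ≤ κ / 2)

end Heis

/-! ### Boxes and towers -/

section Box
variable {m : ℕ} {V : Type} [NormedAddCommGroup V] [NormedSpace ℝ V]

omit [NormedAddCommGroup V] [NormedSpace ℝ V] in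
/-- the flow box over `g` -/
def Ps (fl : ℝ → V → V) (g : Y m → V) (q : ℝ × Y m) : V := fl q.1 (g q.2)

/-- a flow box in which `l = lam0` -/
structure Box (M : Set V) (l : V → V →L[ℝ] ℝ) (φ : V → ℝ) (fl : ℝ → V → V) (g : Y m → V)
    (κ : V → ℝ × Y m) (a b : ℝ) (D : Set (Y m)) (N : Set V) : Prop where
  sg : ContDiff ℝ ∞ g
  sκ : ContDiff ℝ ∞ κ
  oD : IsOpen D
  par : Par M (Ps fl g) κ (Ioo a b ×ˢ D) N
  form : ∀ q ∈ Ioo a b ×ˢ D, ∀ v, l (Ps fl g q) (fderiv ℝ (Ps fl g) q v) = lam0 q v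
  low : ∀ q ∈ Ioo a b ×ˢ D, φ (Ps fl g q) < 1

/-- data of finitely many towers -/
structure TD (V : Type) (m : ℕ) (I : Type) where
  g : I → Y m → V
  κ : I → V → ℝ × Y m
  D : I → Set (Y m)
  N : I → Set V
  A : I → Set (Y m)
  ρ : ℝ

omit [NormedAddCommGroup V] [NormedSpace ℝ V] in
/-- the part of the tower `i` between the heights `a`, `b` over the `k ρ`-neighbourhood of the
core -/
def TD.reg {I : Type} (τ : TD V m I) (i : I) (a b k : ℝ) : Set (ℝ × Y m) :=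
  Icc a b ×ˢ cthickening (k * τ.ρ) (τ.A i)

/-- disjoint towers of height `H` inside `K'` whose cores meet the backward orbits of `K'` -/
structure Tw (M : Set V) (l : V → V →L[ℝ] ℝ) (φ : V → ℝ) (fl : ℝ → V → V) {I : Type}
    (τ : TD V m I) (K' K'' : Set V) (H S₀ : ℝ) : Prop where
  Hle : 10 ≤ H
  ρpos : 0 < τ.ρ
  box : ∀ i, Box M l φ fl (τ.g i) (τ.κ i) (-2) (H + 2) (τ.D i) (τ.N i)
  cpt : ∀ i, IsCompact (τ.A i)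
  sub : ∀ i, cthickening (10 * τ.ρ) (τ.A i) ⊆ τ.D i
  disj : ∀ i j, i ≠ j → ∀ q ∈ τ.reg i (-1) (H + 1) 10, ∀ q' ∈ τ.reg j (-1) (H + 1) 10,
    Ps fl (τ.g i) q ≠ Ps fl (τ.g j) q'
  ins : ∀ i, ∀ q ∈ τ.reg i (-1) (H + 1) 10, Ps fl (τ.g i) q ∈ K''
  inK : K'' ⊆ K'
  back : ∀ x ∈ K', ∀ t, 0 ≤ t → fl (-t) x ∈ K'
  cover : ∀ x ∈ K', ∃ t ∈ Icc 1 S₀, ∃ i, ∃ y ∈ τ.A i, fl (-t) x = τ.g i y

omit [NormedAddCommGroup V] [NormedSpace ℝ V] in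
/-- the holonomy -/
def hol {I : Type} (fl : ℝ → V → V) (τ : TD V m I) (i j : I) (t : ℝ) (y : Y m) : Y m :=
  (τ.κ j (fl (-t) (τ.g i y))).2

/-- a true backward orbit from the bottom of the tower `i` to the bottom of the tower `j` that
crosses no core on the way -/
structure ALk {I : Type} (fl : ℝ → V → V) (τ : TD V m I) (H S : ℝ) (i : I) (y : Y m) (t : ℝ)
    (j : I) (y' : Y m) : Prop where
  my : y ∈ cthickening (7 * τ.ρ) (τ.A i)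
  my' : y' ∈ cthickening (7 * τ.ρ) (τ.A j)
  mt : t ∈ Icc (H - 1) S
  hit : fl (-t) (τ.g i y) = τ.g j y'
  avoid : ∀ s ∈ Icc (1 / 2) t, ∀ k, ∀ q ∈ τ.reg k (-(3 / 8)) (-(1 / 8)) 1,
    fl (-s) (τ.g i y) ≠ Ps fl (τ.g k) q

omit [NormedAddCommGroup V] [NormedSpace ℝ V] in
/-- the links of a system of towers -/
def links {I : Type} (fl : ℝ → V → V) (τ : TD V m I) (H S : ℝ) : Set (Lk I m) :=
  {e | ∃ t y', ALk fl τ H S e.i e.y t e.j y' ∧ e.k = ⌊t / H⌋₊ ∧ e.h = hol fl τ e.i e.j t ∧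
    e.f = exp (-t)}

omit [NormedAddCommGroup V] [NormedSpace ℝ V] in
/-- the region where the Hamiltonian acts -/
def Supp {I : Type} (fl : ℝ → V → V) (τ : TD V m I) (H : ℝ) : Set V :=
  ⋃ i, Ps fl (τ.g i) '' τ.reg i 1 (H - 1) 3

omit [NormedAddCommGroup V] [NormedSpace ℝ V] in
/-- the slabs on top of the towers -/
def Top {I : Type} (fl : ℝ → V → V) (τ : TD V m I) (H : ℝ) : Set V :=
  ⋃ i, Ps fl (τ.g i) '' τ.reg i H (H + 1 / 2) 4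

/-- the total Hamiltonian -/
structure Glob (M : Set V) (l : V → V →L[ℝ] ℝ) (Pi : V → (V →L[ℝ] ℝ) →L[ℝ] V)
    (fl : ℝ → V → V) {I : Type} (τ : TD V m I) (H : ℝ) (F : I → ℝ × Y m → ℝ) (G : V → ℝ) :
    Prop where
  sm : ContDiff ℝ ∞ G
  out : ∀ x ∈ M, x ∉ Supp fl τ H → ∀ᶠ x' in 𝓝[M] x, G x' = 0
  ins : ∀ i, ∀ q ∈ τ.reg i (-1) (H + 1) 9,
    fderiv ℝ (τ.κ i) (Ps fl (τ.g i) q) (Pi (Ps fl (τ.g i) q)
      (l (Ps fl (τ.g i) q) + fderiv ℝ G (Ps fl (τ.g i) q))) = XY (F i) q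
  zer : ∃ 𝒵 : Set V, 𝒵.Finite ∧
    (∀ p ∈ 𝒵, p ∈ M ∧ ∃ u, GoodWith M (fun x => Pi x (l x + fderiv ℝ G x)) p u) ∧
    ∀ i, ∀ q ∈ τ.reg i 0 (H + 1 / 2) 5, XY (F i) q = 0 → Ps fl (τ.g i) q ∈ 𝒵

end Box

/-- the return time of the markers -/
def Sret (m : ℕ) (H : ℝ) : ℝ := (2 * m + 2) * (2 * H + 10) + 4

end

end Pool.Agent.MP_6d695c_gt.P
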