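import Pool.Agent.MP_6d695c_gt.p.Alg

/-! PROJECT P, row Dual: the forward bound follows from the backward bound. -/

open scoped Manifold ContDiff Topology MeasureTheory
open Set Metric Filter Real

namespace Pool.Agent.MP_6d695c_gt.P

open SW T1 Theta

namespace DualAux

variable {V : Type} [NormedAddCommGroup V] [NormedSpace ℝ V]

/-- the distance to a line is the value of a functional that kills the line -/
theorem hb (w z : V) : ∃ β : V →L[ℝ] ℝ, ‖β‖ ≤ 1 ∧ β z = 0 ∧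
    ∀ e : ℝ, 0 < e → ∃ a : ℝ, ‖w - a • z‖ < β w + e := by
  let S : Submodule ℝ V := Submodule.span ℝ {z}
  have : IsClosed (S : Set V) := Submodule.closed_of_finiteDimensional S
  obtain ⟨g, g1, g2⟩ := exists_dual_vector'' ℝ (Submodule.Quotient.mk w : V ⧸ S)
  let q : V →L[ℝ] V ⧸ S := S.mkQ.mkContinuous 1 fun u => by
    rw [one_mul]
    exact Submodule.Quotient.norm_mk_le S u
  have hq : ∀ u, q u = Submodule.Quotient.mk u := fun _ => rfl
  refine ⟨g.comp q, ?_, ?_, fun e he => ?_⟩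
  · refine ContinuousLinearMap.opNorm_le_bound _ zero_le_one fun u => ?_
    rw [ContinuousLinearMap.comp_apply, hq]
    exact (g.le_opNorm _).trans
      (mul_le_mul g1 (Submodule.Quotient.norm_mk_le S u) (norm_nonneg _) zero_le_one)
  · rw [ContinuousLinearMap.comp_apply, hq,
      (Submodule.Quotient.mk_eq_zero S).2 (Submodule.mem_span_singleton_self z), map_zero]
  · obtain ⟨u, h1, h2⟩ := Submodule.Quotient.norm_mk_lt (Submodule.Quotient.mk w : V ⧸ S) he
    obtain ⟨a, ha⟩ := Submodule.mem_span_singleton.1 ((Submodule.Quotient.eq S).1 h1.symm)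
    refine ⟨a, ?_⟩
    rw [ha, sub_sub_cancel, ContinuousLinearMap.comp_apply, hq, g2]
    exact h2

theorem dd_le (l : V → V →L[ℝ] ℝ) (x u v : V) :
    dd l x u v ≤ 2 * ‖fderiv ℝ l x‖ * ‖u‖ * ‖v‖ := by
  have h1 := (fderiv ℝ l x).le_opNorm₂ u v
  have h2 := (fderiv ℝ l x).le_opNorm₂ v u
  rw [Real.norm_eq_abs] at h1 h2
  have h3 := le_abs_self (fderiv ℝ l x u v)
  have h4 := neg_abs_le (fderiv ℝ l x v u)
  rw [dd]
  nlinarith

theorem back {Z : V → V} {fl : ℝ → V → V} (hf : IsFlow Z fl) (t : ℝ) (x v : V) :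
    fderiv ℝ (fl (-t)) (fl t x) (fderiv ℝ (fl t) x v) = v := by
  have h1 := ((Lie.flow_sm hf t).differentiable (by simp) x).hasFDerivAt
  have h2 := ((Lie.flow_sm hf (-t)).differentiable (by simp) (fl t x)).hasFDerivAt
  have h3 := (h2.comp x h1).fderiv
  have e : fl (-t) ∘ fl t = id := funext fun y => by
    rw [Function.comp_apply, ← hf.add, neg_add_cancel, hf.zero, id]
  rw [e, fderiv_id] at h3
  exact (congrArg (fun L : V →L[ℝ] V => L v) h3).symm

end DualAux

open DualAux in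
theorem dualP : DualStmt := by
  intro V E _ _ _ _ _ M l Pi φ Z fl ε hA hc hK hL ⟨C, hC⟩
  obtain ⟨B1, hB1⟩ := hK.cpt.exists_bound_of_continuousOn
    (hA.sl.continuous_fderiv (by simp)).continuousOn
  obtain ⟨B2, hB2⟩ : ∃ B, ∀ y ∈ Ksk M φ fl, ‖Pi y‖ ≤ B :=
    hK.cpt.exists_bound_of_continuousOn (f := Pi) hA.sP.continuous.continuousOn
  refine ⟨2 * B1 * (|C| * B2) + 1, fun x hx t ht v hv hl => ?_⟩
  by_cases v0 : v = 0
  · exact ⟨0, by simp [v0]⟩
  have vp : 0 < ‖v‖ := norm_pos_iff.2 v0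
  have hx' := hK.inv x hx t
  have low : ∀ y ∈ Ksk M φ fl, ∀ r s, s ∈ uIcc 0 r → φ (fl s y) < 4 := fun y hy r s _ =>
    (hK.low _ (hK.inv y hy s)).trans_lt (by norm_num)
  have eZ : ∀ y ∈ Ksk M φ fl, Z y = Pi y (l y) := fun y hy =>
    hc.eq y hy.1 ((hK.low y hy).trans (by norm_num))
  have ex : fl (-t) (fl t x) = x := by rw [← hc.flow.add, neg_add_cancel, hc.flow.zero]
  obtain ⟨β, b1, b2, b3⟩ := hb (fderiv ℝ (fl t) x v) (Z (fl t x))
  have tw' := (hL x hx.1 t (low x hx t) v hv).1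
  have tw := hA.tan _ hx'.1 β
  have lw : l (fl t x) (Pi (fl t x) β) = 0 := by
    have h1 := hA.dual _ hx'.1 (l (fl t x)) _ tw
    have h2 := hA.dual _ hx'.1 β _ (hA.tan _ hx'.1 (l (fl t x)))
    rw [← eZ _ hx'] at h1 h2
    rw [b2] at h2
    simp only [dd] at h1 h2
    linarith
  obtain ⟨a, ha⟩ := hC _ hx' t ht _ tw lw
  have h5 := (hL _ hx'.1 (-t) (low _ hx' (-t)) _ tw).2.2 _ tw'
  rw [back hc.flow, ex, hA.dual _ hx'.1 β _ tw'] at h5
  rw [ex] at ha
  have h6 : dd l x (Z x) v = 0 := by rw [eZ x hx, hA.dual x hx.1 _ v hv, hl]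
  set u := fderiv ℝ (fl (-t)) (fl t x) (Pi (fl t x) β) with hu
  have h7 : dd l x (u - a • Z x) v = dd l x u v := by
    simp only [dd, map_sub, map_smul, sub_apply, smul_apply, smul_eq_mul]
      at h6 ⊢
    linear_combination (-a) * h6
  have h8 : β (fderiv ℝ (fl t) x v) = exp t * dd l x (u - a • Z x) v := by
    rw [h7, h5, ← mul_assoc, ← exp_add, add_neg_cancel, exp_zero, one_mul]
  have nw : ‖Pi (fl t x) β‖ ≤ B2 := ((Pi (fl t x)).le_opNorm β).trans
    ((mul_le_of_le_one_right (norm_nonneg _) b1).trans (hB2 _ hx'))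
  have p1 : 0 ≤ B1 := (norm_nonneg _).trans (hB1 x hx)
  have h9 : ‖u - a • Z x‖ ≤ |C| * exp (ε * t) * B2 := ha.trans
    (mul_le_mul (mul_le_mul_of_nonneg_right (le_abs_self C) (exp_pos _).le) nw (norm_nonneg _)
      (by positivity))
  have h10 : dd l x (u - a • Z x) v ≤ 2 * B1 * (|C| * exp (ε * t) * B2) * ‖v‖ :=
    (dd_le l x _ v).trans (mul_le_mul_of_nonneg_right (mul_le_mul
      (mul_le_mul_of_nonneg_left (hB1 x hx) zero_le_two) h9 (norm_nonneg _) (by positivity))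
      vp.le)
  obtain ⟨a', ha'⟩ := b3 (exp ((1 + ε) * t) * ‖v‖) (by positivity)
  refine ⟨a', ha'.le.trans ?_⟩
  have e : exp ((1 + ε) * t) = exp t * exp (ε * t) := by rw [← exp_add]; ring_nf
  have h11 := mul_le_mul_of_nonneg_left h10 (exp_pos t).le
  rw [h8, e]
  linarith

end Pool.Agent.MP_6d695c_gt.P
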