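import Pool.Agent.MP_6d695c_gt.p.Alg

/-! PROJECT P: a long chain of links meets a core. -/

open scoped Manifold ContDiff Topology MeasureTheory
open Set Metric Filter Real

namespace Pool.Agent.MP_6d695c_gt.P

open SW T1 Theta

namespace EdgeAux

theorem uc {X X' : Type} [PseudoMetricSpace X] [PseudoMetricSpace X'] {f : X → X'}
    (hf : Continuous f) {C : Set X} (hC : IsCompact C) {ε : ℝ} (hε : 0 < ε) :
    ∃ δ, 0 < δ ∧ ∀ x ∈ C, ∀ x', dist x x' ≤ δ → dist (f x) (f x') ≤ ε := by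
  obtain ⟨δ, h0, h1⟩ := mem_uniformity_dist.1 (hC.uniformContinuousAt_of_continuousAt f
    (fun _ _ => hf.continuousAt) (dist_mem_uniformity hε))
  exact ⟨δ / 2, by positivity, fun x hx x' h =>
    le_of_lt (h1 (a := x) (b := x') (by linarith) hx)⟩

variable {V : Type} [NormedAddCommGroup V] [NormedSpace ℝ V] {Z : V → V} {fl : ℝ → V → V}

/-- a chain of pieces of orbits with small jumps is close to one orbit -/
theorem chain (hf : IsFlow Z fl) {C : Set V} (hC : IsCompact C) (S : ℝ) (n : ℕ) :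
    ∀ ε : ℝ, 0 < ε → ∃ η, 0 < η ∧ ∀ (p : ℕ → V) (t : ℕ → ℝ), ∀ a ≤ n, (∀ b ≤ a, p b ∈ C) →
      (∀ b < a, t b ∈ Icc 0 S ∧ dist (fl (-t b) (p b)) (p (b + 1)) ≤ η) → ∀ s ∈ Icc 0 S,
      dist (fl (-s) (p a)) (fl (-(∑ b ∈ Finset.range a, t b + s)) (p 0)) ≤ ε := by
  induction n with
  | zero =>
    intro ε hε
    refine ⟨1, one_pos, fun p t a ha _ _ s _ => ?_⟩
    obtain rfl : a = 0 := by omega
    simpa using hε.le
  | succ n ih =>
    intro ε hε
    obtain ⟨η₀, h0, H0⟩ := uc hf.sm.continuous ((isCompact_Icc (a := -S) (b := 0)).prod hC) hε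
    obtain ⟨η₁, h1, H1⟩ := ih (min ε (η₀ / 2)) (by positivity)
    refine ⟨min η₁ (η₀ / 2), by positivity, fun p t a ha hp ht s hs => ?_⟩
    rcases Nat.lt_or_ge a (n + 1) with h | h
    · exact (H1 p t a (by omega) hp (fun b hb => ⟨(ht b hb).1, (ht b hb).2.trans (min_le_left _ _)⟩)
        s hs).trans (min_le_left _ _)
    · obtain rfl : a = n + 1 := by omega
      have e1 := (H1 p t n le_rfl (fun b hb => hp b (by omega)) (fun b hb => ⟨(ht b (by omega)).1,
        (ht b (by omega)).2.trans (min_le_left _ _)⟩) _ (ht n (by omega)).1).trans (min_le_right _ _)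
      have e2 := (ht n (by omega)).2.trans (min_le_right _ _)
      have e3 := dist_triangle_left (p (n + 1)) (fl (-(∑ b ∈ Finset.range n, t b + t n)) (p 0))
        (fl (-t n) (p n))
      have := H0 (-s, p (n + 1)) ⟨⟨by linarith [hs.2], by linarith [hs.1]⟩, hp _ le_rfl⟩
        (-s, fl (-(∑ b ∈ Finset.range n, t b + t n)) (p 0))
        (by rw [Prod.dist_eq, dist_self]; exact max_le h0.le (by linarith))
      simp only [← hf.add] at this
      rw [Finset.sum_range_succ]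
      convert this using 3
      ring

end EdgeAux

open EdgeAux in
theorem edge (hNbr : NbrStmt) : EdgeStmt := by
  intro V E _ _ _ _ _ m ne M K' K'' l Pi φ Z fl I _ τ H S₀ S hcut hT hKM hne hS
  have hf := hcut.flow
  have hρ := hT.ρpos
  have hH := hT.Hle
  obtain ⟨ε, hε, hN⟩ := hNbr V m M K' K'' l φ Z fl I τ H S₀ (min τ.ρ (1 / 8)) hf hT (by positivity)
  have hg : ∀ i, Continuous (τ.g i) := fun i => (hT.box i).sg.continuous
  have hC : IsCompact (⋃ i, τ.g i '' cthickening (7 * τ.ρ) (τ.A i)) :=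
    isCompact_iUnion fun i => (hT.cpt i).cthickening.image (hg i)
  obtain ⟨η, hη, hch⟩ := chain hf hC S ne ε hε
  choose d hd0 hd using fun i => uc (hg i) ((hT.cpt i).cthickening (r := 7 * τ.ρ)) hη
  have hev : ∀ᶠ δ in 𝓝[>] (0 : ℝ), ∀ i, δ ≤ d i := eventually_all.2 fun i =>
    (eventually_le_nhds (hd0 i)).filter_mono nhdsWithin_le_nhds
  obtain ⟨δ, hδ, hδ0⟩ := (hev.and self_mem_nhdsWithin).exists
  refine ⟨δ, hδ0, fun e he hc => ?_⟩
  choose! t y' ha _ hh _ using he
  have hy : ∀ a < ne, (e a).h (e a).y = y' a := fun a h => by rw [hh a h, (ha a h).hol_eq hf hT]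
  set p : ℕ → V := fun a => τ.g (e a).i (e a).y with hp
  have hK : ∀ a < ne, p a ∈ K' := fun a h => by
    have := hT.ins _ _ (hT.bot (by norm_num) (ha a h).my)
    rw [Ps_zero hf] at this
    exact hT.inK this
  have ht0 : ∀ a < ne, 0 ≤ t a := fun a h => by linarith [(ha a h).mt.1]
  obtain ⟨ts, hts, k, ys, hys, hk⟩ := hT.cover _ (hK 0 hne)
  set T : ℕ → ℝ := fun a => ∑ b ∈ Finset.range a, t b with hTd
  have hTs : ∀ a, T (a + 1) = T a + t a := fun a => Finset.sum_range_succ _ _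
  have key : ∀ a < ne, ∀ s ∈ Icc 0 (t a), |ts - (T a + s)| ≤ 1 / 4 → ∃ q : ℝ × Y m,
      |q.1 - (ts - (T a + s))| ≤ 1 / 8 ∧ q.2 ∈ cthickening τ.ρ (τ.A k) ∧
      Ps fl (τ.g k) q = fl (-s) (p a) := by
    intro a h s hs hle
    have e1 := hch p t a h.le (fun b hb => mem_iUnion.2 ⟨_, _, (ha b (by omega)).my, rfl⟩)
      (fun b hb => ⟨⟨ht0 b (by omega), (ha b (by omega)).mt.2⟩, by
        obtain ⟨c1, c2⟩ := hc b (by omega)
        simp only [hp]
        rw [(ha b (by omega)).hit, ← c1]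
        refine hd _ _ (ha b (by omega)).my' _ ?_
        rw [dist_eq_norm, ← hy b (by omega)]
        exact c2.trans (hδ _)⟩) s ⟨hs.1, hs.2.trans (ha a h).mt.2⟩
    have e2 : fl (-(T a + s)) (p 0) = Ps fl (τ.g k) (ts - (T a + s), ys) := by
      rw [Ps, ← hk, ← hf.add]
      congr 1
      ring
    rw [abs_le] at hle
    obtain ⟨-, c2, c3⟩ := hN k (ts - (T a + s), ys) ⟨⟨by linarith [hle.1], by linarith [hle.2]⟩,
      self_subset_cthickening _ hys⟩ _ (hKM (hT.back _ (hK a h) s hs.1))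
      (by rw [← e2, ← dist_eq_norm]; exact e1)
    refine ⟨_, (norm_fst_le _).trans c2 |>.trans (min_le_right _ _), ?_, c3⟩
    refine mem_cthickening_of_dist_le _ ys _ _ hys ?_
    rw [dist_eq_norm]
    exact ((norm_snd_le _).trans c2).trans (min_le_left _ _)
  have fin : ∀ a < ne, |ts - T (a + 1)| ≤ 1 / 4 →
      ∃ a < ne, (e a).h (e a).y ∈ cthickening τ.ρ (τ.A (e a).j) := by
    intro a h hle
    rw [hTs] at hle
    obtain ⟨q, c1, c2, c3⟩ := key a h (t a) ⟨ht0 a h, le_rfl⟩ hle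
    rw [abs_le] at hle c1
    simp only [hp] at c3
    rw [(ha a h).hit, ← Ps_zero hf (τ.g (e a).j)] at c3
    obtain ⟨c4, c5⟩ := hT.inj (q := q) ⟨⟨by linarith [hle.1, c1.1], by linarith [hle.2, c1.2]⟩,
      cthickening_mono (by linarith) _ c2⟩ (hT.bot (by norm_num) (ha a h).my') c3
    refine ⟨a, h, ?_⟩
    rw [hy a h, ← c4]
    rw [c5] at c2
    exact c2
  have hTn : S₀ ≤ T ne := by
    have := Finset.card_nsmul_le_sum (Finset.range ne) t (H - 1) fun a h =>
      (ha a (Finset.mem_range.1 h)).mt.1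
    rw [Finset.card_range, nsmul_eq_mul] at this
    exact hS.trans this
  by_cases hσ : T ne ≤ ts + 1 / 4
  · obtain ⟨n, rfl⟩ : ∃ n, ne = n + 1 := ⟨ne - 1, by omega⟩
    exact fin n (by omega) (abs_le.2 ⟨by linarith, by linarith [hts.2]⟩)
  · have hex : ∃ a, a ≤ ne ∧ ts + 1 / 4 < T a := ⟨ne, le_rfl, not_le.1 hσ⟩
    classical
    obtain ⟨c1, c2⟩ := Nat.find_spec hex
    have c3 := fun a => Nat.find_min hex (m := a)
    generalize Nat.find hex = n at c1 c2 c3
    have hT0 : T 0 = 0 := Finset.sum_range_zero _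
    rcases n with _ | a
    · linarith [hts.1]
    have c4 : T a ≤ ts + 1 / 4 := not_lt.1 fun h => c3 a (by omega) ⟨by omega, h⟩
    rw [hTs] at c2
    have c5 : ts + 1 / 4 - T a < 1 / 2 := by
      by_contra h
      obtain ⟨q, d1, d2, d3⟩ := key a (by omega) (ts + 1 / 4 - T a) ⟨by linarith, by linarith⟩
        (abs_le.2 ⟨by linarith, by linarith⟩)
      rw [abs_le] at d1
      exact (ha a (by omega)).avoid _ ⟨not_lt.1 h, by linarith⟩ k q
        ⟨⟨by linarith [d1.1], by linarith [d1.2]⟩, by rwa [one_mul]⟩ d3.symm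
    rcases a with _ | a
    · linarith [hts.1]
    exact fin a (by omega) (abs_le.2 ⟨by linarith, by linarith⟩)

end Pool.Agent.MP_6d695c_gt.P
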