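import Pool.Agent.MP_6d695c_gt.p.Alg

/-! PROJECT P, row FRAME: adapted frames over the towers. -/

open scoped Manifold ContDiff Topology MeasureTheory
open Set Metric Filter Real

namespace Pool.Agent.MP_6d695c_gt.P

open SW T1 Theta

namespace FrameAux

variable {m : ℕ}

/-- positive forms over a compact set are comparable at nearby points -/
theorem near_le {K : Set (Y m)} (hK : IsCompact K) {q : Y m → Hor m →L[ℝ] Hor m →L[ℝ] ℝ}
    (hq : ContinuousOn q K) (hp : ∀ y ∈ K, ∀ u, u ≠ 0 → 0 < q y u u) :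
    ∃ δ, 0 < δ ∧ ∀ y ∈ K, ∀ y' ∈ K, ‖y - y'‖ ≤ δ → ∀ u, q y u u ≤ 2 ^ 2 * q y' u u := by
  have hc : ContinuousOn (fun p : Y m × Hor m => q p.1 p.2 p.2) (K ×ˢ sphere 0 1) :=
    (((hq.comp continuous_fst.continuousOn fun p hp => hp.1).clm_apply
      continuous_snd.continuousOn).clm_apply continuous_snd.continuousOn)
  obtain ⟨μ, hμ, hle⟩ := (hK.prod (isCompact_sphere (0 : Hor m) 1)).exists_forall_le' hc
    (a := 0) fun p h => hp p.1 h.1 p.2 (by
      intro e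
      have := h.2
      rw [e] at this
      simp at this)
  have low : ∀ y ∈ K, ∀ u, μ * ‖u‖ ^ 2 ≤ q y u u := fun y hy u => by
    rcases eq_or_ne u 0 with rfl | hu
    · simp
    · have h0 : 0 < ‖u‖ := norm_pos_iff.2 hu
      have h1 := hle (y, ‖u‖⁻¹ • u) ⟨hy, by simp [norm_smul, h0.ne']⟩
      simp only [map_smul, smul_apply, smul_eq_mul] at h1
      have h2 : ‖u‖⁻¹ * (‖u‖⁻¹ * q y u u) * ‖u‖ ^ 2 = q y u u := by field_simp
      rw [← h2]
      exact mul_le_mul_of_nonneg_right h1 (sq_nonneg _)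
  obtain ⟨δ, hδ, H⟩ := (Metric.uniformContinuousOn_iff_le (f := q) (s := K)).1
    (IsCompact.uniformContinuousOn_of_continuous (f := q) hK (by exact hq)) μ hμ
  refine ⟨δ, hδ, fun y hy y' hy' h u => ?_⟩
  have h1 : ‖q y - q y'‖ ≤ μ :=
    (dist_eq_norm (q y) (q y')).ge.trans (H y hy y' hy' (by rwa [dist_eq_norm]))
  have h2 := (q y - q y').le_opNorm₂ u u
  have h3 : ‖q y - q y'‖ * ‖u‖ * ‖u‖ ≤ μ * ‖u‖ ^ 2 := by
    rw [mul_assoc, ← sq]
    exact mul_le_mul_of_nonneg_right h1 (sq_nonneg _)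
  have h4 : (q y - q y') u u = q y u u - q y' u u := rfl
  rw [h4, Real.norm_eq_abs] at h2
  have h5 := low y' hy' u
  have h6 : 0 ≤ μ * ‖u‖ ^ 2 := by positivity
  linarith [le_abs_self (q y u u - q y' u u)]

/-- adapted frames over a compact set are uniformly controlled -/
theorem fr {Cb : ℝ} (h1 : 1 ≤ Cb)
    (hL : ∀ (q q' : Hor m →L[ℝ] Hor m →L[ℝ] ℝ) (B B' D D' A : Hor m →L[ℝ] Hor m) (f c : ℝ),
      Adp q B B' → Adp q' D D' → Sym A f → 0 < f → 0 < c →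
      (∀ v, q' (A v) (A v) ≤ c ^ 2 * q v v) → (∀ v, f ^ 2 * q v v ≤ c ^ 2 * q' (A v) (A v)) →
      ‖D'.comp (A.comp B)‖ ≤ Cb * c)
    {K : Set (Y m)} (hK : IsCompact K) {q : Y m → Hor m →L[ℝ] Hor m →L[ℝ] ℝ}
    (hq : ContinuousOn q K) {B B' : Y m → Hor m →L[ℝ] Hor m}
    (ha : ∀ y ∈ K, Adp (q y) (B y) (B' y)) : ∃ C₀, ∀ C, C₀ ≤ C → Fr K B B' C (Cb * 3) := by
  obtain ⟨δ, hδ, H⟩ := near_le hK hq fun y hy => (ha y hy).pos
  have nr : ∀ y ∈ K, ∀ y' ∈ K, ‖y - y'‖ ≤ δ → ‖(B' y).comp (B y')‖ ≤ Cb * 3 :=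
    fun y hy y' hy' h => by
      have := hL (q y') (q y) (B y') (B' y') (B y) (B' y) (ContinuousLinearMap.id ℝ _) 1 2
        (ha y' hy') (ha y hy) (fun u v => by simp) one_pos two_pos (fun v => H y hy y' hy' h v)
        fun v => by
          rw [one_pow, one_mul]
          exact H y' hy' y hy (by rwa [norm_sub_rev]) v
      rw [ContinuousLinearMap.id_comp] at this
      linarith
  obtain ⟨T, hT, hfin, hcov⟩ := hK.finite_cover_balls hδ
  obtain ⟨C₁, hC₁⟩ := (hfin.image fun z => max ‖B z‖ ‖B' z‖).bddAbove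
  obtain ⟨C₂, hC₂⟩ := hK.isBounded.exists_norm_le
  refine ⟨max (max 1 δ⁻¹) (max C₂ (C₁ * (Cb * 3))), fun C hC => ?_⟩
  simp only [max_le_iff] at hC
  obtain ⟨⟨c1, c2⟩, c3, c4⟩ := hC
  refine ⟨c1, fun y hy => (ha y hy).sym, fun y hy => (ha y hy).li, fun y hy => (ha y hy).ri,
    fun y hy => ?_, fun y hy y' hy' h => nr y hy y' hy' (h.trans ?_)⟩
  · obtain ⟨z, hz, hyz⟩ := mem_iUnion₂.1 (hcov hy)
    have d1 : ‖y - z‖ ≤ δ := (mem_ball_iff_norm.1 hyz).le
    have b := max_le_iff.1 (hC₁ ⟨z, hz, rfl⟩)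
    have n1 := nr y hy z (hT hz) d1
    have n2 := nr z (hT hz) y hy (by rwa [norm_sub_rev])
    have p0 : 0 ≤ C₁ := (norm_nonneg _).trans b.1
    refine ⟨(hC₂ y hy).trans c3, le_trans ?_ c4, le_trans ?_ c4⟩
    · have e : B y = (B z).comp ((B' z).comp (B y)) :=
        ContinuousLinearMap.ext fun u => ((ha z (hT hz)).ri _).symm
      rw [e]
      exact (ContinuousLinearMap.opNorm_comp_le _ _).trans
        (mul_le_mul b.1 n2 (norm_nonneg _) p0)
    · have e : B' y = ((B' y).comp (B z)).comp (B' z) :=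
        ContinuousLinearMap.ext fun u => congrArg (B' y) ((ha z (hT hz)).ri u).symm
      rw [e, mul_comm]
      exact (ContinuousLinearMap.opNorm_comp_le _ _).trans
        (mul_le_mul n1 b.2 (norm_nonneg _) (by linarith))
  · exact inv_le_of_inv_le₀ hδ c2

variable {V : Type} [NormedAddCommGroup V] [NormedSpace ℝ V]

/-- the contact planes of a transversal -/
noncomputable def Wg (g : Y m → V) (y : Y m) : Hor m →L[ℝ] V :=
  (fderiv ℝ g y).comp ((Lt y).comp (ContinuousLinearMap.inr ℝ ℝ (Hor m)))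

theorem Wg_apply (g : Y m → V) (y : Y m) (u : Hor m) : Wg g y u = fderiv ℝ g y (Lt y (0, u)) := rfl

theorem Wg_cont {g : Y m → V} (hg : ContDiff ℝ ∞ g) : Continuous (Wg g) :=
  (hg.continuous_fderiv (by simp)).clm_comp (contDiff_Lt.continuous.clm_comp continuous_const)

variable {Z : V → V} {fl : ℝ → V → V}

theorem dPs (hf : IsFlow Z fl) {g : Y m → V} (hg : ContDiff ℝ ∞ g) (y : Y m) (a : ℝ) (w : Y m) :
    fderiv ℝ (Ps fl g) (0, y) (a, w) = a • Z (g y) + fderiv ℝ g y w := by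
  have h1 : HasFDerivAt (fun q : ℝ × Y m => (q.1, g q.2)) _ (0, y) :=
    hasFDerivAt_fst.prodMk
      ((hg.differentiable (by simp) y).hasFDerivAt.comp ((0 : ℝ), y) hasFDerivAt_snd)
  have h2 := (hf.sm.differentiable (by simp) (0, g y)).hasFDerivAt.comp ((0 : ℝ), y) h1
  have h3 := T1.Lie.flow_fderiv hf 0 (g y) a (fderiv ℝ g y w)
  rw [show fl 0 = id from funext hf.zero, fderiv_id] at h3
  rw [show fderiv ℝ (Ps fl g) (0, y) = _ from h2.fderiv]
  exact h3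

/-- the form on the contact planes -/
noncomputable def qf (Q : V → V →L[ℝ] V →L[ℝ] ℝ) (g : Y m → V) (y : Y m) :
    Hor m →L[ℝ] Hor m →L[ℝ] ℝ :=
  ((ContinuousLinearMap.compL ℝ (Hor m) V ℝ).flip (Wg g y)).comp ((Q (g y)).comp (Wg g y))

theorem qf_apply (Q : V → V →L[ℝ] V →L[ℝ] ℝ) (g : Y m → V) (y : Y m) (u v : Hor m) :
    qf Q g y u v = Q (g y) (Wg g y u) (Wg g y v) := rfl

theorem qf_cont {Q : V → V →L[ℝ] V →L[ℝ] ℝ} {g : Y m → V} (hg : ContDiff ℝ ∞ g) {U : Set V}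
    (hQ : ContinuousOn Q U) {K : Set (Y m)} (hK : ∀ y ∈ K, g y ∈ U) : ContinuousOn (qf Q g) K :=
  ((ContinuousLinearMap.compL ℝ (Hor m) V ℝ).flip.continuous.comp
    (Wg_cont hg)).continuousOn.clm_comp
    ((hQ.comp hg.continuous.continuousOn hK).clm_comp (Wg_cont hg).continuousOn)

theorem al0_Lt (y : Y m) (u : Hor m) : al0 y (Lt y (0, u)) = 0 := by
  change (Lt (-y) (Lt y (0, u))).1 = 0
  rw [Lt_neg_Lt]

theorem eq_Lt {y ξ : Y m} (h : al0 y ξ = 0) : Lt y (0, ξ.2) = ξ := by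
  have e : Lt (-y) ξ = (0, ξ.2) := Prod.ext h rfl
  rw [← e, Lt_Lt_neg]

theorem lam0_zero (y : Y m) (v : ℝ × Y m) : lam0 (0, y) v = al0 y v.2 := by simp [lam0]

end FrameAux

open FrameAux

theorem frame (hLa1 : La1Stmt) (hLa2 : La2Stmt) (hSymH : SymHStmt) (hHolC : HolCStmt)
    (_hNbr : NbrStmt) (_hXBox : XBoxStmt) : FrameStmt := by
  intro m
  obtain ⟨Cb, hCb, hL⟩ := hLa2 m
  refine ⟨Cb * 3, by linarith, ?_⟩
  intro V E _ _ _ _ _ M U K' K'' l Pi φ Z fl I _ τ H S₀ S Q hA' hc hK hLie hT hU hQ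
  have hf := hc.flow
  have bot : ∀ i, ∀ y ∈ cthickening (8 * τ.ρ) (τ.A i),
      ((0 : ℝ), y) ∈ τ.reg i (-1) (H + 1) 10 := fun i y hy => hT.bot (by norm_num) hy
  have inU : ∀ i, ∀ y ∈ cthickening (8 * τ.ρ) (τ.A i), τ.g i y ∈ U := fun i y hy => by
    rw [← Ps_zero hf (τ.g i) y]
    exact hU (hT.inK (hT.ins i _ (bot i y hy)))
  have ex : ∀ i y, ∃ B B' : Hor m →L[ℝ] Hor m,
      y ∈ cthickening (8 * τ.ρ) (τ.A i) → Adp (qf Q (τ.g i) y) B B' := fun i y => by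
    by_cases hy : y ∈ cthickening (8 * τ.ρ) (τ.A i)
    · obtain ⟨B, B', h⟩ := hLa1 m (qf Q (τ.g i) y) (fun u v => hQ.symm _ _ _) fun u hu => by
        refine lt_of_le_of_ne (hQ.nn _ _) fun e => hu ?_
        obtain ⟨a, ha⟩ := hQ.pos _ (inU i y hy) (Wg (τ.g i) y u) e.symm
        have h1 := (hT.box i).par.dr_dg (hT.mem (bot i y hy)) (-a, Lt y (0, u))
        rw [dPs hf (hT.box i).sg, ← Wg_apply, ha, neg_smul, neg_add_cancel, map_zero] at h1
        exact (congrArg (fun p : ℝ × Y m => p.2.2) h1).symm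
      exact ⟨B, B', fun _ => h⟩
    · exact ⟨0, 0, fun h => absurd h hy⟩
  choose B B' hB using ex
  choose C₀ hC₀ using fun i => fr hCb hL (hT.cpt i).cthickening
    (qf_cont (hT.box i).sg hQ.cont (inU i)) (hB i)
  obtain ⟨C₁, hC₁⟩ := (finite_range C₀).bddAbove
  refine ⟨B, B', C₁, fun C hC i => hC₀ i C ((hC₁ ⟨i, rfl⟩).trans hC), fun e he => ?_⟩
  obtain ⟨C₂, hC₂⟩ := hHolC V E m M K' K'' l Pi φ Z fl I τ H S₀ S hA' hc hK hLie hT
  have hS := hSymH m _ _ _ _ (le_max_right C₂ 1) (hC₂ _ (le_max_left _ _) e he)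
  obtain ⟨i, y, k, j, h, f⟩ := e
  obtain ⟨t, y', a, -, r1, r2⟩ := he
  dsimp only at a r1 r2 hS
  subst r1 r2
  have hρ := hT.ρpos
  have my : y ∈ cthickening (8 * τ.ρ) (τ.A i) := cthickening_mono (by linarith) _ a.my
  have my' : y' ∈ cthickening (8 * τ.ρ) (τ.A j) := cthickening_mono (by linarith) _ a.my'
  have e0 : hol fl τ i j t y = y' := a.hol_eq hf hT
  have hit : fl (-t) (τ.g i y) = τ.g j y' := a.hit
  have t0 : 0 ≤ t := by linarith [a.mt.1, hT.Hle]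
  have k1 := hT.kap (bot i y my)
  have k2 := hT.kap (bot j y' my')
  have lo := (hT.box i).low _ (hT.mem (bot i y my))
  rw [Ps_zero hf] at k1 k2 lo
  have key : ∀ u, qf Q (τ.g j) y' (hA (hol fl τ i j t) y u) (hA (hol fl τ i j t) y u) ≤
        9 * qf Q (τ.g i) y u u ∧ exp (-t) ^ 2 * qf Q (τ.g i) y u u ≤
        9 * qf Q (τ.g j) y' (hA (hol fl τ i j t) y u) (hA (hol fl τ i j t) y u) := fun u => by
    have d0 := dPs hf (hT.box i).sg y 0 (Lt y (0, u))
    rw [zero_smul, zero_add, ← Wg_apply] at d0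
    have tv : Wg (τ.g i) y u ∈ Tg M (τ.g i y) := by
      have := (hT.box i).par.tg (hT.mem (bot i y my))
      rw [Ps_zero hf] at this
      rw [this]
      exact ⟨_, d0⟩
    have lv : l (τ.g i y) (Wg (τ.g i) y u) = 0 := by
      have := (hT.box i).form _ (hT.mem (bot i y my)) (0, Lt y (0, u))
      rwa [Ps_zero hf, d0, lam0_zero, al0_Lt] at this
    have lie := hLie _ k1.1 (-t) (fun s hs => by
      rw [uIcc_of_ge (by linarith)] at hs
      have := hK.back _ k1.1 (by linarith) (-s) (by linarith [hs.2])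
      rw [neg_neg] at this
      exact this.trans_lt (max_lt (by linarith) (by norm_num))) _ tv
    have bd := hQ.bd _ k1.1 (inU i y my) t ⟨t0, a.mt.2⟩ (hit ▸ inU j y' my') _ tv lv
    obtain ⟨tw, lw, -⟩ := lie
    rw [lv, mul_zero] at lw
    have ch : fderiv ℝ (hol fl τ i j t) y (Lt y (0, u)) =
        (fderiv ℝ (τ.κ j) (fl (-t) (τ.g i y))
          (fderiv ℝ (fl (-t)) (τ.g i y) (Wg (τ.g i) y u))).2 := by
      have c1 := ((hT.box i).sg.differentiable (by simp) y).hasFDerivAt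
      have c2 := ((T1.Lie.flow_sm hf (-t)).differentiable (by simp) (τ.g i y)).hasFDerivAt
      have c3 := ((hT.box j).sκ.differentiable (by simp) (fl (-t) (τ.g i y))).hasFDerivAt
      have c4 := (c3.comp y (c2.comp y c1)).snd
      rw [show fderiv ℝ (hol fl τ i j t) y = _ from c4.fderiv]
      rfl
    rw [hit] at bd tw lw ch
    generalize fderiv ℝ (fl (-t)) (τ.g i y) (Wg (τ.g i) y u) = w at bd tw lw ch
    have ret := (hT.box j).par.ret k2.1 k2.2.1 tw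
    have fo := (hT.box j).form _ (hT.mem (bot j y' my')) (fderiv ℝ (τ.κ j) (τ.g j y') w)
    rw [k2.2.2] at ret
    rw [ret, Ps_zero hf, lw, lam0_zero] at fo
    have hx : hA (hol fl τ i j t) y u = (fderiv ℝ (τ.κ j) (τ.g j y') w).2.2 := congrArg Prod.snd ch
    generalize fderiv ℝ (τ.κ j) (τ.g j y') w = p at ret fo hx
    obtain ⟨b, ξ⟩ := p
    rw [dPs hf (hT.box j).sg, ← eq_Lt (ξ := ξ) fo.symm, ← Wg_apply] at ret
    have kl := hQ.kill _ (inU j y' my')
    have e1 : Q (τ.g j y') w w = qf Q (τ.g j) y' ξ.2 ξ.2 := by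
      have kr : ∀ v, Q (τ.g j y') v (Z (τ.g j y')) = 0 := fun v => by rw [hQ.symm, kl]
      rw [qf_apply, ← ret]
      simp only [map_add, map_smul, add_apply, smul_apply, kl, kr, smul_zero, zero_add, add_zero]
    rw [hx, ← e1]
    exact bd
  change ‖(B' j (hol fl τ i j t y)).comp ((hA (hol fl τ i j t) y).comp (B i y))‖ ≤ Cb * 3
  rw [e0]
  exact hL _ _ _ _ _ _ _ _ 3 (hB i y my) (hB j y' my') hS (exp_pos _) three_pos
    (fun v => by have := (key v).1; linarith) fun v => by have := (key v).2; linarith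

end Pool.Agent.MP_6d695c_gt.P
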