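import Pool.Agent.MP_6d695c_gt.p.Alg
import Mathlib.Probability.ProductMeasure
import Mathlib.Topology.MetricSpace.HausdorffDimension

/-! PROJECT P: generic radii. -/

open scoped Manifold ContDiff Topology MeasureTheory NNReal ENNReal
open Set Metric Filter Real MeasureTheory

namespace Pool.Agent.MP_6d695c_gt.P

open SW T1 Theta

namespace GenAux

/-- a point of the open cube that avoids countably many null cylinders -/
theorem avoid {ι : Type} [Countable ι] (B : (s : Finset ι) → Set (s → ℝ))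
    (h : ∀ s, volume (B s) = 0) :
    ∃ t : ι → ℝ, (∀ i, t i ∈ Ioo (0 : ℝ) 1) ∧ ∀ s : Finset ι, (fun i : s => t i) ∉ B s := by
  haveI : IsProbabilityMeasure ((volume : Measure ℝ).restrict (Ioo (0 : ℝ) 1)) := ⟨by simp⟩
  have key : ∀ᵐ t ∂(Measure.infinitePi fun _ : ι => (volume : Measure ℝ).restrict (Ioo (0 : ℝ) 1)),
      ∀ s : Finset ι, ((fun i : s => t i) ∈ univ.pi fun _ : s => Ioo (0 : ℝ) 1) ∧
        (fun i : s => t i) ∉ B s := by
    refine ae_all_iff.2 fun s => ?_
    refine ae_of_ae_map (p := fun z : s → ℝ => (z ∈ univ.pi fun _ : s => Ioo (0 : ℝ) 1) ∧ z ∉ B s)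
      (Finset.measurable_restrict (X := fun _ : ι => ℝ) s).aemeasurable ?_
    rw [Measure.infinitePi_map_restrict, ← Measure.restrict_pi_pi]
    exact (ae_restrict_mem (MeasurableSet.univ_pi fun _ => measurableSet_Ioo)).and
      (ae_restrict_of_ae (measure_eq_zero_iff_ae_notMem.1 (h s)))
  obtain ⟨t, ht⟩ := key.exists
  exact ⟨t, fun i => (ht {i}).1 ⟨i, Finset.mem_singleton_self i⟩ (mem_univ _), fun s => (ht s).2⟩

theorem lip_norm {σ E : Type} [Fintype σ] [NormedAddCommGroup E] :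
    LipschitzWith 1 fun (z : σ → E) (i : σ) => ‖z i‖ := by
  refine LipschitzWith.of_dist_le_mul fun z w => ?_
  rw [NNReal.coe_one, one_mul, dist_pi_le_iff dist_nonneg]
  intro i
  exact (dist_norm_norm_le _ _).trans (by rw [← dist_eq_norm]; exact dist_le_pi_dist z w i)

/-- the rescaled norms of a smooth family on a space of small dimension fill a null set -/
theorem null {σ E F : Type} [Fintype σ] [NormedAddCommGroup E] [NormedSpace ℝ E]
    [FiniteDimensional ℝ E] [NormedAddCommGroup F] [NormedSpace ℝ F] (G : E → σ → F)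
    (hG : ContDiff ℝ 1 G) (a c : σ → ℝ) (hd : Module.finrank ℝ E < Fintype.card σ) :
    volume (range fun (y : E) (i : σ) => (‖G y i‖ - a i) / c i) = 0 := by
  have e : (range fun (y : E) (i : σ) => (‖G y i‖ - a i) / c i) =
      (fun (u : σ → ℝ) (i : σ) => (u i - a i) / c i) ''
        ((fun (z : σ → F) (i : σ) => ‖z i‖) '' range G) := by
    rw [← range_comp, ← range_comp]
    rfl
  have hA : ContDiff ℝ 1 fun (u : σ → ℝ) (i : σ) => (u i - a i) / c i := by fun_prop
  have h1 : dimH (range fun (y : E) (i : σ) => (‖G y i‖ - a i) / c i) < (Fintype.card σ : ℝ≥0) := by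
    rw [e]
    refine ((hA.contDiffOn.dimH_image_le convex_univ (subset_univ _)).trans
      ((lip_norm.dimH_image_le _).trans hG.dimH_range_le)).trans_lt ?_
    rw [ENNReal.coe_natCast]
    exact Nat.cast_lt.2 hd
  have h2 := hausdorffMeasure_of_dimH_lt h1
  rwa [NNReal.coe_natCast, hausdorffMeasure_pi_real] at h2

theorem finrank_Y (m : ℕ) : Module.finrank ℝ (Y m) = 2 * m + 1 := by
  simp only [Module.finrank_prod, Module.finrank_self, Module.finrank_fin_fun]
  ring

end GenAux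

theorem gen : GenStmt := by
  intro V _ _ m M l φ Z fl I g κ L D N ι _ k q a b hf hB hab
  have hn : ∀ s : Finset ι, volume (⋃ (_ : s.card = 2 * m + 2) (j : ι) (τ : ℚ),
      range fun (y : Y m) (i : s) =>
        (‖(κ (k i) (Ps fl (g (k j)) ((τ : ℝ), y))).2 - q i‖ - a i) / (b i - a i)) = 0 := by
    intro s
    refine measure_iUnion_null fun hs => measure_iUnion_null fun j => measure_iUnion_null fun τ => ?_
    refine GenAux.null (fun (y : Y m) (i : s) => (κ (k i) (Ps fl (g (k j)) ((τ : ℝ), y))).2 - q i)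
      (contDiff_pi.2 fun i => ?_) (fun i => a i) (fun i => b i - a i) ?_
    · have h1 : ContDiff ℝ ∞ fun y : Y m => κ (k i) (Ps fl (g (k j)) ((τ : ℝ), y)) :=
        (hB (k i)).sκ.comp ((Ps_smooth hf (hB (k j)).sg).comp (contDiff_const.prodMk contDiff_id))
      exact (h1.snd.sub contDiff_const).of_le (by simp)
    · rw [GenAux.finrank_Y, Fintype.card_coe, hs]
      omega
  obtain ⟨t, ht, hav⟩ := GenAux.avoid _ hn
  refine ⟨fun i => a i + (b i - a i) * t i, fun i => ?_, fun x hx s hs => ?_⟩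
  · have h0 := sub_pos.2 (hab i)
    have h1 := ht i
    exact ⟨by nlinarith [h1.1], by nlinarith [h1.2]⟩
  by_contra hc
  obtain ⟨s', hs', hcard⟩ := Finset.exists_subset_card_eq (s := s) (n := 2 * m + 2) (by omega)
  obtain ⟨j, hj⟩ : s'.Nonempty := Finset.card_pos.1 (by omega)
  have hp : ∀ i ∈ s', κ (k i) x ∈ Ioo (-L) L ×ˢ D (k i) ∧ Ps fl (g (k i)) (κ (k i) x) = x :=
    fun i hi => (hB (k i)).par.rm x hx (hs i (hs' hi)).1
  have hW : IsOpen (⋂ i ∈ s', {u : ℝ | u - (κ (k j) x).1 + (κ (k i) x).1 ∈ Ioo (-L) L}) :=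
    isOpen_biInter_finset fun i _ => isOpen_Ioo.preimage (by fun_prop)
  obtain ⟨τ, hτ⟩ := Rat.denseRange_cast.exists_mem_open hW
    ⟨(κ (k j) x).1, mem_iInter₂.2 fun i hi => by simpa using (hp i hi).1.1⟩
  refine hav s' (mem_iUnion.2 ⟨hcard, mem_iUnion.2 ⟨j, mem_iUnion.2 ⟨τ, (κ (k j) x).2, ?_⟩⟩⟩)
  funext i
  have e1 : Ps fl (g (k j)) ((τ : ℝ), (κ (k j) x).2) = fl (τ - (κ (k j) x).1) x := by
    conv_rhs => rw [← (hp j hj).2]
    rw [fl_Ps hf, (hp j hj).2, sub_add_cancel]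
  have e2 : fl (τ - (κ (k j) x).1) x =
      Ps fl (g (k i)) (τ - (κ (k j) x).1 + (κ (k i) x).1, (κ (k i) x).2) := by
    rw [← fl_Ps hf, (hp i i.2).2]
  have e3 := ((hB (k i)).par.gm (τ - (κ (k j) x).1 + (κ (k i) x).1, (κ (k i) x).2)
    ⟨mem_iInter₂.1 hτ i i.2, (hp i i.2).1.2⟩).2.2
  have h0 := (sub_pos.2 (hab i)).ne'
  show (‖(κ (k i) (Ps fl (g (k j)) ((τ : ℝ), (κ (k j) x).2))).2 - q i‖ - a i) / (b i - a i) = t i
  rw [e1, e2, e3, (hs i (hs' i.2)).2]
  field_simp
  ring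

end Pool.Agent.MP_6d695c_gt.P
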