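import Pool.Agent.MP_6d695c_gt.p.Alg

/-! PROJECT P, row Geo: sizes of the cells, change of centre. -/

open scoped Manifold ContDiff Topology MeasureTheory
open Set Metric Filter Real

namespace Pool.Agent.MP_6d695c_gt.P

open SW T1 Theta

namespace GeoAux

variable {m : ℕ}

theorem norm_ldiv_le {R : ℝ} {a b : Y m} (ha : ‖a‖ ≤ R) (hb : ‖b‖ ≤ R) :
    ‖ldiv a b‖ ≤ (1 + m * R) * (2 * R) := by
  have r0 : 0 ≤ R := (norm_nonneg _).trans ha
  have h1 : ‖b - a‖ ≤ 2 * R := (norm_sub_le _ _).trans (by linarith)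
  refine (norm_Lt_le _ _).trans ?_
  rw [norm_neg]
  gcongr

end GeoAux

theorem geo : GeoStmt := by
  intro m Cb R
  refine ⟨max R (max 1 Cb * ((1 + m * R) * (2 * R)) +
    2 * m * (max 1 Cb * ((1 + m * R) * (2 * R))) ^ 2),
    1 + 4 * (1 + m) * (|R| + 2 * m * R ^ 2), 4, le_max_left _ _, ?_, ?_⟩
  · have : (0 : ℝ) ≤ 4 * (1 + m) * (|R| + 2 * m * R ^ 2) := by positivity
    linarith
  intro A B B' C s hF hs hCs c hc y hy
  have r0 : 0 ≤ R := (norm_nonneg _).trans hy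
  rw [abs_of_nonneg r0] at hCs
  have hC := hF.one
  have m0 : (0 : ℝ) ≤ m := Nat.cast_nonneg m
  have p1 : 1 ≤ C ^ 4 := one_le_pow₀ hC
  have k0 : (0 : ℝ) ≤ 4 * (1 + m) * (R + 2 * m * R ^ 2) := by positivity
  have q0 : 0 ≤ C ^ 4 * s := by positivity
  have s1 : s ≤ 1 := by nlinarith [mul_nonneg k0 q0]
  have s2 : 4 * (1 + m) * (R + 2 * m * R ^ 2) * (C ^ 4 * s) ≤ 1 := by nlinarith
  have e1 : y - c = Lt c (dil s (hom (B c) 1 (eta s c (B' c) y))) := by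
    conv_lhs => rw [← zeta_eta hs.ne' (hF.ri c hc) c y]
    rw [zeta, mul, add_sub_cancel_left, hom_dil]
  have b1 := norm_hom_le (hF.bd c hc).2.1 hC zero_le_one le_rfl hy
  have b2 : C * R + 2 * m * (C * R) ^ 2 ≤ C ^ 2 * (R + 2 * m * R ^ 2) := by
    nlinarith [mul_nonneg (mul_nonneg (sub_nonneg.2 hC) (zero_le_one.trans hC)) r0]
  have b3 : 1 + m * ‖c‖ ≤ (1 + m) * C := by
    nlinarith [mul_le_mul_of_nonneg_left (hF.bd c hc).1 m0]
  have b4 : ‖y - c‖ ≤ (1 + m) * C * (s * (C ^ 2 * (R + 2 * m * R ^ 2))) := by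
    rw [e1]
    refine (norm_Lt_le _ _).trans (mul_le_mul b3 ((norm_dil_le hs.le s1 _).trans ?_)
      (norm_nonneg _) (by positivity))
    exact mul_le_mul_of_nonneg_left (b1.trans b2) hs.le
  have c0 : 0 < C := by linarith
  have b5 : ‖y - c‖ ≤ C⁻¹ / 4 := by
    refine b4.trans ?_
    rw [le_div_iff₀ (by norm_num), ← one_div, le_div_iff₀ c0]
    refine le_trans (le_of_eq ?_) s2
    ring
  refine ⟨b5, fun hyA y' hy' => ?_⟩
  have b6 : ‖y - c‖ ≤ C⁻¹ := by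
    have : 0 ≤ C⁻¹ := by positivity
    linarith
  rw [eta_eta hs.ne' (hF.sym c hc) (hF.ri c hc) (B' y) c y y']
  exact (norm_hom_le ((hF.near y hyA c hc b6).trans (le_max_right 1 Cb)) (le_max_left 1 Cb)
    zero_le_one le_rfl (GeoAux.norm_ldiv_le hy hy')).trans (le_max_right _ _)

end Pool.Agent.MP_6d695c_gt.P
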