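import Pool.Agent.MP_6d695c_gt.p.Alg

/-! PROJECT P: the total Hamiltonian. -/

open scoped Manifold ContDiff Topology MeasureTheory
open Set Metric Filter Real

namespace Pool.Agent.MP_6d695c_gt.P

open SW T1 Theta

namespace GlobAux

theorem fin_zero {X : Type} [NormedAddCommGroup X] [NormedSpace ℝ X] {Z : X → X} {Φ : X → ℝ}
    (hZ : Continuous Z) (hL : ∀ x, Ly univ Z Φ x) {Ω : Set X} (hΩ : IsCompact Ω) :
    {q ∈ Ω | Z q = 0}.Finite := by
  have hc : IsCompact {q ∈ Ω | Z q = 0} := hΩ.inter_right (isClosed_eq hZ continuous_const)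
  have key : ∀ q ∈ {q ∈ Ω | Z q = 0}, {x | Z x = 0 → x = q} ∈ 𝓝 q := by
    intro q hq
    rcases hL q with h | ⟨u, ⟨-, -, -, c, hc, h⟩, -⟩
    · rw [hq.2, map_zero] at h
      exact absurd h (lt_irrefl _)
    · rw [nhdsWithin_univ] at h
      filter_upwards [h] with x hx h0
      rw [h0, map_zero] at hx
      have h1 : ‖x - q‖ ^ 2 ≤ 0 := by
        by_contra h2
        have := mul_pos hc (not_le.1 h2)
        linarith
      have h3 : ‖x - q‖ = 0 := pow_eq_zero_iff (two_ne_zero) |>.1 (le_antisymm h1 (sq_nonneg _))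
      exact sub_eq_zero.1 (norm_eq_zero.1 h3)
  obtain ⟨t, ht⟩ := hc.elim_nhds_subcover' (fun q _ => {x | Z x = 0 → x = q}) key
  refine ((t.finite_toSet.image Subtype.val)).subset fun x hx => ?_
  obtain ⟨q, hq, h⟩ := mem_iUnion₂.1 (ht hx)
  exact ⟨q, hq, (h hx.2).symm⟩

end GlobAux

theorem glob (hXBox : XBoxStmt) : GlobStmt := by
  intro V E _ _ _ _ _ m M K' K'' l Pi φ Z fl I _ τ H S₀ F Λ hS hf h hF
  classical
  have := Fintype.ofFinite I
  have hρ := h.ρpos.le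
  have sub3 : ∀ i, τ.reg i 1 (H - 1) 3 ⊆ τ.reg i (-1) (H + 1) 10 := fun i =>
    TD.reg_mono hρ i (by norm_num) (by linarith) (by norm_num)
  have sP : ∀ i, ContDiff ℝ ∞ (Ps fl (τ.g i)) := fun i => Ps_smooth hf (h.box i).sg
  have cS : ∀ i, IsCompact (Ps fl (τ.g i) '' τ.reg i 1 (H - 1) 3) := fun i =>
    (h.reg_cpt i _ _ _).image (sP i).continuous
  have sN : ∀ i, Ps fl (τ.g i) '' τ.reg i 1 (H - 1) 3 ⊆ τ.N i := by
    rintro i _ ⟨q, hq, rfl⟩
    exact (h.kap (sub3 i hq)).2.1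
  choose χ sχ _ tχ oχ _ using fun i => exists_cut (cS i) (h.box i).par.oN (sN i)
  have ta : ∀ i, ∀ x ∈ M, x ∈ τ.N i → χ i x * F i (τ.κ i x) = F i (τ.κ i x) := by
    intro i x hx hN
    by_cases hq : τ.κ i x ∈ τ.reg i 1 (H - 1) 3
    · rw [(oχ i x ⟨_, hq, ((h.box i).par.rm x hx hN).2⟩).self_of_nhds, one_mul]
    · rw [(hF i).2.2.2 _ hq, mul_zero]
  have tb : ∀ i, ∀ x ∈ M, x ∉ Ps fl (τ.g i) '' τ.reg i 1 (H - 1) 3 →
      χ i x * F i (τ.κ i x) = 0 := by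
    intro i x hx hn
    by_cases hN : x ∈ τ.N i
    · rw [(hF i).2.2.2 _ fun hq => hn ⟨_, hq, ((h.box i).par.rm x hx hN).2⟩, mul_zero]
    · rw [image_eq_zero_of_notMem_tsupport fun c => hN (tχ i c), zero_mul]
  set G : V → ℝ := fun x => ∑ i, χ i x * F i (τ.κ i x) with hG
  have sG : ContDiff ℝ ∞ G :=
    ContDiff.sum fun i _ => (sχ i).mul ((hF i).1.comp (h.box i).sκ)
  have ev : ∀ i, ∀ q ∈ τ.reg i (-1) (H + 1) 10,
      ∀ᶠ x in 𝓝[M] (Ps fl (τ.g i) q), G x = F i (τ.κ i x) := by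
    intro i q hq
    have e1 : ∀ᶠ x in 𝓝 (Ps fl (τ.g i) q), ∀ j, j ≠ i →
        x ∉ Ps fl (τ.g j) '' τ.reg j 1 (H - 1) 3 := by
      refine eventually_all.2 fun j => ?_
      by_cases hj : j = i
      · exact .of_forall fun _ c => absurd hj c
      · have : Ps fl (τ.g i) q ∈ (Ps fl (τ.g j) '' τ.reg j 1 (H - 1) 3)ᶜ := by
          rintro ⟨q', hq', e⟩
          exact h.disj j i hj q' (sub3 j hq') q hq e
        filter_upwards [(cS j).isClosed.isOpen_compl.mem_nhds this] with x hx _ using hx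
    filter_upwards [self_mem_nhdsWithin, mem_nhdsWithin_of_mem_nhds e1,
      mem_nhdsWithin_of_mem_nhds ((h.box i).par.oN.mem_nhds (h.kap hq).2.1)] with x hx a1 a2
    rw [← ta i x hx a2]
    exact Finset.sum_eq_single i (fun j _ hj => tb j x hx (a1 j hj)) fun c =>
      absurd (Finset.mem_univ i) c
  have ev2 : ∀ i, ∀ q ∈ τ.reg i (-1) (H + 1) 10, ∀ᶠ x in 𝓝[M] (Ps fl (τ.g i) q),
      x ∈ M ∧ x ∈ τ.N i ∧
        fderiv ℝ (τ.κ i) x (Pi x (l x + fderiv ℝ G x)) = XY (F i) (τ.κ i x) := by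
    intro i q hq
    filter_upwards [self_mem_nhdsWithin, eventually_eventually_nhdsWithin.2 (ev i q hq),
      mem_nhdsWithin_of_mem_nhds ((h.box i).par.oN.mem_nhds (h.kap hq).2.1)] with x hx a1 a2
    exact ⟨hx, a2, (hXBox V E m M l Pi φ fl _ _ _ _ _ _ hS (h.box i) x hx a2).2 (F i) G (hF i).1
      sG a1⟩
  refine ⟨G, sG, fun x hx hn => ?_, fun i q hq => ?_,
    ⋃ i, Ps fl (τ.g i) '' {q ∈ τ.reg i 0 (H + 1 / 2) 5 | XY (F i) q = 0}, ?_, ?_,
    fun i q hq h0 => mem_iUnion.2 ⟨i, q, ⟨hq, h0⟩, rfl⟩⟩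
  · have cl : IsClosed (Supp fl τ H) := isClosed_iUnion_of_finite fun i => (cS i).isClosed
    filter_upwards [self_mem_nhdsWithin,
      mem_nhdsWithin_of_mem_nhds (cl.isOpen_compl.mem_nhds hn)] with y hy a1
    exact Finset.sum_eq_zero fun j _ => tb j y hy fun c => a1 (mem_iUnion.2 ⟨j, c⟩)
  · have hq' : q ∈ τ.reg i (-1) (H + 1) 10 := TD.reg_mono hρ i le_rfl le_rfl (by norm_num) hq
    have := ((ev2 i q hq').self_of_nhdsWithin (h.kap hq').1).2.2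
    rwa [(h.kap hq').2.2] at this
  · exact finite_iUnion fun i => (GlobAux.fin_zero ((T1.model m).2.2 _ (hF i).1).continuous
      (hF i).2.2.1 (h.reg_cpt i _ _ _)).image _
  · intro p hp
    obtain ⟨i, q, ⟨hq, h0⟩, rfl⟩ := mem_iUnion.1 hp
    have hq' : q ∈ τ.reg i (-1) (H + 1) 10 :=
      TD.reg_mono hρ i (by norm_num) (by linarith) (by norm_num) hq
    obtain ⟨k1, k2, k3⟩ := h.kap hq'
    refine ⟨k1, ?_⟩
    have hL := T1.rel V (ℝ × Y m) M (τ.N i) univ (τ.κ i) (Ps fl (τ.g i))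
      (fun x => Pi x (l x + fderiv ℝ G x)) (XY (F i)) (fun x => Λ i (τ.κ i x)) (Λ i)
      (Ps fl (τ.g i) q) 0 (h.box i).par.oN k2 k1 (h.box i).sκ.contDiffOn
      ((sP i).differentiable (by simp) _) ((hF i).2.1.comp (h.box i).sκ) (hF i).2.1
      ((ev2 i q hq').mono fun x hx => ⟨mem_univ _, ((h.box i).par.rm x hx.1 hx.2.1).2,
        hS.tan x hx.1 _, hx.2.2, (add_zero _).symm⟩) ((hF i).2.2.1 _)
    have hz := (h.box i).par.ret k1 k2 (hS.tan _ k1
      (l (Ps fl (τ.g i) q) + fderiv ℝ G (Ps fl (τ.g i) q)))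
    rw [((ev2 i q hq').self_of_nhdsWithin k1).2.2, k3, h0, map_zero] at hz
    rcases hL with a | ⟨u, a, -⟩
    · simp only [← hz, map_zero] at a
      exact absurd a (lt_irrefl _)
    · exact ⟨u, a⟩

end Pool.Agent.MP_6d695c_gt.P
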