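import Pool.Agent.MP_6d695c_gt.p.Alg

/-! PROJECT P, row Gut: the marker lemma. -/

open scoped Manifold ContDiff Topology MeasureTheory
open Set Metric Filter Real

namespace Pool.Agent.MP_6d695c_gt.P

open SW T1 Theta

namespace GutAux

/-- small balls of a countable family -/
theorem small {m : ℕ} (r : ℕ × ℕ → ℝ)
    (hr : ∀ p, r p ∈ Ioo (1 / ((p.2 : ℝ) + 1) / 2) (1 / ((p.2 : ℝ) + 1))) {G : Set (Y m)}
    (hG : IsOpen G) {y : Y m} (hy : y ∈ G) :
    ∃ p : ℕ × ℕ, y ∈ ball (TopologicalSpace.denseSeq (Y m) p.1) (r p) ∧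
      closedBall (TopologicalSpace.denseSeq (Y m) p.1) (r p) ⊆ G := by
  obtain ⟨ε, hε, hs⟩ := Metric.isOpen_iff.1 hG y hy
  obtain ⟨b, hb⟩ := exists_nat_one_div_lt (half_pos hε)
  have h0 : (0 : ℝ) < 1 / ((b : ℝ) + 1) / 2 := by positivity
  obtain ⟨a, ha⟩ := (TopologicalSpace.denseRange_denseSeq (Y m)).exists_dist_lt y h0
  have h1 := hr (a, b)
  refine ⟨(a, b), mem_ball.2 (ha.trans h1.1), fun z hz => hs (mem_ball.2 ?_)⟩
  have h2 := dist_triangle_right z y (TopologicalSpace.denseSeq (Y m) a)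
  have h3 := mem_closedBall.1 hz
  have h4 := h1.2
  simp only at h3 h4
  linarith

variable {V : Type} [NormedAddCommGroup V] [NormedSpace ℝ V] {m d₀ n : ℕ} {M U₀ C₀ : Set V}
  {l : V → V →L[ℝ] ℝ} {φ : V → ℝ} {Z : V → V} {fl : ℝ → V → V} {I : Type}
  {g : I → Y m → V} {κ : I → V → ℝ × Y m} {H S L : ℝ} {D B : I → Set (Y m)} {N : I → Set V}
  {c : Fin n → ℝ} {r : I × Fin n × ℕ × ℕ → ℝ}

/-- the standing hypotheses -/
structure Hy (d₀ : ℕ) (M U₀ C₀ : Set V) (l : V → V →L[ℝ] ℝ) (φ : V → ℝ) (Z : V → V)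
    (fl : ℝ → V → V) (g : I → Y m → V) (κ : I → V → ℝ × Y m) (H S L : ℝ) (D B : I → Set (Y m))
    (N : I → Set V) (c : Fin n → ℝ) (r : I × Fin n × ℕ × ℕ → ℝ) : Prop where
  hf : IsFlow Z fl
  H0 : 0 ≤ H
  S0 : 0 < S
  SL : S ≤ L
  hn : 2 * m + 1 + d₀ < n
  box : ∀ i, Box M l φ fl (g i) (κ i) (-L) L (D i) (N i)
  hB : ∀ i, IsCompact (B i) ∧ B i ⊆ D i
  hC : IsCompact C₀
  op : ∀ x ∈ M, (∃ t ∈ Ioo 0 S, fl (-t) x ∈ U₀) →
    ∀ᶠ x' in 𝓝[M] x, ∃ t ∈ Ioo 0 S, fl (-t) x' ∈ U₀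
  few : ∀ x ∈ M, (∀ t ∈ Ioo 0 S, fl (-t) x ∉ U₀) →
    ∃ T : Finset ℝ, T.card ≤ d₀ ∧ ∀ t ∈ Ioo 0 S, fl (-t) x ∈ C₀ → t ∈ T
  win : ∀ j t, |t - c j| ≤ H + 3 → t ∈ Ioo 0 S
  sep : ∀ j j' t, |t - c j| ≤ H + 3 → |t - c j'| ≤ H + 3 → j = j'
  rad : ∀ i j (p : ℕ × ℕ), r (i, j, p) ∈ Ioo (1 / ((p.2 : ℝ) + 1) / 2) (1 / ((p.2 : ℝ) + 1))
  gen : ∀ x ∈ M, ∀ s : Finset (I × Fin n × ℕ × ℕ), (∀ k ∈ s, x ∈ N k.1 ∧
    ‖(κ k.1 x).2 - TopologicalSpace.denseSeq (Y m) k.2.2.1‖ = r k) → s.card ≤ 2 * m + 1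

/-- admissible markers -/
def Mk (D : I → Set (Y m)) (r : I × Fin n × ℕ × ℕ → ℝ) (O C : I → Fin n → Set (Y m)) : Prop :=
  ∀ i j, IsOpen (O i j) ∧ IsCompact (C i j) ∧ O i j ⊆ C i j ∧ C i j ⊆ D i ∧
    ∀ z ∈ C i j, z ∉ O i j → ∃ p : ℕ × ℕ, ‖z - TopologicalSpace.denseSeq (Y m) p.1‖ = r (i, j, p)

/-- the window of `y` meets `U₀` or an open marker -/
def Hit (U₀ : Set V) (fl : ℝ → V → V) (g : I → Y m → V) (S : ℝ) (c : Fin n → ℝ)
    (O : I → Fin n → Set (Y m)) (x : V) : Prop :=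
  ∃ t ∈ Ioo 0 S, fl (-t) x ∈ U₀ ∨ ∃ i' j', ∃ z ∈ O i' j', fl (-t) x = Ps fl (g i') (-c j', z)

namespace Hy

variable (h : Hy d₀ M U₀ C₀ l φ Z fl g κ H S L D B N c r)
include h

theorem cw (j : Fin n) : c j ∈ Ioo 0 S := h.win j _ (by rw [sub_self, abs_zero]; linarith [h.H0])

theorem gm (i : I) {t : ℝ} (h1 : -S < t) (h2 : t < S) {y : Y m} (hy : y ∈ D i) :
    Ps fl (g i) (t, y) ∈ M ∧ Ps fl (g i) (t, y) ∈ N i ∧ κ i (Ps fl (g i) (t, y)) = (t, y) :=
  (h.box i).par.gm _ ⟨⟨by linarith [h.SL], by linarith [h.SL]⟩, hy⟩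

theorem g0 (i : I) {y : Y m} (hy : y ∈ D i) : g i y ∈ M := by
  have := (h.gm i (t := 0) (by linarith [h.S0]) h.S0 hy).1
  rwa [Ps_zero h.hf] at this

theorem cP (i : I) : Continuous (Ps fl (g i)) := (Ps_smooth h.hf (h.box i).sg).continuous

theorem hit_open {O C : I → Fin n → Set (Y m)} (hM : Mk D r O C) (i : I) :
    IsOpen {y ∈ D i | Hit U₀ fl g S c O (g i y)} := by
  refine isOpen_iff_mem_nhds.2 fun y hy => ?_
  obtain ⟨hy, t, ht, hh⟩ := hy
  have hD : ∀ᶠ y' in 𝓝 y, y' ∈ D i := (h.box i).oD.mem_nhds hy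
  rcases hh with hh | ⟨i', j', z, hz, e⟩
  · have h1 : Tendsto (g i) (𝓝 y) (𝓝[M] (g i y)) :=
      tendsto_nhdsWithin_iff.2 ⟨(h.box i).sg.continuous.tendsto y, hD.mono fun y' a => h.g0 i a⟩
    filter_upwards [hD, h1.eventually (h.op _ (h.g0 i hy) ⟨t, ht, hh⟩)] with y' a b
    obtain ⟨t', b1, b2⟩ := b
    exact ⟨a, t', b1, Or.inl b2⟩
  · have hzD := (hM i' j').2.2.2.1 ((hM i' j').2.2.1 hz)
    have hc := h.cw j'
    obtain ⟨-, a2, a3⟩ := h.gm i' (t := -c j') (by linarith [hc.2]) (by linarith [hc.1, h.S0]) hzD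
    have cx : Continuous fun y' => Ps fl (g i) (-t, y') :=
      (h.cP i).comp (continuous_const.prodMk continuous_id)
    have e' : Ps fl (g i) (-t, y) = Ps fl (g i') (-c j', z) := e
    have ck : Continuous fun y' => κ i' (Ps fl (g i) (-t, y')) := (h.box i').sκ.continuous.comp cx
    have k0 : κ i' (Ps fl (g i) (-t, y)) = (-c j', z) := by rw [e', a3]
    have b1 : ∀ᶠ y' in 𝓝 y, Ps fl (g i) (-t, y') ∈ N i' :=
      cx.continuousAt.eventually_mem ((h.box i').par.oN.mem_nhds (by rwa [e']))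
    have b2 : ∀ᶠ y' in 𝓝 y, (κ i' (Ps fl (g i) (-t, y'))).2 ∈ O i' j' :=
      ck.snd.continuousAt.eventually_mem ((hM i' j').1.mem_nhds (by rwa [k0]))
    have b3 : ∀ᶠ y' in 𝓝 y, t + c j' + (κ i' (Ps fl (g i) (-t, y'))).1 ∈ Ioo 0 S :=
      ContinuousAt.eventually_mem (f := fun y' => t + c j' + (κ i' (Ps fl (g i) (-t, y'))).1)
        (continuous_const.add ck.fst).continuousAt
        (isOpen_Ioo.mem_nhds (by rw [k0]; simpa using ht))
    filter_upwards [hD, b1, b2, b3] with y' a b1 b2 b3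
    refine ⟨a, _, b3, Or.inr ⟨i', j', _, b2, ?_⟩⟩
    have m1 := (h.gm i (t := -t) (by linarith [ht.2]) (by linarith [ht.1, h.S0]) a).1
    have m2 := ((h.box i').par.rm _ m1 b1).2
    have m3 := fl_Ps h.hf (g i') (-c j' - (κ i' (Ps fl (g i) (-t, y'))).1)
      (κ i' (Ps fl (g i) (-t, y')))
    rw [m2, sub_add_cancel, fl_Ps h.hf] at m3
    rw [← m3]
    show fl _ (g i y') = fl _ (g i y')
    congr 1
    ring

/-- a free slot -/
theorem free {O C : I → Fin n → Set (Y m)} (hM : Mk D r O C) (i₀ : I) {x : V} (hx : x ∈ M)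
    (hn : ¬ Hit U₀ fl g S c O x) : ∃ j, ∀ t, |t - c j| ≤ H + 3 →
      fl (-t) x ∉ C₀ ∪ ⋃ i', ⋃ j', (fun z => Ps fl (g i') (-c j', z)) '' C i' j' := by
  classical
  by_contra hc
  push Not at hc
  choose t ht hK using hc
  have inj : Function.Injective t := fun j j' e => h.sep j j' (t j) (ht j) (e ▸ ht j')
  obtain ⟨T, hT, hT'⟩ := h.few x hx fun s hs a => hn ⟨s, hs, Or.inl a⟩
  have key : ∀ j, ∃ k : I × Fin n × ℕ × ℕ, fl (-t j) x ∉ C₀ → (x ∈ N k.1 ∧
      ‖(κ k.1 x).2 - TopologicalSpace.denseSeq (Y m) k.2.2.1‖ = r k) ∧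
      (κ k.1 x).1 = t j - c k.2.1 := by
    intro j
    rcases hK j with a | a
    · exact ⟨(i₀, j, 0, 0), fun b => absurd a b⟩
    · simp only [mem_iUnion, mem_image] at a
      obtain ⟨i', j', z, hz, e⟩ := a
      have hw := h.win j _ (ht j)
      have hc := h.cw j'
      obtain ⟨p, hp⟩ := (hM i' j').2.2.2.2 z hz fun b => hn ⟨_, hw, Or.inr ⟨i', j', z, b, e.symm⟩⟩
      have e1 : x = Ps fl (g i') (t j - c j', z) := by
        have := fl_Ps h.hf (g i') (t j) (-c j', z)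
        rw [e, ← h.hf.add, add_neg_cancel, h.hf.zero] at this
        exact this
      obtain ⟨-, a2, a3⟩ := h.gm i' (t := t j - c j') (by linarith [hw.1, hc.2])
        (by linarith [hw.2, hc.1]) ((hM i' j').2.2.2.1 hz)
      rw [← e1] at a2 a3
      exact ⟨(i', j', p), fun _ => ⟨⟨a2, by rw [a3]; exact hp⟩, by rw [a3]⟩⟩
  choose k hk using key
  have c1 : (Finset.univ.filter fun j => fl (-t j) x ∈ C₀).card ≤ d₀ :=
    (Finset.card_le_card_of_injOn t (fun j hj => hT' _ (h.win j _ (ht j))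
      (Finset.mem_filter.1 hj).2) inj.injOn).trans hT
  have c2 : (Finset.univ.filter fun j => ¬ fl (-t j) x ∈ C₀).card ≤ 2 * m + 1 := by
    rw [← Finset.card_image_of_injOn (f := k)]
    · refine h.gen x hx _ fun a ha => ?_
      obtain ⟨j, hj, rfl⟩ := Finset.mem_image.1 ha
      exact (hk j (Finset.mem_filter.1 hj).2).1
    · intro j hj j' hj' e
      have a1 := (hk j (Finset.mem_filter.1 hj).2).2
      have a2 := (hk j' (Finset.mem_filter.1 hj').2).2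
      rw [e, a2] at a1
      exact inj (by linarith)
  have c3 := Finset.card_filter_add_card_filter_not (s := (Finset.univ : Finset (Fin n)))
    fun j => fl (-t j) x ∈ C₀
  rw [Finset.card_univ, Fintype.card_fin] at c3
  have := h.hn
  omega

/-- the markers of one more box -/
theorem step [Finite I] {O C : I → Fin n → Set (Y m)} (hM : Mk D r O C) (i : I) :
    ∃ O' C' : Fin n → Set (Y m), (∀ j, IsOpen (O' j) ∧ IsCompact (C' j) ∧ O' j ⊆ C' j ∧
      C' j ⊆ D i ∧ ∀ z ∈ C' j, z ∉ O' j →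
        ∃ p : ℕ × ℕ, ‖z - TopologicalSpace.denseSeq (Y m) p.1‖ = r (i, j, p)) ∧
      (∀ j, ∀ y ∈ C' j, ∀ t, |t - c j| ≤ H + 3 →
        fl (-t) (g i y) ∉ C₀ ∪ ⋃ i', ⋃ j', (fun z => Ps fl (g i') (-c j', z)) '' C i' j') ∧
      ∀ y ∈ B i, Hit U₀ fl g S c O (g i y) ∨ ∃ j, y ∈ O' j := by
  classical
  set K := C₀ ∪ ⋃ i', ⋃ j', (fun z => Ps fl (g i') (-c j', z)) '' C i' j' with hK
  have cK : IsClosed K := (h.hC.union (isCompact_iUnion fun i' => isCompact_iUnion fun j' =>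
    (hM i' j').2.1.image ((h.cP i').comp (continuous_const.prodMk continuous_id)))).isClosed
  have oG : ∀ j, IsOpen {y ∈ D i | ∀ t, |t - c j| ≤ H + 3 → fl (-t) (g i y) ∉ K} := by
    intro j
    refine isOpen_iff_mem_nhds.2 fun y hy => ?_
    have c1 : Continuous fun z : Y m × ℝ => Ps fl (g i) (-z.2, z.1) :=
      (h.cP i).comp (continuous_snd.neg.prodMk continuous_fst)
    have := (isCompact_closedBall (c j) (H + 3)).eventually_forall_of_forall_eventually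
      (x₀ := y) (P := fun y t => fl (-t) (g i y) ∉ K) fun t ht =>
        (c1.continuousAt (x := (y, t))).eventually_mem (cK.isOpen_compl.mem_nhds (hy.2 t ht))
    filter_upwards [(h.box i).oD.mem_nhds hy.1, this] with y' a b
    exact ⟨a, fun t ht => b t ht⟩
  have cR := (h.hB i).1.diff (h.hit_open hM i)
  have ch : ∀ y ∈ B i \ {y ∈ D i | Hit U₀ fl g S c O (g i y)}, ∃ k : Fin n × ℕ × ℕ,
      y ∈ ball (TopologicalSpace.denseSeq (Y m) k.2.1) (r (i, k)) ∧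
      closedBall (TopologicalSpace.denseSeq (Y m) k.2.1) (r (i, k)) ⊆
        {y ∈ D i | ∀ t, |t - c k.1| ≤ H + 3 → fl (-t) (g i y) ∉ K} := by
    intro y hy
    have hD := (h.hB i).2 hy.1
    obtain ⟨j, hj⟩ := h.free hM i (h.g0 i hD) fun a => hy.2 ⟨hD, a⟩
    obtain ⟨p, hp⟩ := small (fun p => r (i, j, p)) (h.rad i j) (oG j) (y := y) ⟨hD, hj⟩
    exact ⟨(j, p), hp⟩
  choose k hk1 hk2 using ch
  obtain ⟨T, hT⟩ := cR.elim_nhds_subcover'
    (fun y hy => ball (TopologicalSpace.denseSeq (Y m) (k y hy).2.1) (r (i, k y hy)))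
    fun y hy => isOpen_ball.mem_nhds (hk1 y hy)
  refine ⟨fun j => ⋃ a ∈ T.filter fun a => (k a.1 a.2).1 = j,
      ball (TopologicalSpace.denseSeq (Y m) (k a.1 a.2).2.1) (r (i, k a.1 a.2)),
    fun j => ⋃ a ∈ T.filter fun a => (k a.1 a.2).1 = j,
      closedBall (TopologicalSpace.denseSeq (Y m) (k a.1 a.2).2.1) (r (i, k a.1 a.2)),
    fun j => ⟨?_, ?_, ?_, ?_, fun z hz hz' => ?_⟩, fun j y hy t ht => ?_, fun y hy => ?_⟩
  · exact isOpen_biUnion fun _ _ => isOpen_ball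
  · exact Finset.isCompact_biUnion _ fun _ _ => isCompact_closedBall _ _
  · exact iUnion₂_mono fun _ _ => ball_subset_closedBall
  · exact iUnion₂_subset fun a _ y hy => (hk2 a.1 a.2 hy).1
  · obtain ⟨a, ha, hz⟩ := mem_iUnion₂.1 hz
    refine ⟨(k a.1 a.2).2, ?_⟩
    rw [← (Finset.mem_filter.1 ha).2, ← dist_eq_norm]
    exact le_antisymm hz (not_lt.1 fun b => hz' (mem_iUnion₂.2 ⟨a, ha, b⟩))
  · obtain ⟨a, ha, hy⟩ := mem_iUnion₂.1 hy
    exact (hk2 a.1 a.2 hy).2 t (by rwa [(Finset.mem_filter.1 ha).2])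
  · by_cases a : Hit U₀ fl g S c O (g i y)
    · exact Or.inl a
    · obtain ⟨b, hb, hy⟩ := mem_iUnion₂.1 (hT (⟨hy, fun b => a b.2⟩ :
        y ∈ B i \ {y ∈ D i | Hit U₀ fl g S c O (g i y)}))
      exact Or.inr ⟨_, mem_iUnion₂.2 ⟨b, Finset.mem_filter.2 ⟨hb, rfl⟩, hy⟩⟩

theorem all [Finite I] (s : Finset I) : ∃ O C : I → Fin n → Set (Y m), Mk D r O C ∧
    (∀ i ∉ s, ∀ j, O i j = ∅) ∧
    (∀ i j i' j', (i, j) ≠ (i', j') → ∀ y ∈ C i j, ∀ y' ∈ C i' j', ∀ t, |t| ≤ H + 3 →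
      fl t (Ps fl (g i) (-c j, y)) ≠ Ps fl (g i') (-c j', y')) ∧
    (∀ i j, ∀ y ∈ C i j, ∀ t, |t| ≤ H + 3 → fl t (Ps fl (g i) (-c j, y)) ∉ C₀) ∧
    ∀ i ∈ s, ∀ y ∈ B i, Hit U₀ fl g S c O (g i y) := by
  classical
  induction s using Finset.induction_on with
  | empty => exact ⟨fun _ _ => ∅, fun _ _ => ∅, fun i j => by simp, by simp, by simp, by simp,
      by simp⟩
  | insert i₀ s hi ih =>
    obtain ⟨O, C, hM, h0, h1, h2, h3⟩ := ih
    obtain ⟨O', C', k1, k2, k3⟩ := h.step hM i₀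
    have e0 : ∀ j t y, fl t (Ps fl (g i₀) (-c j, y)) = fl (-(c j - t)) (g i₀ y) := fun j t y => by
      rw [fl_Ps h.hf]
      show fl _ (g i₀ y) = _
      congr 1
      ring
    have e1 : ∀ j t, |t| ≤ H + 3 → |c j - t - c j| ≤ H + 3 := fun j t ht => by
      rwa [sub_sub_cancel_left, abs_neg]
    have k4 : ∀ j i' j', ∀ y ∈ C' j, ∀ y' ∈ C i' j', ∀ t, |t| ≤ H + 3 →
        fl t (Ps fl (g i₀) (-c j, y)) ≠ Ps fl (g i') (-c j', y') := fun j i' j' y hy y' hy' t ht e =>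
      k2 j y hy _ (e1 j t ht) (Or.inr (mem_iUnion₂.2 ⟨i', j', y', hy', by rw [← e0, e]⟩))
    have mono : ∀ x, Hit U₀ fl g S c O x → Hit U₀ fl g S c (Function.update O i₀ O') x := by
      rintro x ⟨t, ht, a | ⟨i', j', z, hz, e⟩⟩
      · exact ⟨t, ht, Or.inl a⟩
      · have : i' ≠ i₀ := by
          rintro rfl
          rw [h0 _ hi] at hz
          exact hz
        exact ⟨t, ht, Or.inr ⟨i', j', z, by rwa [Function.update_of_ne this], e⟩⟩
    refine ⟨Function.update O i₀ O', Function.update C i₀ C', fun i j => ?_, fun i hi' j => ?_,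
      fun i j i' j' hne y hy y' hy' t ht => ?_, fun i j y hy t ht => ?_, fun i hi' y hy => ?_⟩
    · by_cases a : i = i₀
      · subst a
        simpa only [Function.update_self] using k1 j
      · simpa only [Function.update_of_ne a] using hM i j
    · rw [Finset.mem_insert, not_or] at hi'
      rw [Function.update_of_ne hi'.1, h0 i hi'.2]
    · by_cases a : i = i₀ <;> by_cases a' : i' = i₀
      · subst a
        subst a'
        rw [Function.update_self] at hy hy'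
        intro e
        have w := h.win j _ (e1 j t ht)
        have w' := h.cw j'
        have b1 := (h.gm i' (t := t + -c j) (by linarith [w.2]) (by linarith [w.1, h.S0])
          ((k1 j).2.2.2.1 hy)).2.2
        have b2 := (h.gm i' (t := -c j') (by linarith [w'.2]) (by linarith [w'.1, h.S0])
          ((k1 j').2.2.2.1 hy')).2.2
        rw [fl_Ps h.hf] at e
        rw [e, b2] at b1
        have b3 : c j - t - c j' = 0 := by linarith [(Prod.ext_iff.1 b1).1]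
        exact hne (by rw [h.sep j j' _ (e1 j t ht) (by rw [b3, abs_zero]; linarith [h.H0])])
      · subst a
        rw [Function.update_self] at hy
        rw [Function.update_of_ne a'] at hy'
        exact k4 j i' j' y hy y' hy' t ht
      · subst a'
        rw [Function.update_self] at hy'
        rw [Function.update_of_ne a] at hy
        intro e
        refine k4 j' i j y' hy' y hy (-t) (by rwa [abs_neg]) ?_
        rw [← e, ← h.hf.add, neg_add_cancel, h.hf.zero]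
      · rw [Function.update_of_ne a] at hy
        rw [Function.update_of_ne a'] at hy'
        exact h1 i j i' j' hne y hy y' hy' t ht
    · by_cases a : i = i₀
      · subst a
        rw [Function.update_self] at hy
        rw [e0]
        exact fun b => k2 j y hy _ (e1 j t ht) (Or.inl b)
      · rw [Function.update_of_ne a] at hy
        exact h2 i j y hy t ht
    · rcases Finset.mem_insert.1 hi' with rfl | a
      · rcases k3 y hy with b | ⟨j, b⟩
        · exact mono _ b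
        · exact ⟨c j, h.cw j, Or.inr ⟨i, j, y, by rwa [Function.update_self], rfl⟩⟩
      · exact mono _ (h3 i a y hy)

end Hy

end GutAux

theorem gut (hGen : GenStmt) : GutStmt := by
  intro V _ _ m d₀ M U₀ C₀ l φ Z fl I _ g κ H S L D B N hf hH hS hL hb hB hC ho hT
  obtain ⟨r, hr, hg⟩ := hGen V m M l φ Z fl I g κ L D N (I × Fin (2 * m + 2 + d₀) × ℕ × ℕ)
    (fun k => k.1) (fun k => TopologicalSpace.denseSeq (Y m) k.2.2.1)
    (fun k => 1 / ((k.2.2.2 : ℝ) + 1) / 2) (fun k => 1 / ((k.2.2.2 : ℝ) + 1)) hf hb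
    fun k => half_lt_self (by positivity)
  have h : GutAux.Hy d₀ M U₀ C₀ l φ Z fl g κ H S L D B N
      (fun j : Fin (2 * m + 2 + d₀) => (((j : ℕ) : ℝ) + 1 / 2) * (2 * H + 10)) r := by
    refine ⟨hf, hH, by rw [hS]; positivity, hL, by omega, hb, hB, hC, ho, hT, fun j t ht => ?_,
      fun j j' t ht ht' => ?_, fun i j p => hr (i, j, p), hg⟩
    · have a0 : (0 : ℝ) ≤ (j : ℕ) := Nat.cast_nonneg _
      have a1 : ((j : ℕ) : ℝ) + 1 ≤ 2 * m + 2 + d₀ := by exact_mod_cast j.2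
      have a2 := abs_le.1 ht
      have a3 := mul_le_mul_of_nonneg_right a1 (by linarith : 0 ≤ 2 * H + 10)
      have a4 := mul_nonneg a0 (by linarith : 0 ≤ 2 * H + 10)
      exact ⟨by nlinarith [a2.1], by rw [hS]; nlinarith [a2.2]⟩
    · have key : ∀ a b : ℕ, |t - ((a : ℝ) + 1 / 2) * (2 * H + 10)| ≤ H + 3 →
          |t - ((b : ℝ) + 1 / 2) * (2 * H + 10)| ≤ H + 3 → a ≤ b := fun a b ha hb => by
        by_contra c
        have a1 : (b : ℝ) + 1 ≤ a := by exact_mod_cast not_le.1 c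
        have a3 := mul_le_mul_of_nonneg_right a1 (by linarith : 0 ≤ 2 * H + 10)
        nlinarith [(abs_le.1 ha).1, (abs_le.1 hb).2]
      exact Fin.ext (le_antisymm (key _ _ ht ht') (key _ _ ht' ht))
  have := Fintype.ofFinite I
  obtain ⟨O, C, hM, -, h1, h2, h3⟩ := h.all Finset.univ
  exact ⟨O, C, fun i j => ⟨(hM i j).1, (hM i j).2.1, (hM i j).2.2.1, (hM i j).2.2.2.1⟩, h1, h2,
    fun i => h3 i (Finset.mem_univ i)⟩

end Pool.Agent.MP_6d695c_gt.P
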