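import Pool.Agent.MP_6d695c_gt.p.Alg

/-! PROJECT P, row HOLC: the holonomy maps are contact maps with uniform bounds. -/

open scoped Manifold ContDiff Topology MeasureTheory
open Set Metric Filter Real

namespace Pool.Agent.MP_6d695c_gt.P

open SW T1 Theta

namespace HolCAux

variable {m : ℕ}

theorem bd {F : Type} [NormedAddCommGroup F] [NormedSpace ℝ F] {u : ℝ × Y m → F}
    (hu : ContDiff ℝ ∞ u) {K : Set (ℝ × Y m)} (hK : IsCompact K) : ∃ C, ∀ p ∈ K, ‖u p‖ ≤ C :=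
  hK.exists_bound_of_continuousOn hu.continuous.continuousOn

/-- the first two derivatives of a smooth family are bounded on compact sets -/
theorem bd2 {h : ℝ → Y m → Y m} (hh : ContDiff ℝ ∞ fun p : ℝ × Y m => h p.1 p.2)
    {K : Set (ℝ × Y m)} (hK : IsCompact K) :
    ∃ C, ∀ p ∈ K, ‖fderiv ℝ (h p.1) p.2‖ ≤ C ∧ ‖fderiv ℝ (fderiv ℝ (h p.1)) p.2‖ ≤ C := by
  have h1 : ContDiff ℝ ∞ fun p : ℝ × Y m => fderiv ℝ (h p.1) p.2 :=
    ContDiff.fderiv (f := fun (p : ℝ × Y m) (z : Y m) => h p.1 z) (m := ∞)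
      (hh.comp (contDiff_fst.fst.prodMk contDiff_snd)) contDiff_snd (by simp)
  have h2 : ContDiff ℝ ∞ fun p : ℝ × Y m => fderiv ℝ (fderiv ℝ (h p.1)) p.2 :=
    ContDiff.fderiv (f := fun (p : ℝ × Y m) (z : Y m) => fderiv ℝ (h p.1) z) (m := ∞)
      (h1.comp (contDiff_fst.fst.prodMk contDiff_snd)) contDiff_snd (by simp)
  obtain ⟨C₁, c1⟩ := bd h1 hK
  obtain ⟨C₂, c2⟩ := bd h2 hK
  exact ⟨max C₁ C₂, fun p hp => ⟨(c1 p hp).trans (le_max_left _ _),
    (c2 p hp).trans (le_max_right _ _)⟩⟩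

variable {V : Type} [NormedAddCommGroup V] [NormedSpace ℝ V] {Z : V → V} {fl : ℝ → V → V}

theorem dPs (hf : IsFlow Z fl) {g : Y m → V} (hg : ContDiff ℝ ∞ g) (y w : Y m) :
    fderiv ℝ (Ps fl g) (0, y) (0, w) = fderiv ℝ g y w := by
  have h1 : HasFDerivAt (fun q : ℝ × Y m => (q.1, g q.2)) _ (0, y) :=
    hasFDerivAt_fst.prodMk
      ((hg.differentiable (by simp) y).hasFDerivAt.comp ((0 : ℝ), y) hasFDerivAt_snd)
  have h2 := (hf.sm.differentiable (by simp) (0, g y)).hasFDerivAt.comp ((0 : ℝ), y) h1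
  have h3 := T1.Lie.flow_fderiv hf 0 (g y) 0 (fderiv ℝ g y w)
  rw [show fl 0 = id from funext hf.zero, fderiv_id, zero_smul, zero_add] at h3
  rw [show fderiv ℝ (Ps fl g) (0, y) = _ from h2.fderiv]
  exact h3

theorem lam_exp (x v : ℝ × Y m) : lam0 x v = exp x.1 * al0 x.2 v.2 := by simp [lam0]

theorem back_sm (hf : IsFlow Z fl) {g : Y m → V} (hg : ContDiff ℝ ∞ g) :
    ContDiff ℝ ∞ fun p : ℝ × Y m => fl (-p.1) (g p.2) :=
  hf.sm.comp (contDiff_fst.neg.prodMk (hg.comp contDiff_snd))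

/-- the backward orbits depend uniformly on the starting point -/
theorem unif (hf : IsFlow Z fl) {g : Y m → V} (hg : ContDiff ℝ ∞ g) {K : Set (Y m)}
    (hK : IsCompact K) (a b : ℝ) {δ : ℝ} (hδ : 0 < δ) : ∃ r, 0 < r ∧ ∀ t ∈ Icc a b, ∀ y ∈ K,
      ∀ z ∈ K, ‖z - y‖ ≤ r → ‖fl (-t) (g z) - fl (-t) (g y)‖ ≤ δ := by
  obtain ⟨r, hr, H⟩ := Metric.uniformContinuousOn_iff_le.1
    (((isCompact_Icc (a := a) (b := b)).prod hK).uniformContinuousOn_of_continuous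
      (back_sm hf hg).continuous.continuousOn) δ hδ
  refine ⟨r, hr, fun t ht y hy z hz h => ?_⟩
  rw [← dist_eq_norm] at h ⊢
  exact H (t, z) ⟨ht, hz⟩ (t, y) ⟨ht, hy⟩ (by simpa [Prod.dist_eq] using h)

end HolCAux

open HolCAux

theorem holC (hNbr : NbrStmt) (hXBox : XBoxStmt) : HolCStmt := by
  intro V E _ _ _ _ _ m M K' K'' l Pi φ Z fl I _ τ H S₀ S hA' hc hK hLie hT
  have hf := hc.flow
  have hρ := hT.ρpos
  have cp : ∀ i, IsCompact (cthickening (8 * τ.ρ) (τ.A i)) := fun i => (hT.cpt i).cthickening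
  have bot : ∀ i, ∀ y ∈ cthickening (8 * τ.ρ) (τ.A i),
      ((0 : ℝ), y) ∈ τ.reg i (-1) (H + 1) 10 := fun i y hy => hT.bot (by norm_num) hy
  have sm : ∀ i j, ContDiff ℝ ∞ fun p : ℝ × Y m => hol fl τ i j p.1 p.2 := fun i j =>
    ((hT.box j).sκ.comp (back_sm hf (hT.box i).sg)).snd
  obtain ⟨δ, hδ, nb⟩ := hNbr V m M K' K'' l φ Z fl I τ H S₀ 1 hf hT one_pos
  choose r hr hr' using fun i => unif hf (hT.box i).sg (cp i) (H - 1) S hδ
  choose C₁ hC₁ using fun i => (cp i).isBounded.exists_norm_le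
  choose C₂ hC₂ using fun q : I × I => bd2 (h := hol fl τ q.1 q.2) (sm q.1 q.2)
    ((isCompact_Icc (a := H - 1) (b := S)).prod (cp q.1))
  obtain ⟨c, hc'⟩ := (finite_range fun q : I × I =>
    max (max (r q.1)⁻¹ (C₁ q.1)) (max (C₂ q) τ.ρ⁻¹)).bddAbove
  have hb : ∀ i j, ((r i)⁻¹ ≤ c ∧ C₁ i ≤ c) ∧ C₂ (i, j) ≤ c ∧ τ.ρ⁻¹ ≤ c := fun i j => by
    simpa only [max_le_iff] using hc' ⟨(i, j), rfl⟩
  refine ⟨c, fun C hC e he => ?_⟩
  obtain ⟨i, y, k, j, h, f⟩ := e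
  obtain ⟨t, y', a, -, r1, r2⟩ := he
  dsimp only at a r1 r2 ⊢
  subst r1 r2
  have my : y ∈ cthickening (8 * τ.ρ) (τ.A i) := cthickening_mono (by linarith) _ a.my
  have my' : y' ∈ cthickening (8 * τ.ρ) (τ.A j) := cthickening_mono (by linarith) _ a.my'
  have e0 : hol fl τ i j t y = y' := a.hol_eq hf hT
  have t0 : 0 ≤ t := by linarith [a.mt.1, hT.Hle]
  have mz : ∀ z, ‖z - y‖ ≤ C⁻¹ → z ∈ cthickening (8 * τ.ρ) (τ.A i) := fun z hz => by
    have h1 : dist z y ≤ τ.ρ := by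
      rw [dist_eq_norm]
      exact hz.trans (inv_le_of_inv_le₀ hρ ((hb i j).2.2.trans hC))
    have h2 := cthickening_cthickening_subset hρ.le (by linarith : 0 ≤ 7 * τ.ρ) (τ.A i)
      (mem_cthickening_of_dist_le z y τ.ρ _ a.my h1)
    rwa [show τ.ρ + 7 * τ.ρ = 8 * τ.ρ by ring] at h2
  refine ⟨(sm i j).comp (contDiff_const.prodMk contDiff_id),
    ⟨(hC₁ i y my).trans ((hb i j).1.2.trans hC), ?_⟩, fun z hz => ?_,
    fun z => exp (-t - (τ.κ j (fl (-t) (τ.g i z))).1), ?_, fun z hz v => ?_⟩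
  · rw [e0]
    exact (hC₁ j y' my').trans ((hb j j).1.2.trans hC)
  · have := hC₂ (i, j) (t, z) ⟨a.mt, mz z hz⟩
    exact ⟨this.1.trans ((hb i j).2.1.trans hC), this.2.trans ((hb i j).2.1.trans hC)⟩
  · dsimp only
    rw [a.hit, ← Ps_zero hf (τ.g j), (hT.kap (bot j y' my')).2.2, sub_zero]
  · have hz' := mz z hz
    have k1 := hT.kap (bot i z hz')
    have lo := (hT.box i).low _ (hT.mem (bot i z hz'))
    rw [Ps_zero hf] at k1 lo
    have d0 := dPs hf (hT.box i).sg z v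
    have tv : fderiv ℝ (τ.g i) z v ∈ Tg M (τ.g i z) := by
      have := (hT.box i).par.tg (hT.mem (bot i z hz'))
      rw [Ps_zero hf] at this
      rw [this]
      exact ⟨_, d0⟩
    have lv : l (τ.g i z) (fderiv ℝ (τ.g i) z v) = al0 z v := by
      have := (hT.box i).form _ (hT.mem (bot i z hz')) (0, v)
      rwa [Ps_zero hf, d0, lam_exp, exp_zero, one_mul] at this
    obtain ⟨tw, lw, -⟩ := hLie _ k1.1 (-t) (fun s hs => by
      rw [uIcc_of_ge (by linarith)] at hs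
      have := hK.back _ k1.1 (by linarith) (-s) (by linarith [hs.2])
      rw [neg_neg] at this
      exact this.trans_lt (max_lt (by linarith) (by norm_num))) _ tv
    have xM : fl (-t) (τ.g i z) ∈ M := (hc.inv _ _ k1.1 (by linarith)).1
    have xN : fl (-t) (τ.g i z) ∈ τ.N j := (nb j _ (bot j y' my') _ xM (by
      rw [Ps_zero hf, ← a.hit]
      exact hr' i t a.mt y my z hz'
        (hz.trans (inv_le_of_inv_le₀ (hr i) ((hb i j).1.1.trans hC))))).1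
    have fo := (hXBox V E m M l Pi φ fl _ _ _ _ _ _ (smp_of_amb hA') (hT.box j) _ xM xN).1 _ tw
    have ch : fderiv ℝ (hol fl τ i j t) z v = (fderiv ℝ (τ.κ j) (fl (-t) (τ.g i z))
        (fderiv ℝ (fl (-t)) (τ.g i z) (fderiv ℝ (τ.g i) z v))).2 := by
      have c1 := ((hT.box i).sg.differentiable (by simp) z).hasFDerivAt
      have c2 := ((T1.Lie.flow_sm hf (-t)).differentiable (by simp) (τ.g i z)).hasFDerivAt
      have c3 := ((hT.box j).sκ.differentiable (by simp) (fl (-t) (τ.g i z))).hasFDerivAt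
      have c4 := (c3.comp z (c2.comp z c1)).snd
      rw [show fderiv ℝ (hol fl τ i j t) z = _ from c4.fderiv]
      rfl
    rw [lw, lv, lam_exp, ← ch] at fo
    change al0 (τ.κ j (fl (-t) (τ.g i z))).2 _ = exp (-t - (τ.κ j (fl (-t) (τ.g i z))).1) * _
    rw [exp_sub, div_mul_eq_mul_div, ← fo, mul_div_cancel_left₀ _ (exp_pos _).ne']

end Pool.Agent.MP_6d695c_gt.P
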