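import Pool.Agent.MP_6d695c_gt.p.Alg

/-! PROJECT P, row HYP: the growth hypothesis passes to the ambient space. -/

open scoped Manifold ContDiff Topology MeasureTheory
open Set Metric Filter Real

namespace Pool.Agent.MP_6d695c_gt.P

open SW T1 Theta

namespace HypAux

/-- a local constant is uniform on a compact set -/
theorem unif {X : Type} [TopologicalSpace X] {K : Set X} (hK : IsCompact K) {P : ℝ → X → Prop}
    (mono : ∀ C C' x, C ≤ C' → P C x → P C' x) (h : ∀ a ∈ K, ∃ C, ∀ᶠ z in 𝓝 a, P C z) :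
    ∃ C, ∀ z ∈ K, P C z := by
  refine hK.induction_on (p := fun s => ∃ C, ∀ z ∈ s, P C z) ⟨0, by simp⟩ ?_ ?_ ?_
  · rintro s t hst ⟨C, hC⟩
    exact ⟨C, fun z hz => hC z (hst hz)⟩
  · rintro s t ⟨C, hC⟩ ⟨D, hD⟩
    refine ⟨max C D, ?_⟩
    rintro z (hz | hz)
    · exact mono _ _ _ (le_max_left _ _) (hC z hz)
    · exact mono _ _ _ (le_max_right _ _) (hD z hz)
  · intro a ha
    obtain ⟨C, hC⟩ := h a ha
    exact ⟨_, mem_nhdsWithin_of_mem_nhds hC, C, fun z hz => hz⟩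

/-- the derivative of a smooth map is locally bounded -/
theorem bdd {E X : Type} [NormedAddCommGroup E] [NormedSpace ℝ E] [NormedAddCommGroup X]
    [NormedSpace ℝ X] {g : E → X} {a : E} (hg : ContDiffAt ℝ ∞ g a) :
    ∃ A, 0 ≤ A ∧ ∀ᶠ y in 𝓝 a, DifferentiableAt ℝ g y ∧ ‖fderiv ℝ g y‖ ≤ A := by
  have h1 : ContDiffAt ℝ 1 g a := hg.of_le (by simp)
  have h2 : ContinuousAt (fderiv ℝ g) a := (h1.fderiv_right (m := 0) (by simp)).continuousAt
  refine ⟨‖fderiv ℝ g a‖ + 1, by positivity, ?_⟩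
  filter_upwards [h1.eventually (by simp),
    h2.norm.eventually (gt_mem_nhds (lt_add_one ‖fderiv ℝ g a‖))] with y k1 k2
  exact ⟨k1.differentiableAt one_ne_zero, k2.le⟩

variable {d : ℕ} {W V : Type} [TopologicalSpace W] [ChartedSpace (Euc d) W]
  [IsManifold (𝓡 d) ∞ W] [NormedAddCommGroup V] [NormedSpace ℝ V]
  {l : OneForm (𝓡 d) W} {Z : VField (𝓡 d) W} {φ : W → ℝ} {e : W → V} {l' : V → V →L[ℝ] ℝ}
  {Pi : V → (V →L[ℝ] ℝ) →L[ℝ] V} {φ' : V → ℝ}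

/-- the embedding is bounded by the chart -/
theorem upper (h : Emb l Z φ e l' Pi φ') (q : W) :
    ∃ A, 0 ≤ A ∧ ∀ᶠ y in 𝓝 q, y ∈ (extChartAt (𝓡 d) q).source ∧ ∀ u : Euc d,
      ‖(show V from mfderiv (𝓡 d) 𝓘(ℝ, V) e y u)‖ ≤ A * ‖dE (extChartAt (𝓡 d) q) y u‖ := by
  obtain ⟨A, hA, h1⟩ := bdd (Mfd.sm_in (mem_extChartAt_source (I := 𝓡 d) q) (h.sm q))
  refine ⟨A, hA, ?_⟩
  filter_upwards [(continuousAt_extChartAt (I := 𝓡 d) q).eventually h1,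
    extChartAt_source_mem_nhds (I := 𝓡 d) q] with y k1 k2
  refine ⟨k2, fun u => ?_⟩
  have k3 := Mfd.fderiv_in' k2 ((h.sm y).mdifferentiableAt (by simp)) u
  have k4 := (fderiv ℝ (fun z => e ((extChartAt (𝓡 d) q).symm z))
    (extChartAt (𝓡 d) q y)).le_of_opNorm_le k1.2 (dE (extChartAt (𝓡 d) q) y u)
  exact (congrArg norm k3).symm.trans_le k4

/-- the chart is bounded by the embedding -/
theorem lower (h : Emb l Z φ e l' Pi φ') {p : W} (hp : φ p < 6) :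
    ∃ B, 0 ≤ B ∧ ∀ᶠ x in 𝓝 p, ∀ w : Euc d,
      ‖dE (extChartAt (𝓡 d) p) x w‖ ≤ B * ‖(show V from mfderiv (𝓡 d) 𝓘(ℝ, V) e x w)‖ := by
  obtain ⟨ρ, hρ, hi⟩ := h.inv p hp
  have h0 : ρ (e p) = p := hi.self_of_nhds p hp rfl
  have h1 : ContDiffAt ℝ ∞ (fun v => extChartAt (𝓡 d) p (ρ v)) (e p) := by
    have h2 : ContMDiffAt (𝓡 d) 𝓘(ℝ, Euc d) ∞ (extChartAt (𝓡 d) p) (ρ (e p)) := by
      rw [h0]
      exact Mfd.sm_chart (mem_extChartAt_source p)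
    exact (h2.comp _ hρ).contDiffAt
  obtain ⟨B, hB, h3⟩ := bdd h1
  have he := h.sm.continuous.continuousAt (x := p)
  have h4 : ∀ᶠ y in 𝓝 p, ρ (e y) = y := by
    filter_upwards [he.eventually hi, h.ex.1.continuous.continuousAt.eventually (gt_mem_nhds hp)]
      with y k1 k2
    exact k1 y k2 rfl
  refine ⟨B, hB, ?_⟩
  filter_upwards [he.eventually h3, h4.eventually_nhds] with x k1 k2 w
  have k3 : (extChartAt (𝓡 d) p : W → Euc d) =ᶠ[𝓝 x]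
      (fun v => extChartAt (𝓡 d) p (ρ v)) ∘ e := by
    filter_upwards [k2] with y hy
    simp only [Function.comp, hy]
  have k4 := mfderiv_comp (I := 𝓡 d) (I' := 𝓘(ℝ, V)) (I'' := 𝓘(ℝ, Euc d)) x
    k1.1.mdifferentiableAt ((h.sm x).mdifferentiableAt (by simp))
  rw [mfderiv_eq_fderiv, ← k3.mfderiv_eq] at k4
  have k5 : dE (extChartAt (𝓡 d) p) x w = fderiv ℝ (fun v => extChartAt (𝓡 d) p (ρ v)) (e x)
      (show V from mfderiv (𝓡 d) 𝓘(ℝ, V) e x w) := congrArg (fun L => L w) k4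
  rw [k5]
  exact ContinuousLinearMap.le_of_opNorm_le _ k1.2 _

omit [IsManifold (𝓡 d) ∞ W] in
/-- a map that is intertwined with a smooth map of the ambient space -/
theorem inter (h : Emb l Z φ e l' Pi φ') {G : W → W} {g : V → V} (hg : ContDiff ℝ ∞ g) {x : W}
    (hx : ∀ᶠ y in 𝓝 x, φ (G y) < 4 ∧ e (G y) = g (e y)) :
    MDifferentiableAt (𝓡 d) (𝓡 d) G x ∧ ∀ w : Euc d,
      fderiv ℝ g (e x) (show V from mfderiv (𝓡 d) 𝓘(ℝ, V) e x w) =
        mfderiv (𝓡 d) 𝓘(ℝ, V) e (G x) (mfderiv (𝓡 d) (𝓡 d) G x w) := by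
  have h0 := hx.self_of_nhds
  obtain ⟨ρ, hρ, hi⟩ := h.inv (G x) (by linarith [h0.1])
  rw [h0.2] at hρ hi
  have he : MDifferentiableAt (𝓡 d) 𝓘(ℝ, V) e x := (h.sm x).mdifferentiableAt (by simp)
  have hg' : MDifferentiableAt 𝓘(ℝ, V) 𝓘(ℝ, V) g (e x) :=
    (hg.differentiable (by simp) _).mdifferentiableAt
  have h1 : MDifferentiableAt (𝓡 d) 𝓘(ℝ, V) (g ∘ e) x := hg'.comp x he
  have h2 : G =ᶠ[𝓝 x] ρ ∘ (g ∘ e) := by
    filter_upwards [hx, h1.continuousAt.eventually hi] with y k1 k2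
    exact (k2 (G y) (by linarith [k1.1]) k1.2).symm
  have h3 : MDifferentiableAt (𝓡 d) (𝓡 d) G x :=
    (MDifferentiableAt.comp x (hρ.mdifferentiableAt (by simp)) h1).congr_of_eventuallyEq h2
  refine ⟨h3, fun w => ?_⟩
  have h4 : g ∘ e =ᶠ[𝓝 x] e ∘ G := by
    filter_upwards [hx] with y k1
    exact k1.2.symm
  have h5 := mfderiv_comp x hg' he
  have h6 := mfderiv_comp x ((h.sm (G x)).mdifferentiableAt (by simp)) h3
  rw [mfderiv_eq_fderiv, h4.mfderiv_eq] at h5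
  exact congrArg (fun L => L w) (h5.symm.trans h6)

end HypAux

theorem hyp (hSkF : SkFStmt) : HypStmt := by
  intro d W V _ _ _ _ _ _ _ l Z φ e l' Pi φ' F Z' fl ε h hF hC hS
  have hK : IsCompact ({x | φ x ≤ 2} ×ˢ {x | φ x ≤ 2}) := (h.ex.2 2).prod (h.ex.2 2)
  obtain ⟨C, hC'⟩ := HypAux.unif hK (P := fun C z => z.1 ∈ skeleton Z → ∀ t : ℝ, 0 ≤ t →
      F (-t) z.1 = z.2 → (∀ᶠ y in 𝓝 z.1, φ (F (-t) y) < 4 ∧ e (F (-t) y) = fl (-t) (e y)) →
      ∀ w : Euc d, ‖fderiv ℝ (fl (-t)) (e z.1) (show V from mfderiv (𝓡 d) 𝓘(ℝ, V) e z.1 w)‖ ≤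
        C * exp (ε * t) * ‖(show V from mfderiv (𝓡 d) 𝓘(ℝ, V) e z.1 w)‖)
    (fun C C' z hle k h1 t ht h2 h3 w => (k h1 t ht h2 h3 w).trans (by gcongr)) (by
      rintro ⟨p, q⟩ ⟨hp, -⟩
      have hp' : φ p < 6 := lt_of_le_of_lt hp (by norm_num)
      obtain ⟨A, hA, h1⟩ := HypAux.upper h q
      obtain ⟨B, hB, h2⟩ := HypAux.lower h hp'
      obtain ⟨C, h3⟩ := hS p q
      refine ⟨A * max C 0 * B, ?_⟩
      filter_upwards [continuousAt_snd.eventually h1, continuousAt_fst.eventually h2, h3]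
        with z k1 k2 k3 k4 t ht k5 k6 w
      have hfl : ContDiff ℝ ∞ (fl (-t)) :=
        hC.flow.sm.comp (contDiff_const.prodMk contDiff_id)
      obtain ⟨m1, m2⟩ := HypAux.inter h hfl k6
      have m3 := k3 k4 t ht k5 w
      rw [← k5] at k1
      have m4 := k1.2 (mfderiv (𝓡 d) (𝓡 d) (F (-t)) z.1 w)
      have m5 : dE (fun y => extChartAt (𝓡 d) q (F (-t) y)) z.1 w =
          dE (extChartAt (𝓡 d) q) (F (-t) z.1) (mfderiv (𝓡 d) (𝓡 d) (F (-t)) z.1 w) :=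
        congrArg (fun L => L w)
          (mfderiv_comp z.1 ((Mfd.sm_chart k1.1).mdifferentiableAt (by simp)) m1)
      rw [m5] at m3
      have m6 := k2 w
      have m7 := exp_pos (ε * t)
      rw [m2 w]
      refine m4.trans ?_
      calc _ ≤ A * (max C 0 * exp (ε * t) * ‖dE (extChartAt (𝓡 d) p) z.1 w‖) := by
            refine mul_le_mul_of_nonneg_left (m3.trans ?_) hA
            gcongr
            exact le_max_left _ _
        _ ≤ A * (max C 0 * exp (ε * t) *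
              (B * ‖(show V from mfderiv (𝓡 d) 𝓘(ℝ, V) e z.1 w)‖)) := by
            gcongr
        _ = _ := by ring)
  refine ⟨C, fun x' hx' t ht v hv _ => ⟨0, ?_⟩⟩
  obtain ⟨x, hx, rfl, h1⟩ := hSkF d W V l Z φ e l' Pi φ' F Z' fl h hF hC x' hx'
  have h2 : φ x ≤ 2 := by
    have := (h1 0).1
    rwa [(hF x).1] at this
  rw [h.tg x (by linarith)] at hv
  obtain ⟨w, rfl⟩ := hv
  rw [zero_smul, sub_zero]
  exact hC' (x, F (-t) x) ⟨h2, (h1 (-t)).1⟩ hx t ht rfl (h1 (-t)).2 w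

end Pool.Agent.MP_6d695c_gt.P
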