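import Pool.Agent.MP_6d695c_gt.p.Alg

/-! A stack of traps on top of a stack of traps. -/

open scoped Manifold ContDiff Topology MeasureTheory
open Set Metric Filter Real

namespace Pool.Agent.MP_6d695c_gt.P

open SW T1 Theta

namespace JoinAux

variable {m : ℕ}

theorem XY_congr {f f' : ℝ × Y m → ℝ} {q : ℝ × Y m} (h : ∀ᶠ y in 𝓝 q, f y = f' y) :
    XY f q = XY f' q := by
  rw [XY, XY, XS, XS, Filter.EventuallyEq.fderiv_eq (f₁ := f) (f := f') h]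

theorem ev_lt {q : ℝ × Y m} {u : ℝ} (h : q.1 < u) : ∀ᶠ y : ℝ × Y m in 𝓝 q, y.1 < u :=
  continuous_fst.continuousAt.eventually (gt_mem_nhds h)

theorem ev_gt {q : ℝ × Y m} {u : ℝ} (h : u < q.1) : ∀ᶠ y : ℝ × Y m in 𝓝 q, u < y.1 :=
  continuous_fst.continuousAt.eventually (lt_mem_nhds h)

/-- transport of the Lyapunov property -/
theorem Ly_ev {Z Z' : ℝ × Y m → ℝ × Y m} {Φ Φ' : ℝ × Y m → ℝ} {x : ℝ × Y m} (k : ℝ)
    (h : Ly univ Z Φ x) (hZ : ∀ᶠ y in 𝓝 x, Z' y = Z y) (hΦ : ∀ᶠ y in 𝓝 x, Φ' y = Φ y + k) :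
    Ly univ Z' Φ' x := by
  refine (h.congr (mem_univ _) (by rwa [nhdsWithin_univ])).le (mem_univ _) ?_
  rw [nhdsWithin_univ]
  filter_upwards [Filter.EventuallyEq.fderiv (𝕜 := ℝ) (f₁ := Φ') (f := fun y => Φ y + k) hΦ]
    with y hy
  rw [hy, fderiv_add_const]

theorem glue {F₁ F₂ F Λ₁ Λ₂ : ℝ × Y m → ℝ} {b B₁ B₂ : ℝ} (s1 : ContDiff ℝ ∞ Λ₁)
    (s2 : ContDiff ℝ ∞ Λ₂) (l1 : ∀ x, Ly univ (XY F₁) Λ₁ x) (l2 : ∀ x, Ly univ (XY F₂) Λ₂ x)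
    (b1 : ∀ x, |Λ₁ x - x.1| ≤ B₁) (b2 : ∀ x, |Λ₂ x - x.1| ≤ B₂)
    (e1 : ∀ x : ℝ × Y m, x.1 < b + 1 → XY F x = XY F₁ x)
    (e2 : ∀ x : ℝ × Y m, b - 1 < x.1 → XY F x = XY F₂ x)
    (e0 : ∀ x : ℝ × Y m, b - 1 < x.1 → x.1 < b + 1 → XY F x = (1, 0)) :
    ∃ Λ : ℝ × Y m → ℝ, ContDiff ℝ ∞ Λ ∧ (∀ x, Ly univ (XY F) Λ x) ∧ ∃ B, ∀ x, |Λ x - x.1| ≤ B := by
  obtain ⟨χ, sχ, c1, c0, cm, cd⟩ := exists_step (u := b - 1 / 2) (v := b + 1 / 2) (by linarith)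
  have sc : ContDiff ℝ ∞ fun x : ℝ × Y m => χ x.1 := sχ.comp contDiff_fst
  refine ⟨fun x => χ x.1 * (Λ₁ x - Λ₂ x - (B₁ + B₂)) + (Λ₂ x + (B₁ + B₂)),
    (sc.mul ((s1.sub s2).sub contDiff_const)).add (s2.add contDiff_const), fun x => ?_,
    B₁ + B₂ + B₂, fun x => ?_⟩
  · rcases lt_or_ge x.1 (b - 1 / 2) with h | h
    · refine Ly_ev 0 (l1 x) ((ev_lt h).mono fun y hy => e1 y (by linarith))
        ((ev_lt h).mono fun y hy => ?_)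
      rw [c1 _ hy.le]
      ring
    rcases lt_or_ge (b + 1 / 2) x.1 with h' | h'
    · refine Ly_ev (B₁ + B₂) (l2 x) ((ev_gt h').mono fun y hy => e2 y (by linarith))
        ((ev_gt h').mono fun y hy => ?_)
      rw [c0 _ hy.le]
      ring
    have z0 : XY F x = (1, 0) := e0 x (by linarith) (by linarith)
    have ne : ((1, 0) : ℝ × Y m) ≠ 0 := fun h => one_ne_zero (congrArg Prod.fst h)
    have z1 : XY F₁ x = (1, 0) := (e1 x (by linarith)).symm.trans z0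
    have z2 : XY F₂ x = (1, 0) := (e2 x (by linarith)).symm.trans z0
    have p1 := (l1 x).pos (by rwa [z1])
    have p2 := (l2 x).pos (by rwa [z2])
    rw [z1] at p1
    rw [z2] at p2
    have d1 := (s1.differentiable (by simp) x).hasFDerivAt
    have d2 := (s2.differentiable (by simp) x).hasFDerivAt
    have df : HasFDerivAt (Prod.fst : ℝ × Y m → ℝ) (ContinuousLinearMap.fst ℝ ℝ (Y m)) x :=
      hasFDerivAt_fst
    have dc : HasFDerivAt (fun x : ℝ × Y m => χ x.1)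
        (deriv χ x.1 • ContinuousLinearMap.fst ℝ ℝ (Y m)) x :=
      (sχ.differentiable (by simp) x.1).hasDerivAt.comp_hasFDerivAt x df
    have dd := (dc.mul ((d1.sub d2).sub_const (B₁ + B₂))).add (d2.add_const (B₁ + B₂))
    left
    have e : (fun x : ℝ × Y m => χ x.1 * (Λ₁ x - Λ₂ x - (B₁ + B₂)) + (Λ₂ x + (B₁ + B₂))) =
        ((fun x : ℝ × Y m => χ x.1) * fun x => (Λ₁ - Λ₂) x - (B₁ + B₂)) +
          fun x => Λ₂ x + (B₁ + B₂) := rfl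
    rw [z0, e, dd.fderiv]
    simp only [ContinuousLinearMap.add_apply, ContinuousLinearMap.smul_apply,
      ContinuousLinearMap.sub_apply, ContinuousLinearMap.coe_fst', smul_eq_mul, mul_one,
      Pi.sub_apply]
    have h1 := abs_le.1 (b1 x)
    have h2 := abs_le.1 (b2 x)
    have h3 : 0 ≤ (Λ₁ x - Λ₂ x - (B₁ + B₂)) * deriv χ x.1 :=
      mul_nonneg_of_nonpos_of_nonpos (by linarith [h1.2, h2.1]) (cd _)
    have h4 := (cm x.1).1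
    have h5 := (cm x.1).2
    rcases h4.eq_or_lt with h6 | h6
    · rw [← h6]
      linarith
    · nlinarith [mul_pos h6 p1, mul_nonneg (sub_nonneg.2 h5) p2.le]
  · have h1 := abs_le.1 (b1 x)
    have h2 := abs_le.1 (b2 x)
    have h4 := (cm x.1).1
    have h5 := (cm x.1).2
    have g1 : 0 ≤ B₁ := (abs_nonneg _).trans (b1 x)
    have g2 : 0 ≤ B₂ := (abs_nonneg _).trans (b2 x)
    rw [abs_le]
    constructor
    · nlinarith [mul_nonneg h4 (by linarith [h1.1] : 0 ≤ Λ₁ x - x.1 + B₁),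
        mul_nonneg (sub_nonneg.2 h5) (by linarith [h2.1] : 0 ≤ Λ₂ x - x.1 + B₂),
        mul_nonneg (sub_nonneg.2 h5) g1, mul_nonneg h4 g1]
    · nlinarith [mul_nonneg h4 (by linarith [h1.2] : 0 ≤ B₁ - (Λ₁ x - x.1)),
        mul_nonneg (sub_nonneg.2 h5) (by linarith [h2.2] : 0 ≤ B₂ - (Λ₂ x - x.1)),
        mul_nonneg h4 g2]

/-- the time at which the curve passes from the lower stack to the upper one -/
theorem cut {f : ℝ → ℝ} {s t b : ℝ} (hst : s ≤ t) (hf : ContinuousOn f (Icc s t))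
    (hd : ∀ r ∈ Ico s t, b - 1 < f r → f r < b + 1 → RD f r fun a => 0 < a) :
    ∃ r₀ ∈ Icc s t, (∀ r ∈ Ico s r₀, f r < b + 1) ∧ (∀ r ∈ Ico r₀ t, b - 1 < f r) ∧
      (b ≤ f t → b ≤ f r₀) ∧ (f s ≤ b → f r₀ ≤ b) := by
  have up : ∀ r₀ ∈ Icc s t, b ≤ f r₀ → ∀ r ∈ Ico r₀ t, b - 1 < f r := fun r₀ h0 h r hr => by
    have := fence_up (v := b) (hf.mono (Icc_subset_Icc h0.1 le_rfl))
      (fun x hx e => hd x ⟨h0.1.trans hx.1, hx.2⟩ (by linarith) (by linarith)) h r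
      ⟨hr.1, hr.2.le⟩
    linarith
  have dn : ∀ r₀ ∈ Icc s t, f r₀ ≤ b → ∀ r ∈ Ico s r₀, f r < b + 1 := fun r₀ h0 h r hr => by
    have := fence_back (v := b + 1 / 2) (hf.mono (Icc_subset_Icc le_rfl h0.2))
      (fun x hx e => hd x ⟨hx.1, hx.2.trans_le h0.2⟩ (by linarith) (by linarith))
      (by linarith) r ⟨hr.1, hr.2.le⟩
    linarith
  rcases le_total (f t) b with h | h
  · exact ⟨t, ⟨hst, le_rfl⟩, dn t ⟨hst, le_rfl⟩ h, fun r hr => absurd hr.2 (not_lt.2 hr.1), id,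
      fun _ => h⟩
  rcases le_total b (f s) with h' | h'
  · exact ⟨s, ⟨le_rfl, hst⟩, fun r hr => absurd hr.2 (not_lt.2 hr.1), up s ⟨le_rfl, hst⟩ h',
      fun _ => h', id⟩
  obtain ⟨r₀, h0, e⟩ := intermediate_value_Icc hst hf ⟨h', h⟩
  exact ⟨r₀, h0, dn r₀ h0 e.le, up r₀ h0 e.ge, fun _ => e.ge, fun _ => e.le⟩

end JoinAux

open JoinAux in
theorem join : JoinStmt := by
  intro m ι η act act₁ act₂ Γ Ra Ra₁ Ra₂ R β₁ β₂ κ κ₁ κ₂ a b c F₁ Λ₁ F₂ Λ₂ T₁ T₂ hact hβ₁ hβ₂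
    hR₂ hR₁ hκ₁ hκ₂
  have hab := T₁.le
  have hbc := T₂.le
  have e1 : ∀ x : ℝ × Y m, x.1 < b + 1 → XY (fun x => F₁ x + F₂ x) x = XY F₁ x := fun x hx =>
    XY_congr ((ev_lt hx).mono fun y hy => by rw [T₂.out y (Or.inl hy.le), add_zero])
  have e2 : ∀ x : ℝ × Y m, b - 1 < x.1 → XY (fun x => F₁ x + F₂ x) x = XY F₂ x := fun x hx =>
    XY_congr ((ev_gt hx).mono fun y hy => by rw [T₁.out y (Or.inr (Or.inl hy.le)), zero_add])
  have e0 : ∀ x : ℝ × Y m, b - 1 < x.1 → x.1 < b + 1 → XY (fun x => F₁ x + F₂ x) x = (1, 0) :=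
    fun x hx hx' => (e1 x hx').trans
      (XS_of_zero ((ev_gt hx).mono fun y hy => T₁.out y (Or.inr (Or.inl hy.le))))
  obtain ⟨B₁, b1⟩ := T₁.bd
  obtain ⟨B₂, b2⟩ := T₂.bd
  obtain ⟨Λ, sΛ, ly, bd⟩ := glue T₁.sΛ T₂.sΛ T₁.lyap T₂.lyap b1 b2 e1 e2 e0
  refine ⟨Λ, hab.trans hbc, T₁.sF.add T₂.sF, sΛ, fun x hx => ?_, ly, bd, fun Ω hΩ => ?_⟩
  · rcases hx with hx | hx | hx
    · rw [T₁.out x (Or.inl hx), T₂.out x (Or.inl (by linarith)), add_zero]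
    · rw [T₁.out x (Or.inr (Or.inl (by linarith))), T₂.out x (Or.inr (Or.inl hx)), add_zero]
    · rw [T₁.out x (Or.inr (Or.inr fun i hi => hx i ((hact i).2 (Or.inl hi)))),
        T₂.out x (Or.inr (Or.inr fun i hi => hx i ((hact i).2 (Or.inr hi)))), add_zero]
  obtain ⟨ε₁, hε₁, H₁⟩ := T₁.dyn Ω hΩ
  obtain ⟨ε₂, hε₂, H₂⟩ := T₂.dyn Ω hΩ
  refine ⟨min (min ε₁ ε₂) (1 / 2), by positivity, fun γ s t hst hγ hm i hi => ?_⟩
  obtain ⟨r₀, h0, lo, hi', k1, k2⟩ := cut (f := fun r => (γ r).1) (b := b) hst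
    (continuous_fst.comp_continuousOn hγ.1) (fun r hr g1 g2 => by
      obtain ⟨v, h1, h2⟩ := hγ.2 r hr
      rw [e0 _ g1 g2] at h2
      have df : HasFDerivAt (Prod.fst : ℝ × Y m → ℝ) (ContinuousLinearMap.fst ℝ ℝ (Y m)) (γ r) :=
        hasFDerivAt_fst
      refine ⟨v.1, df.comp_hasDerivWithinAt r h1, ?_⟩
      have h3 := (norm_fst_le (v - (1, 0))).trans (h2.trans (min_le_right _ _))
      rw [Prod.fst_sub, Real.norm_eq_abs, abs_le] at h3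
      show 0 < v.1
      linarith [h3.1])
  have c1 : Crv (XY F₁) ε₁ γ s r₀ := by
    have h := Crv_sub hγ le_rfl h0.2 ((min_le_left _ _).trans (min_le_left _ _))
    exact ⟨h.1, fun r hr => e1 _ (lo r hr) ▸ h.2 r hr⟩
  have c2 : Crv (XY F₂) ε₂ γ r₀ t := by
    have h := Crv_sub hγ h0.1 le_rfl ((min_le_left _ _).trans (min_le_right _ _))
    exact ⟨h.1, fun r hr => e2 _ (hi' r hr) ▸ h.2 r hr⟩
  obtain ⟨A₂, K₂⟩ := H₂ γ r₀ t h0.2 c2 (fun r hr => hm r ⟨h0.1.trans hr.1, hr.2⟩) i (hi.trans hR₂)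
  have a0 := A₂ r₀ ⟨le_rfl, h0.2⟩
  have n0 : ‖η i (γ r₀).2‖ ≤ Ra₁ := by
    have := norm_le_norm_sub_add (η i (γ r₀).2) (η i (γ t).2)
    linarith
  obtain ⟨A₁, K₁⟩ := H₁ γ s r₀ h0.1 c1 (fun r hr => hm r ⟨hr.1, hr.2.trans h0.2⟩) i n0
  refine ⟨fun r hr => ?_, fun g1 g2 g3 p hp => ?_⟩
  · rcases le_total r r₀ with h | h
    · have := norm_sub_le_norm_sub_add_norm_sub (η i (γ r).2) (η i (γ r₀).2) (η i (γ t).2)
      linarith [A₁ r ⟨hr.1, h⟩]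
    · linarith [A₂ r ⟨h, hr.2⟩]
  · rcases (hact i).1 g3 with g | g
    · have h1 := K₁ g1 (k1 (hbc.trans g2)) g p hp
      have := norm_sub_le_norm_sub_add_norm_sub (η i (γ r₀).2) (η i (γ t).2) p
      linarith
    · exact hκ₂.trans (K₂ (k2 (g1.trans hab)) g2 g p hp)

end Pool.Agent.MP_6d695c_gt.P
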