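import Pool.Agent.MP_6d695c_gt.p.Alg

/-! PROJECT P, row KIN: elementary facts on the flow and the skeleton. -/

open scoped Manifold ContDiff Topology MeasureTheory
open Set Metric Filter Real

namespace Pool.Agent.MP_6d695c_gt.P

open SW T1 Theta

namespace KinAux

variable {V E : Type} [NormedAddCommGroup V] [NormedSpace ℝ V] [NormedAddCommGroup E]
  [NormedSpace ℝ E] {M : Set V} {l : V → V →L[ℝ] ℝ} {Pi : V → (V →L[ℝ] ℝ) →L[ℝ] V} {φ : V → ℝ}
  {Z : V → V} {fl : ℝ → V → V}

/-- the barrier: backwards in time `φ` does not increase above the level one half -/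
theorem bar (hA : Amb E M l Pi φ (1 / 2)) (hC : T1.Cut M l Pi φ Z fl) {x : V} (hx : x ∈ M)
    (h5 : φ x ≤ 5) {s t : ℝ} (hst : s ≤ t) (h4 : φ (fl t x) ≤ 4) :
    φ (fl s x) ≤ max (φ (fl t x)) (1 / 2) := by
  by_contra hcon
  obtain ⟨a1, a2⟩ := max_lt_iff.1 (not_le.1 hcon)
  have hc : Continuous fun r => φ (fl r x) := hA.sφ.continuous.comp (hC.flow.cont x)
  have v1 : 1 / 2 ≤ min (φ (fl s x)) 4 := le_min a2.le (by norm_num)
  have h1 := fence_up (f := fun r => φ (fl r x)) (a := s) (b := t) (v := min (φ (fl s x)) 4)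
    hc.continuousOn (fun r _ hr => Abs.rd hA.sφ hC hx h5 r (hr.le.trans (min_le_right _ _))
      (hA.shell _ (hC.inv r x hx h5).1 (v1.trans hr.ge))) (min_le_left _ _)
  have hm := (hC.inv t x hx h5).1
  have h2 := hA.shell _ hm (v1.trans (h1 t ⟨hst, le_rfl⟩))
  rw [← hC.eq _ hm h4] at h2
  have h3 : HasDerivAt (fun r => φ (fl r x)) _ (- -t) := (neg_neg t).symm ▸
    ((hA.sφ.differentiable (by simp)) (fl t x)).hasFDerivAt.comp_hasDerivAt t (hC.flow.der x t)
  have h6 : RD (fun r => -φ (fl (-r) x)) (-t) fun a => 0 < a :=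
    ⟨_, (h3.comp (-t) (hasDerivAt_neg (-t))).neg.hasDerivWithinAt, by simpa using h2⟩
  have hlt : -t < -s := neg_lt_neg (lt_of_le_of_ne hst fun e => by rw [e] at a1; exact a1.false)
  obtain ⟨r, b1, b2⟩ := (h6.ev_lt.and (Ioc_mem_nhdsGT hlt)).exists
  have b3 := h1 (-r) ⟨by linarith [b2.2], by linarith [b2.1]⟩
  have b4 : φ (fl t x) ≤ min (φ (fl s x)) 4 := le_min a1.le h4
  simp only [neg_neg] at b1
  linarith

end KinAux

open KinAux in
theorem kin : KinStmt := by
  intro V E _ _ _ _ _ M l Pi φ Z fl hA hC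
  have hφ : Continuous φ := hA.sφ.continuous
  have hQ : IsCompact {x ∈ M | φ x ≤ 2} := hA.cpt 2 (by norm_num)
  have two : ∀ x ∈ Ksk M φ fl, φ x ≤ 2 := fun x hx => by
    simpa only [hC.flow.zero] using hx.2 0 le_rfl
  refine ⟨?_, fun x hx t => ?_, fun x hx => ?_, fun x hx h4 t ht => ?_,
    fun x hx h2 t ht e => ⟨hx, fun s _ => ?_⟩⟩
  · have e : Ksk M φ fl = {x ∈ M | φ x ≤ 2} ∩ ⋂ t ∈ Ici (0 : ℝ), {x | φ (fl t x) ≤ 2} := by
      ext x
      simp only [mem_inter_iff, mem_iInter]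
      exact ⟨fun hx => ⟨⟨hx.1, two x hx⟩, hx.2⟩, fun hx => ⟨hx.1.1, hx.2⟩⟩
    rw [e]
    exact hQ.inter_right (isClosed_biInter fun t _ =>
      isClosed_le (hφ.comp (Abs.cont_fl hC.flow t)) continuous_const)
  · have h5 : φ x ≤ 5 := by linarith [two x hx]
    refine ⟨(hC.inv t x hx.1 h5).1, fun s _ => ?_⟩
    rw [← hC.flow.add]
    rcases le_total 0 (s + t) with h | h
    · exact hx.2 _ h
    · exact (bar hA hC hx.1 h5 h (by linarith [hx.2 0 le_rfl])).trans
        (max_le (hx.2 0 le_rfl) (by norm_num))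
  · by_contra h1
    rw [not_le] at h1
    have h5 : φ x ≤ 5 := by linarith [two x hx]
    have hu : Continuous fun y => fderiv ℝ φ y (Pi y (l y)) :=
      (hA.sφ.continuous_fderiv (by simp)).clm_apply hA.smZ.continuous
    obtain ⟨m, hm, hle⟩ := exists_pos_le (hQ.inter_right (isClosed_le continuous_const hφ :
      IsClosed {y | (1 / 2 : ℝ) ≤ φ y})) hu.continuousOn fun y hy => hA.shell y hy.1.1 hy.2
    have hT : 0 ≤ 2 / m := by positivity
    have h2 := speed_ge (f := fun r => φ (fl r x)) (m := m) hT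
      (hφ.comp (hC.flow.cont x)).continuousOn fun r hr =>
        Abs.rd hA.sφ hC hx.1 h5 r (by linarith [hx.2 r hr.1])
          (hle _ ⟨⟨(hC.inv r x hx.1 h5).1, hx.2 r hr.1⟩, by
            have := bar hA hC hx.1 h5 hr.1 (by linarith [hx.2 r hr.1])
            rw [hC.flow.zero] at this
            rcases le_max_iff.1 this with h | h
            · exact h1.le.trans h
            · exact absurd h h1.not_ge⟩)
    have h4 : m * (2 / m - 0) = 2 := by field_simp; ring
    rw [h4, hC.flow.zero] at h2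
    linarith [hx.2 _ hT]
  · have := bar hA hC hx (by linarith) (neg_nonpos.2 ht) (by rwa [hC.flow.zero])
    rwa [hC.flow.zero] at this
  · have h1 : ∀ n : ℕ, fl (n * t) x = x := fun n => by
      induction n with
      | zero => rw [Nat.cast_zero, zero_mul, hC.flow.zero]
      | succ n ih => rw [Nat.cast_succ, add_mul, one_mul, hC.flow.add, e, ih]
    obtain ⟨n, hn⟩ := exists_nat_ge (s / t)
    have := bar hA hC hx (by linarith) ((div_le_iff₀ ht).1 hn) (by rw [h1]; linarith)
    rw [h1] at this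
    exact this.trans (max_le h2 (by norm_num))

end Pool.Agent.MP_6d695c_gt.P
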