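import Pool.Agent.MP_6d695c_gt.p.Alg

/-! PROJECT P, row LBox: a long flow box. -/

open scoped Manifold ContDiff Topology MeasureTheory
open Set Metric Filter Real

namespace Pool.Agent.MP_6d695c_gt.P

open SW T1 Theta

namespace LBoxAux

/-- local smooth left inverses on a compact set where the map is injective glue -/
theorem glue {V F : Type} [NormedAddCommGroup V] [NormedSpace ℝ V] [FiniteDimensional ℝ V]
    [NormedAddCommGroup F] [NormedSpace ℝ F] {Ψ : F → V} {K : Set F} (hK : IsCompact K)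
    (hΨ : Continuous Ψ) (hi : InjOn Ψ K)
    (hl : ∀ q ∈ K, ∃ (r : V → F) (O : Set F), ContDiff ℝ ∞ r ∧ IsOpen O ∧ q ∈ O ∧
      ∀ q' ∈ O, r (Ψ q') = q') :
    ∃ A : V → F, ContDiff ℝ ∞ A ∧ ∀ q ∈ K, A (Ψ q) = q := by
  obtain ⟨A, hA⟩ := exists_contMDiffMap_forall_mem_convex_of_local (n := ⊤) 𝓘(ℝ, V)
    (t := fun v => ⋂ q ∈ {q ∈ K | Ψ q = v}, ({q} : Set F))
    (fun v => convex_iInter₂ fun q _ => convex_singleton q) fun v => by
      by_cases hv : v ∈ Ψ '' K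
      · obtain ⟨q, hq, rfl⟩ := hv
        obtain ⟨r, O, hr, hO, hqO, h⟩ := hl q hq
        refine ⟨_, ((hK.diff hO).image hΨ).isClosed.isOpen_compl.mem_nhds ?_, r,
          hr.contMDiff.contMDiffOn, fun y hy => mem_iInter₂.2 fun q' hq' => ?_⟩
        · rintro ⟨q', h1, h2⟩
          exact h1.2 (hi h1.1 hq h2 ▸ hqO)
        · obtain ⟨h1, rfl⟩ := hq'
          exact h q' (by_contra fun hn => hy ⟨q', ⟨h1, hn⟩, rfl⟩)
      · exact ⟨_, (hK.image hΨ).isClosed.isOpen_compl.mem_nhds hv, fun _ => 0, contMDiffOn_const,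
          fun y hy => mem_iInter₂.2 fun q' hq' => absurd ⟨q', hq'.1, hq'.2⟩ hy⟩
  exact ⟨A, A.contMDiff.contDiff, fun q hq => mem_iInter₂.1 (hA (Ψ q)) q ⟨hq, rfl⟩⟩

end LBoxAux

theorem lbox : LBoxStmt := by
  intro V E _ _ _ _ _ m M N₀ l Pi φ Z fl g κ a L D N y₀ hA hC hL ha hB hy₀ hL0 hlow hper hN₀ hg₀
  have hf := hC.flow
  have sΨ := Ps_smooth hf hB.sg
  have cΨ := sΨ.continuous
  have sfl : ∀ t, ContDiff ℝ ∞ (fl t) := fun t => hf.sm.comp (contDiff_const.prodMk contDiff_id)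
  have h0 : ∀ y ∈ D, ((0 : ℝ), y) ∈ Ioo (-a) a ×ˢ D := fun y hy => ⟨⟨by linarith, ha⟩, hy⟩
  -- the translated inverses
  obtain ⟨k, hk⟩ : ∃ k : ℝ → V → ℝ × Y m, k = fun t x => κ (fl (-t) x) + (t, 0) := ⟨_, rfl⟩
  have sk : ∀ t, ContDiff ℝ ∞ (k t) := fun t => by
    rw [hk]; exact (hB.sκ.comp (sfl _)).add contDiff_const
  have mem : ∀ t, ∀ q ∈ Ioo (t - a) (t + a) ×ˢ D, (-t + q.1, q.2) ∈ Ioo (-a) a ×ˢ D :=
    fun t q hq => ⟨⟨by linarith [hq.1.1], by linarith [hq.1.2]⟩, hq.2⟩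
  have kl : ∀ t, ∀ q ∈ Ioo (t - a) (t + a) ×ˢ D, k t (Ps fl g q) = q := fun t q hq => by
    rw [hk]
    simp only
    rw [fl_Ps hf, (hB.par.gm _ (mem t q hq)).2.2]
    ext <;> simp
  have kr : ∀ t, ∀ x ∈ M, φ x ≤ 5 → fl (-t) x ∈ N → Ps fl g (k t x) = x := fun t x hx h5 hN => by
    have h1 := (hB.par.rm _ (hC.inv (-t) x hx h5).1 hN).2
    have h2 : k t x = (t + (κ (fl (-t) x)).1, (κ (fl (-t) x)).2) := by
      rw [hk]; ext <;> simp [add_comm]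
    rw [h2, ← fl_Ps hf, h1, ← hf.add, add_neg_cancel, hf.zero]
  have oO : ∀ t : ℝ, IsOpen (Ioo (t - a) (t + a) ×ˢ D) := fun t => isOpen_Ioo.prod hB.oD
  have mO : ∀ q : ℝ × Y m, q.2 ∈ D → q ∈ Ioo (q.1 - a) (q.1 + a) ×ˢ D :=
    fun q hq => ⟨⟨by linarith, by linarith⟩, hq⟩
  -- injectivity near the segment
  have key : ∀ s t : ℝ, s ∈ Icc (-L) L → t ∈ Icc (-L) L → s < t → fl s (g y₀) ≠ fl t (g y₀) :=
    fun s t hs ht hst he => hper (t - s) (by linarith) (by linarith [hs.1, ht.2]) (by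
      rw [sub_eq_neg_add, hf.add, ← he, ← hf.add, neg_add_cancel, hf.zero])
  have inj : InjOn (Ps fl g) (Icc (-L) L ×ˢ {y₀}) := by
    rintro ⟨s, y⟩ ⟨hs, rfl⟩ ⟨t, y'⟩ ⟨ht, rfl⟩ he
    rcases lt_trichotomy s t with h | h | h
    · exact absurd he (key s t hs ht h)
    · rw [h]
    · exact absurd he.symm (key t s ht hs h)
  obtain ⟨W, oW, sW, iW⟩ := inj.exists_isOpen_superset (isCompact_Icc.prod isCompact_singleton)
    (fun q _ => cΨ.continuousAt) fun q hq => ⟨_, (oO q.1).mem_nhds (mO q (hq.2 ▸ hy₀)),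
      fun p hp p' hp' he => by rw [← kl _ p hp, he, kl _ p' hp']⟩
  obtain ⟨u, v, ou, ov, su, sv, huv⟩ := generalized_tube_lemma (isCompact_Icc (a := -L) (b := L))
    (isCompact_singleton (x := y₀))
    (n := W ∩ ({q | φ (Ps fl g q) < 1} ∩ Prod.snd ⁻¹' (D ∩ g ⁻¹' N₀)))
    (oW.inter ((isOpen_lt (hA.sφ.continuous.comp cΨ) continuous_const).inter
      ((hB.oD.inter (hN₀.preimage hB.sg.continuous)).preimage continuous_snd)))
    (by
      rintro ⟨t, y⟩ ⟨ht, rfl⟩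
      exact ⟨sW ⟨ht, rfl⟩, hlow t (abs_le.2 ht), hy₀, hg₀⟩)
  obtain ⟨r, hr, hrv⟩ := nhds_basis_closedBall.mem_iff.1 (ov.mem_nhds (sv rfl))
  have hK : ∀ q ∈ Icc (-L) L ×ˢ closedBall y₀ r,
      q ∈ W ∧ φ (Ps fl g q) < 1 ∧ q.2 ∈ D ∧ g q.2 ∈ N₀ := fun q hq => huv ⟨su hq.1, hrv hq.2⟩
  obtain ⟨κ', sκ', hκ'⟩ := LBoxAux.glue (isCompact_Icc.prod (isCompact_closedBall y₀ r)) cΨ
    (iW.mono fun q hq => (hK q hq).1) fun q hq =>
      ⟨k q.1, _, sk _, oO q.1, mO q (hK q hq).2.2.1, kl _⟩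
  have sub : Ioo (-L) L ×ˢ ball y₀ r ⊆ Icc (-L) L ×ˢ closedBall y₀ r :=
    prod_mono Ioo_subset_Icc_self ball_subset_closedBall
  have oB : IsOpen (Ioo (-L) L ×ˢ ball y₀ r) := isOpen_Ioo.prod isOpen_ball
  have gM : ∀ y ∈ D, g y ∈ M ∧ g y ∈ N ∧ φ (g y) < 1 := fun y hy => by
    have h1 := hB.par.gm _ (h0 y hy)
    have h2 := hB.low _ (h0 y hy)
    rw [Ps_zero hf] at h1 h2
    exact ⟨h1.1, h1.2.1, h2⟩
  have oN : IsOpen (⋃ t : ℝ, φ ⁻¹' Iio 1 ∩ (fl (-t) ⁻¹' N ∩ k t ⁻¹' (Ioo (-L) L ×ˢ ball y₀ r))) :=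
    isOpen_iUnion fun t => (isOpen_Iio.preimage hA.sφ.continuous).inter
      ((hB.par.oN.preimage (sfl _).continuous).inter (oB.preimage (sk t).continuous))
  refine ⟨κ', ball y₀ r, _, ⟨hB.sg, sκ', isOpen_ball, ⟨oB, oN, sΨ.contDiffOn, sκ'.contDiffOn,
    fun q hq => ?_, fun x hx hN => ?_⟩, fun q hq w => ?_, fun q hq => (hK q (sub hq)).2.1⟩,
    mem_ball_self hr, fun y hy => (hK (0, y) (sub ⟨⟨by linarith, hL0⟩, hy⟩)).2.2.2⟩
  · obtain ⟨-, h1, h2, -⟩ := hK q (sub hq)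
    obtain ⟨g1, g2, g3⟩ := gM _ h2
    refine ⟨(hC.inv q.1 _ g1 (by linarith)).1, mem_iUnion.2 ⟨q.1, h1, ?_, ?_⟩, hκ' q (sub hq)⟩
    · rw [mem_preimage, fl_Ps hf, neg_add_cancel, Ps_zero hf]
      exact g2
    · rw [mem_preimage, kl _ q (mO q h2)]
      exact hq
  · obtain ⟨t, h1, h2, h3⟩ := mem_iUnion.1 hN
    have h4 := kr t x hx (le_trans (le_of_lt h1) (by norm_num)) h2
    have h5 := hκ' _ (sub h3)
    rw [h4] at h5
    rw [h5]
    exact ⟨h3, h4⟩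
  · obtain ⟨t, y⟩ := q
    obtain ⟨-, -, h2, -⟩ := hK _ (sub hq)
    have d1 : HasFDerivAt (fun p : ℝ × Y m => p - (t, 0)) (ContinuousLinearMap.id ℝ _) (t, y) :=
      (hasFDerivAt_id _).sub_const _
    have e0 : ((t, y) : ℝ × Y m) - (t, 0) = (0, y) := by simp
    have d2 : HasFDerivAt (Ps fl g) (fderiv ℝ (Ps fl g) (0, y)) (((t, y) : ℝ × Y m) - (t, 0)) := by
      rw [e0]; exact (sΨ.differentiable (by simp) _).hasFDerivAt
    have d3 : HasFDerivAt (fl t) (fderiv ℝ (fl t) (Ps fl g (0, y)))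
        (Ps fl g (((t, y) : ℝ × Y m) - (t, 0))) := by
      rw [e0]; exact ((sfl t).differentiable (by simp) _).hasFDerivAt
    have d4 := d3.comp (t, y) (d2.comp (t, y) d1)
    have e1 : (fl t ∘ Ps fl g ∘ fun p : ℝ × Y m => p - (t, 0)) = Ps fl g := by
      funext p
      simp only [Function.comp, fl_Ps hf]
      congr 1
      ext <;> simp
    rw [e1] at d4
    have tg : fderiv ℝ (Ps fl g) (0, y) w ∈ Tg M (Ps fl g (0, y)) := by
      rw [hB.par.tg (h0 y h2)]; exact mem_range_self w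
    have hl := (hL _ (hB.par.gm _ (h0 y h2)).1 t (fun s hs => by
      have hs' : s ∈ Icc (-L) L := uIcc_subset_Icc ⟨by linarith, hL0.le⟩ (sub hq).1 hs
      have := (hK (s, y) ⟨hs', (sub hq).2⟩).2.1
      rw [fl_Ps hf, add_zero]
      exact this.trans (by norm_num)) _ tg).2.1
    rw [fl_Ps hf, add_zero, hB.form _ (h0 y h2)] at hl
    rw [d4.fderiv]
    refine hl.trans ?_
    simp [lam0]

end Pool.Agent.MP_6d695c_gt.P
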