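import Mathlib.Analysis.InnerProductSpace.Rayleigh
import Pool.Agent.MP_6d695c_gt.p.Alg

/-! PROJECT P, row La1: adapted frames exist. -/

open scoped Manifold ContDiff Topology MeasureTheory
open Set Metric Filter Real

namespace Pool.Agent.MP_6d695c_gt.P

open SW T1 Theta

namespace La1Aux

theorem eig (E : Type) [AddCommGroup E] [Module ℝ E] [FiniteDimensional ℝ E] [Nontrivial E]
    (q : E →ₗ[ℝ] E →ₗ[ℝ] ℝ) (hs : ∀ u v, q u v = q v u) (hp : ∀ u, u ≠ 0 → 0 < q u u)
    (S : E →ₗ[ℝ] E) (hS : ∀ u v, q (S u) v = q u (S v)) :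
    ∃ (μ : ℝ) (e : E), e ≠ 0 ∧ S e = μ • e := by
  let c : InnerProductSpace.Core ℝ E :=
    { inner := fun u v => q u v
      conj_inner_symm := fun u v => hs v u
      re_inner_nonneg := fun u => by
        by_cases h : u = 0
        · simp [h]
        · exact (hp u h).le
      add_left := fun u v w => by simp
      smul_left := fun u v r => by simp
      definite := fun u h => by_contra fun h' => (hp u h').ne' h }
  let _ : NormedAddCommGroup E := @InnerProductSpace.Core.toNormedAddCommGroup ℝ E _ _ _ c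
  let _ : InnerProductSpace ℝ E := InnerProductSpace.ofCore _
  have h : S.IsSymmetric := hS
  obtain ⟨e, he⟩ := h.hasEigenvalue_iSup_of_finiteDimensional.exists_hasEigenvector
  exact ⟨_, e, he.2, he.apply_eq_smul⟩

/-- forgetting the first pair of coordinates -/
def tl (n : ℕ) : Hor (n + 1) →ₗ[ℝ] Hor n where
  toFun u := (fun j => u.1 j.succ, fun j => u.2 j.succ)
  map_add' _ _ := rfl
  map_smul' _ _ := rfl

def h1 (n : ℕ) : Hor (n + 1) →ₗ[ℝ] ℝ := (LinearMap.proj 0).comp (LinearMap.fst ℝ _ _)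

def h2 (n : ℕ) : Hor (n + 1) →ₗ[ℝ] ℝ := (LinearMap.proj 0).comp (LinearMap.snd ℝ _ _)

theorem om_succ {n : ℕ} (u v : Hor (n + 1)) :
    om u v = h2 n u * h1 n v - h1 n u * h2 n v + om (tl n u) (tl n v) := by
  rw [om, Fin.sum_univ_succ]
  rfl

theorem plane (E : Type) [AddCommGroup E] [Module ℝ E] [FiniteDimensional ℝ E] [Nontrivial E]
    (q : E →ₗ[ℝ] E →ₗ[ℝ] ℝ) (hs : ∀ u v, q u v = q v u) (hp : ∀ u, u ≠ 0 → 0 < q u u)
    (K : E →ₗ[ℝ] E) (hK : ∀ u v, q (K u) v = -q u (K v)) (hi : ∀ u, K u = 0 → u = 0) :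
    ∃ (l : ℝ) (e f : E), K e = (-l) • f ∧ K f = l • e ∧ l * q e e = 1 ∧ l * q f f = 1 ∧
      q e f = 0 := by
  obtain ⟨μ, e0, h0, he⟩ := eig E q hs hp (-(K.comp K)) fun u v => by
    simp only [LinearMap.neg_apply, LinearMap.comp_apply, map_neg]
    rw [hK, hK, neg_neg]
  have he' : K (K e0) = (-μ) • e0 := by
    rw [neg_smul, ← he]
    simp
  have a0 := hp e0 h0
  have a1 := hp (K e0) fun h => h0 (hi _ h)
  have a2 : q (K e0) (K e0) = μ * q e0 e0 := by
    rw [hK, he']
    simp
  have hμ : 0 < μ := by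
    rw [a2] at a1
    exact (mul_pos_iff_of_pos_right a0).1 a1
  obtain ⟨l, hl, rfl⟩ : ∃ l : ℝ, 0 < l ∧ μ = l * l :=
    ⟨√μ, Real.sqrt_pos.2 hμ, (Real.mul_self_sqrt hμ.le).symm⟩
  obtain ⟨t, ht⟩ : ∃ t : ℝ, t * t * (l * q e0 e0) = 1 :=
    ⟨√(l * q e0 e0)⁻¹, by
      rw [Real.mul_self_sqrt (by positivity)]
      exact inv_mul_cancel₀ (by positivity)⟩
  have a3 : q e0 (K e0) = 0 := by
    have := hK e0 e0
    rw [hs] at this
    linarith
  refine ⟨l, t • e0, (-(t / l)) • K e0, ?_, ?_, ?_, ?_, ?_⟩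
  · rw [map_smul, smul_smul]
    congr 1
    field_simp
  · rw [map_smul, he', smul_smul, smul_smul]
    congr 1
    field_simp
  · simp only [map_smul, LinearMap.smul_apply, smul_eq_mul]
    linear_combination ht
  · simp only [map_smul, LinearMap.smul_apply, smul_eq_mul, a2]
    rw [← ht]
    field_simp
  · simp only [map_smul, LinearMap.smul_apply, smul_eq_mul, a3, mul_zero]

theorem aux (m : ℕ) : ∀ (E : Type) [AddCommGroup E] [Module ℝ E] [FiniteDimensional ℝ E]
    (q : E →ₗ[ℝ] E →ₗ[ℝ] ℝ) (K : E →ₗ[ℝ] E), Module.finrank ℝ E ≤ m → (∀ u v, q u v = q v u) →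
    (∀ u, u ≠ 0 → 0 < q u u) → (∀ u v, q (K u) v = -q u (K v)) → (∀ u, K u = 0 → u = 0) →
    ∃ (n : ℕ) (A : Hor n →ₗ[ℝ] E), Function.Surjective A ∧
      (∀ u v, q (K (A u)) (A v) = om u v) ∧ ∀ u, q (A (JH u)) (A (JH u)) = q (A u) (A u) := by
  have triv : ∀ (E : Type) [AddCommGroup E] [Module ℝ E] [Subsingleton E]
      (q : E →ₗ[ℝ] E →ₗ[ℝ] ℝ) (K : E →ₗ[ℝ] E), ∃ (n : ℕ) (A : Hor n →ₗ[ℝ] E),
      Function.Surjective A ∧ (∀ u v, q (K (A u)) (A v) = om u v) ∧
        ∀ u, q (A (JH u)) (A (JH u)) = q (A u) (A u) := fun E _ _ _ q K =>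
    ⟨0, 0, fun v => ⟨0, Subsingleton.elim _ _⟩, fun u v => by simp [om], fun u => by simp⟩
  induction m with
  | zero =>
    intro E _ _ _ q K hm _ _ _ _
    have := Module.finrank_zero_iff.1 (Nat.le_zero.1 hm)
    exact triv E q K
  | succ m ih =>
    intro E _ _ _ q K hm hs hp hK hi
    rcases subsingleton_or_nontrivial E with h0 | h0
    · exact triv E q K
    obtain ⟨l, e, f, ke, kf, qe, qf, ef⟩ := plane E q hs hp K hK hi
    have fe : q f e = 0 := by rw [hs, ef]
    have l0 : l ≠ 0 := fun h => by simp [h] at qe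
    have qef : q f f = q e e := mul_left_cancel₀ l0 (qf.trans qe.symm)
    let E' : Submodule ℝ E := LinearMap.ker (q e) ⊓ LinearMap.ker (q f)
    have hE : ∀ x : E', q e x = 0 ∧ q f x = 0 ∧ q x e = 0 ∧ q x f = 0 := fun x =>
      ⟨x.2.1, x.2.2, by rw [hs]; exact x.2.1, by rw [hs]; exact x.2.2⟩
    have hKE : ∀ x ∈ E', K x ∈ E' := fun x hx => by
      have a1 : q e x = 0 := hx.1
      have a2 : q f x = 0 := hx.2
      have a3 := hK e x
      have a4 := hK f x
      rw [ke] at a3
      rw [kf] at a4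
      simp only [map_smul, LinearMap.smul_apply, smul_eq_mul, a1, a2, mul_zero] at a3 a4
      exact ⟨neg_eq_zero.1 a3.symm, neg_eq_zero.1 a4.symm⟩
    have hv : ∀ v, v - (l * q e v) • e - (l * q f v) • f ∈ E' := fun v =>
      ⟨by
        simp only [SetLike.mem_coe, LinearMap.mem_ker, map_sub, map_smul, smul_eq_mul, ef]
        linear_combination (-q e v) * qe, by
        simp only [SetLike.mem_coe, LinearMap.mem_ker, map_sub, map_smul, smul_eq_mul, fe]
        linear_combination (-q f v) * qf⟩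
    have hlt : Module.finrank ℝ E' < Module.finrank ℝ E := by
      refine Submodule.finrank_lt fun h => ?_
      have : e ∈ E' := h ▸ Submodule.mem_top
      have h1 : q e e = 0 := this.1
      simp [h1] at qe
    obtain ⟨n, A, g1, g2, g3⟩ := ih E' (q.compl₁₂ E'.subtype E'.subtype) (K.restrict hKE)
      (by omega) (fun u v => hs u v) (fun u hu => hp u fun h => hu (Subtype.ext h))
      (fun u v => hK u v) (fun u hu => Subtype.ext (hi u (congrArg Subtype.val hu)))
    have g2' : ∀ u v, q (K (A u)) (A v) = om u v := g2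
    have g3' : ∀ u, q (A (JH u)) (A (JH u)) = q (A u) (A u) := g3
    have k1 : ∀ x : E', q (K x) e = 0 := fun x => (hE ⟨_, hKE x x.2⟩).2.2.1
    have k2 : ∀ x : E', q (K x) f = 0 := fun x => (hE ⟨_, hKE x x.2⟩).2.2.2
    refine ⟨n + 1, (h1 n).smulRight e + (h2 n).smulRight f + E'.subtype.comp (A.comp (tl n)),
      fun v => ?_, fun u v => ?_, fun u => ?_⟩
    · obtain ⟨w, hw⟩ := g1 ⟨_, hv v⟩
      refine ⟨(Fin.cons (l * q e v) w.1, Fin.cons (l * q f v) w.2), ?_⟩
      have e1 : tl n (Fin.cons (l * q e v) w.1, Fin.cons (l * q f v) w.2) = w := rfl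
      have e2 : h1 n (Fin.cons (l * q e v) w.1, Fin.cons (l * q f v) w.2) = l * q e v := rfl
      have e3 : h2 n (Fin.cons (l * q e v) w.1, Fin.cons (l * q f v) w.2) = l * q f v := rfl
      simp only [LinearMap.add_apply, LinearMap.smulRight_apply, LinearMap.comp_apply, e1, e2, e3,
        hw, Submodule.subtype_apply]
      module
    · simp only [LinearMap.add_apply, LinearMap.smulRight_apply, LinearMap.comp_apply,
        Submodule.subtype_apply, map_add, map_smul, LinearMap.smul_apply, smul_eq_mul, ke, kf,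
        g2', k1, k2, ef, fe, (hE _).1, (hE _).2.1, om_succ]
      linear_combination (h2 n u * h1 n v) * qe - (h1 n u * h2 n v) * qf
    · have e1 : tl n (JH u) = JH (tl n u) := rfl
      have e2 : h1 n (JH u) = h2 n u := rfl
      have e3 : h2 n (JH u) = -h1 n u := rfl
      simp only [LinearMap.add_apply, LinearMap.smulRight_apply, LinearMap.comp_apply,
        Submodule.subtype_apply, map_add, map_smul, LinearMap.smul_apply, smul_eq_mul, e1, e2, e3,
        g3', ef, fe, qef, (hE _).1, (hE _).2.1, (hE _).2.2.1, (hE _).2.2.2]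
      ring

/-- the form as a bilinear map -/
def omL (m : ℕ) : Hor m →ₗ[ℝ] Hor m →ₗ[ℝ] ℝ :=
  LinearMap.mk₂ ℝ om
    (fun a b c => by
      rw [om, om, om, ← Finset.sum_add_distrib]
      exact Finset.sum_congr rfl fun _ _ => by simp; ring)
    (fun a b c => by
      rw [om, om, smul_eq_mul, Finset.mul_sum]
      exact Finset.sum_congr rfl fun _ _ => by simp; ring)
    (fun a b c => by
      rw [om, om, om, ← Finset.sum_add_distrib]
      exact Finset.sum_congr rfl fun _ _ => by simp; ring)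
    (fun a b c => by
      rw [om, om, smul_eq_mul, Finset.mul_sum]
      exact Finset.sum_congr rfl fun _ _ => by simp; ring)

theorem om_nondeg {m : ℕ} {u : Hor m} (h : ∀ v, om u v = 0) : u = 0 := by
  ext i
  · have := h (0, Pi.single i 1)
    simpa [om, Pi.single_apply] using this
  · have := h (Pi.single i 1, 0)
    simpa [om, Pi.single_apply] using this

end La1Aux

open La1Aux in
theorem la1 : La1Stmt := by
  intro m q hs hp
  let q' : Hor m →ₗ[ℝ] Hor m →ₗ[ℝ] ℝ := LinearMap.mk₂ ℝ (fun u v => q u v)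
    (fun a b c => by simp) (fun a b c => by simp) (fun a b c => by simp) (fun a b c => by simp)
  have qi : Function.Injective q' := (injective_iff_map_eq_zero q').2 fun u hu =>
    by_contra fun h => (hp u h).ne' (LinearMap.congr_fun hu u)
  let qe : Hor m ≃ₗ[ℝ] Module.Dual ℝ (Hor m) :=
    LinearMap.linearEquivOfInjective q' qi Subspace.dual_finrank_eq.symm
  let K : Hor m →ₗ[ℝ] Hor m := qe.symm.toLinearMap.comp (omL m)
  have hK : ∀ u v, q' (K u) v = om u v := fun u v =>
    LinearMap.congr_fun (qe.apply_symm_apply (omL m u)) v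
  obtain ⟨n, A, g1, g2, g3⟩ := aux _ (Hor m) q' K le_rfl hs hp
    (fun u v => by rw [show q' u (K v) = q' (K v) u from hs _ _, hK, hK, om_swap])
    (fun u hu => om_nondeg fun v => by rw [← hK, hu]; simp)
  have gi : Function.Injective A := (injective_iff_map_eq_zero A).2 fun u hu =>
    om_nondeg fun v => by rw [← g2, hu]; simp
  let A' := LinearEquiv.ofBijective A ⟨gi, g1⟩
  obtain rfl : n = m := by
    have := A'.finrank_eq
    simp only [Module.finrank_prod, Module.finrank_fin_fun] at this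
    omega
  exact ⟨LinearMap.toContinuousLinearMap A, LinearMap.toContinuousLinearMap A'.symm.toLinearMap,
    hs, hp, fun u v => by rw [one_mul, ← g2 u v, hK]; rfl, A'.symm_apply_apply,
    A'.apply_symm_apply, g3⟩

end Pool.Agent.MP_6d695c_gt.P
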