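import Pool.Agent.MP_6d695c_gt.p.Alg

/-! PROJECT P, row La2: two-sided bounds give a bound in adapted frames. -/

open scoped Manifold ContDiff Topology MeasureTheory
open Set Metric Filter Real

namespace Pool.Agent.MP_6d695c_gt.P

open SW T1 Theta

namespace La2Aux

variable {m : ℕ}

/-- the Euclidean product -/
def ip (u v : Hor m) : ℝ := ∑ j, (u.1 j * v.1 j + u.2 j * v.2 j)

theorem ip_J (u v : Hor m) : ip (JH u) v = om u v :=
  Finset.sum_congr rfl fun j _ => by simp only [JH, Pi.neg_apply]; ring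

theorem om_J (u v : Hor m) : om (JH u) v = -ip u v := by
  rw [om, ip, ← Finset.sum_neg_distrib]
  exact Finset.sum_congr rfl fun j _ => by simp only [JH, Pi.neg_apply]; ring

theorem ip_lin (a b : ℝ) (u v w : Hor m) : ip (a • u + b • v) w = a * ip u w + b * ip v w := by
  simp only [ip, Finset.mul_sum, ← Finset.sum_add_distrib]
  exact Finset.sum_congr rfl fun j _ => by
    simp only [Prod.fst_add, Prod.snd_add, Prod.smul_fst, Prod.smul_snd, Pi.add_apply, Pi.smul_apply,
      smul_eq_mul]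
    ring

theorem ip_sq (t : ℝ) (u v : Hor m) :
    ip (u + t • v) (u + t • v) = ip v v * (t * t) + 2 * ip u v * t + ip u u := by
  simp only [ip, Finset.mul_sum, Finset.sum_mul, ← Finset.sum_add_distrib]
  exact Finset.sum_congr rfl fun j _ => by
    simp only [Prod.fst_add, Prod.snd_add, Prod.smul_fst, Prod.smul_snd, Pi.add_apply, Pi.smul_apply,
      smul_eq_mul]
    ring

theorem ip_smul (t : ℝ) (u : Hor m) : ip (t • u) (t • u) = t ^ 2 * ip u u := by
  simp only [ip, Finset.mul_sum]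
  exact Finset.sum_congr rfl fun j _ => by
    simp only [Prod.smul_fst, Prod.smul_snd, Pi.smul_apply, smul_eq_mul]
    ring

theorem ip_nonneg (u : Hor m) : 0 ≤ ip u u :=
  Finset.sum_nonneg fun _ _ => add_nonneg (mul_self_nonneg _) (mul_self_nonneg _)

theorem norm_le_of_ip {u : Hor m} {r : ℝ} (hr : 0 ≤ r) (h : ip u u ≤ r ^ 2) : ‖u‖ ≤ r := by
  have a : ∀ j, u.1 j * u.1 j + u.2 j * u.2 j ≤ r ^ 2 := fun j =>
    (Finset.single_le_sum (f := fun j => u.1 j * u.1 j + u.2 j * u.2 j)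
      (fun _ _ => add_nonneg (mul_self_nonneg _) (mul_self_nonneg _)) (Finset.mem_univ j)).trans h
  refine norm_prod_le_iff.2 ⟨(pi_norm_le_iff_of_nonneg hr).2 fun j => ?_,
    (pi_norm_le_iff_of_nonneg hr).2 fun j => ?_⟩
  · exact abs_le_of_sq_le_sq (by nlinarith [a j, mul_self_nonneg (u.2 j)]) hr
  · exact abs_le_of_sq_le_sq (by nlinarith [a j, mul_self_nonneg (u.1 j)]) hr

theorem ip_eq_zero {u : Hor m} (h : ip u u = 0) : u = 0 :=
  norm_le_zero_iff.1 (norm_le_of_ip le_rfl (by rw [h]; norm_num))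

theorem ip_le (u : Hor m) : ip u u ≤ 2 * m * ‖u‖ ^ 2 := by
  have := Finset.sum_le_card_nsmul Finset.univ (fun j => u.1 j * u.1 j + u.2 j * u.2 j)
    (2 * ‖u‖ ^ 2) fun j _ => by
      have a : |u.1 j| ≤ ‖u‖ := (norm_le_pi_norm u.1 j).trans (norm_fst_le u)
      have b : |u.2 j| ≤ ‖u‖ := (norm_le_pi_norm u.2 j).trans (norm_snd_le u)
      have a' := pow_le_pow_left₀ (abs_nonneg _) a 2
      have b' := pow_le_pow_left₀ (abs_nonneg _) b 2
      rw [sq_abs] at a' b'
      nlinarith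
  simp only [Finset.card_univ, Fintype.card_fin, nsmul_eq_mul] at this
  rw [ip]
  linarith

theorem ip_cont : Continuous fun u : Hor m => ip u u := by
  unfold ip
  fun_prop

/-- a direction of maximal stretching -/
theorem exists_top (T : Hor m →L[ℝ] Hor m) : ∃ (s : ℝ) (v : Hor m),
    (∀ x, ip (T x) (T x) ≤ s * ip x x) ∧ (s = 0 ∨ (v ≠ 0 ∧ ∀ x, ip (T v) (T x) = s * ip v x)) := by
  have hK : IsCompact {x : Hor m | ip x x ≤ 1} :=
    (isCompact_closedBall (0 : Hor m) 1).of_isClosed_subset (isClosed_le ip_cont continuous_const)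
      fun x hx => mem_closedBall_zero_iff.2 (norm_le_of_ip zero_le_one (by simpa using hx))
  obtain ⟨v, hv, hm⟩ := hK.exists_isMaxOn ⟨0, by simp [ip]⟩
    (ip_cont.comp T.continuous).continuousOn
  have up : ∀ x, ip (T x) (T x) ≤ ip (T v) (T v) * ip x x := fun x => by
    rcases (ip_nonneg x).eq_or_lt with e | e
    · rw [ip_eq_zero e.symm]
      simp [ip]
    have a : ((√(ip x x))⁻¹) ^ 2 = (ip x x)⁻¹ := by rw [inv_pow, sq_sqrt e.le]
    have b : ip (T ((√(ip x x))⁻¹ • x)) (T ((√(ip x x))⁻¹ • x)) ≤ ip (T v) (T v) :=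
      hm (show ip _ _ ≤ 1 by rw [ip_smul, a, inv_mul_cancel₀ e.ne'])
    rw [map_smul, ip_smul, a, inv_mul_le_iff₀ e] at b
    linarith
  refine ⟨_, v, up, or_iff_not_imp_left.2 fun s0 => ⟨fun e => s0 (by rw [e]; simp [ip]), fun x => ?_⟩⟩
  have e : ip (T v) (T v) * ip v v = ip (T v) (T v) :=
    le_antisymm (mul_le_of_le_one_right (ip_nonneg _) hv) (up v)
  have d := discrim_le_zero (a := ip (T v) (T v) * ip x x - ip (T x) (T x))
    (b := 2 * (ip (T v) (T v) * ip v x - ip (T v) (T x))) (c := 0) fun t => by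
      have := up (v + t • x)
      rw [map_add, map_smul, ip_sq, ip_sq] at this
      linarith
  rw [discrim] at d
  have := pow_eq_zero_iff (two_ne_zero) |>.1 (le_antisymm (by linarith) (sq_nonneg
    (2 * (ip (T v) (T v) * ip v x - ip (T v) (T x)))))
  linarith

/-- the bound for the Euclidean norm -/
theorem core {T : Hor m →L[ℝ] Hor m} {p p' : Hor m → ℝ} {f c : ℝ} (hT : Sym T f) (hf : 0 < f)
    (pp : ∀ u, u ≠ 0 → 0 < p u) (pJ : ∀ u, p (JH u) = p u) (pJ' : ∀ u, p' (JH u) = p' u)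
    (ps : ∀ (t : ℝ) u, p' (t • u) = t ^ 2 * p' u) (h1 : ∀ u, p' (T u) ≤ c ^ 2 * p u)
    (h2 : ∀ u, f ^ 2 * p u ≤ c ^ 2 * p' (T u)) (x : Hor m) : ip (T x) (T x) ≤ c ^ 2 * ip x x := by
  obtain ⟨s, v, up, h⟩ := exists_top T
  refine (up x).trans (mul_le_mul_of_nonneg_right ?_ (ip_nonneg x))
  rcases h with rfl | ⟨v0, h⟩
  · exact sq_nonneg c
  have inj : Function.Injective T := (injective_iff_map_eq_zero T).2 fun u e => by_contra fun n => by
    have a := h2 u
    have b := ps 0 0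
    rw [zero_smul] at b
    rw [e, b] at a
    nlinarith [mul_pos (pow_pos hf 2) (pp u n)]
  have sur : Function.Surjective T :=
    (LinearMap.injective_iff_surjective (f := (T : Hor m →ₗ[ℝ] Hor m))).1 inj
  obtain ⟨y, hy⟩ := sur (s • JH (T (JH v)) + f • T v)
  have z : s • JH (T (JH v)) + f • T v = 0 := ip_eq_zero (by
    nth_rewrite 2 [← hy]
    rw [ip_lin, ip_J, hT, om_J, h]
    ring)
  have e : s ^ 2 * p' (T (JH v)) = f ^ 2 * p' (T v) := by
    rw [← pJ' (T (JH v)), ← ps, eq_neg_of_add_eq_zero_left z, ← neg_smul, ps, neg_sq]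
  have a := mul_le_mul_of_nonneg_left (h2 (JH v)) (sq_nonneg s)
  have b := mul_le_mul_of_nonneg_left (h1 v) (mul_nonneg (sq_nonneg c) (sq_nonneg f))
  rw [pJ, mul_left_comm _ (c ^ 2), e] at a
  have k : s ^ 2 ≤ (c ^ 2) ^ 2 :=
    le_of_mul_le_mul_right (by linarith) (mul_pos (pow_pos hf 2) (pp v v0))
  exact (le_abs_self s).trans (abs_le_of_sq_le_sq k (sq_nonneg c))

end La2Aux

open La2Aux in
theorem la2 : La2Stmt := by
  intro m
  have m0 : (0 : ℝ) ≤ m := Nat.cast_nonneg m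
  refine ⟨2 * m + 1, by linarith, fun q q' B B' D D' A f c hB hD hA hf hc h1 h2 => ?_⟩
  have hT : Sym (D'.comp (A.comp B)) f := by
    simpa using (hD.sym.inv hD.ri).comp (hA.comp hB.sym)
  refine ContinuousLinearMap.opNorm_le_bound _ (by positivity) fun x => ?_
  have k := core (p := fun u => q (B u) (B u)) (p' := fun u => q' (D u) (D u)) (c := c) hT hf
    (fun u n => hB.pos _ fun e => n (by rw [← hB.li u, e, map_zero])) hB.cm hD.cm
    (fun t u => by simp only [map_smul, ContinuousLinearMap.smul_apply, smul_eq_mul]; ring)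
    (fun u => by simpa only [ContinuousLinearMap.comp_apply, hD.ri] using h1 (B u))
    (fun u => by simpa only [ContinuousLinearMap.comp_apply, hD.ri] using h2 (B u)) x
  refine norm_le_of_ip (by positivity) (k.trans ?_)
  have := mul_le_mul_of_nonneg_left (ip_le x) (sq_nonneg c)
  have t : 0 ≤ (4 * (m : ℝ) ^ 2 + 2 * m + 1) * (c ^ 2 * ‖x‖ ^ 2) := by positivity
  linarith

end Pool.Agent.MP_6d695c_gt.P
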