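import Pool.Agent.MP_6d695c_gt.p.Alg

/-! PROJECT P, row Last: the last visit to a support or to a top slab. -/

open scoped Manifold ContDiff Topology MeasureTheory
open Set Metric Filter Real

namespace Pool.Agent.MP_6d695c_gt.P

open SW T1 Theta

theorem last (hShad : ShadStmt) (hNbr : NbrStmt) : LastStmt := by
  intro V _ _ _ m M K' K'' l φ Z X fl I _ τ H S₀ hf hT hK hKM hXZ
  have hρ := hT.ρpos
  have hH := hT.Hle
  obtain ⟨δ, hδ, hN⟩ := hNbr V m M K' K'' l φ Z fl I τ H S₀ (min τ.ρ (1 / 2)) hf hT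
    (lt_min hρ (by norm_num))
  obtain ⟨ε, hε, hS⟩ := hShad V Z fl K' (S₀ + 1) δ hf hK hδ
  have hcl : ∀ a b k : ℝ, IsClosed (⋃ i, Ps fl (τ.g i) '' τ.reg i a b k) := fun a b k =>
    (isCompact_iUnion fun i =>
      (hT.reg_cpt i a b k).image (Ps_smooth hf (hT.box i).sg).continuous).isClosed
  refine ⟨ε, hε, fun c hc t₀ => ?_⟩
  have hC : IsClosed (c ⁻¹' (Top fl τ H ∪ Supp fl τ H)) :=
    ((hcl _ _ _).union (hcl _ _ _)).preimage hc.cont
  have key : ∃ a ∈ Icc (t₀ - (S₀ + 1)) t₀, c a ∈ Supp fl τ H := by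
    by_contra hno
    push Not at hno
    have sh := hS c (t₀ - (S₀ + 1)) t₀ (by linarith) hc.cont.continuousOn
      (fun t ht => by
        have := hc.near t
        rwa [hXZ _ (hc.mem t) (hno t (Ioo_subset_Icc_self ht))] at this)
      (fun t _ => hc.mem t)
    obtain ⟨s, hs, i, y, hy, e⟩ := hT.cover _ (hc.mem t₀)
    have h0 : t₀ ∈ Icc (t₀ - (S₀ + 1)) t₀ := ⟨by linarith [hs.1, hs.2], le_rfl⟩
    have e' : ∀ r, fl (r - s) (c t₀) = Ps fl (τ.g i) (r, y) := fun r => by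
      rw [sub_eq_add_neg, hf.add, e]
      rfl
    rcases le_total s 2 with h2 | h2
    · refine hno t₀ h0 (mem_iUnion.2 ⟨i, (s, y), ⟨⟨hs.1, by linarith⟩,
        self_subset_cthickening _ hy⟩, ?_⟩)
      rw [← e' s, sub_self, hf.zero]
    · have h1 : t₀ - (s - 2) ∈ Icc (t₀ - (S₀ + 1)) t₀ := ⟨by linarith [hs.2], by linarith⟩
      have d := sh t₀ h0 _ h1
      rw [show t₀ - (s - 2) - t₀ = 2 - s by ring, e' 2] at d
      obtain ⟨-, n1, n2⟩ := hN i (2, y) ⟨⟨by norm_num, by linarith⟩,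
        self_subset_cthickening _ hy⟩ _ (hKM (hc.mem _)) d
      have a1 : |(τ.κ i (c (t₀ - (s - 2)))).1 - 2| ≤ 1 / 2 :=
        ((norm_fst_le _).trans n1).trans (min_le_right _ _)
      have a2 : ‖(τ.κ i (c (t₀ - (s - 2)))).2 - y‖ ≤ τ.ρ :=
        ((norm_snd_le _).trans n1).trans (min_le_left _ _)
      rw [abs_le] at a1
      refine hno _ h1 (mem_iUnion.2 ⟨i, _, ⟨⟨by linarith [a1.1], by linarith [a1.2]⟩, ?_⟩, n2⟩)
      exact mem_cthickening_of_dist_le _ y _ _ hy (by rw [dist_eq_norm]; linarith)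
  obtain ⟨a, ha, hm⟩ := key
  obtain ⟨s, hs, h1, h2⟩ := last_time hC (a := a) (b := t₀) (Or.inr hm) ha.2
  exact ⟨s, ⟨ha.1.trans hs.1, hs.2⟩, h1, h2⟩

end Pool.Agent.MP_6d695c_gt.P
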