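import Pool.Agent.MP_6d695c_gt.p.Alg

/-! PROJECT P, row LAY: one layer of traps. -/

open scoped Manifold ContDiff Topology MeasureTheory
open Set Metric Filter Real

namespace Pool.Agent.MP_6d695c_gt.P

open SW T1 Theta

namespace LayAux

variable {m : ℕ} {k : ℝ} {η ζ : Y m → Y m}

theorem li (h : Aut k (fun x : ℝ × Y m => (x.1, η x.2)) fun x => (x.1, ζ x.2)) (y : Y m) :
    ζ (η y) = y := congrArg Prod.snd (h.li (0, y))

theorem ri (h : Aut k (fun x : ℝ × Y m => (x.1, η x.2)) fun x => (x.1, ζ x.2)) (y : Y m) :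
    η (ζ y) = y := congrArg Prod.snd (h.ri (0, y))

theorem sm (h : Aut k (fun x : ℝ × Y m => (x.1, η x.2)) fun x => (x.1, ζ x.2)) :
    ContDiff ℝ ∞ η :=
  contDiff_snd.comp (h.sA.comp ((contDiff_const (c := (0 : ℝ))).prodMk contDiff_id))

theorem sm' (h : Aut k (fun x : ℝ × Y m => (x.1, η x.2)) fun x => (x.1, ζ x.2)) :
    ContDiff ℝ ∞ ζ :=
  contDiff_snd.comp (h.sA'.comp ((contDiff_const (c := (0 : ℝ))).prodMk contDiff_id))

theorem mem_iff (h : Aut k (fun x : ℝ × Y m => (x.1, η x.2)) fun x => (x.1, ζ x.2))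
    {C : Set (Y m)} {y : Y m} : y ∈ ζ '' C ↔ η y ∈ C :=
  ⟨fun ⟨z, hz, e⟩ => by rw [← e, ri h]; exact hz, fun hy => ⟨_, hy, li h y⟩⟩

theorem nab_zero {c : ℝ} (hc : 0 ≤ c) (y : Y m) : ‖nab (fun _ : Y m => (0 : ℝ)) y‖ ≤ c := by
  rw [nab_eq_zero.2 (by simp), norm_zero]
  exact hc

theorem pos_min {J : Type} [Finite J] (e : J → ℝ) (he : ∀ j, 0 < e j) :
    ∃ ε, 0 < ε ∧ ∀ j, ε ≤ e j := by
  rcases isEmpty_or_nonempty J with h | h
  · exact ⟨1, one_pos, fun j => h.elim j⟩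
  · obtain ⟨j, hj⟩ := Finite.exists_min e
    exact ⟨e j, he j, hj⟩

theorem robAll (hRob : RobStmt) {J : Type} [Finite J] {F Λ : ℝ × Y m → ℝ} (hF : ContDiff ℝ ∞ F)
    (hΛ : ContDiff ℝ ∞ Λ) (hL : ∀ x, Ly univ (XY F) Λ x) (w : J → ℝ × Y m → ℝ)
    (hw : ∀ j, Mono F (w j)) {Ω : Set (ℝ × Y m)} (hΩ : IsCompact Ω) :
    ∃ ε, 0 < ε ∧ ∀ j (γ : ℝ → ℝ × Y m) (s t : ℝ), s ≤ t → Crv (XY F) ε γ s t →
      (∀ r ∈ Icc s t, γ r ∈ Ω) → w j (γ t) ≤ w j (γ s) + 1 / 10 := by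
  choose e he H using fun j => hRob (ℝ × Y m) (XY F) Λ (w j) Ω (1 / 10) ((T1.model m).2.2 F hF) hΛ
    (hw j).1 hΩ (fun x _ => hL x) (fun x _ => (hw j).2 x) (by norm_num)
  obtain ⟨ε, hε, hle⟩ := pos_min e he
  exact ⟨ε, hε, fun j γ s t hst hγ hm => H j γ s t hst (Crv_sub hγ le_rfl le_rfl (hle j)) hm⟩

/-- a function of the base that is locally constant over the support is monotone -/
theorem mono_of_const {C : Set (Y m)} {a b : ℝ} {f Λ : ℝ × Y m → ℝ} (h : Pl C a b f Λ)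
    {u : Y m → ℝ} (hu : ContDiff ℝ ∞ u) (hc : ∀ y ∈ C, ∀ᶠ z in 𝓝 y, u z = -1) :
    Mono f fun x => u x.2 + 0 := by
  refine ⟨(hu.comp contDiff_snd).add contDiff_const, fun x => ?_⟩
  by_cases hx : x.2 ∈ C
  · have e : (fun x : ℝ × Y m => u x.2 + 0) =ᶠ[𝓝 x] fun _ => (-1 : ℝ) := by
      filter_upwards [continuous_snd.continuousAt.eventually (hc _ hx)] with z hz
      rw [hz, add_zero]
    rw [e.fderiv_eq]
    simp
  · have e : XY f x = (1, 0) := XS_of_zero (by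
      filter_upwards [continuous_snd.continuousAt.eventually
        (h.cpt.isClosed.isOpen_compl.mem_nhds hx)] with z hz
      exact h.out z (Or.inr (Or.inr hz)))
    have d : HasFDerivAt (fun x : ℝ × Y m => u x.2 + 0)
        ((fderiv ℝ u x.2).comp (ContinuousLinearMap.snd ℝ ℝ (Y m))) x :=
      ((hu.differentiable (by simp) x.2).hasFDerivAt.comp x hasFDerivAt_snd).add_const 0
    rw [e, d.fderiv]
    simp

theorem sum_bd {J : Type} [Fintype J] {C : J → Set (Y m)} {E : J → ℝ × Y m → ℝ}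
    (hd : ∀ c c', c ≠ c' → Disjoint (C c) (C c')) (h0 : ∀ c x, x.2 ∉ C c → E c x = 0)
    (hb : ∀ c x, |E c x| ≤ 1 / 10) (x : ℝ × Y m) : |∑ c, E c x| ≤ 1 / 10 := by
  by_cases h : ∃ c, x.2 ∈ C c
  · obtain ⟨c, hc⟩ := h
    rw [Finset.sum_eq_single c (fun c' _ hn => h0 c' x fun hc' =>
      disjoint_left.1 (hd c' c hn) hc' hc) fun hn => absurd (Finset.mem_univ c) hn]
    exact hb c x
  · rw [Finset.sum_eq_zero fun c _ => h0 c x fun hc => h ⟨c, hc⟩]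
    norm_num

end LayAux

open LayAux in
theorem lay (hCat : CatStmt) (hPsi : PsiStmt) (hPlace : PlaceStmt) (hSum : SumStmt)
    (hRob : RobStmt) : LayStmt := by
  classical
  intro m b R₀ Cg β hCg hβ
  obtain ⟨δ, hδ, hδβ, hδ1⟩ : ∃ δ : ℝ, 0 < δ ∧ δ ≤ β / 3 ∧ δ ≤ 1 / 3 :=
    ⟨min (β / 3) (1 / 3), lt_min (by linarith) (by norm_num), min_le_left _ _, min_le_right _ _⟩
  obtain ⟨ψ, Cu, sψ, hCu, -, ψ0, ψ1, ψs⟩ := hPsi m (R₀ + 1) δ hδ
  obtain ⟨T, κ, f₀, hT, hκ, hf, hf1, H⟩ := hCat m b R₀ Cg (Cg * Cu) (1 / 10) (by norm_num)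
  refine ⟨2 * T + 2, κ, f₀, by linarith, hκ, hf, hf1, ?_⟩
  intro ι _ η ζ act P h hN hG hsep
  choose B C O f Λ hR hO using fun c => H (P c) (hG c)
  choose k hk using hN.aut
  choose Ξ E₀ hraw using fun c => hR c (fun _ => 0) contDiff_const
    (nab_zero (mul_nonneg hCg hCu))
  have hP := fun c => hPlace m (k c) (h + T + 1) (1 / 10) T (B c) (η c) (ζ c) _ (C c) (O c) _
    (f c) (Λ c) (Ξ c) (E₀ c) (hk c) contDiff_const (hraw c)
  rw [show h + T + 1 - T - 1 = h by ring, show h + T + 1 + T + 1 = h + (2 * T + 2) by ring] at hP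
  have hlt : ∀ c y, y ∈ ζ c '' C c → ‖η c y‖ < R₀ + 3 := fun c y hy =>
    mem_ball_zero_iff.1 ((hraw c).sub ((mem_iff (hk c)).1 hy))
  have : Fintype {c // act c} := Fintype.ofFinite _
  have hdis : ∀ c c' : {c // act c}, c ≠ c' → Disjoint (ζ c '' C c) (ζ c' '' C c') :=
    fun c c' hn => disjoint_left.2 fun y hy hy' => by
      have h1 := hlt _ _ hy
      have h2 := hlt _ _ hy'
      have := hsep c c' (fun e => hn (Subtype.ext e)) c.2 c'.2 y (by linarith)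
      linarith
  obtain ⟨⟨Λ', hΛ'⟩, hM⟩ := hSum m {c // act c} (fun c => ζ c '' C c) h (h + (2 * T + 2)) _ _
    (fun c => (hP c).1) hdis
  obtain ⟨N, hNs, hNf, hNc⟩ := finite_cover_balls_of_compact
    (isCompact_closedBall (0 : Y m) (R₀ + 1)) hδ
  have : Finite N := hNf
  have sψ' : ∀ y₀ : Y m, ContDiff ℝ ∞ fun y => -ψ (y - y₀) := fun y₀ =>
    (sψ.comp (contDiff_id.sub contDiff_const)).neg
  -- the test functions of the kicks
  have key : ∀ (j : ι × N) (c : {c // act c}), ∃ E : ℝ × Y m → ℝ,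
      ((∀ x : ℝ × Y m, x.2 ∉ ζ c '' C c → E x = 0) ∧
        Mono (fun x => (k c * exp (-(h + T + 1)))⁻¹ * f c (x.1 - (h + T + 1), η c x.2))
          fun x => -ψ (η j.1 x.2 - j.2) + E x) ∧ ∀ x, |E x| ≤ 1 / 10 := by
    rintro ⟨c₀, y₀, hy₀⟩ c
    have n₀ : ‖y₀‖ ≤ R₀ + 1 := mem_closedBall_zero_iff.1 (hNs hy₀)
    by_cases hm : ∃ y, ‖η c y‖ ≤ R₀ + 4 ∧ ‖η c₀ y‖ ≤ R₀ + 4
    · have su : ContDiff ℝ ∞ fun y => -ψ (η c₀ (ζ c y) - y₀) :=
        (sψ' y₀).comp ((sm (hk c₀)).comp (sm' (hk c)))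
      obtain ⟨Ξ', E, hr⟩ := hR c _ su fun y =>
        (hN.slope c c₀ hm _ (sψ' y₀) y).trans (mul_le_mul_of_nonneg_left (ψs y₀ n₀ _) hCg)
      have h3 := (hPlace m (k c) (h + T + 1) (1 / 10) T (B c) (η c) (ζ c) _ (C c) (O c) _
        (f c) (Λ c) Ξ' E (hk c) su hr).2.2
      simp only [li (hk c)] at h3
      exact ⟨fun x => E (x.1 - (h + T + 1), η c x.2), ⟨fun x hx =>
        (hr.out _ fun hc => hx ((mem_iff (hk c)).2 hc)).2.2, h3⟩, fun x => hr.slow.bd _ trivial⟩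
    · refine ⟨fun _ => 0, ⟨fun _ _ => rfl, mono_of_const (hP c).1
        ((sψ' y₀).comp (sm (hk c₀))) fun y hy => ?_⟩, fun _ => by norm_num⟩
      have h1 := hlt _ _ hy
      have h2 : ∀ᶠ z in 𝓝 y, ‖η c z‖ < R₀ + 4 :=
        ((sm (hk c)).continuous.norm.continuousAt).eventually_lt continuousAt_const (by linarith)
      filter_upwards [h2] with z hz
      have h3 : R₀ + 4 < ‖η c₀ z‖ := lt_of_not_ge fun h4 => hm ⟨z, hz.le, h4⟩
      have h5 := norm_sub_norm_le (η c₀ z) y₀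
      change -ψ (η c₀ z - y₀) = -1
      rw [ψ1 _ (by linarith)]
  choose E hE hEb using key
  have M1 := fun j : ι × N => hM (fun y => -ψ (η j.1 y - j.2)) (E j)
    ((sψ' j.2).comp (sm (hk j.1))) (hE j)
  have B1 := fun j : ι × N => sum_bd hdis (fun c => (hE j c).1) (hEb j)
  -- the test functions of the traps
  have M2 := fun c : {c // act c} => hM (fun _ => 0)
    (fun c' x => if c' = c then Ξ c (x.1 - (h + T + 1), η c x.2) else 0) contDiff_const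
    fun c' => by
      by_cases e : c' = c
      · subst e
        simp only [if_true, zero_add]
        exact ⟨fun x hx => ((hraw c').out _ fun hc => hx ((mem_iff (hk c')).2 hc)).2.1,
          (hP c').2.1⟩
      · simp only [if_neg e, add_zero]
        exact ⟨fun _ _ => trivial, contDiff_const, fun x => by simp⟩
  simp only [Finset.sum_ite_eq', Finset.mem_univ, if_true, zero_add] at M2
  refine ⟨_, Λ', by linarith, hΛ'.sf, hΛ'.sΛ, fun x hx => hΛ'.out x ?_, hΛ'.lyap, hΛ'.bd,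
    fun Ω hΩ => ?_⟩
  · refine hx.imp_right (Or.imp_right fun h1 h2 => ?_)
    obtain ⟨c, hc⟩ := mem_iUnion.1 h2
    exact absurd (hlt _ _ hc) (not_lt.2 (h1 c c.2))
  obtain ⟨ε₁, hε₁, H₁⟩ := robAll hRob hΛ'.sf hΛ'.sΛ hΛ'.lyap _ M1 hΩ
  obtain ⟨ε₂, hε₂, H₂⟩ := robAll hRob hΛ'.sf hΛ'.sΛ hΛ'.lyap _ M2 hΩ
  refine ⟨min ε₁ ε₂, lt_min hε₁ hε₂, fun γ s t hst hγ hm c hc => ⟨fun r hr => ?_, ?_⟩⟩
  · obtain ⟨y₀, hy₀, hy⟩ := mem_iUnion₂.1 (hNc (mem_closedBall_zero_iff.2 hc))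
    rw [mem_ball_iff_norm] at hy
    have h1 := H₁ (c, ⟨y₀, hy₀⟩) γ r t hr.2 (Crv_sub hγ hr.1 le_rfl (min_le_left _ _))
      fun r' hr' => hm r' ⟨hr.1.trans hr'.1, hr'.2⟩
    have h2 := abs_le.1 (B1 (c, ⟨y₀, hy₀⟩) (γ t))
    have h3 := abs_le.1 (B1 (c, ⟨y₀, hy₀⟩) (γ r))
    simp only [ψ0 _ hy.le] at h1
    have h4 : ‖η c (γ r).2 - y₀‖ < 2 * δ := lt_of_not_ge fun h5 => by
      rw [ψ1 _ h5] at h1
      linarith [h2.1, h3.2]
    have h6 := norm_sub_le (η c (γ r).2 - y₀) (η c (γ t).2 - y₀)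
    rw [sub_sub_sub_cancel_right] at h6
    linarith
  · intro ha hb hact p hp
    obtain ⟨i, hi⟩ := mem_iUnion.1 hp
    refine le_of_not_gt fun hlt' => ?_
    have h1 := H₂ ⟨c, hact⟩ γ s t hst (Crv_sub hγ le_rfl le_rfl (min_le_right _ _)) hm
    have h2 := (hraw c).low ((γ s).1 - (h + T + 1), η c (γ s).2) (by change _ - _ ≤ _; linarith)
    have h3 := (hraw c).high ((γ t).1 - (h + T + 1), η c (γ t).2) (by change _ ≤ _ - _; linarith)
      (hO c _ hc i p hi hlt')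
    simp only [h2, h3] at h1
    norm_num at h1

end Pool.Agent.MP_6d695c_gt.P
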