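import Pool.Agent.MP_6d695c_gt.p.Alg

/-! PROJECT P, row Lie: the flow scales `l` and `d l`. -/

open scoped Manifold ContDiff Topology MeasureTheory
open Set Metric Filter Real

namespace Pool.Agent.MP_6d695c_gt.P

open SW T1 Theta

theorem lieP : P.LieStmt := by
  intro V E _ _ _ _ _ M l Pi φ Z fl h hc x hx t ht v hv
  have hS := smp_of_amb h
  have hf := hc.flow
  have h4 : φ x < 4 := by simpa [hf.zero] using ht 0 left_mem_uIcc
  refine ⟨T1.Lie.tg_flow h.sφ hc h4 hv t, T1.Lie.conf hS h.sφ hc hx hv ht, fun w hw => ?_⟩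
  obtain ⟨g, r, O, N, hP, hN⟩ := h.sub x hx
  obtain ⟨hy, hg⟩ := hP.rm x hx hN
  have e := hP.tg hy
  rw [hg] at e
  obtain ⟨u, hu⟩ : v ∈ range (fderiv ℝ g (r x)) := e ▸ hv
  obtain ⟨u', hu'⟩ : w ∈ range (fderiv ℝ g (r x)) := e ▸ hw
  generalize r x = y at hy hg hu hu'
  subst hg hu hu'
  have sf := T1.Lie.flow_sm hf t
  have ev : ∀ᶠ z in 𝓝 y, ∀ s ∈ uIcc 0 t, φ (fl s (g z)) < 4 := by
    have h1 : ∀ᶠ p in 𝓝 (g y), ∀ s ∈ uIcc 0 t, φ (fl s p) < 4 := by
      refine isCompact_uIcc.eventually_forall_of_forall_eventually fun s hs => ?_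
      have c : Continuous fun q : V × ℝ => φ (fl q.2 q.1) :=
        h.sφ.continuous.comp (hf.sm.continuous.comp continuous_swap)
      exact c.continuousAt.eventually_lt continuousAt_const (ht s hs)
    exact (hP.cg hy).continuousAt.eventually h1
  have dF : ∀ z ∈ O, fderiv ℝ (fun z => fl t (g z)) z =
      (fderiv ℝ (fl t) (g z)).comp (fderiv ℝ g z) := fun z hz =>
    ((sf.differentiable (by simp) (g z)).hasFDerivAt.comp z (hP.dg hz).hasFDerivAt).fderiv
  have key : (fun z => (l (fl t (g z))).comp (fderiv ℝ (fun z => fl t (g z)) z)) =ᶠ[𝓝 y]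
      fun z => exp t • (l (g z)).comp (fderiv ℝ g z) := by
    filter_upwards [ev, hP.oO.mem_nhds hy] with z hz hO
    ext a
    have ha : fderiv ℝ g z a ∈ Tg M (g z) := by
      rw [hP.tg hO]
      exact ⟨a, rfl⟩
    have := T1.Lie.conf hS h.sφ hc (hP.gm z hO).1 ha hz
    rw [dF z hO]
    simpa using this
  have sg : ContDiffAt ℝ ∞ g y := hP.cg hy
  have sF : ContDiffAt ℝ ∞ (fun z => fl t (g z)) y := sf.contDiffAt.comp y sg
  have p1 := dd_pullback (l := l) (f := fun z => fl t (g z)) (y := y)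
    (h.sl.differentiable (by simp) _) (sF.of_le (by norm_cast)) u u'
  have p2 := dd_pullback (l := l) (f := g) (y := y)
    (h.sl.differentiable (by simp) _) (sg.of_le (by norm_cast)) u u'
  have dA : DifferentiableAt ℝ (fun z => (l (g z)).comp (fderiv ℝ g z)) y :=
    ((h.sl.contDiffAt.comp y sg).clm_comp
      (sg.fderiv_right (m := ∞) (by simp))).differentiableAt (by simp)
  have e3 := key.fderiv_eq (𝕜 := ℝ)
  rw [fderiv_fun_const_smul dA] at e3
  rw [dF y hy] at p1
  simp only [ContinuousLinearMap.comp_apply] at p1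
  rw [← p1, ← p2]
  simp only [dd, e3, smul_apply, smul_eq_mul]
  ring

end Pool.Agent.MP_6d695c_gt.P
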