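import Pool.Agent.MP_6d695c_gt.p.Alg

/-! PROJECT P, row MARK: the towers. -/

open scoped Manifold ContDiff Topology MeasureTheory
open Set Metric Filter Real

namespace Pool.Agent.MP_6d695c_gt.P

open SW T1 Theta

namespace MarkAux

variable {V : Type} [NormedAddCommGroup V] [NormedSpace ℝ V] {m : ℕ} {M : Set V}
  {l : V → V →L[ℝ] ℝ} {φ : V → ℝ} {Z : V → V} {fl : ℝ → V → V}

theorem cdil (w : ℝ) : Continuous (dil w : Y m → Y m) := by
  unfold dil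
  fun_prop

/-- finitely many boxes cover a compact set -/
theorem fin_cover {K : Set V} {S : ℝ} {N₀ : Set V} (hf : IsFlow Z fl) (hS : 0 < S)
    (hK : IsCompact K) (hM : K ⊆ M)
    (h : ∀ x ∈ K, ∃ (g : Y m → V) (κ : V → ℝ × Y m) (D : Set (Y m)) (N : Set V) (y₀ : Y m),
      Box M l φ fl g κ (-S) S D N ∧ y₀ ∈ D ∧ g y₀ = x ∧ ∀ y ∈ D, g y ∈ N₀) :
    ∃ (I : Type) (_ : Finite I) (g : I → Y m → V) (κ : I → V → ℝ × Y m) (D B : I → Set (Y m))
      (N : I → Set V), (∀ i, Box M l φ fl (g i) (κ i) (-S) S (D i) (N i)) ∧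
      (∀ i, IsCompact (B i) ∧ B i ⊆ D i) ∧ (∀ i, ∀ y ∈ D i, g i y ∈ N₀) ∧
      ∀ x ∈ K, ∃ i, ∃ s ∈ Ioo (-1 : ℝ) 1, ∃ y ∈ B i, Ps fl (g i) (s, y) = x := by
  choose g κ D N y₀ hb hy hg hN using h
  have hr : ∀ x (hx : x ∈ K), ∃ r, 0 < r ∧ closedBall (y₀ x hx) r ⊆ D x hx := fun x hx =>
    nhds_basis_closedBall.mem_iff.1 ((hb x hx).oD.mem_nhds (hy x hx))
  choose r hr0 hr using hr
  obtain ⟨t, ht⟩ := hK.elim_nhds_subcover'
    (fun x hx => N x hx ∩ κ x hx ⁻¹' (Ioo (-1) 1 ×ˢ ball (y₀ x hx) (r x hx))) fun x hx => by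
      have h1 := (hb x hx).par.gm (0, y₀ x hx) ⟨⟨by simpa using hS, hS⟩, hy x hx⟩
      rw [Ps_zero hf, hg x hx] at h1
      refine (((hb x hx).par.oN).inter
        ((isOpen_Ioo.prod isOpen_ball).preimage (hb x hx).sκ.continuous)).mem_nhds ⟨h1.2.1, ?_⟩
      rw [mem_preimage, h1.2.2]
      exact ⟨⟨by norm_num, by norm_num⟩, mem_ball_self (hr0 x hx)⟩
  refine ⟨t, inferInstance, fun i => g i.1.1 i.1.2, fun i => κ i.1.1 i.1.2, fun i => D i.1.1 i.1.2,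
    fun i => closedBall (y₀ i.1.1 i.1.2) (r i.1.1 i.1.2), fun i => N i.1.1 i.1.2,
    fun i => hb _ _, fun i => ⟨isCompact_closedBall _ _, hr _ _⟩, fun i => hN _ _, fun x hx => ?_⟩
  obtain ⟨i, hi, h1, h2⟩ := mem_iUnion₂.1 (ht hx)
  exact ⟨⟨i, hi⟩, (κ i.1 i.2 x).1, h2.1, (κ i.1 i.2 x).2, ball_subset_closedBall h2.2,
    ((hb i.1 i.2).par.rm x (hM hx) h1).2⟩

/-- the markers are hit at a positive distance from the boundary -/
theorem shrink {I J : Type} [Finite I] {g : I → Y m → V} {κ : I → V → ℝ × Y m}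
    {D B : I → Set (Y m)} {N : I → Set V} {S : ℝ} {O : I → J → Set (Y m)} {c : J → ℝ}
    (hf : IsFlow Z fl) (hb : ∀ i, Box M l φ fl (g i) (κ i) (-S) S (D i) (N i))
    (hB : ∀ i, IsCompact (B i) ∧ B i ⊆ D i) (hO : ∀ i j, IsOpen (O i j) ∧ O i j ⊆ D i)
    (hc : ∀ j, c j ∈ Ioo (-S) S)
    (h : ∀ i, ∀ y ∈ B i, ∃ t ∈ Ioo 0 S, ∃ i' j', ∃ z ∈ O i' j',
      fl (-t) (g i y) = Ps fl (g i') (c j', z)) :
    ∃ δ, 0 < δ ∧ ∀ i, ∀ y ∈ B i, ∃ t ∈ Ioo 0 S, ∃ i' j' z, ball z δ ⊆ O i' j' ∧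
      fl (-t) (g i y) = Ps fl (g i') (c j', z) := by
  have key : ∀ i, ∀ᶠ δ in 𝓝 (0 : ℝ), ∀ y ∈ B i, ∃ t ∈ Ioo 0 S, ∃ i' j' z, ball z δ ⊆ O i' j' ∧
      fl (-t) (g i y) = Ps fl (g i') (c j', z) := by
    intro i
    refine (hB i).1.eventually_forall_of_forall_eventually fun y hy => ?_
    obtain ⟨t, ht, i', j', z, hz, e⟩ := h i y hy
    obtain ⟨ε, hε, hεO⟩ := Metric.isOpen_iff.1 (hO i' j').1 z hz
    have h1 := (hb i').par.gm (c j', z) ⟨hc j', (hO i' j').2 hz⟩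
    have cx : Continuous fun w : Y m => fl (-t) (g i w) :=
      hf.sm.continuous.comp (continuous_const.prodMk (hb i).sg.continuous)
    have ck : Continuous fun w : Y m => κ i' (fl (-t) (g i w)) := (hb i').sκ.continuous.comp cx
    have e1 : ∀ᶠ w in 𝓝 y, w ∈ D i := (hb i).oD.mem_nhds ((hB i).2 hy)
    have e2 : ∀ᶠ w in 𝓝 y, fl (-t) (g i w) ∈ N i' :=
      cx.continuousAt.eventually ((hb i').par.oN.mem_nhds (by
        show fl (-t) (g i y) ∈ _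
        rw [e]; exact h1.2.1))
    have e3 : ∀ᶠ w in 𝓝 y, (κ i' (fl (-t) (g i w))).2 ∈ ball z (ε / 2) :=
      ck.snd.continuousAt.eventually (isOpen_ball.mem_nhds (by
        show (κ i' (fl (-t) (g i y))).2 ∈ _
        rw [e, h1.2.2]; exact mem_ball_self (half_pos hε)))
    have e4 : ∀ᶠ w in 𝓝 y, t + ((κ i' (fl (-t) (g i w))).1 - c j') ∈ Ioo 0 S :=
      (continuous_const.add (ck.fst.sub continuous_const)).continuousAt.eventually
        (isOpen_Ioo.mem_nhds (by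
          show t + ((κ i' (fl (-t) (g i y))).1 - c j') ∈ _
          rw [e, h1.2.2]; simpa using ht))
    have e5 : ∀ᶠ δ in 𝓝 (0 : ℝ), δ < ε / 2 := eventually_lt_nhds (half_pos hε)
    rw [nhds_prod_eq]
    filter_upwards [e5.prod_mk (e1.and (e2.and (e3.and e4)))] with p ⟨a5, a1, a2, a3, a4⟩
    refine ⟨_, a4, i', j', (κ i' (fl (-t) (g i p.2))).2, ?_, ?_⟩
    · refine (ball_subset_ball' ?_).trans hεO
      rw [mem_ball] at a3
      linarith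
    · have hm : fl (-t) (g i p.2) ∈ M :=
        ((hb i).par.gm (-t, p.2) ⟨⟨by linarith [ht.2], by linarith [ht.1, ht.2]⟩, a1⟩).1
      have h2 := ((hb i').par.rm _ hm a2).2
      have h3 := congrArg (fl (c j' - (κ i' (fl (-t) (g i p.2))).1)) h2
      rw [fl_Ps hf, ← hf.add, sub_add_cancel] at h3
      rw [h3]
      congr 1
      ring
  obtain ⟨δ, h1, h2⟩ := (((eventually_all.2 key).filter_mono nhdsWithin_le_nhds).and
    (self_mem_nhdsWithin (s := Ioi (0 : ℝ)))).exists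
  exact ⟨δ, h2, h1⟩

end MarkAux

open MarkAux in
theorem mark (hSBox : SBoxStmt) (hLBox : LBoxStmt) (hGut : GutStmt) (hRecent : RecentStmt) :
    MarkStmt := by
  intro V _ _ _ m M U l Pi φ L Z fl H hA hC hK hLie hAt hH hAp hU
  have hf := hC.flow
  obtain ⟨S, hS⟩ : ∃ S : ℝ, S = (2 * m + 2) * (2 * H + 10) := ⟨_, rfl⟩
  have hm0 : (0 : ℝ) ≤ m := Nat.cast_nonneg m
  have hS1 : 1 ≤ S := by rw [hS]; nlinarith
  have hSr : Sret m H = S + 4 := by rw [Sret, hS]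
  have hKc : IsCompact (Kl M φ L 0) := by
    have : Kl M φ L 0 = {x ∈ M | φ x ≤ 2} ∩ {x | L x ≤ 0} := 
      Set.ext fun x => ⟨fun h => ⟨⟨h.1, h.2.1⟩, h.2.2⟩, fun h => ⟨h.1.1, h.1.2, h.2⟩⟩
    rw [this]
    exact (hA.cpt 2 (by norm_num)).inter_right (isClosed_le hAt.sm.continuous continuous_const)
  have hback : ∀ x ∈ Kl M φ L 0, ∀ t, 0 ≤ t → fl (-t) x ∈ Kl M φ L 0 := fun x hx t ht =>
    ⟨(hC.inv _ x hx.1 (by linarith [hx.2.1])).1,
      (hK.back x hx.1 (by linarith [hx.2.1]) t ht).trans (max_le hx.2.1 (by norm_num)),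
      (hAt.back x hx.1 hx.2.1 t ht).trans (max_le (by linarith [hx.2.2]) (by norm_num))⟩
  obtain ⟨I, _, g, κ, D, B, N, hb, hB, hN, hcov⟩ := fin_cover (m := m) (l := l) (φ := φ)
    (N₀ := {x | L x < 1}) hf (by linarith : 0 < S) hKc (fun x hx => hx.1) fun x hx => by
      have hxU : x ∈ U := hAt.sub ⟨hx.1, hx.2.1, by linarith [hx.2.2]⟩
      have hper : ∀ t, 0 < t → t ≤ 2 * S → fl t x ≠ x := fun t h0 h1 e =>
        hAp x (hK.per x hx.1 hx.2.1 t h0 e) t h0 (by rw [hSr]; linarith) e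
      have hφ : ∀ t, |t| ≤ S → φ (fl t x) < 1 := fun t ht => hU x hxU t (by rw [hSr]; linarith)
      obtain ⟨g, κ, a, D, N, y₀, ha, hb, hy, hg⟩ := hSBox V m M l Pi φ Z fl x hA hC hx.1
        (by simpa [hf.zero] using hφ 0 (by simp; linarith))
        fun e => hper 1 one_pos (by linarith) (hf.fix e 1)
      obtain ⟨κ', D', N', hb', hy', hN'⟩ := hLBox V _ m M {x | L x < 1} l Pi φ Z fl g κ a S D N y₀
        hA hC hLie ha hb hy (by linarith) (by rw [hg]; exact hφ) (by rw [hg]; exact hper)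
        (isOpen_lt hAt.sm.continuous continuous_const)
        (by rw [hg]; exact lt_of_le_of_lt hx.2.2 one_pos)
      exact ⟨g, κ', D', N', y₀, hb', hy', hg, hN'⟩
  obtain ⟨O, C, hO, hdis, -, hhit⟩ := hGut V m 0 M ∅ ∅ l φ Z fl I g κ H S S D B N hf (by linarith)
    (by rw [hS]; simp) le_rfl hb hB isCompact_empty (by simp) fun x _ _ => ⟨∅, by simp, by simp⟩
  obtain ⟨c, hc⟩ : ∃ c : Fin (2 * m + 2 + 0) → ℝ,
      ∀ j, c j = -(((j : ℕ) + 1 / 2) * (2 * H + 10)) := ⟨_, fun _ => rfl⟩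
  simp only [← hc] at hdis hhit
  have hc1 : ∀ j, c j ≤ -(H + 5) := fun j => by
    have : (0 : ℝ) ≤ (j : ℕ) := Nat.cast_nonneg _
    rw [hc]; nlinarith
  have hc2 : ∀ j, -S + (H + 5) ≤ c j := fun j => by
    have : ((j : ℕ) : ℝ) + 1 ≤ 2 * m + 2 := by exact_mod_cast j.2
    rw [hc, hS]; nlinarith
  obtain ⟨δ, hδ, hhit'⟩ := shrink (O := O) (c := c) hf hb hB
    (fun i j => ⟨(hO i j).1, (hO i j).2.2.1.trans (hO i j).2.2.2⟩)
    (fun j => ⟨by linarith [hc2 j], by linarith [hc1 j]⟩) fun i y hy => by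
      obtain ⟨t, ht, h⟩ := hhit i y hy
      exact ⟨t, ht, h.resolve_left (notMem_empty _)⟩
  choose N' hN' using fun p : I × Fin (2 * m + 2 + 0) =>
    hRecent V m M l φ Z fl (g p.1) (κ p.1) (-S) S (-2) (H + 2) (c p.2) (D p.1) (N p.1) hf (hb p.1)
      (by linarith [hc2 p.2]) (by linarith [hc1 p.2])
  have hdd : ∀ j (z : Y m), dil (exp (-c j / 2)) (dil (exp (c j / 2)) z) = z := fun j z => by
    rw [dil_dil', ← exp_add, show -c j / 2 + c j / 2 = 0 by ring, exp_zero, dil_one']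
  obtain ⟨A, hAd⟩ : ∃ A : I × Fin (2 * m + 2 + 0) → Set (Y m), ∀ p, A p =
      dil (exp (c p.2 / 2)) '' (C p.1 p.2 \ thickening δ (O p.1 p.2)ᶜ) := ⟨_, fun _ => rfl⟩
  have hAc : ∀ p, IsCompact (A p) := fun p => by
    rw [hAd]
    exact ((hO p.1 p.2).2.1.diff isOpen_thickening).image (cdil _)
  have hρ : ∀ p, ∀ᶠ ρ in 𝓝[>] (0 : ℝ),
      cthickening (10 * ρ) (A p) ⊆ dil (exp (-c p.2 / 2)) ⁻¹' O p.1 p.2 := fun p => by
    obtain ⟨ε, hε, h⟩ := (hAc p).exists_cthickening_subset_open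
      ((hO p.1 p.2).1.preimage (cdil (exp (-c p.2 / 2)))) (by
        rw [hAd]
        rintro _ ⟨z, hz, rfl⟩
        rw [mem_preimage, hdd]
        by_contra e
        exact hz.2 (self_subset_thickening hδ _ e))
    filter_upwards [Ioo_mem_nhdsGT (show (0 : ℝ) < ε / 10 by positivity)] with ρ hρ
    exact (cthickening_mono (by linarith [hρ.2]) _).trans h
  obtain ⟨ρ, hρ1, hρ0⟩ := ((eventually_all.2 hρ).and self_mem_nhdsWithin).exists
  refine ⟨I × Fin (2 * m + 2 + 0), inferInstance,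
    ⟨fun p y => fl (c p.2) (g p.1 (dil (exp (-c p.2 / 2)) y)),
      fun p x => ((κ p.1 x).1 - c p.2, dil (exp (c p.2 / 2)) (κ p.1 x).2),
      fun p => dil (exp (-c p.2 / 2)) ⁻¹' D p.1, N', A, ρ⟩,
    hH, hρ0, hN', hAc, fun p y hy => (hO p.1 p.2).2.2.2 ((hO p.1 p.2).2.2.1 (hρ1 p hy)), ?_, ?_,
    fun x hx => ⟨hx.1, hx.2.1, by linarith [hx.2.2]⟩, hback, ?_⟩
  · intro p p' hp q hq q' hq' e
    refine hdis p.1 p.2 p'.1 p'.2 hp _ ((hO _ _).2.2.1 (hρ1 p hq.2)) _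
      ((hO _ _).2.2.1 (hρ1 p' hq'.2)) (-q'.1 + q.1)
      (abs_le.2 ⟨by linarith [hq.1.1, hq'.1.2], by linarith [hq.1.2, hq'.1.1]⟩) ?_
    have e' := congrArg (fl (-q'.1)) e
    simp only [Ps] at e' ⊢
    rw [← hf.add (-q'.1) q'.1, neg_add_cancel, hf.zero, ← hf.add (-q'.1) q.1] at e'
    exact e'
  · intro p q hq
    have hz : dil (exp (-c p.2 / 2)) q.2 ∈ D p.1 :=
      (hO p.1 p.2).2.2.2 ((hO p.1 p.2).2.2.1 (hρ1 p hq.2))
    have hq' : q ∈ Ioo (-2 : ℝ) (H + 2) ×ˢ (dil (exp (-c p.2 / 2)) ⁻¹' D p.1) :=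
      ⟨⟨by linarith [hq.1.1], by linarith [hq.1.2]⟩, hz⟩
    have h0 : ((0 : ℝ), dil (exp (-c p.2 / 2)) q.2) ∈ Ioo (-S) S ×ˢ D p.1 :=
      ⟨⟨by simp; linarith, by simp; linarith⟩, hz⟩
    have h1 := ((hb p.1).par.gm _ h0).1
    have h2 := (hb p.1).low _ h0
    rw [Ps_zero hf] at h1 h2
    refine ⟨((hN' p).par.gm q hq').1, by linarith [(hN' p).low q hq'], ?_⟩
    have h3 := hAt.back _ h1 (by linarith) (-(q.1 + c p.2)) (by linarith [hq.1.2, hc1 p.2])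
    have h4 : L (g p.1 (dil (exp (-c p.2 / 2)) q.2)) < 1 := hN p.1 _ hz
    rw [neg_neg, hf.add] at h3
    exact h3.trans (max_le (by linarith [hq.1.2, hc1 p.2]) (by norm_num))
  · intro x hx
    obtain ⟨i, s, hs, y, hy, e⟩ := hcov _ (hback x hx 2 (by norm_num))
    obtain ⟨t, ht, i', j', z, hz, e'⟩ := hhit' i y hy
    refine ⟨t + s + 2, ⟨by linarith [ht.1, hs.1], by rw [hSr]; linarith [ht.2, hs.2]⟩, (i', j'),
      dil (exp (c j' / 2)) z, ?_, ?_⟩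
    · show _ ∈ A (i', j')
      rw [hAd]
      refine ⟨z, ⟨(hO i' j').2.2.1 (hz (mem_ball_self hδ)), fun h => ?_⟩, rfl⟩
      obtain ⟨w, hw, hd⟩ := mem_thickening_iff.1 h
      exact hw (hz (mem_ball'.2 hd))
    · show _ = fl (c j') (g i' (dil (exp (-c j' / 2)) (dil (exp (c j' / 2)) z)))
      have e2 := congrArg (fl (-t - s)) e
      rw [fl_Ps hf, ← hf.add] at e2
      rw [hdd, show -(t + s + 2) = -t - s + -2 by ring, ← e2]
      simp only [Ps] at e' ⊢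
      rw [← e', sub_add_cancel]

end Pool.Agent.MP_6d695c_gt.P
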