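import Pool.Agent.MP_6d695c_gt.p.Alg

/-! PROJECT P, row MASTP: the plug does not depend on the slow function. -/

open scoped Topology ContDiff
open Set Filter Real

namespace Pool.Agent.MP_6d695c_gt.P

open SW T1 Theta T1.Mst

theorem mastP_of (calcP : T1.CalcStmt) : MastPStmt := by
  intro m G h B r γ η un hη
  obtain ⟨N, hN, hZ⟩ := exists_zeta
  have hB := un.one
  have hγ := un.γpos
  obtain ⟨c, hc⟩ : ∃ c : ℝ, c = 1 / (48 * (m + 1)) := ⟨_, rfl⟩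
  have hc0 : 0 < c := hc ▸ by positivity
  obtain ⟨A, hA, hAγ⟩ : ∃ A : ℝ, 0 < A ∧ 2 ≤ γ * A :=
    ⟨2 / γ, by positivity, by rw [mul_div_cancel₀ _ hγ.ne']⟩
  obtain ⟨T, t1, t2, t3, t4⟩ : ∃ T : ℝ, 14 ≤ T ∧ (384 * A + 1) * B + 1 ≤ T ∧
      48 * N * A * ((6 * (192 * A) + 19) * B ^ 4) ≤ T ∧ 768 * N * A * B ^ 3 / η ≤ T :=
    ((eventually_ge_atTop _).and ((eventually_ge_atTop _).and ((eventually_ge_atTop _).and
      (eventually_ge_atTop _)))).exists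
  have t0 : 0 < T := by linarith
  obtain ⟨s₀, h0, hs⟩ : ∃ s₀ : ℝ, 0 < s₀ ∧ s₀ * T ^ 2 = 24 * A :=
    ⟨24 * A / T ^ 2, by positivity, div_mul_cancel₀ _ (by positivity)⟩
  obtain ⟨ζ, hζ, z1, z2, z3⟩ := hZ s₀ h0
  obtain ⟨σ, ⟨s1, s2, s3, s4, s5⟩, hσ⟩ := (((ev_small B one_pos).and
    ((ev_small (2 * m * B) (half_pos hc0)).and
    ((ev_small (1 + 48 * A * B + 2 * (192 * A) * B) (show 0 < c / 4 by positivity)).and
    ((ev_small (8 / c * (4 * T)) (half_pos hη)).and (ev_small (B ^ 2) hγ))))).and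
    self_mem_nhdsWithin).exists
  replace hσ : 0 < σ := hσ
  rw [mul_comm] at s1 s2
  refine ⟨T ^ 2, σ, by nlinarith, hσ, fun ℓ hℓ hr => ?_⟩
  obtain ⟨a₀, ha, hg⟩ := exists_a un ℓ hA
  have a0 : 0 < a₀ := hA.trans_le ha.1
  have e1 : N * s₀ * ((6 * (192 * A) + 19) * B ^ 4) ≤ 1 / 2 := by
    refine le_of_mul_le_mul_right ?_ (show 0 < T ^ 2 by positivity)
    have : N * s₀ * ((6 * (192 * A) + 19) * B ^ 4) * T ^ 2 =
        48 * N * A * ((6 * (192 * A) + 19) * B ^ 4) / 2 := by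
      linear_combination N * ((6 * (192 * A) + 19) * B ^ 4) * hs
    nlinarith
  have RI := fun (x : ℝ × Y m) (hx : 2 * s₀ < ss a₀ ℓ x) =>
    regI calcP un hζ hℓ ha hA (hr x.2) hσ.le s1 hc s2 s3 (z2 _ hx)
  have RII := fun (x : ℝ × Y m) (hx : ss a₀ ℓ x ≤ 2 * s₀) =>
    regII calcP un hζ hℓ ha hA (hr x.2) s1 e1 (hx.trans (mul_le_mul_of_nonneg_right hN h0.le))
      (z3 _ (ss_pos a0 x) hx)
  have d1 : 0 ≤ 4 * (N * s₀) * B ^ 3 := by positivity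
  have d2 : 0 ≤ σ * (8 / c) := by positivity
  have two : ∀ {v w : ℝ}, 1 / 2 ≤ w → |v| ≤ 2 * (N * s₀) * B ^ 3 →
      |v| ≤ (4 * (N * s₀) * B ^ 3 + σ * (8 / c)) * w := fun hw hv => by nlinarith
  have flat : ∀ F, Flat G σ F → ∀ x : ℝ × Y m, |fderiv ℝ F x.2 (XY (ff ζ a₀ ℓ h) x).2| ≤
      (4 * (N * s₀) * B ^ 3 + σ * (8 / c)) *
        fderiv ℝ (La (192 * A + 1) a₀ G ℓ) x (XY (ff ζ a₀ ℓ h) x) := fun F hF x => by
    rcases le_or_gt (ss a₀ ℓ x) (2 * s₀) with hx | hx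
    · exact two (RII x hx).1 ((RII x hx).2.2 F hF)
    · have p0 : 0 ≤ ss a₀ ℓ x * ‖nab G x.2‖ ^ 2 := by have := ss_pos (ℓ := ℓ) a0 x; positivity
      have p1 := (le_add_of_nonneg_left (sq_nonneg _)).trans (RI x hx).1
      have p2 := mul_le_mul_of_nonneg_left p1 d2
      have p3 : σ * (8 / c) * (c / 4 * (ss a₀ ℓ x * ‖nab G x.2‖ ^ 2)) =
          2 * σ * (ss a₀ ℓ x * ‖nab G x.2‖ ^ 2) := by
        field_simp
        ring
      have p4 := mul_nonneg d1 (le_trans (by positivity) p1)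
      have p5 := (RI x hx).2.2.1 F hF
      linarith
  have zero : ∀ x : ℝ × Y m, ss a₀ ℓ x ≤ s₀ → ff ζ a₀ ℓ h x = 0 := fun x hx => by
    simp [ff, z1 _ hx]
  refine ⟨T, (384 * A + 1) * B, 4 * (N * s₀) * B ^ 3 + σ * (8 / c), ff ζ a₀ ℓ h,
    La (192 * A + 1) a₀ G ℓ, ?_, fun u hu => ⟨ff_smooth hζ hℓ.sm un.cr.sh,
      La_smooth un.cr.sG hℓ.sm, by linarith,
      add_nonneg d1 d2, fun x hx => zero x ?_, fun x hx => zero x ?_, fun x => ?_, fun x => ?_,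
      fun x _ => ?_, fun x _ => flat ℓ hℓ x, fun x _ => flat u hu x, fun x x1 x2 x3 => ?_⟩⟩
  rotate_left
  · refine (ss_le a0 x).trans (le_of_mul_le_mul_right ?_ (show 0 < T ^ 2 by positivity))
    have p1 : exp (-ℓ x.2) * T ^ 2 ≤ 1 := by
      rw [exp_neg, inv_mul_le_iff₀ (exp_pos _)]
      linarith [add_one_le_exp (ℓ x.2)]
    nlinarith [mul_le_mul ha.2 p1 (by positivity) (by positivity)]
  · have p1 : T ^ 2 ≤ x.1 ^ 2 := by
      rw [← sq_abs x.1]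
      exact pow_le_pow_left₀ t0.le hx 2
    rw [ss, div_le_iff₀ (by positivity)]
    nlinarith [E_le ha hA (hr x.2), mul_le_mul_of_nonneg_left p1 h0.le]
  · rcases le_or_gt (ss a₀ ℓ x) (2 * s₀) with hx | hx
    · exact Or.inl (lt_of_lt_of_le (by norm_num) (RII x hx).1)
    · exact lyI calcP un hζ hℓ ha hA hr hσ.le s1 hc s2 s3 h0 z2 hg hx
  · rw [La, add_sub_cancel_left, abs_mul]
    refine mul_le_mul ?_ (un.bG x.2) (abs_nonneg _) (by positivity)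
    have := abs_le.1 (abs_rr ha hA (hr x.2))
    exact abs_le.2 ⟨by linarith, by linarith⟩
  · rcases le_or_gt (ss a₀ ℓ x) (2 * s₀) with hx | hx
    · exact (abs_le.1 (two (RII x hx).1 (RII x hx).2.1)).1
    · have p0 : 0 ≤ ss a₀ ℓ x * ‖nab G x.2‖ ^ 2 := by have := ss_pos (ℓ := ℓ) a0 x; positivity
      exact (neg_nonpos.2 (mul_nonneg (add_nonneg d1 d2)
        (le_trans (by positivity) (RI x hx).1))).trans (RI x hx).2.1
  · have p1 : x.1 ^ 2 ≤ 1 := by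
      rw [← sq_abs x.1]
      exact pow_le_one₀ (abs_nonneg _) x1
    have p2 : 1 / 3 ≤ exp (-ℓ x.2) := by
      rw [exp_neg, one_div]
      exact inv_anti₀ (exp_pos _)
        ((exp_le_exp.2 x3).trans (exp_one_lt_d9.le.trans (by norm_num)))
    have p3 : A / 4 ≤ ss a₀ ℓ x := by
      rw [ss, le_div_iff₀ (by positivity)]
      nlinarith [mul_le_mul ha.1 p2 (by norm_num) a0.le]
    have p4 : 2 * s₀ < ss a₀ ℓ x := by
      have : 196 ≤ T ^ 2 := by nlinarith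
      nlinarith [mul_le_mul_of_nonneg_left this h0.le]
    have p5 : ‖nab G x.2‖ ^ 2 ≤ B ^ 2 := pow_le_pow_left₀ (norm_nonneg _) (un.bD x.2) 2
    have p6 : σ * ‖nab G x.2‖ ^ 2 ≤ γ := (mul_le_mul_of_nonneg_left p5 hσ.le).trans s5
    have p7 : 2 * π * G x.2 ≤ -(3 * γ) := by nlinarith [pi_gt_three]
    have p8 := (ss_pos (ℓ := ℓ) a0 x).le
    refine (RI x p4).2.2.2.1.trans ?_
    nlinarith [mul_le_mul_of_nonneg_left p6 p8, mul_le_mul_of_nonneg_left p7 p8,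
      mul_le_mul_of_nonneg_left p3 hγ.le]
  · have p1 : 4 * (N * s₀) * B ^ 3 * (4 * T) ≤ η / 2 := by
      refine le_of_mul_le_mul_right ?_ t0
      rw [div_le_iff₀ hη] at t4
      have : 4 * (N * s₀) * B ^ 3 * (4 * T) * T = 768 * N * A * B ^ 3 / 2 := by
        linear_combination 16 * N * B ^ 3 * hs
      linarith
    refine (mul_le_mul_of_nonneg_left (show _ ≤ 4 * T by linarith) (add_nonneg d1 d2)).trans ?_
    linarith

theorem mastP : MastPStmt := mastP_of T1.calcP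

end Pool.Agent.MP_6d695c_gt.P
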