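import Pool.Agent.MP_6d695c_gt.p.Alg

/-! Points of `M` near a tower lie in its flow box. -/

open scoped Manifold ContDiff Topology MeasureTheory
open Set Metric Filter Real

namespace Pool.Agent.MP_6d695c_gt.P

open SW T1 Theta

theorem nbr : NbrStmt := by
  intro V _ _ m M K' K'' l φ Z fl I _ τ H S₀ δ₁ hf h hδ
  have key : ∀ i, ∀ᶠ w in 𝓝 (0 : V), ∀ q ∈ τ.reg i (-1) (H + 1) 10,
      Ps fl (τ.g i) q + w ∈ τ.N i ∧ ‖τ.κ i (Ps fl (τ.g i) q + w) - q‖ < δ₁ := by
    intro i
    refine (h.reg_cpt i _ _ _).eventually_forall_of_forall_eventually fun q hq => ?_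
    have hc : Continuous fun z : V × (ℝ × Y m) => Ps fl (τ.g i) z.2 + z.1 :=
      ((Ps_smooth hf (h.box i).sg).continuous.comp continuous_snd).add continuous_fst
    have hn : Continuous fun z : V × (ℝ × Y m) => ‖τ.κ i (Ps fl (τ.g i) z.2 + z.1) - z.2‖ :=
      (((h.box i).sκ.continuous.comp hc).sub continuous_snd).norm
    refine Eventually.and (((h.box i).par.oN.preimage hc).mem_nhds ?_)
      ((isOpen_lt hn continuous_const).mem_nhds ?_)
    · simpa using (h.kap hq).2.1
    · simpa [(h.kap hq).2.2] using hδ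
  obtain ⟨δ, h0, hδ'⟩ := nhds_basis_closedBall.eventually_iff.1 (eventually_all.2 key)
  refine ⟨δ, h0, fun i q hq x hx hn => ?_⟩
  have h1 := hδ' (mem_closedBall_zero_iff.2 hn) i q hq
  rw [add_sub_cancel] at h1
  exact ⟨h1.1, h1.2.le, ((h.box i).par.rm x hx h1.1).2⟩

end Pool.Agent.MP_6d695c_gt.P
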