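import Pool.Agent.MP_6d695c_gt.p.Alg

/-! PROJECT P: a finite net with bounded multiplicity. -/

open scoped Manifold ContDiff Topology MeasureTheory
open Set Metric Filter Real

namespace Pool.Agent.MP_6d695c_gt.P

open SW T1 Theta

namespace NetAux

/-- separated families in a compact set are finite, with a bound -/
theorem pack {E : Type} [MetricSpace E] {K : Set E} (hK : IsCompact K) {δ : ℝ} (hδ : 0 < δ) :
    ∃ M : ℕ, ∀ (S : Set E) (e : E → E), (∀ a ∈ S, e a ∈ K) →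
      (∀ a ∈ S, ∀ b ∈ S, a ≠ b → δ ≤ dist (e a) (e b)) → S.Finite ∧ S.ncard ≤ M := by
  obtain ⟨t, -, tf, ht⟩ := finite_cover_balls_of_compact hK (half_pos hδ)
  refine ⟨t.ncard, fun S e hS hsep => ?_⟩
  have h1 : ∀ a : E, ∃ x : E, a ∈ S → x ∈ t ∧ e a ∈ ball x (δ / 2) := fun a => by
    by_cases ha : a ∈ S
    · obtain ⟨x, hx, hx'⟩ := mem_iUnion₂.1 (ht (hS a ha))
      exact ⟨x, fun _ => ⟨hx, hx'⟩⟩
    · exact ⟨a, fun h => absurd h ha⟩
  choose g hg using h1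
  have inj : InjOn g S := fun a ha b hb hab => by
    by_contra c
    have h2 := hsep a ha b hb c
    have h3 := mem_ball.1 (hg a ha).2
    have h4 := mem_ball.1 (hg b hb).2
    rw [hab] at h3
    linarith [dist_triangle_right (e a) (e b) (g b)]
  have mp : MapsTo g S t := fun a ha => (hg a ha).1
  exact ⟨Finite.of_injOn mp inj tf, ncard_le_ncard_of_injOn g mp inj tf⟩

variable {m : ℕ}

theorem small {C ε : ℝ} (hC : 1 ≤ C) (hε : 0 < ε) : ∃ δ : ℝ, 0 < δ ∧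
    ∀ (A : Hor m →L[ℝ] Hor m) (p y : Y m), ‖A‖ ≤ C → ‖p‖ ≤ C → dist p y < δ →
      ‖hom A 1 (ldiv p y)‖ ≤ ε := by
  have hc : ContinuousAt (fun r : ℝ => C * ((1 + m * C) * r) + 2 * m * (C * ((1 + m * C) * r)) ^ 2)
      0 := by fun_prop
  obtain ⟨δ, hδ, H⟩ := Metric.continuousAt_iff.1 hc ε hε
  refine ⟨δ, hδ, fun A p y hA hp hd => ?_⟩
  have h1 : ‖ldiv p y‖ ≤ (1 + m * C) * dist p y := by
    rw [ldiv, dist_comm, dist_eq_norm]
    refine (norm_Lt_le _ _).trans ?_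
    rw [norm_neg]
    gcongr
  have h2 := norm_hom_le hA hC zero_le_one le_rfl h1
  have h3 := H (x := dist p y) (by simpa using hd)
  simp only [mul_zero, ne_eq, OfNat.ofNat_ne_zero, not_false_eq_true, zero_pow, add_zero,
    dist_zero_right, Real.norm_eq_abs] at h3
  exact h2.trans ((le_abs_self _).trans h3.le)

theorem small' {C s : ℝ} (hC : 1 ≤ C) : ∃ δ : ℝ, 0 < δ ∧
    ∀ (A : Hor m →L[ℝ] Hor m) (p y : Y m), ‖A‖ ≤ C → ‖p‖ ≤ C → dist p y < δ →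
      ‖eta s p A y‖ ≤ 1 := by
  have hc : ContinuousAt (fun x : Y m => dil s⁻¹ x) 0 := by
    simp only [dil_def]
    fun_prop
  obtain ⟨ε, hε, H⟩ := Metric.continuousAt_iff.1 hc 1 one_pos
  obtain ⟨δ, hδ, H'⟩ := small (m := m) hC (half_pos hε)
  refine ⟨δ, hδ, fun A p y hA hp hd => ?_⟩
  have h1 := H (x := hom A 1 (ldiv p y)) (by
    rw [dist_zero_right]
    linarith [H' A p y hA hp hd])
  rw [dil_zero', dist_zero_right] at h1
  exact h1.le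

theorem le_one {C₁ C₂ C s : ℝ} {k₁ k₂ : ℕ} (h₁ : 1 ≤ C₁) (h₂ : 1 ≤ C₂) (hC : 1 ≤ C) (hs : 0 < s)
    (h : C₁ * C₂ * C ^ (k₁ + k₂) * s ≤ 1) : C₁ * C ^ k₁ * s ≤ 1 := by
  refine le_trans ?_ h
  have h3 : C ^ k₁ ≤ C ^ (k₁ + k₂) := pow_le_pow_right₀ hC (Nat.le_add_right _ _)
  have h4 : C₁ ≤ C₁ * C₂ := le_mul_of_one_le_right (by linarith) h₂
  have : 0 ≤ C := by linarith
  gcongr

end NetAux

open NetAux in
theorem net (hGeo : GeoStmt) : NetStmt := by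
  intro m Cb
  obtain ⟨R₁, C₁, k₁, hR₁, hC₁, G₁⟩ := hGeo m Cb 1
  refine ⟨R₁, hR₁, fun R => ?_⟩
  obtain ⟨R₂, C₂, k₂, -, hC₂, G₂⟩ := hGeo m Cb R
  obtain ⟨δ, hδ, Hδ⟩ := small (m := m) (C := max 1 (max Cb R)) (le_max_left _ _) one_pos
  obtain ⟨M₀, HM⟩ := pack (isCompact_closedBall (0 : Y m) R) hδ
  refine ⟨M₀, C₁ * C₂, k₁ + k₂, one_le_mul_of_one_le_of_one_le hC₁ hC₂,
    fun A B B' C s hA hF hs hle => ?_⟩
  have g₁ := G₁ A B B' C s hF hs (le_one hC₁ hC₂ hF.one hs hle)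
  have g₂ := G₂ A B B' C s hF hs (le_one hC₂ hC₁ hF.one hs (by
    rwa [mul_comm C₂, add_comm k₂]))
  obtain ⟨r, hr, Hr⟩ := small' (m := m) (s := s) hF.one
  obtain ⟨M₁, H₁⟩ := pack hA hr
  let Sep : Set (Y m) → Prop := fun S =>
    S ⊆ A ∧ ∀ a ∈ S, ∀ b ∈ S, a ≠ b → 1 < ‖eta s a (B' a) b‖
  have fin : ∀ S, Sep S → S.Finite ∧ S.ncard ≤ M₁ := fun S hS =>
    H₁ S id (fun a ha => hS.1 ha) fun a ha b hb hab => not_lt.1 fun c =>
      (hS.2 a ha b hb hab).not_ge (Hr _ a b (hF.bd a (hS.1 ha)).2.2 (hF.bd a (hS.1 ha)).1 c)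
  let T : Set ℕ := {n | ∃ S, Sep S ∧ S.ncard = n}
  have bT : BddAbove T := ⟨M₁, fun n ⟨S, hS, e⟩ => e ▸ (fin S hS).2⟩
  obtain ⟨N, hN, eN⟩ : sSup T ∈ T :=
    Nat.sSup_mem ⟨0, ∅, ⟨empty_subset _, fun a ha => absurd ha (notMem_empty a)⟩, ncard_empty _⟩ bT
  refine ⟨N, (fin N hN).1, hN.1, fun y hy => ?_, fun y hy => ?_⟩
  · by_contra c
    have c' : ∀ a ∈ N, R₁ < ‖eta s a (B' a) y‖ := fun a ha => not_le.1 fun h => c ⟨a, ha, h⟩
    have z : ‖eta s y (B' y) y‖ ≤ 1 := by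
      rw [eta_self, norm_zero]
      exact zero_le_one
    have hyN : y ∉ N := fun h => (c' y h).not_ge (z.trans hR₁)
    have hs' : Sep (insert y N) := by
      refine ⟨insert_subset hy hN.1, ?_⟩
      rintro a (rfl | ha) b (rfl | hb) hab
      · exact absurd rfl hab
      · exact not_le.1 fun h => (c' b hb).not_ge ((g₁ a hy b h).2 (hN.1 hb) a z)
      · exact hR₁.trans_lt (c' a ha)
      · exact hN.2 a ha b hb hab
    have := le_csSup bT (show (insert y N).ncard ∈ T from ⟨_, hs', rfl⟩)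
    rw [ncard_insert_of_notMem hyN (fin N hN).1, eN] at this
    omega
  · refine (HM _ (eta s y (B' y)) (fun a ha => mem_closedBall_zero_iff.2 ha.2)
      fun a ha b hb hab => not_lt.1 fun c => (hN.2 a ha.1 b hb.1 hab).not_ge ?_).2
    rw [eta_eta hs.ne' (hF.sym y hy) (hF.ri y hy) (B' a) y a b]
    have h0 : 0 ≤ C⁻¹ := inv_nonneg.2 (by linarith [hF.one])
    refine Hδ _ _ _ ((hF.near a (hN.1 ha.1) y hy ?_).trans ?_) (ha.2.trans ?_) c
    · linarith [(g₂ y hy a ha.2).1]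
    · exact (le_max_left _ _).trans (le_max_right _ _)
    · exact (le_max_right _ _).trans (le_max_right _ _)

end Pool.Agent.MP_6d695c_gt.P
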