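import Pool.Agent.MP_6d695c_gt.p.Alg

/-! PROJECT P, row NoCyc. -/

open scoped Manifold ContDiff Topology MeasureTheory
open Set Metric Filter Real

namespace Pool.Agent.MP_6d695c_gt.P

open SW T1 Theta

theorem noCyc : NoCycStmt := by
  intro X _ _ _ Z Λ Ω x₀ hZ hΛ hΩ hL hx
  have hD : Continuous fun x => fderiv ℝ Λ x (Z x) :=
    (hΛ.continuous_fderiv (by simp)).clm_apply hZ.continuous
  have hK : IsCompact (Ω ∩ {x | fderiv ℝ Λ x (Z x) ≤ 0}) :=
    hΩ.inter_right (isClosed_le hD continuous_const)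
  obtain ⟨t, -, ht⟩ := hK.elim_nhds_subcover
    (fun p => {x | x ≠ p → 0 < fderiv ℝ Λ x (Z x)}) fun p hp => by
      rcases hL p hp.1 with h | ⟨u, ⟨-, -, -, c, hc, h1⟩, h2⟩
      · exact absurd hp.2 (not_le.2 h)
      · rw [nhdsWithin_univ] at h1 h2
        filter_upwards [h1, h2] with x a b hx
        exact (mul_pos hc (pow_pos (norm_pos_iff.2 (sub_ne_zero.2 hx)) 2)).trans_le (a.trans b)
  refine regband X Ω (Ω ∩ {x | fderiv ℝ Λ x (Z x) ≤ 0}) Z Λ hΩ
    (t.finite_toSet.subset fun x hx => ?_) hZ.continuous (hΛ.of_le (by simp))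
    (fun x h h' => not_le.1 fun c => h' ⟨h, c⟩) x₀ fun h => (Ly_pos (hL x₀ h.1) hx).not_ge h.2
  obtain ⟨p, hp, h⟩ := mem_iUnion₂.1 (ht hx)
  obtain rfl : x = p := by_contra fun c => (h c).not_ge hx.2
  exact hp

end Pool.Agent.MP_6d695c_gt.P
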