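import Pool.Agent.MP_6d695c_gt.p.Alg

/-! PROJECT P, row Nodes. -/

open scoped Manifold ContDiff Topology MeasureTheory
open Set Metric Filter Real

namespace Pool.Agent.MP_6d695c_gt.P

open SW T1 Theta

namespace NodesAux

variable {m : ℕ}

theorem norm_left {g h : Y m} {X X' : ℝ} (h1 : ‖mul g h‖ ≤ X) (h2 : ‖h‖ ≤ X') :
    ‖g‖ ≤ X + X' + m * ((X + X') * X') := by
  have x0 : 0 ≤ X := (norm_nonneg _).trans h1
  have x1 : 0 ≤ X' := (norm_nonneg _).trans h2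
  have a1 : ‖g.2 + h.2‖ ≤ X := (norm_snd_le (mul g h)).trans h1
  have a2 : ‖h.2‖ ≤ X' := (norm_snd_le h).trans h2
  have a3 : ‖g.2‖ ≤ X + X' := by
    have := norm_sub_le (g.2 + h.2) h.2
    rw [add_sub_cancel_right] at this
    linarith
  have a4 : |g.1 + (h.1 - ∑ j, g.2.2 j * h.2.1 j)| ≤ X := (norm_fst_le (mul g h)).trans h1
  have a5 : |h.1| ≤ X' := (norm_fst_le h).trans h2
  have a6 : |∑ j, g.2.2 j * h.2.1 j| ≤ m * ((X + X') * X') := by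
    refine (sum_le _ _).trans (mul_le_mul_of_nonneg_left ?_ (Nat.cast_nonneg _))
    exact mul_le_mul ((norm_snd_le _).trans a3) ((norm_fst_le _).trans a2) (norm_nonneg _)
      (by linarith)
  have a7 : 0 ≤ (m : ℝ) * ((X + X') * X') := by positivity
  refine max_le ?_ (by linarith)
  change |g.1| ≤ _
  rw [abs_le] at a4 a5 a6 ⊢
  constructor <;> linarith [a4.1, a4.2, a5.1, a5.2, a6.1, a6.2]

theorem scale {C C₁ C₂ s : ℝ} {k₁ k₂ : ℕ} (hC : 1 ≤ C) (h1 : 1 ≤ C₁) (h2 : 1 ≤ C₂) (hs : 0 < s)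
    (h : C₁ * C₂ * C ^ (k₁ + k₂) * s ≤ 1) : C₁ * C ^ k₁ * s ≤ 1 ∧ C₂ * C ^ k₂ * s ≤ 1 := by
  have b1 : 1 ≤ C₁ * C ^ k₁ := one_le_mul_of_one_le_of_one_le h1 (one_le_pow₀ hC)
  have b2 : 1 ≤ C₂ * C ^ k₂ := one_le_mul_of_one_le_of_one_le h2 (one_le_pow₀ hC)
  have e : C₁ * C₂ * C ^ (k₁ + k₂) * s = C₁ * C ^ k₁ * (C₂ * C ^ k₂) * s := by ring
  rw [e] at h
  constructor
  · refine le_trans (mul_le_mul_of_nonneg_right ?_ hs.le) h
    exact le_mul_of_one_le_right (by linarith) b2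
  · refine le_trans (mul_le_mul_of_nonneg_right ?_ hs.le) h
    exact le_mul_of_one_le_left (by linarith) b1

end NodesAux

theorem nodes (hNet : NetStmt) (hGeo : GeoStmt) (hCol : ColStmt) : NodesStmt := by
  intro m Cb
  obtain ⟨R₀, hR₀, hN⟩ := hNet m Cb
  refine ⟨R₀, hR₀, fun R => ?_⟩
  obtain ⟨R', C₁, k₁, -, hC₁, hG⟩ := hGeo m Cb (R₀ + 4)
  set X' : ℝ := max Cb 1 * (R₀ + 4) + 2 * m * (max Cb 1 * (R₀ + 4)) ^ 2 with hX'
  set R'' : ℝ := R₀ + 4 + X' + m * ((R₀ + 4 + X') * X') with hR''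
  obtain ⟨M₀, C₂, k₂, hC₂, hN⟩ := hN (max R R'')
  refine ⟨M₀, C₁ * C₂, k₁ + k₂, one_le_mul_of_one_le_of_one_le hC₁ hC₂, ?_⟩
  intro I _ A ρ B B' C s hA hF hs hsc
  have sc := fun i => NodesAux.scale (hF i).one hC₁ hC₂ hs hsc
  choose N Nf Ns Nc Np using fun i =>
    hN _ (B i) (B' i) C s (hA i).cthickening (hF i) hs (sc i).2
  have fin : {p : I × Y m | p.2 ∈ N p.1}.Finite := by
    refine (finite_iUnion fun i => (finite_singleton i).prod (Nf i)).subset fun p hp => ?_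
    exact mem_iUnion.2 ⟨p.1, rfl, hp⟩
  haveI : Finite {p : I × Y m // p.2 ∈ N p.1} := fin.to_subtype
  have pk : ∀ i, ∀ y ∈ cthickening (8 * ρ) (A i), ∀ S : Set {p : I × Y m // p.2 ∈ N p.1},
      (∀ c ∈ S, c.1.1 = i ∧ ‖eta s y (B' i y) c.1.2‖ ≤ max R R'') → S.ncard ≤ M₀ := by
    intro i y hy S hS
    refine le_trans (ncard_le_ncard_of_injOn (fun c => c.1.2) (fun c hc => ?_)
      (fun c hc c' hc' e => ?_) ((Nf i).subset (sep_subset _ _))) (Np i y hy)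
    · obtain ⟨e, h⟩ := hS c hc
      exact ⟨e ▸ c.2, h⟩
    · exact Subtype.ext (Prod.ext ((hS c hc).1.trans (hS c' hc').1.symm) e)
  obtain ⟨col, c1, c2⟩ := hCol {p : I × Y m // p.2 ∈ N p.1}
    (fun c c' => c.1.1 = c'.1.1 ∧ ∃ y, ‖eta s c.1.2 (B' c.1.1 c.1.2) y‖ ≤ R₀ + 4 ∧
      ‖eta s c'.1.2 (B' c'.1.1 c'.1.2) y‖ ≤ R₀ + 4) M₀
    (fun _ _ ⟨e, y, h1, h2⟩ => ⟨e.symm, y, h2, h1⟩) fun a => by
      refine pk a.1.1 a.1.2 (Ns _ a.2) _ ?_
      rintro ⟨⟨j, c⟩, hc⟩ ⟨e, y, h1, h2⟩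
      obtain ⟨⟨i, a⟩, ha⟩ := a
      obtain rfl : i = j := e
      refine ⟨rfl, le_trans ?_ (le_max_right _ _)⟩
      change ‖eta s a (B' i a) y‖ ≤ _ at h1
      change ‖eta s c (B' i c) y‖ ≤ _ at h2
      change ‖eta s a (B' i a) c‖ ≤ _
      have ma := Ns i ha
      have mc := Ns i hc
      have d1 := (hG _ _ _ C s (hF i) hs (sc i).1 a ma y h1).1
      have d2 := (hG _ _ _ C s (hF i) hs (sc i).1 c mc y h2).1
      have ci : 0 ≤ C⁻¹ := inv_nonneg.2 (by linarith [(hF i).one])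
      have d3 : ‖a - c‖ ≤ C⁻¹ := by
        have := norm_sub_le (y - c) (y - a)
        rw [sub_sub_sub_cancel_left] at this
        linarith
      have nb := ((hF i).near a ma c mc d3).trans (le_max_left Cb 1)
      have e := eta_trans hs.ne' (((hF i).sym a ma).inv ((hF i).ri a ma)) (B i c) c a
        (eta s c (B' i c) y)
      rw [zeta_eta hs.ne' ((hF i).ri c mc)] at e
      rw [e] at h1
      exact NodesAux.norm_left h1 (norm_hom_le nb (le_max_right _ _) zero_le_one le_rfl h2)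
  refine ⟨{p : I × Y m // p.2 ∈ N p.1}, inferInstance, fun c => c.1.1, fun c => c.1.2, col,
    fun c => Ns _ c.2, fun i y hy => ?_, fun i y hy => pk i y hy _ fun c hc =>
      ⟨hc.1, hc.2.trans (le_max_left _ _)⟩, c1, fun c c' hne e ec y h1 => ?_⟩
  · obtain ⟨c, hc, h⟩ := Nc i y hy
    exact ⟨⟨(i, c), hc⟩, rfl, h⟩
  · exact lt_of_not_ge fun h2 => c2 c c' hne ⟨e, y, h1, h2⟩ ec

end Pool.Agent.MP_6d695c_gt.P
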