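import Pool.Agent.MP_6d695c_gt.p.Alg

/-! PROJECT P: the Lyapunov form on the skeleton. -/

set_option linter.unusedVariables false

open scoped Manifold ContDiff Topology MeasureTheory
open Set Metric Filter Real

namespace Pool.Agent.MP_6d695c_gt.P

open SW T1 Theta

namespace NormKAux

/-- the weight -/
noncomputable def ow (ε s : ℝ) : ℝ := exp (min (4 * ε * s) (-((2 + 4 * ε) * s)))

theorem ow_pos (ε s : ℝ) : 0 < ow ε s := exp_pos _

theorem ow_cont (ε : ℝ) : Continuous (ow ε) := by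
  unfold ow
  fun_prop

theorem ow_shift {ε t : ℝ} (hε : 0 < ε) (h0 : 0 ≤ t) (h1 : 4 * ε * t ≤ 1) (s : ℝ) :
    ow ε (s + t) ≤ exp 1 * ow ε s ∧ exp (-t) ^ 2 * ow ε s ≤ exp 1 * ow ε (s + t) := by
  have h2 := mul_nonneg hε.le h0
  simp only [ow, sq, ← exp_add, exp_le_exp]
  constructor
  · rw [← min_add_add_left]
    exact min_le_min (by linarith) (by linarith)
  · rw [← min_add_add_left, ← min_add_add_left]
    exact min_le_min (by linarith) (by linarith)

theorem core {ε S C : ℝ} (hε : 0 < ε) (hS : 0 ≤ S) (h4 : 4 * ε * S ≤ 1) (hC : 0 < C) :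
    ∃ T : ℝ, 1 ≤ T ∧ ∀ n : ℝ → ℝ, Continuous n → (∀ s, 0 ≤ n s) →
      (∀ t, 0 ≤ t → n (-t) ≤ C * exp (ε * t) ^ 2 * n 0) →
      (∀ t, 0 ≤ t → n t ≤ C * exp ((1 + ε) * t) ^ 2 * n 0) →
      (∀ t, 0 ≤ t → n 0 ≤ C * exp (ε * t) ^ 2 * n t) → ∀ t ∈ Icc 0 S,
      ∫ s in -T..T, ow ε s * n (s - t) ≤ 6 * ∫ s in -T..T, ow ε s * n s ∧
      exp (-t) ^ 2 * ∫ s in -T..T, ow ε s * n s ≤ 6 * ∫ s in -T..T, ow ε s * n (s - t) := by
  obtain ⟨C', hC', e'⟩ : ∃ C' : ℝ, 0 < C' ∧ C' = C * exp (2 + 6 * ε) := ⟨_, by positivity, rfl⟩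
  obtain ⟨u, hu, hu'⟩ : ∃ u : ℝ, 1 ≤ u ∧ S * (C * exp (-(2 * ε * u)) * C') ≤ 1 / 2 := by
    have h0 : 0 ≤ S * C * C' / ε := by positivity
    refine ⟨1 + S * C * C' / ε, by linarith, ?_⟩
    have h1 := add_one_le_exp (2 * ε * (1 + S * C * C' / ε))
    rw [show 2 * ε * (1 + S * C * C' / ε) + 1 = 2 * ε + 2 * (S * C * C') + 1 by field_simp] at h1
    rw [exp_neg, show ∀ y : ℝ, S * (C * y⁻¹ * C') = S * C * C' / y from fun y => by ring,
      div_le_iff₀ (exp_pos _)]
    linarith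
  refine ⟨S + u, by linarith, fun n hn n0 b1 b2 b3 t ht => ?_⟩
  obtain ⟨t0, t1⟩ := ht
  set T := S + u with hT
  set f : ℝ → ℝ := fun s => ow ε s * n s with hf
  have fc : Continuous f := (ow_cont ε).mul hn
  have f0 : ∀ s, 0 ≤ f s := fun s => mul_nonneg (ow_pos ε s).le (n0 s)
  have fi : ∀ a b, IntervalIntegrable f MeasureTheory.volume a b := fc.intervalIntegrable
  set I := ∫ s in -T..T, f s with hI
  have I0 : 0 ≤ I := intervalIntegral.integral_nonneg (by linarith) fun s _ => f0 s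
  have a1 : n 0 ≤ C' * I := by
    have h1 : ∫ s in (0 : ℝ)..1, n 0 ≤ ∫ s in (0 : ℝ)..1, C' * f s :=
      intervalIntegral.integral_mono_on zero_le_one intervalIntegrable_const
        ((fi 0 1).const_mul _) fun s hs => (b3 s hs.1).trans (by
        rw [e', hf, ← mul_assoc, mul_assoc C (exp _) (ow _ _), ow, sq, ← exp_add, ← exp_add]
        refine mul_le_mul_of_nonneg_right (mul_le_mul_of_nonneg_left (exp_le_exp.2 ?_) hC.le) (n0 s)
        rw [← min_add_add_left]
        exact le_min (by nlinarith [hs.1, hs.2]) (by nlinarith [hs.1, hs.2]))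
    rw [intervalIntegral.integral_const_mul] at h1
    have h2 : ∫ s in (0 : ℝ)..1, f s ≤ I := intervalIntegral.integral_mono_interval (by linarith)
      zero_le_one (by linarith) (Eventually.of_forall f0) (fi _ _)
    simpa using h1.trans (mul_le_mul_of_nonneg_left h2 hC'.le)
  have a2 : ∀ s, u ≤ |s| → f s ≤ C * exp (-(2 * ε * u)) * C' * I := fun s hs => by
    have h1 : f s ≤ C * exp (-(2 * ε * u)) * n 0 := by
      rcases le_total 0 s with h | h
      · rw [abs_of_nonneg h] at hs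
        refine (mul_le_mul_of_nonneg_left (b2 s h) (ow_pos ε s).le).trans ?_
        rw [← mul_assoc, mul_left_comm, ow, sq, ← exp_add, ← exp_add]
        refine mul_le_mul_of_nonneg_right (mul_le_mul_of_nonneg_left (exp_le_exp.2 ?_) hC.le) (n0 0)
        nlinarith [min_le_right (4 * ε * s) (-((2 + 4 * ε) * s))]
      · rw [abs_of_nonpos h] at hs
        have h2 := b1 (-s) (by linarith)
        rw [neg_neg] at h2
        refine (mul_le_mul_of_nonneg_left h2 (ow_pos ε s).le).trans ?_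
        rw [← mul_assoc, mul_left_comm, ow, sq, ← exp_add, ← exp_add]
        refine mul_le_mul_of_nonneg_right (mul_le_mul_of_nonneg_left (exp_le_exp.2 ?_) hC.le) (n0 0)
        nlinarith [min_le_left (4 * ε * s) (-((2 + 4 * ε) * s))]
    rw [mul_assoc]
    exact h1.trans (mul_le_mul_of_nonneg_left a1 (by positivity))
  have a3 : ∀ a, (∀ s ∈ Icc (a - t) a, u ≤ |s|) →
      0 ≤ ∫ s in a - t..a, f s ∧ ∫ s in a - t..a, f s ≤ I / 2 := fun a ha => by
    refine ⟨intervalIntegral.integral_nonneg (by linarith) fun s _ => f0 s,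
      (intervalIntegral.integral_mono_on (by linarith) (fi _ _) intervalIntegrable_const
        fun s hs => a2 s (ha s hs)).trans ?_⟩
    rw [intervalIntegral.integral_const, smul_eq_mul, sub_sub_cancel, ← mul_assoc]
    have h1 : t * (C * exp (-(2 * ε * u)) * C') ≤ 1 / 2 :=
      (mul_le_mul_of_nonneg_right t1 (by positivity)).trans hu'
    nlinarith
  obtain ⟨l0, l1⟩ := a3 (-T) fun s hs => le_abs.2 (Or.inr (by linarith [hs.2]))
  obtain ⟨r0, r1⟩ := a3 T fun s hs => le_abs.2 (Or.inl (by linarith [hs.1]))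
  have e1 := intervalIntegral.integral_add_adjacent_intervals (fi (-T - t) (T - t)) (fi _ T)
  have e2 := intervalIntegral.integral_add_adjacent_intervals (fi (-T - t) (-T)) (fi _ T)
  have e3 : ∫ s in -T..T, ow ε s * n (s - t) = ∫ s in -T - t..T - t, ow ε (s + t) * n s := by
    rw [← intervalIntegral.integral_comp_sub_right (fun s => ow ε (s + t) * n s) t]
    simp only [sub_add_cancel]
  have gi : IntervalIntegrable (fun s => ow ε (s + t) * n s) MeasureTheory.volume (-T - t) (T - t) :=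
    (((ow_cont ε).comp (continuous_add_const t)).mul hn).intervalIntegrable _ _
  have hs := ow_shift hε t0 ((mul_le_mul_of_nonneg_left t1 (by positivity)).trans h4)
  have c1 := intervalIntegral.integral_mono_on (by linarith) gi ((fi _ _).const_mul (exp 1))
    fun s _ => (mul_le_mul_of_nonneg_right (hs s).1 (n0 s)).trans_eq (mul_assoc _ _ _)
  have c2 := intervalIntegral.integral_mono_on (by linarith) ((fi _ _).const_mul (exp (-t) ^ 2))
    (gi.const_mul (exp 1)) fun s _ => (mul_assoc _ _ _).symm.trans_le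
      ((mul_le_mul_of_nonneg_right (hs s).2 (n0 s)).trans_eq (mul_assoc _ _ _))
  rw [intervalIntegral.integral_const_mul] at c1
  rw [intervalIntegral.integral_const_mul, intervalIntegral.integral_const_mul] at c2
  have J0 : 0 ≤ ∫ s in -T - t..T - t, ow ε (s + t) * n s := intervalIntegral.integral_nonneg
    (by linarith) fun s _ => mul_nonneg (ow_pos ε _).le (n0 s)
  have e4 : exp 1 ≤ 3 := by linarith [exp_one_lt_d9]
  rw [e3]
  generalize (∫ s in -T - t..T - t, ow ε (s + t) * n s) = J at *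
  generalize (∫ s in -T - t..T - t, f s) = P at *
  have p1 : I ≤ 2 * P := by linarith
  have p2 : P ≤ 2 * I := by linarith
  constructor
  · nlinarith
  · nlinarith [sq_nonneg (exp (-t))]

variable {V H : Type} [NormedAddCommGroup V] [NormedSpace ℝ V] [NormedAddCommGroup H]
  [InnerProductSpace ℝ H] (e : V ≃L[ℝ] H)

/-- the scalar product -/
noncomputable def sp : V →L[ℝ] V →L[ℝ] ℝ :=
  (innerSL ℝ : H →L[ℝ] H →L[ℝ] ℝ).bilinearComp (e : V →L[ℝ] H) (e : V →L[ℝ] H)

/-- the scalar product on the quotient by `z`, pulled back by `D` -/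
noncomputable def gq (z : V) (D : V →L[ℝ] V) : V →L[ℝ] V →L[ℝ] ℝ :=
  (sp e z z • sp e - (sp e z).smulRight (sp e z)).bilinearComp D D

/-- its values -/
noncomputable def gv (z v w : V) : ℝ :=
  inner ℝ (e z) (e z) * inner ℝ (e v) (e w) - inner ℝ (e z) (e v) * inner ℝ (e z) (e w)

theorem gq_apply (z : V) (D : V →L[ℝ] V) (v w : V) : gq e z D v w = gv e z (D v) (D w) := rfl

theorem gv_symm (z v w : V) : gv e z v w = gv e z w v := by
  rw [gv, gv, real_inner_comm (e v) (e w), mul_comm (inner ℝ (e z) (e v))]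

theorem gv_nonneg (z v : V) : 0 ≤ gv e z v v := sub_nonneg.2 (real_inner_mul_inner_self_le _ _)

theorem gv_kill (z w : V) : gv e z z w = 0 := sub_self _

theorem gv_sub (z v : V) (a : ℝ) : gv e z (v - a • z) (v - a • z) = gv e z v v := by
  simp only [gv, map_sub, map_smul, inner_sub_left, inner_sub_right, real_inner_smul_left,
    real_inner_smul_right, real_inner_comm (e z) (e v)]
  ring

theorem gv_le (z v : V) : gv e z v v ≤ ‖e z‖ ^ 2 * ‖e v‖ ^ 2 := by
  rw [gv, real_inner_self_eq_norm_sq, real_inner_self_eq_norm_sq]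
  exact sub_le_self _ (mul_self_nonneg _)

theorem gv_eq {z : V} (hz : z ≠ 0) (v : V) :
    ∃ a : ℝ, gv e z v v = ‖e z‖ ^ 2 * ‖e (v - a • z)‖ ^ 2 := by
  have h : inner ℝ (e z) (e z) ≠ 0 := inner_self_ne_zero.2 (by simpa using hz)
  refine ⟨inner ℝ (e z) (e v) / inner ℝ (e z) (e z), ?_⟩
  rw [← gv_sub e z v (inner ℝ (e z) (e v) / inner ℝ (e z) (e z)), gv, real_inner_self_eq_norm_sq,
    real_inner_self_eq_norm_sq, sub_eq_self, mul_self_eq_zero, map_sub, map_smul, inner_sub_right,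
    real_inner_smul_right, ← real_inner_self_eq_norm_sq, div_mul_cancel₀ _ h, sub_self]

variable {Z : V → V} {fl : ℝ → V → V}

theorem dZ (hf : IsFlow Z fl) (t : ℝ) (x : V) : fderiv ℝ (fl t) x (Z x) = Z (fl t x) := by
  have h1 : HasDerivAt (fun s => fl s x) (Z x) 0 := by simpa [hf.zero] using hf.der x 0
  have h2 := HasFDerivAt.comp_hasDerivAt_of_eq (0 : ℝ)
    ((Lie.flow_sm hf t).differentiable (by simp) x).hasFDerivAt h1 (hf.zero _).symm
  have h3 : HasDerivAt (fun s => fl s (fl t x)) (Z (fl t x)) 0 := by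
    simpa [hf.zero] using hf.der (fl t x) 0
  exact h2.unique (h3.congr_of_eventuallyEq (.of_forall fun s => by
    simp only [Function.comp, ← hf.add, add_comm]))

theorem dD (hf : IsFlow Z fl) (s t : ℝ) (x v : V) :
    fderiv ℝ (fl s) (fl t x) (fderiv ℝ (fl t) x v) = fderiv ℝ (fl (s + t)) x v := by
  rw [show fl (s + t) = fl s ∘ fl t from funext (hf.add s t), fderiv_comp x
    ((Lie.flow_sm hf s).differentiable (by simp) _) ((Lie.flow_sm hf t).differentiable (by simp) _)]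
  rfl

theorem d0 (hf : IsFlow Z fl) (x v : V) : fderiv ℝ (fl 0) x v = v := by
  rw [show fl 0 = id from funext hf.zero, fderiv_id]
  rfl

/-- the form at the time `s` -/
noncomputable def am (Z : V → V) (fl : ℝ → V → V) (x : V) (s : ℝ) : V →L[ℝ] V →L[ℝ] ℝ :=
  gq e (Z (fl s x)) (fderiv ℝ (fl s) x)

theorem am_cont [FiniteDimensional ℝ V] (hf : IsFlow Z fl) (hZ : Continuous Z) :
    Continuous fun q : V × ℝ => am e Z fl q.1 q.2 := by
  have h1 : Continuous fun q : V × ℝ => Z (fl q.2 q.1) :=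
    hZ.comp (hf.sm.continuous.comp continuous_swap)
  have h2 : Continuous fun q : V × ℝ => fderiv ℝ (fl q.2) q.1 :=
    Continuous.fderiv (f := fun (q : V × ℝ) => fl q.2) (n := ∞)
      (hf.sm.comp (contDiff_fst.snd.prodMk contDiff_snd)) continuous_fst (by simp)
  refine continuous_clm_apply.2 fun v => continuous_clm_apply.2 fun w => ?_
  have h3 := h2.clm_apply (continuous_const (y := v))
  have h4 := h2.clm_apply (continuous_const (y := w))
  have h5 := e.continuous.comp h1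
  have h6 := e.continuous.comp h3
  have h7 := e.continuous.comp h4
  exact ((h5.inner h5).mul (h6.inner h7)).sub ((h5.inner h6).mul (h5.inner h7))

theorem am_shift (hf : IsFlow Z fl) (s t : ℝ) (x v : V) :
    am e Z fl (fl t x) s (fderiv ℝ (fl t) x v) (fderiv ℝ (fl t) x v) =
      am e Z fl x (s + t) v v := by
  simp only [am, gq_apply, dD hf, hf.add]

theorem am_zero (hf : IsFlow Z fl) (x v : V) : am e Z fl x 0 v v = gv e (Z x) v v := by
  simp only [am, gq_apply, d0 hf, hf.zero]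

/-- growth modulo the field gives growth of the form -/
theorem am_le (hf : IsFlow Z fl) (hZ : Continuous Z) {K : Set V} (hK : IsCompact K)
    (h0 : ∀ x ∈ K, Z x ≠ 0) : ∃ C : ℝ, 0 < C ∧ ∀ x ∈ K, ∀ s, fl s x ∈ K → ∀ (v : V) (r : ℝ),
      (∀ b : ℝ, ∃ a : ℝ, ‖fderiv ℝ (fl s) x (v - b • Z x) - a • Z (fl s x)‖ ≤ r * ‖v - b • Z x‖) →
      am e Z fl x s v v ≤ C * r ^ 2 * am e Z fl x 0 v v := by
  have hc : Continuous fun x => ‖e (Z x)‖ := by fun_prop
  obtain ⟨m, hm, hm'⟩ := hK.exists_forall_le' hc.continuousOn (a := 0) fun x hx =>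
    norm_pos_iff.2 (by simpa using h0 x hx)
  obtain ⟨B, hB⟩ := hK.bddAbove_image hc.continuousOn
  obtain ⟨c, c0, c1, c2⟩ : ∃ c : ℝ, 0 < c ∧ (∀ v, ‖e v‖ ≤ c * ‖v‖) ∧ ∀ v, ‖v‖ ≤ c * ‖e v‖ := by
    refine ⟨‖(e : V →L[ℝ] H)‖ + ‖(e.symm : H →L[ℝ] V)‖ + 1, by positivity, fun v => ?_, fun v => ?_⟩
    · refine ((e : V →L[ℝ] H).le_opNorm v).trans (mul_le_mul_of_nonneg_right ?_ (norm_nonneg _))
      linarith [norm_nonneg (e.symm : H →L[ℝ] V)]
    · have h := (e.symm : H →L[ℝ] V).le_opNorm (e v)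
      rw [show (e.symm : H →L[ℝ] V) (e v) = v from e.symm_apply_apply v] at h
      refine h.trans (mul_le_mul_of_nonneg_right ?_ (norm_nonneg _))
      linarith [norm_nonneg (e : V →L[ℝ] H)]
  refine ⟨((|B| + 1) * c * c / m) ^ 2, by positivity, fun x hx s hs v r h => ?_⟩
  obtain ⟨b, hb⟩ := gv_eq e (h0 x hx) v
  obtain ⟨a, ha⟩ := h b
  rw [am_zero e hf, hb, am, gq_apply, ← gv_sub e _ _ b, ← gv_sub e _ _ a]
  rw [map_sub, map_smul, dZ hf] at ha
  refine (gv_le e _ _).trans ?_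
  rw [← sq_abs r, ← mul_pow, ← mul_pow, ← mul_pow, ← mul_pow]
  refine pow_le_pow_left₀ (by positivity) ?_ 2
  have a1 : ‖e (Z (fl s x))‖ ≤ |B| + 1 := by
    linarith [hB (mem_image_of_mem _ hs), le_abs_self B]
  have a2 := (c1 _).trans (mul_le_mul_of_nonneg_left (ha.trans (mul_le_mul (le_abs_self r) (c2 _)
    (norm_nonneg _) (abs_nonneg _))) c0.le)
  refine (mul_le_mul a1 a2 (norm_nonneg _) (by positivity)).trans ?_
  refine le_trans (le_of_eq ?_) (mul_le_mul_of_nonneg_left (mul_le_mul_of_nonneg_right (hm' x hx)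
    (norm_nonneg _)) (by positivity))
  field_simp

end NormKAux

open NormKAux in
theorem normK : NormKStmt := by
  intro V E _ _ _ _ _ M l Pi φ Z fl ε S hA hc hK hL ⟨C₁, h₁⟩ ⟨C₂, h₂⟩ h0 hε hS h4
  have hf := hc.flow
  have hZ := hc.sZ.continuous
  obtain ⟨e⟩ : Nonempty (V ≃L[ℝ] EuclideanSpace ℝ (Fin (Module.finrank ℝ V))) := ⟨toEuclidean⟩
  obtain ⟨C, hC, hb⟩ := am_le e hf hZ hK.cpt h0
  obtain ⟨T, hT, hcore⟩ := core hε hS h4 (C := C * (C₁ ^ 2 + C₂ ^ 2 + 1)) (by positivity)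
  have ac := am_cont e hf hZ
  have oc : Continuous fun q : V × ℝ => ow ε q.2 • am e Z fl q.1 q.2 :=
    ((ow_cont ε).comp continuous_snd).smul ac
  have nc : ∀ x v w, Continuous fun s => am e Z fl x s v w := fun x v w =>
    ((ac.comp (Continuous.prodMk_right x)).clm_apply continuous_const).clm_apply continuous_const
  have n0 : ∀ x s v, 0 ≤ am e Z fl x s v v := fun x s v => gv_nonneg e _ _
  have ev : ∀ x v w, (∫ s in -T..T, ow ε s • am e Z fl x s) v w =
      ∫ s in -T..T, ow ε s * am e Z fl x s v w := fun x v w => by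
    have h : Continuous fun s => ow ε s • am e Z fl x s := oc.comp (Continuous.prodMk_right x)
    rw [ContinuousLinearMap.intervalIntegral_apply (h.intervalIntegrable _ _),
      ContinuousLinearMap.intervalIntegral_apply
        ((h.clm_apply continuous_const).intervalIntegrable _ _)]
    rfl
  have red : ∀ x ∈ Ksk M φ fl, ∀ v ∈ Tg M x, l x v = 0 → ∀ b : ℝ,
      v - b • Z x ∈ Tg M x ∧ l x (v - b • Z x) = 0 := fun x hx v hv hl b => by
    have h1 := hK.low x hx
    refine ⟨hA.sub.tg_sub hx.1 hv (hA.sub.tg_smul hx.1 b ?_), ?_⟩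
    · rw [hc.eq x hx.1 (by linarith)]
      exact hA.tan x hx.1 _
    · rw [map_sub, map_smul, hl, Lie.l_Z (smp_of_amb hA) hc hx.1 (by linarith), smul_zero, sub_self]
  have b1 : ∀ x ∈ Ksk M φ fl, ∀ v ∈ Tg M x, l x v = 0 → ∀ t, 0 ≤ t → am e Z fl x (-t) v v ≤
      C * (C₁ ^ 2 + C₂ ^ 2 + 1) * exp (ε * t) ^ 2 * am e Z fl x 0 v v := fun x hx v hv hl t ht => by
    refine (hb x hx _ (hK.inv x hx _) v _ fun b =>
      h₁ x hx t ht _ (red x hx v hv hl b).1 (red x hx v hv hl b).2).trans ?_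
    rw [mul_pow, ← mul_assoc]
    gcongr
    · exact n0 _ _ _
    · nlinarith [sq_nonneg C₂]
  have b2 : ∀ x ∈ Ksk M φ fl, ∀ v ∈ Tg M x, l x v = 0 → ∀ t, 0 ≤ t → am e Z fl x t v v ≤
      C * (C₁ ^ 2 + C₂ ^ 2 + 1) * exp ((1 + ε) * t) ^ 2 * am e Z fl x 0 v v :=
    fun x hx v hv hl t ht => by
    refine (hb x hx _ (hK.inv x hx _) v _ fun b =>
      h₂ x hx t ht _ (red x hx v hv hl b).1 (red x hx v hv hl b).2).trans ?_
    rw [mul_pow, ← mul_assoc]
    gcongr
    · exact n0 _ _ _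
    · nlinarith [sq_nonneg C₁]
  refine ⟨fun x => ∫ s in -T..T, ow ε s • am e Z fl x s,
    (intervalIntegral.continuous_parametric_intervalIntegral_of_continuous' oc _ _).continuousOn,
    fun x v w => ?_, fun x v => ?_, fun x _ v => ?_, fun x hx v h => ?_,
    fun x _ hx t ht _ v hv hl => ?_⟩
  · rw [ev, ev]
    exact intervalIntegral.integral_congr fun s _ => congrArg (ow ε s * ·) (gv_symm e _ _ _)
  · rw [ev]
    exact intervalIntegral.integral_nonneg (by linarith) fun s _ =>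
      mul_nonneg (ow_pos ε s).le (n0 x s v)
  · rw [ev]
    simp only [am, gq_apply, dZ hf, gv_kill, mul_zero, intervalIntegral.integral_zero]
  · obtain ⟨a, ha⟩ := gv_eq e hx v
    refine ⟨a, sub_eq_zero.1 (by_contra fun c => ?_)⟩
    rw [ev] at h
    refine (intervalIntegral.integral_pos (by linarith) ((ow_cont ε).mul (nc x v v)).continuousOn
      (fun s _ => mul_nonneg (ow_pos ε s).le (n0 x s v)) ⟨0, ⟨by linarith, by linarith⟩,
        mul_pos (ow_pos ε 0) ?_⟩).ne' h
    have p1 : 0 < ‖e (Z x)‖ := norm_pos_iff.2 (by simpa using hx)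
    have p2 : 0 < ‖e (v - a • Z x)‖ := norm_pos_iff.2 fun h => c (e.map_eq_zero_iff.1 h)
    exact lt_of_lt_of_eq (by positivity) ((am_zero e hf x v).trans ha).symm
  · simp only [ev, am_shift e hf, ← sub_eq_add_neg]
    refine hcore (fun s => am e Z fl x s v v) (nc x v v) (fun s => n0 x s v) (b1 x hx v hv hl)
      (b2 x hx v hv hl) (fun s hs => ?_) t ht
    obtain ⟨t1, t2, -⟩ := hL x hx.1 s (fun r _ => by linarith [hK.low _ (hK.inv x hx r)]) v hv
    have h := b1 _ (hK.inv x hx s) _ t1 (by rw [t2, hl, mul_zero]) s hs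
    rwa [am_shift e hf, am_shift e hf, neg_add_cancel, zero_add] at h

end Pool.Agent.MP_6d695c_gt.P
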