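import Pool.Agent.MP_6d695c_gt.p.Alg

/-! PROJECT P, row NormU: the bounds of the Lyapunov form hold near the skeleton. -/

open scoped Manifold ContDiff Topology MeasureTheory
open Set Metric Filter Real

namespace Pool.Agent.MP_6d695c_gt.P

open SW T1 Theta

namespace NormUAux

variable {V : Type} [NormedAddCommGroup V] [NormedSpace ℝ V]

theorem fl_Z {Z : V → V} {fl : ℝ → V → V} (hf : IsFlow Z fl) (s : ℝ) (x : V) :
    fderiv ℝ (fl s) x (Z x) = Z (fl s x) := by
  have h2 := hf.der (fl s x) 0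
  have h3 := ((T1.Lie.flow_sm hf s).differentiable (by simp)
    (fl 0 x)).hasFDerivAt.comp_hasDerivAt (0 : ℝ) (hf.der x 0)
  rw [hf.zero] at h2 h3
  refine h3.unique (h2.congr_of_eventuallyEq (Eventually.of_forall fun t => ?_))
  change fl s (fl t x) = fl t (fl s x)
  rw [← hf.add, ← hf.add, add_comm]

theorem exmin {z : V} (hz : z ≠ 0) (v : V) : ∃ a : ℝ, ∀ b : ℝ, ‖v - a • z‖ ≤ ‖v - b • z‖ := by
  refine Continuous.exists_forall_le (f := fun a : ℝ => ‖v - a • z‖) (by fun_prop)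
    (tendsto_atTop_mono (fun a => ?_) (tendsto_atTop_add_const_right _ (-‖v‖)
      ((tendsto_norm_cocompact_atTop (E := ℝ)).atTop_mul_const (norm_pos_iff.2 hz))))
  rw [← norm_smul, norm_sub_rev]
  linarith [norm_sub_norm_le (a • z) v]

theorem quad {q : V →L[ℝ] V →L[ℝ] ℝ} {z : V} (hs : ∀ v w, q v w = q w v) (hk : ∀ v, q z v = 0)
    (u : V) (a c : ℝ) : q (c • u + a • z) (c • u + a • z) = c ^ 2 * q u u := by
  simp only [map_add, map_smul, add_apply, smul_apply, smul_eq_mul, hk, hs u z]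
  ring

/-- the covector `dd l x v` -/
noncomputable def cov (l : V → V →L[ℝ] ℝ) (x v : V) : V →L[ℝ] ℝ :=
  fderiv ℝ l x v - (ContinuousLinearMap.apply ℝ ℝ v).comp (fderiv ℝ l x)

end NormUAux

open NormUAux in
theorem normU : NormUStmt := by
  intro V E _ _ _ _ _ M l Pi φ Z fl S Q hA hC hK _ hZ hQ
  have hf := hC.flow
  have cZ := hC.sZ.continuous
  have c3 : Continuous fun p : V × ℝ × V => p.2.2 := continuous_snd.snd
  have cd : Continuous fun p : V × ℝ × V => fderiv ℝ l p.1 :=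
    (hA.sl.continuous_fderiv (by simp)).comp continuous_fst
  have cy : Continuous fun p : V × ℝ × V => fl (-p.2.1) p.1 :=
    hf.sm.continuous.comp (continuous_snd.fst.neg.prodMk continuous_fst)
  have cw : Continuous fun p : V × ℝ × V => fderiv ℝ (fl (-p.2.1)) p.1 p.2.2 :=
    (Continuous.fderiv (f := fun p : V × ℝ × V => fl (-p.2.1)) (n := ∞)
      (hf.sm.comp (contDiff_fst.snd.fst.neg.prodMk contDiff_snd)) continuous_fst
      (by simp)).clm_apply c3
  have hO : IsOpen {p : V × ℝ × V | Z p.1 ≠ 0 ∧ Z (fl (-p.2.1) p.1) ≠ 0} :=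
    (isOpen_ne_fun (cZ.comp continuous_fst) continuous_const).inter
      (isOpen_ne_fun (cZ.comp cy) continuous_const)
  have q1 : ContinuousOn (fun p : V × ℝ × V => Q p.1 p.2.2 p.2.2)
      {p | Z p.1 ≠ 0 ∧ Z (fl (-p.2.1) p.1) ≠ 0} :=
    ((hQ.cont.comp continuousOn_fst fun p hp => hp.1).clm_apply c3.continuousOn).clm_apply
      c3.continuousOn
  have q2 : ContinuousOn (fun p : V × ℝ × V => Q (fl (-p.2.1) p.1)
      (fderiv ℝ (fl (-p.2.1)) p.1 p.2.2) (fderiv ℝ (fl (-p.2.1)) p.1 p.2.2))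
      {p | Z p.1 ≠ 0 ∧ Z (fl (-p.2.1) p.1) ≠ 0} :=
    ((hQ.cont.comp cy.continuousOn fun p hp => hp.2).clm_apply cw.continuousOn).clm_apply
      cw.continuousOn
  have ce : Continuous fun p : V × ℝ × V => exp (-p.2.1) ^ 2 := by fun_prop
  have hG := (((continuousOn_const (c := (9 : ℝ))).mul q1).sub q2).inf
    (((continuousOn_const (c := (9 : ℝ))).mul q2).sub (ce.continuousOn.mul q1))
      |>.isOpen_inter_preimage hO (isOpen_Ioi (a := (0 : ℝ)))
  have hB : IsCompact (({x ∈ M | φ x ≤ 1} ×ˢ Icc 0 S ×ˢ sphere (0 : V) 1) ∩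
      {p : V × ℝ × V | p.2.2 = Pi p.1 (cov l p.1 p.2.2) ∧ l p.1 p.2.2 = 0 ∧
        ∀ a : ℝ, 1 ≤ ‖p.2.2 - a • Z p.1‖}) := by
    refine ((hA.cpt 1 (by norm_num)).prod (isCompact_Icc.prod (isCompact_sphere _ _))).inter_right
      ((isClosed_eq c3 ((hA.sP.continuous.comp continuous_fst).clm_apply ((cd.clm_apply c3).sub
        (((ContinuousLinearMap.apply ℝ ℝ).continuous.comp c3).clm_comp cd)))).inter
      ((isClosed_eq ((hA.sl.continuous.comp continuous_fst).clm_apply c3) continuous_const).inter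
        ?_))
    change IsClosed {p : V × ℝ × V | ∀ a : ℝ, 1 ≤ ‖p.2.2 - a • Z p.1‖}
    rw [ofPred_forall]
    exact isClosed_iInter fun a => isClosed_le continuous_const (by fun_prop)
  have hU := ((hB.diff hG).image continuous_fst).isClosed.isOpen_compl
  refine ⟨_, hU.inter ((isOpen_ne_fun cZ (continuous_const (y := (0 : V)))).inter
    (isOpen_lt hA.sφ.continuous (continuous_const (y := (1 : ℝ))))), fun x hx => ⟨?_, hZ x hx,
      (hK.low x hx).trans_lt (by norm_num)⟩, hQ.cont.mono fun x hx => hx.2.1, hQ.symm, hQ.nn,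
    fun x hx => hQ.kill x hx.2.1, fun x hx => hQ.pos x hx.2.1, ?_⟩
  · rintro ⟨⟨x, t, v⟩, ⟨⟨⟨-, ht, -⟩, e1, e2, e3⟩, hn⟩, rfl⟩
    have hy := hK.inv x hx (-t)
    obtain ⟨b1, b2⟩ := hQ.bd x hx.1 hx t ht hy v
      (by rw [show v = _ from e1]; exact hA.tan x hx.1 _) e2
    have b3 : 0 < Q x v v := (hQ.nn x v).lt_of_ne' fun c => by
      obtain ⟨a, ha⟩ := hQ.pos x (hZ x hx) v c
      have := e3 a
      simp only [← ha, sub_self, norm_zero] at this
      linarith
    have b4 : 0 < exp (-t) ^ 2 * Q x v v := by positivity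
    refine hn ⟨⟨hZ x hx, hZ _ hy⟩, ?_⟩
    simp only [mem_preimage, mem_Ioi, lt_min_iff,
      _root_.Pi.mul_apply, _root_.Pi.sub_apply]
    constructor <;> linarith
  · rintro x hx ⟨h1, h2, h3⟩ t ht hy v hv hl
    obtain ⟨a, ha⟩ := exmin h2 v
    have hz : Z x ∈ Tg M x := by
      rw [hC.eq x hx (by linarith [show φ x < 1 from h3])]
      exact hA.tan x hx _
    have lz := T1.Lie.l_Z (smp_of_amb hA) hC hx (by linarith [show φ x < 1 from h3])
    have key : ∀ (c : ℝ) (u : V), v = c • u + a • Z x →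
        Q x v v = c ^ 2 * Q x u u ∧
        Q (fl (-t) x) (fderiv ℝ (fl (-t)) x v) (fderiv ℝ (fl (-t)) x v) =
          c ^ 2 * Q (fl (-t) x) (fderiv ℝ (fl (-t)) x u) (fderiv ℝ (fl (-t)) x u) := by
      rintro c u rfl
      rw [map_add (fderiv ℝ (fl (-t)) x), map_smul (fderiv ℝ (fl (-t)) x),
        map_smul (fderiv ℝ (fl (-t)) x), fl_Z hf]
      exact ⟨quad (hQ.symm x) (hQ.kill x h2) u a c, quad (hQ.symm _) (hQ.kill _ hy.2.1) _ a c⟩
    by_cases h0 : v - a • Z x = 0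
    · obtain ⟨k1, k2⟩ := key 0 v (by rw [zero_smul, zero_add, ← sub_eq_zero, h0])
      rw [k1, k2]
      simp
    have n0 := norm_pos_iff.2 h0
    obtain ⟨k1, k2⟩ := key ‖v - a • Z x‖ (‖v - a • Z x‖⁻¹ • (v - a • Z x))
      (by rw [smul_inv_smul₀ n0.ne', sub_add_cancel])
    have tu := hA.sub.tg_smul hx ‖v - a • Z x‖⁻¹ (hA.sub.tg_sub hx hv (hA.sub.tg_smul hx a hz))
    have hg := not_not.1 fun c => h1 ⟨(x, t, ‖v - a • Z x‖⁻¹ • (v - a • Z x)),
      ⟨⟨⟨⟨hx, le_of_lt h3⟩, ht, mem_sphere_zero_iff_norm.2 (norm_smul_inv_norm h0)⟩,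
        hA.uniq hx tu fun _ _ => rfl, by simp [hl, lz], fun b => by
          have e : ‖v - a • Z x‖⁻¹ • (v - a • Z x) - b • Z x =
              ‖v - a • Z x‖⁻¹ • (v - (a + ‖v - a • Z x‖ * b) • Z x) := by
            rw [add_smul, ← sub_sub, smul_sub _ (v - a • Z x), smul_smul,
              inv_mul_cancel_left₀ n0.ne']
          change 1 ≤ ‖‖v - a • Z x‖⁻¹ • (v - a • Z x) - b • Z x‖
          rw [e, norm_smul, norm_inv, norm_norm, ← div_eq_inv_mul, one_le_div n0]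
          exact ha _⟩, c⟩, rfl⟩
    have g0 := hg.2
    simp only [mem_preimage, mem_Ioi, lt_min_iff,
      _root_.Pi.mul_apply, _root_.Pi.sub_apply] at g0
    obtain ⟨g1, g2⟩ := g0
    rw [k1, k2]
    have n2 := sq_nonneg ‖v - a • Z x‖
    constructor <;> nlinarith [mul_nonneg n2 g1.le, mul_nonneg n2 g2.le]

end Pool.Agent.MP_6d695c_gt.P
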