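import Pool.Agent.MP_6d695c_gt.p.Alg

/-! PROJECT P, row Place: a trap is moved to a node and to a given height. -/

open scoped Manifold ContDiff Topology MeasureTheory
open Set Metric Filter Real

namespace Pool.Agent.MP_6d695c_gt.P

open SW T1 Theta

theorem place : PlaceStmt := by
  intro m k h e T B η ζ U C O u f Λ Ξ E hη hu hR
  obtain ⟨A', hA⟩ : ∃ A', Aut (k * exp (-h)) (fun x : ℝ × Y m => (x.1 - h, η x.2)) A' :=
    ⟨_, by
      have := (T1.aut T1.prel m _ _ _ ((T1.aff m).1 (-h))).2 k _ _ hη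
      simp only [sub_eq_add_neg _ h]
      exact this⟩
  have hX := (T1.aut T1.prel m _ _ _ hA).1 f hR.sf
  have hM : ∀ g : ℝ × Y m → ℝ, ContDiff ℝ ∞ g → (∀ x, fderiv ℝ g x (XY f x) ≤ 0) →
      Mono (fun x => (k * exp (-h))⁻¹ * f (x.1 - h, η x.2)) fun x => g (x.1 - h, η x.2) :=
    fun g hg hm => ⟨hg.comp hA.sA, fun x => by
      have := fderiv_comp x (hg.differentiable (by simp) _) (hA.sA.differentiable (by simp) x)
      rw [Function.comp_def] at this
      rw [this, ContinuousLinearMap.comp_apply, hX x]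
      exact hm _⟩
  have hζ : Continuous ζ :=
    continuous_snd.comp (hη.sA'.continuous.comp (Continuous.prodMk_right (0 : ℝ)))
  refine ⟨⟨contDiff_const.mul (hR.sf.comp hA.sA), hR.sΛ.comp hA.sA, hR.cpt.image hζ,
    fun x hx => mul_eq_zero_of_right _ ?_, fun x => ?_, B + |h|, fun x => ?_⟩,
    hM Ξ hR.sΞ hR.mono, hM (fun x => u x.2 + E x) ((hu.comp contDiff_snd).add hR.slow.sE)
      fun x => hR.slow.mono x (mem_univ _)⟩
  · rcases hx with hx | hx | hx
    · exact hR.far _ (le_abs.2 (Or.inr (by simp only; linarith)))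
    · exact hR.far _ (le_abs.2 (Or.inl (by simp only; linarith)))
    · exact (hR.out (x.1 - h, η x.2) fun hc => hx ⟨_, hc, congrArg Prod.snd (hη.li x)⟩).1
  · exact T1.rel _ _ univ univ univ _ A' _ (XY f) _ Λ x 0 isOpen_univ trivial trivial
      hA.sA.contDiffOn (hA.sA'.differentiable (by simp) _) (hR.sΛ.comp hA.sA) hR.sΛ
      (Eventually.of_forall fun y => ⟨trivial, hA.li y, tg_univ _ _, hX y, (add_zero _).symm⟩)
      (hR.lyap _)
  · have h1 := hR.bd (x.1 - h, η x.2)
    have h2 := abs_sub (Λ (x.1 - h, η x.2) - (x.1 - h)) h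
    rw [show Λ (x.1 - h, η x.2) - (x.1 - h) - h = Λ (x.1 - h, η x.2) - x.1 by ring] at h2
    linarith

end Pool.Agent.MP_6d695c_gt.P
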