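import Pool.Agent.MP_6d695c_gt.p.Alg

/-! PROJECT P, row Prev: the link to the previous tower. -/

open scoped Manifold ContDiff Topology MeasureTheory
open Set Metric Filter Real

namespace Pool.Agent.MP_6d695c_gt.P

open SW T1 Theta

namespace PrevAux

variable {m : ℕ}

theorem thick {A : Set (Y m)} {ρ k k' d : ℝ} {q q' : ℝ × Y m} (hρ : 0 < ρ) (hk : 0 ≤ k)
    (hq : q.2 ∈ cthickening (k * ρ) A) (hd : ‖q' - q‖ ≤ d) (hdρ : d ≤ ρ) (hk' : k + 1 ≤ k') :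
    q'.2 ∈ cthickening (k' * ρ) A := by
  have h1 : dist q'.2 q.2 ≤ ρ := by
    rw [dist_eq_norm]
    exact ((norm_snd_le (q' - q)).trans hd).trans hdρ
  have h2 := cthickening_cthickening_subset hρ.le (mul_nonneg hk hρ.le) A
    (mem_cthickening_of_dist_le _ _ _ _ hq h1)
  exact cthickening_mono (by nlinarith) _ h2

theorem height {d : ℝ} {q q' : ℝ × Y m} (hd : ‖q' - q‖ ≤ d) :
    q.1 - d ≤ q'.1 ∧ q'.1 ≤ q.1 + d := by
  have h : |q'.1 - q.1| ≤ d := (norm_fst_le (q' - q)).trans hd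
  constructor <;> linarith [(abs_le.1 h).1, (abs_le.1 h).2]

end PrevAux

open PrevAux in
theorem prev (hLast : LastStmt) (hShad : ShadStmt) (hNbr : NbrStmt) : PrevStmt := by
  intro V _ _ _ m M K' K'' l φ Z X fl I _ τ H S₀ δ hf hT hK hKM hX hδ
  have hρ := hT.ρpos
  have hH := hT.Hle
  obtain ⟨d, d0, dδ, dρ, d4⟩ : ∃ d : ℝ, 0 < d ∧ d ≤ δ ∧ d ≤ τ.ρ ∧ d ≤ 1 / 4 :=
    ⟨min δ (min τ.ρ (1 / 4)), by positivity, min_le_left _ _,
      (min_le_right _ _).trans (min_le_left _ _), (min_le_right _ _).trans (min_le_right _ _)⟩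
  obtain ⟨δ₂, hδ₂, hN⟩ := hNbr V m M K' K'' l φ Z fl I τ H S₀ d hf hT d0
  obtain ⟨ε₁, hε₁, hS⟩ := hShad V Z fl K' (S₀ + 1) δ₂ hf hK hδ₂
  obtain ⟨ε₂, hε₂, hL⟩ := hLast V m M K' K'' l φ Z X fl I τ H S₀ hf hT hK hKM hX
  refine ⟨min ε₁ ε₂, lt_min hε₁ hε₂, fun c hc t₀ i y hy hcy => ?_⟩
  obtain ⟨t', ht', hin, hout⟩ := hL c
    ⟨hc.cont, hc.per, hc.mem, fun t => (hc.near t).mono (min_le_right _ _)⟩ t₀
  have sh := hS c t' t₀ (by linarith [ht'.1]) hc.cont.continuousOn (fun t ht => by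
    rw [← hX _ (hc.mem t) fun h => hout t ⟨ht.1, ht.2.le⟩ (Or.inr h)]
    exact (hc.near t).mono (min_le_left _ _)) fun t _ => hc.mem t
  have th : ∀ {j k}, k ≤ 10 → cthickening (k * τ.ρ) (τ.A j) ⊆ cthickening (10 * τ.ρ) (τ.A j) :=
    fun hk => cthickening_mono (by gcongr) _
  have l0 : t' ∈ Icc t' t₀ := left_mem_Icc.2 ht'.2
  have r0 : t₀ ∈ Icc t' t₀ := right_mem_Icc.2 ht'.2
  -- the curve follows the flow lines of the towers
  have nr : ∀ s ∈ Icc t' t₀, ∀ t ∈ Icc t' t₀, ∀ j, ∀ q ∈ τ.reg j (-1) (H + 1) 10,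
      fl (t - s) (c s) = Ps fl (τ.g j) q → ∃ q', ‖q' - q‖ ≤ d ∧ Ps fl (τ.g j) q' = c t :=
    fun s hs t ht j q hq e => ⟨_, (hN j q hq (c t) (hKM (hc.mem t)) (e ▸ sh s hs t ht)).2⟩
  -- the end point has height zero
  have bot : ∀ j, ∀ q ∈ τ.reg j (-1) (H + 1) 10, Ps fl (τ.g j) q = c t₀ → q.1 = 0 :=
    fun j q hq e => by
      rw [hcy, ← Ps_zero hf (τ.g i) y] at e
      rw [(hT.inj hq (hT.bot (by norm_num) hy) e).2]
  rcases hin with hin | hin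
  swap
  · exfalso
    obtain ⟨j, q, hq, e⟩ := mem_iUnion.1 hin
    have q1 := hq.1.1
    have q2 := hq.1.2
    by_cases h : t' + (H + 1 / 4 - q.1) ≤ t₀
    · obtain ⟨q', h1, h2⟩ := nr t' l0 (t' + (H + 1 / 4 - q.1)) ⟨by linarith, h⟩ j (H + 1 / 4, q.2)
        ⟨⟨by linarith, by linarith⟩, th (by norm_num) hq.2⟩ (by
          rw [← e, fl_Ps hf]
          congr 2
          ring)
      have h3 := height h1
      refine hout _ ⟨by linarith, h⟩ (Or.inl (mem_iUnion.2 ⟨j, q', ⟨⟨?_, ?_⟩, ?_⟩, h2⟩))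
      · linarith [h3.1]
      · linarith [h3.2]
      · exact thick (q := (H + 1 / 4, q.2)) hρ (by norm_num) hq.2 h1 dρ (by norm_num)
    · have h' := ht'.2
      obtain ⟨q', h1, h2⟩ := nr t' l0 t₀ r0 j (t₀ - t' + q.1, q.2)
        ⟨⟨by linarith, by linarith⟩, th (by norm_num) hq.2⟩ (by rw [← e, fl_Ps hf])
      have h3 := height h1
      have h4 := bot j q' ⟨⟨by linarith [h3.1], by linarith [h3.2]⟩,
        thick (q := (t₀ - t' + q.1, q.2)) hρ (by norm_num) hq.2 h1 dρ (by norm_num)⟩ h2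
      linarith [h3.1]
  obtain ⟨j, q, hq, e⟩ := mem_iUnion.1 hin
  have q1 := hq.1.1
  have q2 := hq.1.2
  have t1 := ht'.1
  have t2 := ht'.2
  obtain ⟨q', h1, h2⟩ : ∃ q', ‖q' - q‖ ≤ d ∧ Ps fl (τ.g j) q' = fl (-(t₀ - t')) (τ.g i y) :=
    ⟨_, (hN j q ⟨⟨by linarith, by linarith⟩, th (by norm_num) hq.2⟩ _
      (hKM (hT.back _ (hcy ▸ hc.mem t₀) _ (by linarith))) (by
        rw [norm_sub_rev, e, ← hcy, neg_sub]
        exact sh t₀ r0 t' l0)).2⟩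
  have h3 := height h1
  have h5 := thick hρ (by norm_num) hq.2 h1 dρ (k' := 7) (by norm_num)
  have up : ∀ s, fl (-s) (τ.g i y) = Ps fl (τ.g j) (t₀ - t' + q'.1 - s, q'.2) := fun s => by
    have : t₀ - t' + q'.1 - s = (t₀ - t' - s) + q'.1 := by ring
    rw [this, ← fl_Ps hf, h2, ← hf.add]
    congr 1
    ring
  refine ⟨t', t2, j, q, hq, e.symm, t₀ - t' + q'.1, q'.2,
    ⟨cthickening_mono (by gcongr; norm_num) _ hy, h5, ⟨by linarith [h3.1], by linarith [h3.2]⟩,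
      by rw [up, sub_self, Ps_zero hf], fun s hs k p hp ep => ?_⟩,
    ((norm_snd_le (q' - q)).trans h1).trans dδ⟩
  have p1 := hp.1.1
  have p2 := hp.1.2
  have s1 := hs.1
  have s2 := hs.2
  have hp' : p ∈ τ.reg k (-1) (H + 1) 10 := ⟨⟨by linarith, by linarith⟩, th (by norm_num) hp.2⟩
  by_cases h : t₀ - t' ≤ s
  · rw [up] at ep
    have h6 := congrArg Prod.fst (hT.inj (q := (t₀ - t' + q'.1 - s, q'.2))
      ⟨⟨by linarith, by linarith [h3.2]⟩, th (by norm_num) h5⟩ hp' ep).2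
    linarith [show t₀ - t' + q'.1 - s = p.1 from h6]
  have dn : ∀ r, fl (r - s) (c t₀) = Ps fl (τ.g k) (r + p.1, p.2) := fun r => by
    rw [← fl_Ps hf, ← ep, ← hf.add, hcy, sub_eq_add_neg]
  by_cases h' : 2 - p.1 ≤ s
  · obtain ⟨r, r1, r2⟩ := nr t₀ r0 (t₀ + (2 - p.1 - s)) ⟨by linarith, by linarith⟩ k
      (2 - p.1 + p.1, p.2) ⟨⟨by linarith, by linarith⟩, hp'.2⟩ (by
        rw [add_sub_cancel_left, dn])
    have r3 := height r1
    refine hout (t₀ + (2 - p.1 - s)) ⟨by linarith, by linarith⟩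
      (Or.inr (mem_iUnion.2 ⟨k, r, ⟨⟨?_, ?_⟩, ?_⟩, r2⟩))
    · linarith [r3.1]
    · linarith [r3.2]
    · exact thick (q := (2 - p.1 + p.1, p.2)) hρ (by norm_num) hp.2 r1 dρ (by norm_num)
  · have h6 := bot k (s + p.1, p.2) ⟨⟨by linarith, by linarith⟩, hp'.2⟩ (by
      rw [← dn, sub_self, hf.zero])
    linarith [show s + p.1 = 0 from h6]

end Pool.Agent.MP_6d695c_gt.P
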