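import Pool.Agent.MP_6d695c_gt.p.Alg

/-! PROJECT P, row PSI: test functions of bounded slope. -/

open scoped Manifold ContDiff Topology MeasureTheory
open Set Metric Filter Real

namespace Pool.Agent.MP_6d695c_gt.P

open SW T1 Theta

theorem psi : PsiStmt := by
  intro m R δ hδ
  let b : ContDiffBump (0 : Y m) := ⟨δ, 2 * δ, hδ, by linarith⟩
  have hb : ContDiff ℝ ∞ b := b.contDiff
  obtain ⟨K, hK⟩ := (hb.continuous_fderiv (by simp)).bounded_above_of_compact_support
    (b.hasCompactSupport.fderiv ℝ)
  have hK0 : 0 ≤ K := (norm_nonneg _).trans (hK 0)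
  refine ⟨fun y => 1 - b y, K * (1 + m * (|R| + 2 * δ)), contDiff_const.sub hb, by positivity,
    fun y => ⟨sub_nonneg.2 b.le_one, sub_le_self _ b.nonneg⟩, fun y hy => ?_, fun y hy => ?_,
    fun y₀ h₀ y => ?_⟩
  · exact sub_eq_zero.2 (b.one_of_mem_closedBall (mem_closedBall_zero_iff.2 hy)).symm
  · exact sub_eq_self.2 (b.zero_of_le_dist (by rwa [dist_zero_right]))
  · have h1 : HasFDerivAt (fun y => -(1 - b (y - y₀))) (fderiv ℝ b (y - y₀)) y := by
      have h2 := ((hb.differentiable (by simp) (y - y₀)).hasFDerivAt.comp y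
        ((hasFDerivAt_id y).sub_const y₀)).sub_const 1
      simp only [neg_sub]
      simpa [Function.comp_def] using h2
    refine ContinuousLinearMap.opNorm_le_bound _ (by positivity) fun ξ => ?_
    rw [nab_apply, h1.fderiv]
    by_cases h : ‖y - y₀‖ ≤ 2 * δ
    · have h3 : ‖y‖ ≤ |R| + 2 * δ := by
        have := norm_add_le (y - y₀) y₀
        rw [sub_add_cancel] at this
        linarith [le_abs_self R]
      refine (ContinuousLinearMap.le_of_opNorm_le _ (hK _) _).trans ?_
      rw [mul_assoc]
      refine mul_le_mul_of_nonneg_left ((norm_Lt_le y ξ).trans ?_) hK0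
      gcongr
    · have h4 : y - y₀ ∉ tsupport b := by
        rw [b.tsupport_eq, mem_closedBall_zero_iff]
        exact h
      rw [fderiv_of_notMem_tsupport ℝ h4]
      simp only [zero_apply, norm_zero]
      positivity

end Pool.Agent.MP_6d695c_gt.P
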