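import Pool.Agent.MP_6d695c_gt.p.Alg

/-! PROJECT P, row RANK: the degeneracy order. -/

open Finset

namespace Pool.Agent.MP_6d695c_gt.P

namespace RankAux

open Classical in
theorem pick {ι : Type} (C ne : ℕ) (E : ι → ι → Prop) (act : ι → Prop)
    (h1 : ∀ (u : ι) (T : Finset ι), #{c ∈ T | E u c} ≤ C)
    (h2 : ∀ u : ℕ → ι, (∀ a < ne, E (u a) (u (a + 1))) → ∃ a < ne, act (u (a + 1)))
    (S : Finset ι) (hS : S.Nonempty) :
    ∃ c ∈ S, (act c ∧ #{u ∈ S | E u c} ≤ C * ∑ j ∈ range ne, C ^ j) ∨ ∀ u ∈ S, ¬ E u c := by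
  by_contra hn
  push Not at hn
  choose! p hp hE using fun c hc => (hn c hc).2
  have hi : ∀ j, ∀ c ∈ S, p^[j] c ∈ S := fun j c hc => by
    induction j with
    | zero => exact hc
    | succ j ih => rw [Function.iterate_succ_apply']; exact hp _ ih
  have ed : ∀ T T' : Finset ι, ∑ c ∈ T', #{u ∈ T | E u c} ≤ C * #T := fun T T' => by
    simp only [card_filter]
    rw [sum_comm]
    exact (sum_le_card_nsmul _ _ C fun u _ => (card_filter _ _).ge.trans (h1 u T')).trans_eq
      (mul_comm _ _)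
  set A := {c ∈ S | act c} with hA
  have hj : ∀ j, #{c ∈ S | act (p^[j] c)} ≤ C ^ j * #A := fun j => by
    induction j with
    | zero => simp [hA]
    | succ j ih =>
      refine le_trans ?_ ((ed {c ∈ S | act (p^[j] c)} {c ∈ S | act (p^[j + 1] c)}).trans
        ((Nat.mul_le_mul_left C ih).trans_eq (by ring)))
      rw [card_eq_sum_ones]
      refine sum_le_sum fun c hc => card_pos.2 ⟨p c, ?_⟩
      have hc' := mem_filter.1 hc
      exact mem_filter.2 ⟨mem_filter.2 ⟨hp c hc'.1, hc'.2⟩, hE c hc'.1⟩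
  have hc : #S ≤ (∑ j ∈ range ne, C ^ j) * #A := by
    rw [sum_mul]
    refine le_trans (card_le_card fun c hc => ?_)
      (card_biUnion_le.trans (sum_le_sum fun j _ => hj j))
    obtain ⟨a, ha, h⟩ := h2 (fun a => p^[ne - a] c) fun a ha => by
      rw [show ne - a = ne - (a + 1) + 1 by omega, Function.iterate_succ_apply']
      exact hE _ (hi _ c hc)
    exact mem_biUnion.2 ⟨ne - (a + 1), mem_range.2 (by omega), mem_filter.2 ⟨hc, h⟩⟩
  have h3 := card_nsmul_le_sum A _ _ fun c hc =>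
    Nat.succ_le_of_lt ((hn c (mem_filter.1 hc).1).1 (mem_filter.1 hc).2)
  have h4 := ed S A
  have h5 := Nat.mul_le_mul_left C hc
  have h6 := card_pos.2 hS
  rw [smul_eq_mul, Nat.mul_succ] at h3
  have h7 : #A = 0 := by nlinarith
  rw [h7] at hc
  omega

open Classical in
theorem ord {ι : Type} (b : ℕ) (E : ι → ι → Prop) (act : ι → Prop)
    (h : ∀ S : Finset ι, S.Nonempty →
      ∃ c ∈ S, (act c ∧ #{u ∈ S | E u c} ≤ b) ∨ ∀ u ∈ S, ¬ E u c) (S : Finset ι) :
    ∃ rk : ι → ℕ, ∀ c ∈ S, #{u ∈ S | E u c ∧ rk c ≤ rk u} ≤ b ∧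
      (¬ act c → ∀ u ∈ S, E u c → rk u < rk c) := by
  induction S using Finset.strongInduction with
  | H S ih =>
    rcases S.eq_empty_or_nonempty with rfl | hS
    · exact ⟨0, by simp⟩
    obtain ⟨c0, h0, hc0⟩ := h S hS
    obtain ⟨rk, hr⟩ := ih _ (erase_ssubset h0)
    refine ⟨fun c => if c = c0 then 0 else rk c + 1, fun c hc => ?_⟩
    by_cases e : c = c0
    · subst e
      rcases hc0 with ⟨h1, h2⟩ | h1
      · exact ⟨le_trans (card_le_card fun u hu => mem_filter.2
          ⟨(mem_filter.1 hu).1, (mem_filter.1 hu).2.1⟩) h2, fun h => absurd h1 h⟩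
      · exact ⟨(card_eq_zero.2 (filter_eq_empty_iff.2 fun u hu h => h1 u hu h.1)).trans_le
          (Nat.zero_le _), fun _ u hu h => absurd h (h1 u hu)⟩
    · obtain ⟨h1, h2⟩ := hr c (mem_erase.2 ⟨e, hc⟩)
      refine ⟨le_trans (card_le_card fun u hu => ?_) h1, fun ha u hu hE => ?_⟩
      · obtain ⟨h3, h4, h5⟩ := mem_filter.1 hu
        by_cases e' : u = c0
        · simp [e, e'] at h5
        · simp only [e, e', if_false] at h5
          exact mem_filter.2 ⟨mem_erase.2 ⟨e', h3⟩, h4, by omega⟩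
      · by_cases e' : u = c0
        · simp [e, e']
        · simpa [e, e'] using h2 ha u (mem_erase.2 ⟨e', hu⟩) hE

end RankAux

open Classical in
theorem rank : RankStmt := by
  intro C ne
  refine ⟨C * ∑ j ∈ range ne, C ^ j, fun ι _ E act h1 h2 => ?_⟩
  have := Fintype.ofFinite ι
  obtain ⟨rk, hr⟩ := RankAux.ord _ E act (RankAux.pick C ne E act (fun u T => by
    refine le_trans ?_ (h1 u)
    rw [← Set.ncard_coe_finset]
    exact Set.ncard_le_ncard fun c hc => (mem_filter.1 hc).2) h2) univ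
  refine ⟨rk, fun c => ⟨fun _ => le_trans ?_ (hr c (mem_univ _)).1,
    fun h u => (hr c (mem_univ _)).2 h u (mem_univ _)⟩⟩
  rw [← Set.ncard_coe_finset]
  exact Set.ncard_le_ncard fun u hu => mem_filter.2 ⟨mem_univ _, hu⟩

end Pool.Agent.MP_6d695c_gt.P
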