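import Pool.Agent.MP_6d695c_gt.p.Alg

/-! PROJECT P, row RAWP: one trap for all functions of bounded slope. -/

open scoped Manifold ContDiff Topology MeasureTheory
open Set Metric Filter Real

namespace Pool.Agent.MP_6d695c_gt.P

open SW T1 Theta

open T1.RawP (flat_mono cont_dil exists_R nab_const_sub exists_w exists_time) in
theorem rawP (hMastP : MastPStmt) (hTrfP : TrfPStmt) : RawPStmt := by
  intro m K U Cu η hK hUo hKU hnull hη
  obtain ⟨G, h, hCR⟩ := exists_CR m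
  obtain ⟨B, r, γ, hU⟩ := T1.uni m G h hCR
  have hγ := hU.γpos
  obtain ⟨Lm, σ, hLm, hσ, hM⟩ := hMastP m G h B r γ (min (γ / 4) (min (1 / 4) (η / 2))) hU
    (by positivity)
  obtain ⟨b, sb, cb, tb, b1, bI⟩ := exists_cut hK hUo hKU
  obtain ⟨-, aA, aN, aC, aH⟩ := T1.aff m
  have sF : ContDiff ℝ ∞ fun y => (Lm + 3) * b y := contDiff_const.mul sb
  obtain ⟨C₁, hC₁, hb₁⟩ := aC _ sF cb.mul_left
  obtain ⟨C₂, hC₂, hb₂⟩ : ∃ C₂ : ℝ, 0 < C₂ ∧ Cu ≤ C₂ :=
    ⟨|Cu| + 1, by positivity, by linarith [le_abs_self Cu]⟩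
  obtain ⟨Cf, hCf, hF⟩ := T1.flat m G h B r γ hU
  obtain ⟨Cd, hCd, hD⟩ := T1.disp m G h B r γ hU
  obtain ⟨w, w0, w1, hw⟩ := exists_w (e := min σ (min (1 / 100) (η / 2))) (C := C₁ + C₂)
    (D := (1 + Cd) * Cf) (by positivity) (by positivity) (by positivity)
  obtain ⟨R, hR⟩ := exists_R cb.isCompact w⁻¹
  obtain ⟨Z, fl, κ, sZ, hfl, hZ, hS⟩ := T1.flowA T1.calcP T1.model m G h (R + 1) hCR
  obtain ⟨g, hg, hesc⟩ := T1.esc m G h B r γ R Z fl (dil w⁻¹ '' K) hU sZ hfl hZ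
    (hK.image (cont_dil _)) (aH K _ hK hnull)
  have hA := aA g w w0
  set ψ : Y m → Y m := fun y => mul g (dil w⁻¹ y) with hψ
  set ψ' : Y m → Y m := fun y => dil w (ldiv g y) with hψ'
  have sψ : ContDiff ℝ ∞ ψ := contDiff_snd.comp (hA.sA.comp (contDiff_prodMk_right (0 : ℝ)))
  have sψ' : ContDiff ℝ ∞ ψ' := contDiff_snd.comp (hA.sA'.comp (contDiff_prodMk_right (0 : ℝ)))
  have li : ∀ y, ψ' (ψ y) = y := fun y => congrArg Prod.snd (hA.li (0, y))
  have ri : ∀ y, ψ (ψ' y) = y := fun y => congrArg Prod.snd (hA.ri (0, y))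
  have s0 : 0 ≤ w * (C₁ + C₂) := by positivity
  have sl : ContDiff ℝ ∞ fun y => Lm + 3 - (Lm + 3) * b y := contDiff_const.sub sF
  obtain ⟨ℓ, fℓ, dℓ⟩ := hF (fun y => Lm + 3 - (Lm + 3) * b (ψ' y)) _ (sl.comp sψ') s0 fun y => by
    refine (aN g w _ w0 w1 sl y).trans (mul_le_mul_of_nonneg_left ?_ w0.le)
    rw [nab_const_sub]
    linarith [hb₁ (dil w (ldiv g y))]
  have hu' : ∀ u : Y m → ℝ, ContDiff ℝ ∞ u → (∀ y, ‖nab u y‖ ≤ Cu) →
      ∃ u', Flat G (Cf * (w * (C₁ + C₂))) u' ∧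
        ∀ y, |u' y - u (ψ' y)| ≤ Cf * (w * (C₁ + C₂)) := fun u su hu =>
    hF (fun y => u (ψ' y)) _ (su.comp sψ') s0 fun y => by
      refine (aN g w _ w0 w1 su y).trans (mul_le_mul_of_nonneg_left ?_ w0.le)
      linarith [hu (dil w (ldiv g y))]
  rw [mul_assoc] at hw
  generalize hs : Cf * (w * (C₁ + C₂)) = s at hw fℓ dℓ hu'
  have s1 : 0 ≤ s := by rw [← hs]; positivity
  have s2 : 0 ≤ Cd * s := by positivity
  have e1 : s + Cd * s ≤ σ := by linarith [hw.trans (min_le_left _ _)]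
  have e2 : s + Cd * s ≤ 1 / 100 := by
    linarith [hw.trans ((min_le_right _ _).trans (min_le_left _ _))]
  have e3 : s + Cd * s ≤ η / 2 := by
    linarith [hw.trans ((min_le_right _ _).trans (min_le_right _ _))]
  obtain ⟨T, B', δ, f, Λ, hδ, hMast⟩ := hM ℓ (flat_mono fℓ (by linarith)) fun y => by
    have h1 := (abs_le.1 (dℓ y)).1
    have h2 : (Lm + 3) * b (ψ' y) ≤ (Lm + 3) * 1 :=
      mul_le_mul_of_nonneg_left (bI _).2 (by linarith)
    linarith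
  have hsup : ∀ y, ℓ y ≤ Lm + 2 → ψ' y ∈ tsupport b := fun y hy =>
    subset_tsupport _ fun h0 => by
      have h1 := (abs_le.1 (dℓ y)).1
      simp only [h0, mul_zero] at h1
      linarith
  have hball : ∀ y, ℓ y ≤ Lm + 1 + 1 → ‖y‖ ≤ R := fun y hy => by
    have := hR g hg _ (hsup y (by linarith))
    rwa [show mul g (dil w⁻¹ (ψ' y)) = y from ri y] at this
  have hd' := fun (u' : Y m → ℝ) (fu : Flat G s u') =>
    hD Z fl R s (Lm + 1) ℓ u' hfl (fun y hy => hZ y (by linarith)) fℓ fu s1 (by linarith) hball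
  have hd := hd' ℓ fℓ
  have hK0 : ∀ x ∈ K, ∀ t, ℓ (fl t (ψ x)) ≤ 1 / 100 := fun x hx t => by
    have h1 := (abs_le.1 (dℓ (ψ x))).2
    simp only [li, (b1 x hx).self_of_nhds] at h1
    have h2 := (abs_le.1 (hd (ψ x) (by linarith) t).1).2
    linarith
  have cfl : ∀ t, Continuous fun y => fl t (ψ y) := fun t =>
    hfl.sm.continuous.comp (continuous_const.prodMk sψ.continuous)
  obtain ⟨S, hSK⟩ := exists_time hK (F := fun t x => G (fl t (ψ x))) (c := -γ)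
    (fun t => hCR.sG.continuous.comp (cfl t))
    (fun x hx => by
      obtain ⟨t, -, ht⟩ := hesc _ (mem_image_of_mem _ hx) fun t _ =>
        hball _ (by linarith [hK0 x hx t])
      exact ⟨t, ht⟩)
    fun x hx t t' htt => by
      have := (hd (fl t (ψ x)) (by linarith [hK0 x hx t]) (t' - t)).2.2 (by linarith)
      rwa [← hfl.add, sub_add_cancel] at this
  obtain ⟨⟨M, hMκ⟩, hA2⟩ := hS S
  have hA3 := (T1.aut T1.prel m _ _ _ hA).2 _ _ _ hA2
  have hsub : {y | ℓ (ψ y) ≤ Lm + 1} ⊆ tsupport b := fun y hy => by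
    have := hsup (ψ y) (by linarith [show ℓ (ψ y) ≤ Lm + 1 from hy])
    rwa [li] at this
  refine ⟨T + M, B' + M, {y | ℓ (ψ y) ≤ Lm + 1},
    {y | G (fl S (ψ y)) < -γ ∧ ℓ (fl S (ψ y)) < 1 / 4},
    fun x => (1 * w⁻¹ ^ 2)⁻¹ * f (x.1 + κ S (ψ x.2), fl S (ψ x.2)),
    fun x => Λ (x.1 + κ S (ψ x.2), fl S (ψ x.2)), ?_, fun x hx => ⟨hSK x hx, ?_⟩, ?_⟩
  · exact (isOpen_lt (hCR.sG.continuous.comp (cfl S)) continuous_const).inter
      (isOpen_lt (fℓ.sm.continuous.comp (cfl S)) continuous_const)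
  · linarith [hK0 x hx S]
  · intro u su hu
    obtain ⟨u', fu, du⟩ := hu' u su hu
    obtain ⟨Ξ, E, hP⟩ := T1.plug m G ℓ u' γ Lm (η / 2) T B' δ f Λ hCR.sG fℓ.sm fu.sm
      (hMast u' (flat_mono fu (by linarith))) hγ hLm hδ
    obtain ⟨Ξ', E', hRaw⟩ := hTrfP m G ℓ u' u (fun y => ℓ (ψ y))
      (fun y => κ S (ψ y)) (fun y => fl S (ψ y)) γ Lm (η / 2) T B' _ M f Λ Ξ E _ U hP hA3
      (fun y => hMκ _) fu.sm su (fℓ.sm.comp sψ)
      (cb.isCompact.of_isClosed_subset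
        (isClosed_le (fℓ.sm.continuous.comp sψ.continuous) continuous_const) hsub)
      (hsub.trans tb)
      (fun y hy => by
        have h1 := (abs_le.1 (hd (fl S (ψ y)) (by linarith) (-S)).1).2
        rw [← hfl.add, neg_add_cancel, hfl.zero] at h1
        linarith)
      fun y hy => by
        have h1 := abs_le.1 (hd' u' fu (ψ y) hy S).2.1
        have h2 := abs_le.1 (du (ψ y))
        simp only [li] at h2
        rw [abs_le]
        constructor <;> linarith [h1.1, h1.2, h2.1, h2.2]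
    rw [show 2 * (η / 2) = η by ring] at hRaw
    exact ⟨Ξ', E', hRaw⟩

end Pool.Agent.MP_6d695c_gt.P
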