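import Pool.Agent.MP_6d695c_gt.p.Alg

/-! PROJECT P, row Recent: moving the centre of a flow box. -/

open scoped Manifold ContDiff Topology MeasureTheory
open Set Metric Filter Real

namespace Pool.Agent.MP_6d695c_gt.P

open SW T1 Theta

theorem recent : RecentStmt := by
  intro V _ _ m M l φ Z fl g κ a b a' b' c D N hf hB ha hb
  have e1 : exp (-c / 2) * exp (c / 2) = 1 := by rw [← exp_add, ← exp_zero]; congr 1; ring
  have e2 : exp (c / 2) * exp (-c / 2) = 1 := by rw [mul_comm, e1]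
  have e3 : exp c * exp (-c / 2) ^ 2 = 1 := by
    rw [sq, ← exp_add, ← exp_add, ← exp_zero]; congr 1; ring
  have sd : ∀ w : ℝ, ContDiff ℝ ∞ (dil w : Y m → Y m) := fun w => (Aff.dL (m := m) w).contDiff
  obtain ⟨T, hT⟩ : ∃ T : ℝ × Y m → ℝ × Y m, T = fun q => (q.1 + c, dil (exp (-c / 2)) q.2) :=
    ⟨_, rfl⟩
  have hP : Ps fl (fun y => fl c (g (dil (exp (-c / 2)) y))) = fun q => Ps fl g (T q) := by
    funext q
    rw [hT]
    exact (hf.add _ _ _).symm
  have hm : ∀ q ∈ Ioo a' b' ×ˢ (dil (exp (-c / 2)) ⁻¹' D), T q ∈ Ioo a b ×ˢ D := fun q hq => by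
    rw [hT]
    exact ⟨⟨by linarith [hq.1.1], by linarith [hq.1.2]⟩, hq.2⟩
  have dT : ∀ q, HasFDerivAt T ((ContinuousLinearMap.fst ℝ ℝ (Y m)).prod
      ((Aff.dL (exp (-c / 2))).comp (ContinuousLinearMap.snd ℝ ℝ (Y m)))) q := fun q => by
    rw [hT]
    exact (hasFDerivAt_fst.add_const c).prodMk
      (((Aff.dL (exp (-c / 2))).comp (ContinuousLinearMap.snd ℝ ℝ (Y m))).hasFDerivAt)
  have sg : ContDiff ℝ ∞ fun y => fl c (g (dil (exp (-c / 2)) y)) :=
    hf.sm.comp (contDiff_const.prodMk (hB.sg.comp (sd _)))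
  have sκ : ContDiff ℝ ∞ fun x => ((κ x).1 - c, dil (exp (c / 2)) (κ x).2) :=
    (hB.sκ.fst.sub contDiff_const).prodMk ((sd _).comp hB.sκ.snd)
  have oD : IsOpen (dil (exp (-c / 2)) ⁻¹' D) := hB.oD.preimage (sd _).continuous
  refine ⟨N ∩ {x | (κ x).1 - c ∈ Ioo a' b'}, sg, sκ, oD, ⟨isOpen_Ioo.prod oD,
    hB.par.oN.inter (isOpen_Ioo.preimage sκ.fst.continuous), (Ps_smooth hf sg).contDiffOn,
    sκ.contDiffOn, fun q hq => ?_, fun x hx hN => ?_⟩, fun q hq v => ?_, fun q hq => ?_⟩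
  · obtain ⟨h1, h2, h3⟩ := hB.par.gm _ (hm q hq)
    have h4 : (T q).1 - c = q.1 := by rw [hT]; exact add_sub_cancel_right _ _
    have h5 : dil (exp (c / 2)) (T q).2 = q.2 := by
      rw [hT]
      exact (dil_dil' _ _ _).trans (by rw [e2, dil_one'])
    rw [hP]
    refine ⟨h1, ⟨h2, ?_⟩, ?_⟩
    · rw [mem_ofPred_eq, h3, h4]
      exact hq.1
    · simp only [h3, h4, h5]
  · obtain ⟨h1, h2⟩ := hB.par.rm x hx hN.1
    have h3 : dil (exp (-c / 2)) (dil (exp (c / 2)) (κ x).2) = (κ x).2 := by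
      rw [dil_dil', e1, dil_one']
    refine ⟨⟨hN.2, ?_⟩, ?_⟩
    · rw [mem_preimage, h3]
      exact h1.2
    · rw [hP, hT]
      simp only [sub_add_cancel, h3, h2]
  · have d1 := ((Ps_smooth hf hB.sg).differentiable (by simp) (T q)).hasFDerivAt.comp q (dT q)
    have d2 : fderiv ℝ (fun q => Ps fl g (T q)) q = _ := d1.fderiv
    rw [hP, d2, ContinuousLinearMap.comp_apply, hB.form _ (hm q hq), Aff.lam0_apply,
      Aff.lam0_apply, hT]
    simp only [ContinuousLinearMap.prod_apply, ContinuousLinearMap.comp_apply,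
      ContinuousLinearMap.coe_snd', Aff.dL_apply, dil, Pi.smul_apply, smul_eq_mul, exp_add]
    have e4 : ∑ j, exp (-c / 2) * q.2.2.2 j * (exp (-c / 2) * v.2.2.1 j) =
        exp (-c / 2) ^ 2 * ∑ j, q.2.2.2 j * v.2.2.1 j := by
      rw [Finset.mul_sum]
      exact Finset.sum_congr rfl fun j _ => by ring
    rw [e4, ← mul_add, mul_assoc, ← mul_assoc (exp c), e3, one_mul]
  · rw [hP]
    exact hB.low _ (hm q hq)

end Pool.Agent.MP_6d695c_gt.P
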