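import Pool.Agent.MP_6d695c_gt.p.Alg

/-! Row Rob: a non-increasing function does not grow much along pseudo-orbits. -/

open scoped Manifold ContDiff Topology MeasureTheory
open Set Metric Filter Real

namespace Pool.Agent.MP_6d695c_gt.P

open SW T1 Theta

namespace RobAux

variable {X : Type} [NormedAddCommGroup X] [NormedSpace ℝ X]

theorem level {Z : X → X} {W : X → ℝ} {Ω : Set X} (hZ : Continuous Z) (hW : ContDiff ℝ 1 W)
    (hΩ : IsCompact Ω) {c : ℝ} (h : ∀ x ∈ Ω, W x = c → 0 < fderiv ℝ W x (Z x)) :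
    ∃ ε, 0 < ε ∧ ∀ (γ : ℝ → X) (s t : ℝ), s ≤ t → Crv Z ε γ s t → (∀ r ∈ Icc s t, γ r ∈ Ω) →
      c ≤ W (γ s) → c ≤ W (γ t) := by
  have hD : Continuous fun x => fderiv ℝ W x (Z x) :=
    (hW.continuous_fderiv one_ne_zero).clm_apply hZ
  obtain ⟨C, hC, hCb⟩ := exists_fderiv_bound hW hΩ
  have hK : IsCompact (Ω ∩ W ⁻¹' {c}) := hΩ.inter_right (isClosed_singleton.preimage hW.continuous)
  obtain ⟨m, hm, hmb⟩ := exists_pos_le hK hD.continuousOn fun x hx => h x hx.1 hx.2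
  refine ⟨m / (2 * C), by positivity, fun γ s t hst hγ hm' hc => ?_⟩
  refine fence_up (f := fun r => W (γ r)) (hW.continuous.comp_continuousOn hγ.1)
    (fun r hr e => ?_) hc t ⟨hst, le_rfl⟩
  have hr' := hm' r ⟨hr.1, hr.2.le⟩
  refine ((hγ.2 r hr).comp (hW.differentiable one_ne_zero _)).rd.mono fun a ha => ?_
  have h1 := mul_le_mul_of_nonneg_right (hCb _ hr') (show 0 ≤ m / (2 * C) by positivity)
  have h2 : C * (m / (2 * C)) = m / 2 := by field_simp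
  linarith [ha.1, hmb _ ⟨hr', e⟩]

theorem drop {Z : X → X} {W : X → ℝ} {Ω F : Set X} (hZ : Continuous Z) (hW : ContDiff ℝ 1 W)
    (hΩ : IsCompact Ω) (hF : F.Finite) (h : ∀ x ∈ Ω, x ∉ F → 0 < fderiv ℝ W x (Z x)) {δ : ℝ}
    (hδ : 0 < δ) :
    ∃ ε, 0 < ε ∧ ∀ (γ : ℝ → X) (s t : ℝ), s ≤ t → Crv Z ε γ s t → (∀ r ∈ Icc s t, γ r ∈ Ω) →
      W (γ s) - δ ≤ W (γ t) := by
  have key : ∃ ε, 0 < ε ∧ ∀ (γ : ℝ → X) (s t : ℝ), s ≤ t → Crv Z ε γ s t →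
      (∀ r ∈ Icc s t, γ r ∈ Ω) → γ s ∈ Ω → W (γ s) - δ ≤ W (γ t) := by
    refine hΩ.induction_on (p := fun S => ∃ ε, 0 < ε ∧ ∀ (γ : ℝ → X) (s t : ℝ), s ≤ t →
      Crv Z ε γ s t → (∀ r ∈ Icc s t, γ r ∈ Ω) → γ s ∈ S → W (γ s) - δ ≤ W (γ t))
      ⟨1, one_pos, fun _ _ _ _ _ _ h => h.elim⟩
      (fun S S' hS ⟨ε, h1, h2⟩ => ⟨ε, h1, fun γ s t a b c d => h2 γ s t a b c (hS d)⟩)
      (fun S S' ⟨ε, h1, h2⟩ ⟨ε', h3, h4⟩ => ⟨min ε ε', lt_min h1 h3, fun γ s t a b c d =>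
        d.elim (h2 γ s t a (Crv_sub b le_rfl le_rfl (min_le_left _ _)) c)
          (h4 γ s t a (Crv_sub b le_rfl le_rfl (min_le_right _ _)) c)⟩) fun x _ => ?_
    obtain ⟨c, hc, hcF⟩ : ∃ c ∈ Ioo (W x - δ) (W x), c ∉ W '' F :=
      (Ioo_infinite (by linarith)).exists_notMem_finite (hF.image W)
    obtain ⟨ε, h1, h2⟩ := level hZ hW hΩ (c := c) fun y hy e => h y hy fun f => hcF ⟨y, f, e⟩
    refine ⟨W ⁻¹' Ioo c (c + δ), mem_nhdsWithin_of_mem_nhds (hW.continuous.continuousAt.preimage_mem_nhds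
      (Ioo_mem_nhds hc.2 (by linarith [hc.1]))), ε, h1, fun γ s t a b c' d => ?_⟩
    linarith [h2 γ s t a b c' d.1.le, d.2]
  obtain ⟨ε, h1, h2⟩ := key
  exact ⟨ε, h1, fun γ s t a b c => h2 γ s t a b c (c s ⟨le_rfl, a⟩)⟩

theorem fin {Z : X → X} {Λ : X → ℝ} {Ω : Set X} (hΩ : IsCompact Ω)
    (h : ∀ x ∈ Ω, Ly univ Z Λ x) (hD : Continuous fun x => fderiv ℝ Λ x (Z x)) :
    ∃ F : Set X, F.Finite ∧ ∀ x ∈ Ω, x ∉ F → 0 < fderiv ℝ Λ x (Z x) := by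
  obtain ⟨T, -, hT⟩ := hΩ.elim_nhds_subcover
    (fun p => {x | x ≠ p → 0 < fderiv ℝ Λ x (Z x)}) fun p hp => by
      rcases h p hp with h | ⟨u, ⟨-, -, -, c, hc, h1⟩, h2⟩
      · filter_upwards [hD.continuousAt.eventually (lt_mem_nhds h)] with x hx _ using hx
      · rw [nhdsWithin_univ] at h1 h2
        filter_upwards [h1, h2] with x a b e
        have := norm_pos_iff.2 (sub_ne_zero.2 e)
        exact lt_of_lt_of_le (by positivity) (a.trans b)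
  refine ⟨T, T.finite_toSet, fun x hx hn => ?_⟩
  obtain ⟨p, hp, hxp⟩ := mem_iUnion₂.1 (hT hx)
  exact hxp fun e => hn (e ▸ hp)

end RobAux

theorem rob : RobStmt := by
  intro X _ _ _ Z Λ u Ω δ hZ hΛ hu hΩ hL hle hδ
  have hΛ1 : ContDiff ℝ 1 Λ := hΛ.of_le (by exact_mod_cast le_top)
  have hu1 : ContDiff ℝ 1 u := hu.of_le (by exact_mod_cast le_top)
  obtain ⟨F, hF, hpos⟩ := RobAux.fin hΩ hL
    ((hΛ1.continuous_fderiv one_ne_zero).clm_apply hZ.continuous)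
  obtain ⟨B, hB⟩ := hΩ.exists_bound_of_continuousOn hΛ.continuous.continuousOn
  obtain ⟨a, ha⟩ : ∃ a, a = δ / (4 * (|B| + 1)) := ⟨_, rfl⟩
  have ha0 : 0 < a := by rw [ha]; positivity
  have ha1 : a * (|B| + 1) = δ / 4 := by rw [ha]; field_simp
  obtain ⟨ε, h1, h2⟩ := RobAux.drop (W := fun x => a * Λ x - u x) hZ.continuous
    ((contDiff_const.mul hΛ1).sub hu1) hΩ hF (fun x hx hn => by
      rw [(((hΛ1.differentiable one_ne_zero x).hasFDerivAt.const_mul a).fun_sub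
        (hu1.differentiable one_ne_zero x).hasFDerivAt).fderiv]
      have := mul_pos ha0 (hpos x hx hn)
      simp only [sub_apply, smul_apply, smul_eq_mul]
      linarith [hle x hx]) (half_pos hδ)
  refine ⟨ε, h1, fun γ s t hst hγ hm => ?_⟩
  have e := h2 γ s t hst hγ hm
  have b1 := abs_le.1 ((hB _ (hm s ⟨le_rfl, hst⟩)).trans (le_abs_self B))
  have b2 := abs_le.1 ((hB _ (hm t ⟨hst, le_rfl⟩)).trans (le_abs_self B))
  nlinarith [mul_le_mul_of_nonneg_left b1.1 ha0.le, mul_le_mul_of_nonneg_left b2.2 ha0.le]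

end Pool.Agent.MP_6d695c_gt.P
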