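import Pool.Agent.MP_6d695c_gt.p.Alg

/-! PROJECT P, row SBOX: a short flow box through a regular point. -/

open scoped Manifold ContDiff Topology MeasureTheory
open Set Metric Filter Real

namespace Pool.Agent.MP_6d695c_gt.P

open SW T1 Theta

namespace SBoxAux

/-- a strict automorphism of the model that shifts the height by `c` -/
theorem autA (m : ℕ) (c : ℝ) : ∃ α β : Y m → Y m,
    Aut 1 (fun x : ℝ × Y m => (x.1 + c, α x.2)) fun x => (x.1 - c, β x.2) := by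
  have h1 := (T1.aff m).1 c
  have h2 := (T1.aff m).2.1 0 (exp (c / 2)) (exp_pos _)
  have h3 := (T1.aut T1.prel m _ _ _ h1).2 _ _ _ h2
  have e : (exp (c / 2))⁻¹ ^ 2 * exp c = 1 := by
    rw [← exp_neg, ← exp_nat_mul, ← exp_add, ← exp_zero]
    congr 1
    push_cast
    ring
  rw [e] at h3
  exact ⟨fun y => mul 0 (dil (exp (c / 2))⁻¹ y), fun y => dil (exp (c / 2)) (ldiv 0 y), h3⟩

variable {V E : Type} [NormedAddCommGroup V] [NormedSpace ℝ V] [NormedAddCommGroup E]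
  [NormedSpace ℝ E] {m : ℕ} {M N : Set V} {l : V → V →L[ℝ] ℝ}
  {Pi : V → (V →L[ℝ] ℝ) →L[ℝ] V} {φ : V → ℝ} {s : ℝ} {Ψ : ℝ × Y m → V} {κ : V → ℝ × Y m}
  {O : Set (ℝ × Y m)}

/-- in the chart the Liouville field is the first coordinate field -/
theorem fld (hA : Amb E M l Pi φ s) (hP : Par M Ψ κ O N)
    (hf : ∀ q ∈ O, ∀ v, l (Ψ q) (fderiv ℝ Ψ q v) = lam0 q v) {q : ℝ × Y m} (hq : q ∈ O) :
    fderiv ℝ Ψ q (1, 0) = Pi (Ψ q) (l (Ψ q)) := by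
  have h := (T1.prel (ℝ × Y m) V (ℝ × Y m) E univ O M lam0 _ l Pi Ψ 1 q (T1.model m).1
    (smp_of_amb hA) hP.oO hq trivial hP.sg
    (fun x _ hx => ⟨(hP.gm x hx).1, fun v _ => by rw [hf x hx, one_mul]⟩)
    (fun w hw => by
      rw [hP.tg hq] at hw
      obtain ⟨v, hv⟩ := hw
      exact ⟨v, tg_univ _ _, hv⟩)).2
  have h1 := (T1.model m).2.1 q
  rw [← h, ← h1]
  rfl

end SBoxAux

open SBoxAux

theorem sbox (hDarbN : DarbNStmt) : SBoxStmt := by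
  intro V _ _ _ m M l Pi φ Z fl x hA hC hx hφ hZ
  obtain ⟨Ψ, κ₀, O₀, N₀, hP₀, hxN₀, hf₀⟩ := hDarbN V m M l Pi φ _ hA x hx
    (by rwa [← hC.eq x hx (by linarith)])
  obtain ⟨κ, O₁, N₁, hP₁, hκ, hxN₁, -, hO₁, -⟩ := hP₀.global hx hxN₀
  have hOo : IsOpen (O₁ ∩ (fun q => φ (Ψ q)) ⁻¹' Iio 1) :=
    (hA.sφ.continuous.comp_continuousOn hP₁.sg.continuousOn).isOpen_inter_preimage hP₁.oO
      isOpen_Iio
  obtain ⟨hq₀, hΨ₀⟩ := hP₁.rm x hx hxN₁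
  have hq₀' : κ x ∈ O₁ ∩ (fun q => φ (Ψ q)) ⁻¹' Iio 1 := ⟨hq₀, by
    change φ (Ψ (κ x)) < 1
    rwa [hΨ₀]⟩
  obtain ⟨a, ha, hball⟩ := Metric.isOpen_iff.1 hOo _ hq₀'
  have hin : ∀ t z, |t - (κ x).1| < a → z ∈ ball (κ x).2 a →
      (t, z) ∈ O₁ ∧ φ (Ψ (t, z)) < 1 := fun t z ht hz => by
    refine hball ?_
    rw [← ball_prod_same]
    exact ⟨by rwa [mem_ball, Real.dist_eq], hz⟩
  have hflow : ∀ τ z, |τ| < a → z ∈ ball (κ x).2 a →
      Ψ (τ + (κ x).1, z) = fl τ (Ψ ((κ x).1, z)) := fun τ z hτ hz => by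
    have h := hC.flow.eq_of (c := fun t => Ψ (t, z)) (a := (κ x).1) (b := τ + (κ x).1)
      fun t ht => by
        have h1 : |t - (κ x).1| < a := by
          have := abs_sub_left_of_mem_uIcc ht
          rw [add_sub_cancel_right] at this
          exact this.trans_lt hτ
        obtain ⟨h2, h3⟩ := hin t z h1 hz
        have h4 : HasDerivAt (fun t : ℝ => (t, z)) ((1 : ℝ), (0 : Y m)) t :=
          (hasDerivAt_id t).prodMk (hasDerivAt_const t z)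
        have h5 := (hP₁.dg h2).hasFDerivAt.comp_hasDerivAt t h4
        rw [fld hA hP₁ (fun q hq => hf₀ q (hO₁ hq)) h2,
          ← hC.eq _ (hP₁.gm _ h2).1 (by linarith)] at h5
        exact h5
    rwa [add_sub_cancel_right] at h
  obtain ⟨α, β, hau⟩ := autA m (κ x).1
  have hα : ContDiff ℝ ∞ α :=
    (hau.sA.comp ((contDiff_const (c := (0 : ℝ))).prodMk contDiff_id)).snd
  have hαβ : ∀ z, α (β z) = z := fun z => congrArg Prod.snd (hau.ri (0, z))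
  have hU : IsOpen (α ⁻¹' ball (κ x).2 a) := isOpen_ball.preimage hα.continuous
  have hy₀ : β (κ x).2 ∈ α ⁻¹' ball (κ x).2 a := by
    rw [mem_preimage, hαβ]
    exact mem_ball_self ha
  obtain ⟨b, hb, -, hs, h1, -⟩ := exists_cut (isCompact_singleton (x := β (κ x).2)) hU
    (singleton_subset_iff.2 hy₀)
  obtain ⟨U, hUb, hUo, hyU⟩ := _root_.eventually_nhds_iff.1 (h1 _ rfl)
  have hg : ContDiff ℝ ∞ fun y => b y • Ψ ((κ x).1, α y) :=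
    contDiff_cut_smul hU hb hs (hP₁.sg.comp (contDiff_const.prodMk hα).contDiffOn
      fun y hy => (hin _ _ (by simpa using ha) hy).1)
  have hD : IsOpen (α ⁻¹' ball (κ x).2 a ∩ U) := hU.inter hUo
  have hbox : IsOpen (Ioo (-a) a ×ˢ (α ⁻¹' ball (κ x).2 a ∩ U)) := isOpen_Ioo.prod hD
  have hmem : ∀ q ∈ Ioo (-a) a ×ˢ (α ⁻¹' ball (κ x).2 a ∩ U),
      (q.1 + (κ x).1, α q.2) ∈ O₁ ∧ φ (Ψ (q.1 + (κ x).1, α q.2)) < 1 := fun q hq =>
    hin _ _ (by rw [add_sub_cancel_right]; exact abs_lt.2 hq.1) hq.2.1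
  have hPs : ∀ q ∈ Ioo (-a) a ×ˢ (α ⁻¹' ball (κ x).2 a ∩ U),
      Ps fl (fun y => b y • Ψ ((κ x).1, α y)) q = Ψ (q.1 + (κ x).1, α q.2) := fun q hq => by
    rw [hflow _ _ (abs_lt.2 hq.1) hq.2.1, Ps, hUb _ hq.2.2, one_smul]
  have hκ' : ContDiff ℝ ∞ fun p => (((κ p).1 - (κ x).1, β (κ p).2) : ℝ × Y m) := hau.sA'.comp hκ
  refine ⟨fun y => b y • Ψ ((κ x).1, α y), fun p => ((κ p).1 - (κ x).1, β (κ p).2), a,
    α ⁻¹' ball (κ x).2 a ∩ U, N₁ ∩ (fun p => (((κ p).1 - (κ x).1, β (κ p).2) : ℝ × Y m)) ⁻¹'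
      (Ioo (-a) a ×ˢ (α ⁻¹' ball (κ x).2 a ∩ U)), β (κ x).2, ha,
    ⟨hg, hκ', hD, ⟨hbox, hP₁.oN.inter (hbox.preimage hκ'.continuous),
      (Ps_smooth hC.flow hg).contDiffOn, hκ'.contDiffOn, fun q hq => ?_, fun p hp hp' => ?_⟩,
      fun q hq v => ?_, fun q hq => ?_⟩, ⟨hy₀, hyU⟩, ?_⟩
  · obtain ⟨e1, e2, e3⟩ := hP₁.gm _ (hmem q hq).1
    have e4 : (((κ (Ψ (q.1 + (κ x).1, α q.2))).1 - (κ x).1,
        β (κ (Ψ (q.1 + (κ x).1, α q.2))).2) : ℝ × Y m) = q := by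
      rw [e3]
      exact hau.li q
    rw [hPs q hq]
    exact ⟨e1, ⟨e2, by rw [mem_preimage, e4]; exact hq⟩, e4⟩
  · refine ⟨hp'.2, ?_⟩
    rw [hPs _ hp'.2]
    have e := hau.ri (κ p)
    beta_reduce at e
    rw [e]
    exact (hP₁.rm p hp hp'.1).2
  · have e : Ps fl (fun y => b y • Ψ ((κ x).1, α y)) =ᶠ[𝓝 q]
        Ψ ∘ fun q : ℝ × Y m => (q.1 + (κ x).1, α q.2) := by
      filter_upwards [hbox.mem_nhds hq] with q' hq' using hPs q' hq'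
    have d := (hP₁.dg (hmem q hq).1).hasFDerivAt.comp q
      (hau.sA.differentiable (by simp) q).hasFDerivAt
    rw [e.fderiv_eq, d.fderiv, hPs q hq, ContinuousLinearMap.comp_apply,
      hf₀ _ (hO₁ (hmem q hq).1), hau.form, one_mul]
  · rw [hPs q hq]
    exact (hmem q hq).2
  · change b (β (κ x).2) • Ψ ((κ x).1, α (β (κ x).2)) = x
    rw [hUb _ hyU, one_smul, hαβ]
    exact hΨ₀

end Pool.Agent.MP_6d695c_gt.P
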