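import Pool.Agent.MP_6d695c_gt.p.Alg
import Mathlib.Topology.MetricSpace.HausdorffDimension

/-! PROJECT P, row ShN: degenerate sheets are thin. -/

open scoped Manifold ContDiff Topology MeasureTheory NNReal
open Set Metric Filter Real

namespace Pool.Agent.MP_6d695c_gt.P

open SW T1 Theta

namespace ShNAux

variable {m : ℕ}

/-- the complex structure as a linear map -/
def JL (m : ℕ) : Hor m →ₗ[ℝ] Hor m where
  toFun := JH
  map_add' u v := by simp only [JH, Prod.fst_add, Prod.snd_add, Prod.mk_add_mk, neg_add]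
  map_smul' c u := by
    simp only [JH, Prod.smul_fst, Prod.smul_snd, Prod.smul_mk, RingHom.id_apply, smul_neg]

theorem eq_zero_of_om {a b : Hor m} (h : a + JH b = 0) (ho : om a b = 0) : b = 0 := by
  have ha : a = -JH b := eq_neg_of_add_eq_zero_left h
  have e : om a b = ∑ j, (b.1 j ^ 2 + b.2 j ^ 2) := by
    rw [ha]
    refine Finset.sum_congr rfl fun j _ => ?_
    simp only [JH, Prod.neg_mk, neg_neg, Pi.neg_apply]
    ring
  rw [e, Finset.sum_eq_zero_iff_of_nonneg fun j _ => by positivity] at ho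
  have h1 : ∀ j, b.1 j = 0 ∧ b.2 j = 0 := fun j => by
    have := ho j (Finset.mem_univ j)
    constructor <;> nlinarith [sq_nonneg (b.1 j), sq_nonneg (b.2 j)]
  exact Prod.ext (funext fun j => (h1 j).1) (funext fun j => (h1 j).2)

theorem rank_le {A : Hor m →L[ℝ] Hor m} (hA : Sym A 0) :
    Module.finrank ℝ (LinearMap.range (A : Hor m →ₗ[ℝ] Hor m)) ≤ m := by
  set W := LinearMap.range (A : Hor m →ₗ[ℝ] Hor m) with hW
  have hinj : Function.Injective (W.subtype.coprod ((JL m).comp W.subtype)) := by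
    rw [injective_iff_map_eq_zero]
    rintro ⟨⟨a, u, hu⟩, ⟨b, v, hv⟩⟩ h
    have h' : a + JH b = 0 := h
    have ho : om a b = 0 := by
      rw [← hu, ← hv]
      exact (hA u v).trans (zero_mul _)
    have hb : b = 0 := eq_zero_of_om h' ho
    have ha : a = 0 := by
      have e : JH (0 : Hor m) = 0 := (JL m).map_zero
      rwa [hb, e, add_zero] at h'
    exact Prod.ext (Subtype.ext ha) (Subtype.ext hb)
  have := LinearMap.finrank_le_finrank_of_injective hinj
  simp only [Module.finrank_prod, Module.finrank_fin_fun] at this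
  omega

end ShNAux

theorem shN : ShNStmt := by
  intro m R g A hA
  set W := LinearMap.range (A : Hor m →ₗ[ℝ] Hor m) with hW
  let φ : W → Y m := fun x => g + Lt g (-hq (x : Hor m), (x : Hor m))
  have hφ : ContDiff ℝ 1 φ := by
    have h1 : ContDiff ℝ 1 (hq (m := m)) := (hq_smooth (m := m)).of_le (by simp)
    have h2 : ContDiff ℝ 1 (fun x : W => (x : Hor m)) := W.subtypeL.contDiff
    exact contDiff_const.add ((Lt g).contDiff.comp ((h1.comp h2).neg.prodMk h2))
  have hs : Sh R (g, A, 0) ⊆ range φ := by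
    rintro _ ⟨y, -, rfl⟩
    refine ⟨⟨A y.2, y.2, rfl⟩, ?_⟩
    simp only [φ, mul, hom, zero_mul, zero_sub]
  have hd : dimH (Sh R (g, A, 0)) < ((m + 1 : ℝ≥0) : ENNReal) := by
    refine ((dimH_mono hs).trans hφ.dimH_range_le).trans_lt ?_
    have := ShNAux.rank_le hA
    have h2 : Module.finrank ℝ W < m + 1 := Nat.lt_succ_of_le this
    exact_mod_cast h2
  have := hausdorffMeasure_of_dimH_lt hd
  simpa using this

end Pool.Agent.MP_6d695c_gt.P
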