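import Pool.Agent.MP_6d695c_gt.p.Alg

/-! PROJECT P, row Shad: short pseudo-orbits stay near true orbits. -/

open scoped Manifold ContDiff Topology MeasureTheory
open Set Metric Filter Real

namespace Pool.Agent.MP_6d695c_gt.P

open SW T1 Theta

namespace ShadAux

variable {V : Type} [NormedAddCommGroup V] [NormedSpace ℝ V] {Z : V → V} {fl : ℝ → V → V}

theorem kill (hf : IsFlow Z fl) (r : ℝ) (x : V) :
    fderiv ℝ (fun q : ℝ × V => fl q.1 q.2) (r, x) (-1, Z x) = 0 := by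
  have hd : DifferentiableAt ℝ (fun q : ℝ × V => fl q.1 q.2) (r - 0, fl 0 x) :=
    hf.sm.differentiable (by simp) _
  have h1 : HasDerivAt (fun σ : ℝ => ((r - σ, fl σ x) : ℝ × V)) (-1, Z (fl 0 x)) 0 :=
    ((hasDerivAt_id (0 : ℝ)).const_sub r).prodMk (hf.der x 0)
  have h2 := hd.hasFDerivAt.comp_hasDerivAt (0 : ℝ) h1
  have h3 : ((fun q : ℝ × V => fl q.1 q.2) ∘ fun σ : ℝ => ((r - σ, fl σ x) : ℝ × V)) =
      fun _ => fl r x := by
    funext σ
    simp only [Function.comp]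
    rw [← hf.add, sub_add_cancel]
  rw [h3] at h2
  have h4 := h2.unique (hasDerivAt_const (0 : ℝ) (fl r x))
  simpa [hf.zero] using h4

theorem near (hf : IsFlow Z fl) {c : ℝ → V} {t τ ε C : ℝ} (h : Near c τ (Z (c τ)) ε)
    (hC : ‖fderiv ℝ (fun q : ℝ × V => fl q.1 q.2) (t - τ, c τ)‖ ≤ C) :
    Near (fun σ => fl (t - σ) (c σ)) τ 0 (C * ε) := by
  obtain ⟨v, h1, h2⟩ := h
  have hd : DifferentiableAt ℝ (fun q : ℝ × V => fl q.1 q.2) (t - τ, c τ) :=
    hf.sm.differentiable (by simp) _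
  have h3 : HasDerivWithinAt (fun σ : ℝ => ((t - σ, c σ) : ℝ × V)) (-1, v) (Ici τ) τ :=
    ((hasDerivAt_id τ).const_sub t).hasDerivWithinAt.prodMk h1
  have h6 := HasFDerivAt.comp_hasDerivWithinAt (l := fun q : ℝ × V => fl q.1 q.2)
    (f := fun σ : ℝ => ((t - σ, c σ) : ℝ × V)) τ hd.hasFDerivAt h3
  refine ⟨_, h6, ?_⟩
  have h4 : ((-1, v) : ℝ × V) = (-1, Z (c τ)) + (0, v - Z (c τ)) := by simp
  rw [sub_zero, h4, map_add, kill hf, zero_add]
  refine (ContinuousLinearMap.le_opNorm _ _).trans ?_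
  have h5 : ‖((0, v - Z (c τ)) : ℝ × V)‖ ≤ ε := by
    simpa [Prod.norm_def] using h2
  exact mul_le_mul hC h5 (norm_nonneg _) ((norm_nonneg _).trans hC)

end ShadAux

theorem shad : ShadStmt := by
  intro V _ _ _ Z fl D L δ hf hD hδ
  have hc : Continuous (fderiv ℝ fun q : ℝ × V => fl q.1 q.2) := hf.sm.continuous_fderiv (by simp)
  obtain ⟨C, hC⟩ := ((isCompact_Icc (a := -L) (b := L)).prod hD).exists_bound_of_continuousOn
    hc.continuousOn
  have hp : 0 < (|C| + 1) * (|L| + 1) := by positivity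
  refine ⟨δ / ((|C| + 1) * (|L| + 1)), div_pos hδ hp, fun c a b hab hcc hn hm s hs t ht => ?_⟩
  set ε := δ / ((|C| + 1) * (|L| + 1)) with hε
  have hε0 : 0 < ε := div_pos hδ hp
  have key : ∀ x ∈ Icc a b, ∀ y ∈ Icc a b, x ≤ y →
      ‖fl (t - y) (c y) - fl (t - x) (c x)‖ ≤ δ := by
    intro x hx y hy hxy
    have h1 : ContinuousOn (fun σ => fl (t - σ) (c σ)) (Icc x y) :=
      hf.sm.continuous.comp_continuousOn (f := fun σ : ℝ => ((t - σ, c σ) : ℝ × V))
        ((continuousOn_const.sub continuousOn_id).prodMk (hcc.mono (Icc_subset_Icc hx.1 hy.2)))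
    have h2 := drift (m := (|C| + 1) * ε) hxy h1 fun τ hτ => by
      have hτ' : τ ∈ Ioo a b := ⟨hx.1.trans_lt hτ.1, hτ.2.trans_le hy.2⟩
      refine ShadAux.near hf (hn τ hτ') ((hC _ ⟨⟨?_, ?_⟩, hm τ (Ioo_subset_Icc_self hτ')⟩).trans ?_)
      · linarith [ht.1, hτ'.2]
      · linarith [ht.2, hτ'.1]
      · linarith [le_abs_self C]
    refine h2.trans ?_
    have h3 : y - x ≤ |L| + 1 := by linarith [hx.1, hy.2, le_abs_self L]
    calc (|C| + 1) * ε * (y - x) ≤ (|C| + 1) * ε * (|L| + 1) := by gcongr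
      _ = δ := by rw [hε]; field_simp
  rcases le_total s t with h | h
  · simpa [hf.zero] using key s hs t ht h
  · have := key t ht s hs h
    rw [norm_sub_rev] at this
    simpa [hf.zero] using this

end Pool.Agent.MP_6d695c_gt.P
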