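import Pool.Agent.MP_6d695c_gt.p.Alg

/-! PROJECT P, row Sheet: the image of a cell is close to a sheet. -/

open scoped Manifold ContDiff Topology MeasureTheory
open Set Metric Filter Real

namespace Pool.Agent.MP_6d695c_gt.P

open SW T1 Theta

namespace SheetAux

variable {m : ℕ}

theorem hq_sub_le (u v : Hor m) : |hq u - hq v| ≤ m * ((‖u‖ + ‖v‖) * ‖u - v‖) := by
  have e : hq u - hq v = (∑ j, (u - v).1 j * u.2 j + ∑ j, v.1 j * (u - v).2 j) / 2 := by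
    simp only [hq, Prod.fst_sub, Prod.snd_sub, Pi.sub_apply, sub_mul, mul_sub,
      Finset.sum_sub_distrib]
    ring
  have h1 := sum_le (u - v).1 u.2
  have h2 := sum_le v.1 (u - v).2
  have h3 : ‖(u - v).1‖ * ‖u.2‖ ≤ ‖u - v‖ * ‖u‖ :=
    mul_le_mul (norm_fst_le _) (norm_snd_le _) (norm_nonneg _) (norm_nonneg _)
  have h4 : ‖v.1‖ * ‖(u - v).2‖ ≤ ‖v‖ * ‖u - v‖ :=
    mul_le_mul (norm_fst_le _) (norm_snd_le _) (norm_nonneg _) (norm_nonneg _)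
  have h5 : (m : ℝ) * (‖(u - v).1‖ * ‖u.2‖) ≤ m * (‖u - v‖ * ‖u‖) := by gcongr
  have h6 : (m : ℝ) * (‖v.1‖ * ‖(u - v).2‖) ≤ m * (‖v‖ * ‖u - v‖) := by gcongr
  have h7 := abs_add_le (∑ j, (u - v).1 j * u.2 j) (∑ j, v.1 j * (u - v).2 j)
  have h8 := abs_nonneg (∑ j, (u - v).1 j * u.2 j + ∑ j, v.1 j * (u - v).2 j)
  rw [e, abs_div, abs_two]
  nlinarith

/-- the homomorphisms are Lipschitz on bounded sets -/
theorem hom_sub_le {D : Hor m →L[ℝ] Hor m} {C W δ : ℝ} {a b : Y m} (hD : ‖D‖ ≤ C) (hC : 1 ≤ C)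
    (hW : ‖a.2‖ + ‖b.2‖ ≤ W) (hδ : ‖a - b‖ ≤ δ) :
    ‖hom D 1 a - hom D 1 b‖ ≤ (1 + 2 * m * W) * C ^ 2 * δ := by
  have d0 : 0 ≤ δ := (norm_nonneg _).trans hδ
  have w0 : 0 ≤ W := le_trans (by positivity) hW
  have c2 : 1 ≤ C ^ 2 := one_le_pow₀ hC
  have a1 : |a.1 - b.1| ≤ δ := (norm_fst_le (a - b)).trans hδ
  have a2 : ‖a.2 - b.2‖ ≤ δ := (norm_snd_le (a - b)).trans hδ
  have a3 : ‖D a.2 - D b.2‖ ≤ C * δ := by
    rw [← map_sub]
    exact (D.le_opNorm _).trans (by gcongr)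
  have a4 : ‖D a.2‖ + ‖D b.2‖ ≤ C * W := by
    have h1 : ‖D a.2‖ ≤ C * ‖a.2‖ := (D.le_opNorm _).trans (by gcongr)
    have h2 : ‖D b.2‖ ≤ C * ‖b.2‖ := (D.le_opNorm _).trans (by gcongr)
    nlinarith
  have a5 : |hq a.2 - hq b.2| ≤ m * (W * δ) := (hq_sub_le _ _).trans (by gcongr)
  have a6 : |hq (D a.2) - hq (D b.2)| ≤ m * (C * W * (C * δ)) :=
    (hq_sub_le _ _).trans (by gcongr)
  have a7 : 0 ≤ (m : ℝ) * (W * δ) := by positivity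
  have a8 : (m : ℝ) * (W * δ) ≤ m * (W * δ) * C ^ 2 := le_mul_of_one_le_right a7 c2
  have a9 : δ ≤ C ^ 2 * δ := le_mul_of_one_le_left d0 c2
  refine max_le ?_ ?_
  · change |1 * (a.1 + hq a.2) - hq (D a.2) - (1 * (b.1 + hq b.2) - hq (D b.2))| ≤ _
    rw [show 1 * (a.1 + hq a.2) - hq (D a.2) - (1 * (b.1 + hq b.2) - hq (D b.2)) =
      (a.1 - b.1) + (hq a.2 - hq b.2) - (hq (D a.2) - hq (D b.2)) by ring]
    refine (abs_sub _ _).trans ?_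
    have := abs_add_le (a.1 - b.1) (hq a.2 - hq b.2)
    nlinarith
  · change ‖D a.2 - D b.2‖ ≤ _
    have : C * δ ≤ C ^ 2 * δ := by gcongr; nlinarith
    nlinarith

theorem mul_sub_le (g a b : Y m) : ‖mul g a - mul g b‖ ≤ (1 + m * ‖g‖) * ‖a - b‖ := by
  have e : mul g a - mul g b = Lt g (a - b) := by
    simp only [mul, map_sub]
    abel
  rw [e]
  exact norm_Lt_le _ _

theorem hA_le {C f : ℝ} {h : Y m → Y m} {y : Y m} (hC : 1 ≤ C) (hc : Ctc C h y f) (u : Hor m) :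
    ‖hA h y u‖ ≤ (1 + m) * C ^ 2 * ‖u‖ := by
  have h1 : ‖fderiv ℝ h y‖ ≤ C := (hc.b1 y (by simp; linarith)).1
  have h2 : ‖Lt y ((0 : ℝ), u)‖ ≤ (1 + m * C) * ‖u‖ := by
    refine (norm_Lt_le _ _).trans ?_
    have : ‖(((0 : ℝ), u) : Y m)‖ = ‖u‖ := by simp [Prod.norm_def]
    rw [this]
    gcongr
    exact hc.b0.1
  have h3 : ‖hA h y u‖ ≤ C * ((1 + m * C) * ‖u‖) :=
    (norm_snd_le (fderiv ℝ h y (Lt y ((0 : ℝ), u)))).trans
      (((fderiv ℝ h y).le_opNorm _).trans (by gcongr))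
  refine h3.trans ?_
  have h4 : C * (1 + m * C) ≤ (1 + m) * C ^ 2 := by nlinarith
  rw [← mul_assoc]
  gcongr

end SheetAux

open SheetAux in
theorem sheet (hBlow : BlowStmt) (hSymH : SymHStmt) : SheetStmt := by
  intro m Cb R
  obtain ⟨C₁, k, hC₁, hB⟩ := hBlow m
  obtain ⟨R₁, hR, hR₁⟩ : ∃ R₁ : ℝ, R ≤ R₁ ∧ 1 ≤ R₁ := ⟨max R 1, le_max_left _ _, le_max_right _ _⟩
  obtain ⟨b, hb, hb₁⟩ : ∃ b : ℝ, Cb ≤ b ∧ 1 ≤ b := ⟨max Cb 1, le_max_left _ _, le_max_right _ _⟩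
  have m0 : (0 : ℝ) ≤ m := Nat.cast_nonneg m
  set N : ℝ := (1 + m * R₁) * (b * R₁ + 2 * m * (b * R₁) ^ 2) with hN
  have N0 : 0 ≤ N := by positivity
  refine ⟨R₁ + b + 1 + N, by linarith, fun κ hκ => ?_⟩
  obtain ⟨κ₁, k0, k1, k2⟩ : ∃ κ₁ : ℝ, 0 < κ₁ ∧ κ₁ ≤ κ ∧ κ₁ ≤ 1 :=
    ⟨min κ 1, lt_min hκ one_pos, min_le_left _ _, min_le_right _ _⟩
  set L : ℝ := (1 + m * R₁) * (1 + 6 * m * (1 + m) * R₁) with hL
  have L1 : 1 ≤ L := one_le_mul_of_one_le_of_one_le (le_add_of_nonneg_right (by positivity))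
    (le_add_of_nonneg_right (by positivity))
  set Q : ℝ := (1 + 2 * m) * R₁ ^ 2 with hQ
  have Q1 : 1 ≤ Q := one_le_mul_of_one_le_of_one_le (by linarith) (one_le_pow₀ hR₁)
  refine ⟨C₁ * Q ^ k * L / κ₁, 3 * k + 5, ?_, ?_⟩
  · rw [le_div_iff₀ k0, one_mul]
    exact k2.trans (one_le_mul_of_one_le_of_one_le
      (one_le_mul_of_one_le_of_one_le hC₁ (one_le_pow₀ Q1)) L1)
  intro C s f f₀ h y y' c B B' D' hC hs hsm hc f0 f1 f2 sB ri sD nB nD nA e1 e2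
  have sA := hSymH m C f h y hC hc
  set η := eta s y B' y' with hη
  set g := eta s c D' (h y) with hg
  set A := hA h y with hAd
  have η1 : ‖η‖ ≤ R₁ := e1.trans hR
  have g1 : ‖g‖ ≤ R₁ := e2.trans hR
  have c5 : 1 ≤ C ^ 5 := one_le_pow₀ hC
  have hy' : mul y (dil s (hom B 1 η)) = y' := by
    rw [← hom_dil]
    exact zeta_eta hs.ne' ri y y'
  have ξ1 : ‖hom B 1 η‖ ≤ Q * C ^ 2 := by
    refine (norm_hom_le nB hC zero_le_one le_rfl η1).trans ?_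
    have h1 : 1 ≤ C * R₁ := one_le_mul_of_one_le_of_one_le hC hR₁
    rw [hQ]
    nlinarith
  set δ : ℝ := κ₁ / (L * C ^ 5) with hδ
  have LC : 1 ≤ L * C ^ 5 := one_le_mul_of_one_le_of_one_le L1 c5
  have δ0 : 0 ≤ δ := by positivity
  have δ1 : δ ≤ 1 := (div_le_self k0.le LC).trans k2
  have hw := hB C (Q * C ^ 2) s δ f h y (hom B 1 η) hC
    (one_le_mul_of_one_le_of_one_le Q1 (one_le_pow₀ hC)) hs δ1 (by
      rw [hδ, le_div_iff₀ (by positivity)]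
      rw [div_mul_eq_mul_div, div_mul_eq_mul_div, div_le_one k0] at hsm
      refine le_trans (le_of_eq ?_) hsm
      rw [show C * (Q * C ^ 2) = Q * C ^ 3 by ring, mul_pow, ← pow_mul, pow_add]
      ring) hc ξ1
  rw [hy'] at hw
  set w := dil s⁻¹ (ldiv (h y) (h y')) with hwd
  set w₀ := hom A f (hom B 1 η) with hw₀
  have e3 : eta s c D' (h y') = mul g (hom D' 1 w) := by
    rw [hg, ← eta_mul hs.ne' sD, hwd, dil_dil', mul_inv_cancel₀ hs.ne', dil_one', mul_ldiv']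
  have e4 : hom (D'.comp (A.comp B)) f η = hom D' 1 w₀ := by
    rw [hw₀, hom_hom, hom_hom, one_mul, mul_one]
    rfl
  have w1 : ‖w₀.2‖ ≤ (1 + m) * C ^ 3 * R₁ := by
    have h1 : ‖B η.2‖ ≤ C * R₁ :=
      (B.le_opNorm _).trans (by gcongr; exact (norm_snd_le η).trans η1)
    refine (hA_le hC hc (B η.2)).trans ?_
    calc (1 + m) * C ^ 2 * ‖B η.2‖ ≤ (1 + m) * C ^ 2 * (C * R₁) := by gcongr
      _ = _ := by ring
  have w2 : ‖w.2‖ ≤ ‖w₀.2‖ + 1 := by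
    have h1 : ‖w.2 - w₀.2‖ ≤ 1 := ((norm_snd_le (w - w₀)).trans hw).trans δ1
    have h2 := norm_sub_norm_le w.2 w₀.2
    linarith
  have c3 : 1 ≤ C ^ 3 := one_le_pow₀ hC
  have w3 : 1 ≤ (1 + m) * C ^ 3 * R₁ :=
    one_le_mul_of_one_le_of_one_le (one_le_mul_of_one_le_of_one_le (by linarith) c3) hR₁
  have w4 := hom_sub_le (W := 3 * ((1 + m) * C ^ 3 * R₁)) nD hC (by linarith) hw
  have main : ‖eta s c D' (h y') - mul g (hom (D'.comp (A.comp B)) f η)‖ ≤ κ₁ := by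
    rw [e3, e4]
    refine (mul_sub_le _ _ _).trans ?_
    have h1 : (1 + 2 * m * (3 * ((1 + m) * C ^ 3 * R₁))) * C ^ 2 * δ ≤
        (1 + 6 * m * (1 + m) * R₁) * C ^ 5 * δ := by
      gcongr ?_ * δ
      have h2 : C ^ 2 ≤ C ^ 5 := pow_le_pow_right₀ hC (by norm_num)
      nlinarith
    calc _ ≤ (1 + m * R₁) * ((1 + 6 * m * (1 + m) * R₁) * C ^ 5 * δ) := by
          gcongr
          exact w4.trans h1
      _ = L * C ^ 5 * δ := by rw [hL]; ring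
      _ = κ₁ := by rw [hδ]; field_simp
  have p1 : ‖mul g (hom (D'.comp (A.comp B)) f η)‖ ≤ R₁ + N := by
    have h1 := mul_sub_le g (hom (D'.comp (A.comp B)) f η) 0
    rw [mul_zero', sub_zero] at h1
    have h2 := norm_hom_le (nA.trans hb) hb₁ f0 (f1.trans f2) η1
    have h3 : ‖mul g (hom (D'.comp (A.comp B)) f η) - g‖ ≤ N := h1.trans (by rw [hN]; gcongr)
    have h4 := norm_sub_norm_le (mul g (hom (D'.comp (A.comp B)) f η)) g
    linarith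
  refine ⟨⟨by change ‖g‖ ≤ _; linarith, by change ‖D'.comp (A.comp B)‖ ≤ _; linarith, ?_, f0, f1⟩,
    ?_, _, ⟨η, mem_closedBall_zero_iff.2 (by linarith), rfl⟩, main.trans k1⟩
  · simpa using sD.comp (sA.comp sB)
  · have h4 := norm_sub_norm_le (eta s c D' (h y')) (mul g (hom (D'.comp (A.comp B)) f η))
    linarith

end Pool.Agent.MP_6d695c_gt.P
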