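import Pool.Agent.MP_6d695c_gt.p.Alg

/-! PROJECT P, row SKF: the skeleton and the flow in the ambient space. -/

open scoped Manifold ContDiff Topology MeasureTheory
open Set Metric Filter Real

namespace Pool.Agent.MP_6d695c_gt.P

open SW T1 Theta

namespace SkFAux

variable {d : ℕ} {W V : Type} [TopologicalSpace W] [ChartedSpace (Euc d) W]
  [NormedAddCommGroup V] [NormedSpace ℝ V]
  {l : OneForm (𝓡 d) W} {Z : VField (𝓡 d) W} {φ : W → ℝ} {e : W → V} {l' : V → V →L[ℝ] ℝ}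
  {Pi : V → (V →L[ℝ] ℝ) →L[ℝ] V} {φ' : V → ℝ} {F : ℝ → W → W} {Z' : V → V} {fl : ℝ → V → V}

theorem mono (hE : Emb l Z φ e l' Pi φ') (hF : FlowOf Z F) (y : W) :
    Monotone fun t => φ (F t y) := by
  have hd : ∀ t, HasDerivAt (fun t => φ (F t y)) (der (𝓡 d) φ (F t y) (Z (F t y))) t := fun t => by
    let D : Euc d →L[ℝ] ℝ := mfderiv (𝓡 d) 𝓘(ℝ, ℝ) φ (F t y)
    let v : Euc d := Z (F t y)
    have h1 : HasFDerivAt (fun t => φ (F t y)) (D.comp ((1 : ℝ →L[ℝ] ℝ).smulRight v)) t :=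
      ((hE.ex.1.mdifferentiableAt (x := F t y) (by simp)).hasMFDerivAt.comp t
        ((hF y).2 t)).hasFDerivAt
    have h2 : D v = der (𝓡 d) φ (F t y) (Z (F t y)) := rfl
    simpa [h2] using h1.hasDerivAt
  exact monotone_of_hasDerivAt_nonneg hd fun t => hE.nd _

theorem eqf (hE : Emb l Z φ e l' Pi φ') (hF : FlowOf Z F)
    (hC : T1.Cut (e '' {x | φ x < 6}) l' Pi φ' Z' fl) (y : W) (t : ℝ)
    (h : ∀ s ∈ uIcc 0 t, φ (F s y) ≤ 4) : e (F t y) = fl t (e y) := by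
  have hd : ∀ s ∈ uIcc 0 t, HasDerivAt (fun s => e (F s y)) (Z' (e (F s y))) s := fun s hs => by
    have h6 : φ (F s y) < 6 := (h s hs).trans_lt (by norm_num)
    let D : Euc d →L[ℝ] V := mfderiv (𝓡 d) 𝓘(ℝ, V) e (F s y)
    let v : Euc d := Z (F s y)
    have h1 : HasFDerivAt (fun s => e (F s y)) (D.comp ((1 : ℝ →L[ℝ] ℝ).smulRight v)) s :=
      ((hE.sm.mdifferentiableAt (x := F s y) (by simp)).hasMFDerivAt.comp s
        ((hF y).2 s)).hasFDerivAt
    have h2 : D v = Z' (e (F s y)) := (hE.fld _ h6).trans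
      (hC.eq _ ⟨_, h6, rfl⟩ (by rw [hE.fn _ h6]; exact h s hs)).symm
    simpa [h2] using h1.hasDerivAt
  have h3 := hC.flow.eq_of (c := fun s => e (F s y)) hd
  simpa only [sub_zero, (hF y).1] using h3

theorem fwd (hE : Emb l Z φ e l' Pi φ') (hF : FlowOf Z F)
    (hC : T1.Cut (e '' {x | φ x < 6}) l' Pi φ' Z' fl) {y : W} (hy : φ y < 3) {t : ℝ} (ht : 0 ≤ t)
    (h : ∀ s ∈ Icc 0 t, φ' (fl s (e y)) < 3) : φ (F t y) < 4 ∧ e (F t y) = fl t (e y) := by
  have hm := mono hE hF y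
  have key : ∀ τ, 0 ≤ τ → φ (F τ y) ≤ 4 → e (F τ y) = fl τ (e y) := fun τ h0 h4 =>
    eqf hE hF hC y τ fun s hs => (hm (show s ≤ τ by rw [uIcc_of_le h0] at hs; exact hs.2)).trans h4
  have h4 : φ (F t y) < 4 := by
    by_contra hb
    have hc : Continuous fun s => φ (F s y) := hE.ex.1.continuous.comp (hF y).2.continuous
    obtain ⟨τ, hτ, e4⟩ := intermediate_value_Icc ht hc.continuousOn
      (show (4 : ℝ) ∈ Icc (φ (F 0 y)) (φ (F t y)) from
        ⟨by rw [(hF y).1]; linarith, not_lt.1 hb⟩)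
    have e5 : φ (F τ y) = 4 := e4
    have h5 := h τ hτ
    rw [← key τ hτ.1 e5.le, hE.fn _ (by rw [e5]; norm_num), e5] at h5
    norm_num at h5
  exact ⟨h4, key t ht h4.le⟩

end SkFAux

open SkFAux in
theorem skF : SkFStmt := by
  intro d W V _ _ _ _ _ _ _ l Z φ e l' Pi φ' F Z' fl hE hF hC x' hx'
  obtain ⟨⟨x, hx, rfl⟩, hK⟩ := hx'
  have hx6 : φ x < 6 := hx
  have hx2 : φ x ≤ 2 := by
    have := hK 0 le_rfl
    rwa [hC.flow.zero, hE.fn x hx6] at this
  have h2 : ∀ t, φ (F t x) ≤ 2 := fun t => by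
    rcases le_total 0 t with ht | ht
    · obtain ⟨h4, he⟩ := fwd hE hF hC (y := x) (by linarith) ht
        fun s hs => (hK s hs.1).trans_lt (by norm_num)
      rw [← hE.fn _ (h4.trans (by norm_num)), he]
      exact hK t ht
    · refine (mono hE hF x ht).trans ?_
      show φ (F 0 x) ≤ 2
      rwa [(hF x).1]
  refine ⟨x, ⟨fun t => F t x, {y | φ y ≤ 2}, (hF x).1, (hF x).2, hE.ex.2 2, fun t _ => h2 t⟩, rfl,
    fun t => ⟨h2 t, ?_⟩⟩
  have h3 : ∀ᶠ y in 𝓝 x, φ y < 3 :=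
    hE.ex.1.continuous.continuousAt.eventually_lt continuousAt_const (by linarith)
  rcases le_total 0 t with ht | ht
  · have hc : Continuous fun z : W × ℝ => φ' (fl z.2 (e z.1)) :=
      hE.amb.sφ.continuous.comp (hC.flow.sm.continuous.comp
        (continuous_snd.prodMk (hE.sm.continuous.comp continuous_fst)))
    have h4 : ∀ᶠ y in 𝓝 x, ∀ s ∈ Icc 0 t, φ' (fl s (e y)) < 3 :=
      isCompact_Icc.eventually_forall_of_forall_eventually
        (P := fun y s => φ' (fl s (e y)) < 3) fun s hs =>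
        hc.continuousAt.eventually_lt continuousAt_const ((hK s hs.1).trans_lt (by norm_num))
    filter_upwards [h3, h4] with y hy hs
    exact fwd hE hF hC hy ht hs
  · filter_upwards [h3] with y hy
    have hb : ∀ s, s ≤ 0 → φ (F s y) < 4 := fun s hs => by
      have h5 : φ (F s y) ≤ φ (F 0 y) := mono hE hF y hs
      rw [(hF y).1] at h5
      linarith
    exact ⟨hb t ht, eqf hE hF hC y t fun s hs =>
      (hb s (by rw [uIcc_of_ge ht] at hs; exact hs.2)).le⟩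

end Pool.Agent.MP_6d695c_gt.P
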