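import Pool.Agent.MP_6d695c_gt.p.Defs

/-! PROJECT P: statements of the rows.  See /team-store/P_6d695c_BLUEPRINT.md. -/

open scoped Manifold ContDiff Topology MeasureTheory
open Set Metric Filter Real

namespace Pool.Agent.MP_6d695c_gt.P

open SW T1 Theta

/-! ### Linear algebra and small scale geometry -/

/-- LA1: adapted frames exist -/
def La1Stmt : Prop :=
  ∀ (m : ℕ) (q : Hor m →L[ℝ] Hor m →L[ℝ] ℝ), (∀ u v, q u v = q v u) → (∀ u, u ≠ 0 → 0 < q u u) →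
    ∃ B B', Adp q B B'

/-- LA2: two-sided bounds give a bound in adapted frames -/
def La2Stmt : Prop :=
  ∀ m : ℕ, ∃ Cb : ℝ, 1 ≤ Cb ∧ ∀ (q q' : Hor m →L[ℝ] Hor m →L[ℝ] ℝ)
    (B B' D D' A : Hor m →L[ℝ] Hor m) (f c : ℝ), Adp q B B' → Adp q' D D' → Sym A f → 0 < f →
    0 < c → (∀ v, q' (A v) (A v) ≤ c ^ 2 * q v v) → (∀ v, f ^ 2 * q v v ≤ c ^ 2 * q' (A v) (A v)) →
    ‖D'.comp (A.comp B)‖ ≤ Cb * c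

/-- AUTE: the coordinates of a node are automorphisms; slopes -/
def AutEStmt : Prop :=
  ∀ m : ℕ, (∀ (s : ℝ) (c : Y m) (B B' : Hor m →L[ℝ] Hor m), 0 < s → Sym B 1 →
      (∀ u, B' (B u) = u) → (∀ u, B (B' u) = u) →
      Aut (s⁻¹ ^ 2) (fun x : ℝ × Y m => (x.1, eta s c B' x.2)) fun x => (x.1, zeta s c B x.2)) ∧
    ∀ (g : Y m) (U : Hor m →L[ℝ] Hor m) (ψ : Y m → ℝ), Sym U 1 → ContDiff ℝ ∞ ψ → ∀ y,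
      ‖nab (fun y => ψ (mul g (hom U 1 y))) y‖ ≤ max 1 ‖U‖ * ‖nab ψ (mul g (hom U 1 y))‖

/-- SYMH: the horizontal part of a contact map is conformally symplectic -/
def SymHStmt : Prop :=
  ∀ (m : ℕ) (C f : ℝ) (h : Y m → Y m) (y : Y m), 1 ≤ C → Ctc C h y f → Sym (hA h y) f

/-- BLOW: a contact map is a homomorphism at small scales -/
def BlowStmt : Prop :=
  ∀ m : ℕ, ∃ (C₀ : ℝ) (k : ℕ), 1 ≤ C₀ ∧ ∀ (C R s δ f : ℝ) (h : Y m → Y m) (y η : Y m), 1 ≤ C →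
    1 ≤ R → 0 < s → δ ≤ 1 → C₀ * (C * R) ^ k * s ≤ δ → Ctc C h y f → ‖η‖ ≤ R →
    ‖dil s⁻¹ (ldiv (h y) (h (mul y (dil s η)))) - hom (hA h y) f η‖ ≤ δ

/-- GEO: sizes of the cells, change of centre -/
def GeoStmt : Prop :=
  ∀ (m : ℕ) (Cb R : ℝ), ∃ (R' C₀ : ℝ) (k : ℕ), R ≤ R' ∧ 1 ≤ C₀ ∧ ∀ (A : Set (Y m))
    (B B' : Y m → Hor m →L[ℝ] Hor m) (C s : ℝ), Fr A B B' C Cb → 0 < s → C₀ * C ^ k * s ≤ 1 →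
    ∀ c ∈ A, ∀ y, ‖eta s c (B' c) y‖ ≤ R → ‖y - c‖ ≤ C⁻¹ / 4 ∧
      (y ∈ A → ∀ y', ‖eta s c (B' c) y'‖ ≤ R → ‖eta s y (B' y) y'‖ ≤ R')

/-- NET: a finite net with bounded multiplicity -/
def NetStmt : Prop :=
  ∀ (m : ℕ) (Cb : ℝ), ∃ R₀ : ℝ, 1 ≤ R₀ ∧ ∀ R : ℝ, ∃ (M₀ : ℕ) (C₀ : ℝ) (k : ℕ), 1 ≤ C₀ ∧
    ∀ (A : Set (Y m)) (B B' : Y m → Hor m →L[ℝ] Hor m) (C s : ℝ), IsCompact A → Fr A B B' C Cb →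
    0 < s → C₀ * C ^ k * s ≤ 1 → ∃ N : Set (Y m), N.Finite ∧ N ⊆ A ∧
      (∀ y ∈ A, ∃ c ∈ N, ‖eta s c (B' c) y‖ ≤ R₀) ∧
      ∀ y ∈ A, {c ∈ N | ‖eta s y (B' y) c‖ ≤ R}.ncard ≤ M₀

/-- COL: greedy colouring -/
def ColStmt : Prop :=
  ∀ (ι : Type) [Finite ι] (r : ι → ι → Prop) (M₀ : ℕ), (∀ a b, r a b → r b a) →
    (∀ a, {b | r a b}.ncard ≤ M₀) →
    ∃ col : ι → ℕ, (∀ a, col a < M₀ + 1) ∧ ∀ a b, a ≠ b → r a b → col a ≠ col b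

/-- NODES: the nodes of all towers -/
def NodesStmt : Prop :=
  ∀ (m : ℕ) (Cb : ℝ), ∃ R₀ : ℝ, 1 ≤ R₀ ∧ ∀ R : ℝ, ∃ (M₀ : ℕ) (C₀ : ℝ) (k : ℕ), 1 ≤ C₀ ∧
    ∀ (I : Type) [Finite I] (A : I → Set (Y m)) (ρ : ℝ) (B B' : I → Y m → Hor m →L[ℝ] Hor m)
      (C s : ℝ), (∀ i, IsCompact (A i)) →
      (∀ i, Fr (cthickening (8 * ρ) (A i)) (B i) (B' i) C Cb) → 0 < s → C₀ * C ^ k * s ≤ 1 →
      ∃ (ι : Type) (_ : Finite ι) (tw : ι → I) (ce : ι → Y m) (col : ι → ℕ),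
        Nods A ρ B B' s R₀ R M₀ tw ce col

/-- SHEET: the image of a cell is close to a sheet -/
def SheetStmt : Prop :=
  ∀ (m : ℕ) (Cb R : ℝ), ∃ Cg : ℝ, 1 ≤ Cg ∧ ∀ κ : ℝ, 0 < κ → ∃ (C₀ : ℝ) (k : ℕ), 1 ≤ C₀ ∧
    ∀ (C s f f₀ : ℝ) (h : Y m → Y m) (y y' c : Y m) (B B' D' : Hor m →L[ℝ] Hor m), 1 ≤ C → 0 < s →
    C₀ * C ^ k * s ≤ 1 → Ctc C h y f → 0 ≤ f → f ≤ f₀ → f₀ ≤ 1 → Sym B 1 → (∀ u, B (B' u) = u) →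
    Sym D' 1 → ‖B‖ ≤ C → ‖D'‖ ≤ C → ‖D'.comp ((hA h y).comp B)‖ ≤ Cb →
    ‖eta s y B' y'‖ ≤ R → ‖eta s c D' (h y)‖ ≤ R →
    GoodP Cg f₀ (eta s c D' (h y), D'.comp ((hA h y).comp B), f) ∧ ‖eta s c D' (h y')‖ ≤ Cg ∧
      ∃ p ∈ Sh Cg (eta s c D' (h y), D'.comp ((hA h y).comp B), f), ‖eta s c D' (h y') - p‖ ≤ κ

/-- RANK: the degeneracy order -/
def RankStmt : Prop :=
  ∀ C₂ ne : ℕ, ∃ b₀ : ℕ, ∀ (ι : Type) [Finite ι] (E : ι → ι → Prop) (act : ι → Prop),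
    (∀ u, {c | E u c}.ncard ≤ C₂) →
    (∀ u : ℕ → ι, (∀ a < ne, E (u a) (u (a + 1))) → ∃ a < ne, act (u (a + 1))) →
    ∃ rk : ι → ℕ, ∀ c, (act c → {u | E u c ∧ rk c ≤ rk u}.ncard ≤ b₀) ∧
      (¬ act c → ∀ u, E u c → rk u < rk c)

/-- CFG: the configuration -/
def CfgStmt : Prop :=
  ∀ (m : ℕ) (Cb : ℝ) (nb ne : ℕ), 1 ≤ Cb → ∃ (R₀ Cg : ℝ) (M₀ b : ℕ), 1 ≤ R₀ ∧ 1 ≤ Cg ∧
    ∀ κ : ℝ, 0 < κ → ∃ (C₀ : ℝ) (k : ℕ), 1 ≤ C₀ ∧ ∀ (I : Type) [Finite I] (A : I → Set (Y m))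
      (ρ : ℝ) (B B' : I → Y m → Hor m →L[ℝ] Hor m) (𝓛 : Set (Lk I m)) (C f₀ s : ℝ), 1 ≤ C →
      Sys A ρ B B' 𝓛 C Cb f₀ nb ne → f₀ ≤ 1 → 0 ≤ f₀ → 0 < s → C₀ * C ^ k * s ≤ 1 →
      ∃ (ι : Type) (_ : Finite ι) (tw : ι → I) (η ζ : ι → Y m → Y m) (act : ι → Prop)
        (col : ι → ℕ) (P : ι → Fin b → Sp m) (rk : ι → ℕ),
        Cfg A ρ 𝓛 R₀ Cg f₀ κ M₀ b tw η ζ act col P rk

/-! ### Traps in the model -/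

/-- MASTP: the plug does not depend on the slow function -/
def MastPStmt : Prop :=
  ∀ (m : ℕ) (G h : Y m → ℝ) (B r γ η : ℝ), Uni G h B r γ → 0 < η →
    ∃ Lm σ, 1 ≤ Lm ∧ 0 < σ ∧ ∀ ℓ : Y m → ℝ, Flat G σ ℓ → (∀ y, -1 ≤ ℓ y) →
      ∃ T B' δ f Λ, δ * (2 * (T + B') + 2) ≤ η ∧
        ∀ u : Y m → ℝ, Flat G σ u → Mast G ℓ u γ Lm T B' δ f Λ

/-- TRFP: the transfer with explicit data -/
def TrfPStmt : Prop :=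
  ∀ (m : ℕ) (G ℓ u' u ρ κ : Y m → ℝ) (ϕ : Y m → Y m) (γ Lm η T B k M : ℝ)
    (f Λ Ξ E : ℝ × Y m → ℝ) (A' : ℝ × Y m → ℝ × Y m) (U : Set (Y m)),
    Plug G ℓ u' γ Lm η T B f Λ Ξ E → Aut k (fun x => (x.1 + κ x.2, ϕ x.2)) A' →
    (∀ y, |κ y| ≤ M) → ContDiff ℝ ∞ u' → ContDiff ℝ ∞ u → ContDiff ℝ ∞ ρ →
    IsCompact {y | ρ y ≤ Lm + 1} → {y | ρ y ≤ Lm + 1} ⊆ U →
    (∀ y, ℓ (ϕ y) < Lm → ρ y ≤ Lm + 1 / 4) → (∀ y, ρ y ≤ Lm + 1 → |u' (ϕ y) - u y| ≤ η) →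
    ∃ Ξ' E', Raw U u (2 * η) (T + M) (B + M) {y | ρ y ≤ Lm + 1}
      {y | G (ϕ y) < -γ ∧ ℓ (ϕ y) < 1 / 4} (fun x => k⁻¹ * f (x.1 + κ x.2, ϕ x.2))
      (fun x => Λ (x.1 + κ x.2, ϕ x.2)) Ξ' E'

/-- RAWP: one trap for all functions of bounded slope -/
def RawPStmt : Prop :=
  ∀ (m : ℕ) (K U : Set (Y m)) (Cu η : ℝ), IsCompact K → IsOpen U → K ⊆ U → μH[m + 1] K = 0 →
    0 < η → ∃ T B C O f Λ, IsOpen O ∧ K ⊆ O ∧ RawP U Cu η T B C O f Λ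

/-- SHN: degenerate sheets are thin -/
def ShNStmt : Prop :=
  ∀ (m : ℕ) (R : ℝ) (g : Y m) (A : Hor m →L[ℝ] Hor m), Sym A 0 → μH[m + 1] (Sh R (g, A, 0)) = 0

/-- CAT: uniform traps for lists of sheets -/
def CatStmt : Prop :=
  ∀ (m b : ℕ) (R₀ Cg Cu η : ℝ), 0 < η → ∃ T κ f₀ : ℝ, 0 ≤ T ∧ 0 < κ ∧ 0 < f₀ ∧ f₀ ≤ 1 ∧
    ∀ P : Fin b → Sp m, (∀ i, GoodP Cg f₀ (P i)) → ∃ B C O f Λ,
      RawP (ball 0 (R₀ + 3)) Cu η T B C O f Λ ∧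
      ∀ y : Y m, ‖y‖ ≤ R₀ + 1 → ∀ i, ∀ p ∈ Sh Cg (P i), ‖y - p‖ < κ → y ∈ O

/-- PSI: test functions -/
def PsiStmt : Prop :=
  ∀ (m : ℕ) (R δ : ℝ), 0 < δ → ∃ (ψ : Y m → ℝ) (Cu : ℝ), ContDiff ℝ ∞ ψ ∧ 0 ≤ Cu ∧
    (∀ y, ψ y ∈ Icc (0 : ℝ) 1) ∧ (∀ y, ‖y‖ ≤ δ → ψ y = 0) ∧ (∀ y, 2 * δ ≤ ‖y‖ → ψ y = 1) ∧
    ∀ y₀ : Y m, ‖y₀‖ ≤ R → ∀ y, ‖nab (fun y => -ψ (y - y₀)) y‖ ≤ Cu

/-- PLACE: a trap is moved to a node and to the height `h` -/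
def PlaceStmt : Prop :=
  ∀ (m : ℕ) (k h e T B : ℝ) (η ζ : Y m → Y m) (U C O : Set (Y m)) (u : Y m → ℝ)
    (f Λ Ξ E : ℝ × Y m → ℝ), Aut k (fun x : ℝ × Y m => (x.1, η x.2)) (fun x => (x.1, ζ x.2)) →
    ContDiff ℝ ∞ u → Raw U u e T B C O f Λ Ξ E →
    Pl (ζ '' C) (h - T - 1) (h + T + 1) (fun x => (k * exp (-h))⁻¹ * f (x.1 - h, η x.2))
      (fun x => Λ (x.1 - h, η x.2)) ∧
    Mono (fun x => (k * exp (-h))⁻¹ * f (x.1 - h, η x.2)) (fun x => Ξ (x.1 - h, η x.2)) ∧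
    Mono (fun x => (k * exp (-h))⁻¹ * f (x.1 - h, η x.2))
      fun x => u (η x.2) + E (x.1 - h, η x.2)

/-- SUM: traps with disjoint supports -/
def SumStmt : Prop :=
  ∀ (m : ℕ) (ι : Type) [Fintype ι] (C : ι → Set (Y m)) (a b : ℝ) (f Λ : ι → ℝ × Y m → ℝ),
    (∀ c, Pl (C c) a b (f c) (Λ c)) → (∀ c c', c ≠ c' → Disjoint (C c) (C c')) →
    (∃ Λ', Pl (⋃ c, C c) a b (fun x => ∑ c, f c x) Λ') ∧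
    ∀ (u : Y m → ℝ) (E : ι → ℝ × Y m → ℝ), ContDiff ℝ ∞ u →
      (∀ c, (∀ x : ℝ × Y m, x.2 ∉ C c → E c x = 0) ∧ Mono (f c) fun x => u x.2 + E c x) →
      Mono (fun x => ∑ c, f c x) fun x => u x.2 + ∑ c, E c x

/-- ROB: monotone functions are almost monotone along pseudo-orbits -/
def RobStmt : Prop :=
  ∀ (X : Type) [NormedAddCommGroup X] [NormedSpace ℝ X] [FiniteDimensional ℝ X] (Z : X → X)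
    (Λ u : X → ℝ) (Ω : Set X) (δ : ℝ), ContDiff ℝ ∞ Z → ContDiff ℝ ∞ Λ → ContDiff ℝ ∞ u →
    IsCompact Ω → (∀ x ∈ Ω, Ly univ Z Λ x) → (∀ x ∈ Ω, fderiv ℝ u x (Z x) ≤ 0) → 0 < δ →
    ∃ ε, 0 < ε ∧ ∀ (γ : ℝ → X) (s t : ℝ), s ≤ t → Crv Z ε γ s t → (∀ r ∈ Icc s t, γ r ∈ Ω) →
      u (γ t) ≤ u (γ s) + δ

/-- NOCYC: no periodic pseudo-orbit through a regular point -/
def NoCycStmt : Prop :=
  ∀ (X : Type) [NormedAddCommGroup X] [NormedSpace ℝ X] [FiniteDimensional ℝ X] (Z : X → X)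
    (Λ : X → ℝ) (Ω : Set X) (x₀ : X), ContDiff ℝ ∞ Z → ContDiff ℝ ∞ Λ → IsCompact Ω →
    (∀ x ∈ Ω, Ly univ Z Λ x) → Z x₀ ≠ 0 → ∃ ε, 0 < ε ∧ ∀ c, Cyc Ω Z ε c → ∀ t, c t ≠ x₀

/-- LAY: one layer of traps -/
def LayStmt : Prop :=
  ∀ (m b : ℕ) (R₀ Cg β : ℝ), 0 ≤ Cg → 0 < β → ∃ T κ f₀ : ℝ, 0 ≤ T ∧ 0 < κ ∧ 0 < f₀ ∧ f₀ ≤ 1 ∧
    ∀ (ι : Type) [Finite ι] (η ζ : ι → Y m → Y m) (act : ι → Prop) (P : ι → Fin b → Sp m)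
      (h : ℝ), Nod η ζ (R₀ + 4) Cg → (∀ c i, GoodP Cg f₀ (P c i)) →
      (∀ c c', c ≠ c' → act c → act c' → ∀ y, ‖η c y‖ ≤ R₀ + 4 → R₀ + 4 < ‖η c' y‖) →
      ∃ F Λ, Tow η act (fun c => ⋃ i, Sh Cg (P c i)) (R₀ + 1) (R₀ + 3) β κ h (h + T) F Λ

/-- JOIN: a stack on top of a stack -/
def JoinStmt : Prop :=
  ∀ (m : ℕ) (ι : Type) (η : ι → Y m → Y m) (act act₁ act₂ : ι → Prop) (Γ : ι → Set (Y m))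
    (Ra Ra₁ Ra₂ R β₁ β₂ κ κ₁ κ₂ a b c : ℝ) (F₁ Λ₁ F₂ Λ₂ : ℝ × Y m → ℝ),
    Tow η act₁ Γ Ra₁ R β₁ κ₁ a b F₁ Λ₁ → Tow η act₂ Γ Ra₂ R β₂ κ₂ b c F₂ Λ₂ →
    (∀ i, act i ↔ act₁ i ∨ act₂ i) → 0 ≤ β₁ → 0 ≤ β₂ → Ra ≤ Ra₂ → Ra + β₂ ≤ Ra₁ → κ + β₂ ≤ κ₁ →
    κ ≤ κ₂ → ∃ Λ, Tow η act Γ Ra R (β₁ + β₂) κ a c (fun x => F₁ x + F₂ x) Λ

/-- STK: all layers -/
def StkStmt : Prop :=
  ∀ (m M₀ b : ℕ) (R₀ Cg : ℝ), 0 ≤ Cg → ∃ H₁ κ f₀ : ℝ, 0 < κ ∧ 0 < f₀ ∧ f₀ ≤ 1 ∧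
    ∀ (ι : Type) [Finite ι] (η ζ : ι → Y m → Y m) (act : ι → Prop) (col : ι → ℕ)
      (P : ι → Fin b → Sp m), Nod η ζ (R₀ + 4) Cg → (∀ c i, GoodP Cg f₀ (P c i)) →
      (∀ c, col c < M₀) →
      (∀ c c', c ≠ c' → col c = col c' → ∀ y, ‖η c y‖ ≤ R₀ + 4 → R₀ + 4 < ‖η c' y‖) →
      ∃ F Λ, Tow η act (fun c => ⋃ i, Sh Cg (P c i)) R₀ (R₀ + 3) 1 κ 0 H₁ F Λ

/-! ### The flow near the skeleton -/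

/-- KIN -/
def KinStmt : Prop :=
  ∀ (V E : Type) [NormedAddCommGroup V] [NormedSpace ℝ V] [FiniteDimensional ℝ V]
    [NormedAddCommGroup E] [NormedSpace ℝ E] (M : Set V) (l : V → V →L[ℝ] ℝ)
    (Pi : V → (V →L[ℝ] ℝ) →L[ℝ] V) (φ : V → ℝ) (Z : V → V) (fl : ℝ → V → V),
    Amb E M l Pi φ (1 / 2) → T1.Cut M l Pi φ Z fl → Kin M φ fl

/-- LIE -/
def LieStmt : Prop :=
  ∀ (V E : Type) [NormedAddCommGroup V] [NormedSpace ℝ V] [FiniteDimensional ℝ V]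
    [NormedAddCommGroup E] [NormedSpace ℝ E] (M : Set V) (l : V → V →L[ℝ] ℝ)
    (Pi : V → (V →L[ℝ] ℝ) →L[ℝ] V) (φ : V → ℝ) (Z : V → V) (fl : ℝ → V → V),
    Amb E M l Pi φ (1 / 2) → T1.Cut M l Pi φ Z fl → Lie M l φ fl

/-- DUAL: the forward bound -/
def DualStmt : Prop :=
  ∀ (V E : Type) [NormedAddCommGroup V] [NormedSpace ℝ V] [FiniteDimensional ℝ V]
    [NormedAddCommGroup E] [NormedSpace ℝ E] (M : Set V) (l : V → V →L[ℝ] ℝ)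
    (Pi : V → (V →L[ℝ] ℝ) →L[ℝ] V) (φ : V → ℝ) (Z : V → V) (fl : ℝ → V → V) (ε : ℝ),
    Amb E M l Pi φ (1 / 2) → T1.Cut M l Pi φ Z fl → Kin M φ fl → Lie M l φ fl →
    Rate M l φ Z fl ε → RateF M l φ Z fl ε

/-- ATTR -/
def AttrStmt : Prop :=
  ∀ (V E : Type) [NormedAddCommGroup V] [NormedSpace ℝ V] [FiniteDimensional ℝ V]
    [NormedAddCommGroup E] [NormedSpace ℝ E] (M U : Set V) (l : V → V →L[ℝ] ℝ)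
    (Pi : V → (V →L[ℝ] ℝ) →L[ℝ] V) (φ : V → ℝ) (Z : V → V) (fl : ℝ → V → V),
    Amb E M l Pi φ (1 / 2) → T1.Cut M l Pi φ Z fl → Kin M φ fl → IsOpen U → Ksk M φ fl ⊆ U →
    ∃ L, Attr M φ Z fl U L

/-- NORMK: the Lyapunov form with the bounds on the skeleton -/
def NormKStmt : Prop :=
  ∀ (V E : Type) [NormedAddCommGroup V] [NormedSpace ℝ V] [FiniteDimensional ℝ V]
    [NormedAddCommGroup E] [NormedSpace ℝ E] (M : Set V) (l : V → V →L[ℝ] ℝ)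
    (Pi : V → (V →L[ℝ] ℝ) →L[ℝ] V) (φ : V → ℝ) (Z : V → V) (fl : ℝ → V → V) (ε S : ℝ),
    Amb E M l Pi φ (1 / 2) → T1.Cut M l Pi φ Z fl → Kin M φ fl → Lie M l φ fl →
    Rate M l φ Z fl ε → RateF M l φ Z fl ε → (∀ x ∈ Ksk M φ fl, Z x ≠ 0) → 0 < ε → 0 ≤ S →
    4 * ε * S ≤ 1 → ∃ Q, LyQ M l Z fl S {x | Z x ≠ 0} (Ksk M φ fl) 6 Q

/-- NORMU: the bounds hold near the skeleton -/
def NormUStmt : Prop :=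
  ∀ (V E : Type) [NormedAddCommGroup V] [NormedSpace ℝ V] [FiniteDimensional ℝ V]
    [NormedAddCommGroup E] [NormedSpace ℝ E] (M : Set V) (l : V → V →L[ℝ] ℝ)
    (Pi : V → (V →L[ℝ] ℝ) →L[ℝ] V) (φ : V → ℝ) (Z : V → V) (fl : ℝ → V → V) (S : ℝ)
    (Q : V → V →L[ℝ] V →L[ℝ] ℝ), Amb E M l Pi φ (1 / 2) → T1.Cut M l Pi φ Z fl → Kin M φ fl →
    Lie M l φ fl → (∀ x ∈ Ksk M φ fl, Z x ≠ 0) →
    LyQ M l Z fl S {x | Z x ≠ 0} (Ksk M φ fl) 6 Q →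
    ∃ U, IsOpen U ∧ Ksk M φ fl ⊆ U ∧ LyQ M l Z fl S U U 9 Q

/-! ### Boxes and markers -/

/-- DARBN: a short chart -/
def DarbNStmt : Prop :=
  ∀ (V : Type) [NormedAddCommGroup V] [NormedSpace ℝ V] [FiniteDimensional ℝ V] (m : ℕ)
    (M : Set V) (l : V → V →L[ℝ] ℝ) (Pi : V → (V →L[ℝ] ℝ) →L[ℝ] V) (φ : V → ℝ) (s : ℝ),
    Amb (Euc (2 * m + 2)) M l Pi φ s → ∀ p ∈ M, Pi p (l p) ≠ 0 →
    ∃ (Ψ : ℝ × Y m → V) (κ : V → ℝ × Y m) (O : Set (ℝ × Y m)) (N : Set V), Par M Ψ κ O N ∧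
      p ∈ N ∧ ∀ q ∈ O, ∀ v, l (Ψ q) (fderiv ℝ Ψ q v) = lam0 q v

/-- SBOX: a short flow box through a point -/
def SBoxStmt : Prop :=
  ∀ (V : Type) [NormedAddCommGroup V] [NormedSpace ℝ V] [FiniteDimensional ℝ V] (m : ℕ)
    (M : Set V) (l : V → V →L[ℝ] ℝ) (Pi : V → (V →L[ℝ] ℝ) →L[ℝ] V) (φ : V → ℝ) (Z : V → V)
    (fl : ℝ → V → V) (x : V), Amb (Euc (2 * m + 2)) M l Pi φ (1 / 2) → T1.Cut M l Pi φ Z fl →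
    x ∈ M → φ x < 1 → Z x ≠ 0 →
    ∃ (g : Y m → V) (κ : V → ℝ × Y m) (a : ℝ) (D : Set (Y m)) (N : Set V) (y₀ : Y m), 0 < a ∧
      Box M l φ fl g κ (-a) a D N ∧ y₀ ∈ D ∧ g y₀ = x

/-- LBOX: a long flow box -/
def LBoxStmt : Prop :=
  ∀ (V E : Type) [NormedAddCommGroup V] [NormedSpace ℝ V] [FiniteDimensional ℝ V]
    [NormedAddCommGroup E] [NormedSpace ℝ E] (m : ℕ) (M N₀ : Set V) (l : V → V →L[ℝ] ℝ)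
    (Pi : V → (V →L[ℝ] ℝ) →L[ℝ] V) (φ : V → ℝ) (Z : V → V) (fl : ℝ → V → V) (g : Y m → V)
    (κ : V → ℝ × Y m) (a L : ℝ) (D : Set (Y m)) (N : Set V) (y₀ : Y m), Amb E M l Pi φ (1 / 2) →
    T1.Cut M l Pi φ Z fl → Lie M l φ fl → 0 < a → Box M l φ fl g κ (-a) a D N → y₀ ∈ D → 0 < L →
    (∀ t, |t| ≤ L → φ (fl t (g y₀)) < 1) → (∀ t, 0 < t → t ≤ 2 * L → fl t (g y₀) ≠ g y₀) →
    IsOpen N₀ → g y₀ ∈ N₀ →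
    ∃ κ' D' N', Box M l φ fl g κ' (-L) L D' N' ∧ y₀ ∈ D' ∧ ∀ y ∈ D', g y ∈ N₀

/-- RECENT: a box is restricted and centred at the height `c` -/
def RecentStmt : Prop :=
  ∀ (V : Type) [NormedAddCommGroup V] [NormedSpace ℝ V] (m : ℕ) (M : Set V) (l : V → V →L[ℝ] ℝ)
    (φ : V → ℝ) (Z : V → V) (fl : ℝ → V → V) (g : Y m → V) (κ : V → ℝ × Y m) (a b a' b' c : ℝ)
    (D : Set (Y m)) (N : Set V), IsFlow Z fl → Box M l φ fl g κ a b D N → a ≤ a' + c →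
    b' + c ≤ b → ∃ N', Box M l φ fl (fun y => fl c (g (dil (exp (-c / 2)) y)))
      (fun x => ((κ x).1 - c, dil (exp (c / 2)) (κ x).2)) a' b' (dil (exp (-c / 2)) ⁻¹' D) N'

/-- GEN: generic radii -/
def GenStmt : Prop :=
  ∀ (V : Type) [NormedAddCommGroup V] [NormedSpace ℝ V] (m : ℕ) (M : Set V) (l : V → V →L[ℝ] ℝ)
    (φ : V → ℝ) (Z : V → V) (fl : ℝ → V → V) (I : Type) (g : I → Y m → V) (κ : I → V → ℝ × Y m)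
    (L : ℝ) (D : I → Set (Y m)) (N : I → Set V) (ι : Type) [Countable ι] (k : ι → I)
    (q : ι → Y m) (a b : ι → ℝ), IsFlow Z fl →
    (∀ i, Box M l φ fl (g i) (κ i) (-L) L (D i) (N i)) → (∀ i, a i < b i) →
    ∃ r : ι → ℝ, (∀ i, r i ∈ Ioo (a i) (b i)) ∧ ∀ x ∈ M, ∀ s : Finset ι,
      (∀ i ∈ s, x ∈ N (k i) ∧ ‖(κ (k i) x).2 - q i‖ = r i) → s.card ≤ 2 * m + 1

/-- GUT: the marker lemma, relative to a given pair `U₀ ⊆ C₀` -/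
def GutStmt : Prop :=
  ∀ (V : Type) [NormedAddCommGroup V] [NormedSpace ℝ V] (m d₀ : ℕ) (M U₀ C₀ : Set V)
    (l : V → V →L[ℝ] ℝ) (φ : V → ℝ) (Z : V → V) (fl : ℝ → V → V) (I : Type) [Finite I]
    (g : I → Y m → V) (κ : I → V → ℝ × Y m) (H S L : ℝ) (D B : I → Set (Y m)) (N : I → Set V),
    IsFlow Z fl → 0 ≤ H → S = (2 * m + 2 + d₀) * (2 * H + 10) → S ≤ L →
    (∀ i, Box M l φ fl (g i) (κ i) (-L) L (D i) (N i)) → (∀ i, IsCompact (B i) ∧ B i ⊆ D i) →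
    IsCompact C₀ →
    (∀ x ∈ M, (∃ t ∈ Ioo 0 S, fl (-t) x ∈ U₀) → ∀ᶠ x' in 𝓝[M] x, ∃ t ∈ Ioo 0 S, fl (-t) x' ∈ U₀) →
    (∀ x ∈ M, (∀ t ∈ Ioo 0 S, fl (-t) x ∉ U₀) →
      ∃ T : Finset ℝ, T.card ≤ d₀ ∧ ∀ t ∈ Ioo 0 S, fl (-t) x ∈ C₀ → t ∈ T) →
    ∃ O C : I → Fin (2 * m + 2 + d₀) → Set (Y m),
      (∀ i j, IsOpen (O i j) ∧ IsCompact (C i j) ∧ O i j ⊆ C i j ∧ C i j ⊆ D i) ∧
      (∀ i j i' j', (i, j) ≠ (i', j') → ∀ y ∈ C i j, ∀ y' ∈ C i' j', ∀ t, |t| ≤ H + 3 →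
        fl t (Ps fl (g i) (-(((j : ℕ) + 1 / 2) * (2 * H + 10)), y)) ≠
          Ps fl (g i') (-(((j' : ℕ) + 1 / 2) * (2 * H + 10)), y')) ∧
      (∀ i j, ∀ y ∈ C i j, ∀ t, |t| ≤ H + 3 →
        fl t (Ps fl (g i) (-(((j : ℕ) + 1 / 2) * (2 * H + 10)), y)) ∉ C₀) ∧
      ∀ i, ∀ y ∈ B i, ∃ t ∈ Ioo 0 S, fl (-t) (g i y) ∈ U₀ ∨ ∃ i' j', ∃ z ∈ O i' j',
        fl (-t) (g i y) = Ps fl (g i') (-(((j' : ℕ) + 1 / 2) * (2 * H + 10)), z)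

/-- MARK: the towers -/
def MarkStmt : Prop :=
  ∀ (V : Type) [NormedAddCommGroup V] [NormedSpace ℝ V] [FiniteDimensional ℝ V] (m : ℕ)
    (M U : Set V) (l : V → V →L[ℝ] ℝ) (Pi : V → (V →L[ℝ] ℝ) →L[ℝ] V) (φ L : V → ℝ) (Z : V → V)
    (fl : ℝ → V → V) (H : ℝ), Amb (Euc (2 * m + 2)) M l Pi φ (1 / 2) → T1.Cut M l Pi φ Z fl →
    Kin M φ fl → Lie M l φ fl → Attr M φ Z fl U L → 10 ≤ H → Aper M φ fl (2 * Sret m H) →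
    (∀ x ∈ U, ∀ t, |t| ≤ Sret m H → φ (fl t x) < 1) →
    ∃ (I : Type) (_ : Finite I) (τ : TD V m I),
      Tw M l φ fl τ (Kl M φ L 0) (Kl M φ L (-(1 / 2))) H (Sret m H)

/-! ### The link system of the towers -/

/-- XBOX: the fields in a box -/
def XBoxStmt : Prop :=
  ∀ (V E : Type) [NormedAddCommGroup V] [NormedSpace ℝ V] [NormedAddCommGroup E] [NormedSpace ℝ E]
    (m : ℕ) (M : Set V) (l : V → V →L[ℝ] ℝ) (Pi : V → (V →L[ℝ] ℝ) →L[ℝ] V) (φ : V → ℝ)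
    (fl : ℝ → V → V) (g : Y m → V) (κ : V → ℝ × Y m) (a b : ℝ) (D : Set (Y m)) (N : Set V),
    Smp E M l Pi → Box M l φ fl g κ a b D N → ∀ x ∈ M, x ∈ N →
    (∀ v ∈ Tg M x, lam0 (κ x) (fderiv ℝ κ x v) = l x v) ∧
    ∀ (F : ℝ × Y m → ℝ) (G : V → ℝ), ContDiff ℝ ∞ F → ContDiff ℝ ∞ G →
      (∀ᶠ x' in 𝓝[M] x, G x' = F (κ x')) →
      fderiv ℝ κ x (Pi x (l x + fderiv ℝ G x)) = XY F (κ x)

/-- NBR: points of `M` near a tower -/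
def NbrStmt : Prop :=
  ∀ (V : Type) [NormedAddCommGroup V] [NormedSpace ℝ V] (m : ℕ) (M K' K'' : Set V)
    (l : V → V →L[ℝ] ℝ) (φ : V → ℝ) (Z : V → V) (fl : ℝ → V → V) (I : Type) [Finite I]
    (τ : TD V m I) (H S₀ δ₁ : ℝ), IsFlow Z fl → Tw M l φ fl τ K' K'' H S₀ → 0 < δ₁ →
    ∃ δ, 0 < δ ∧ ∀ i, ∀ q ∈ τ.reg i (-1) (H + 1) 10, ∀ x ∈ M, ‖x - Ps fl (τ.g i) q‖ ≤ δ →
      x ∈ τ.N i ∧ ‖τ.κ i x - q‖ ≤ δ₁ ∧ Ps fl (τ.g i) (τ.κ i x) = x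

/-- HOLC: the holonomy maps are contact maps with uniform bounds -/
def HolCStmt : Prop :=
  ∀ (V E : Type) [NormedAddCommGroup V] [NormedSpace ℝ V] [FiniteDimensional ℝ V]
    [NormedAddCommGroup E] [NormedSpace ℝ E] (m : ℕ) (M K' K'' : Set V) (l : V → V →L[ℝ] ℝ)
    (Pi : V → (V →L[ℝ] ℝ) →L[ℝ] V) (φ : V → ℝ) (Z : V → V) (fl : ℝ → V → V) (I : Type) [Finite I]
    (τ : TD V m I) (H S₀ S : ℝ), Amb E M l Pi φ (1 / 2) → T1.Cut M l Pi φ Z fl → Kin M φ fl →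
    Lie M l φ fl → Tw M l φ fl τ K' K'' H S₀ →
    ∃ C₀, ∀ C, C₀ ≤ C → ∀ e ∈ links fl τ H S, Ctc C e.h e.y e.f

/-- FRAME: adapted frames over the towers -/
def FrameStmt : Prop :=
  ∀ m : ℕ, ∃ Cb : ℝ, 1 ≤ Cb ∧
    ∀ (V E : Type) [NormedAddCommGroup V] [NormedSpace ℝ V] [FiniteDimensional ℝ V]
    [NormedAddCommGroup E] [NormedSpace ℝ E] (M U K' K'' : Set V) (l : V → V →L[ℝ] ℝ)
    (Pi : V → (V →L[ℝ] ℝ) →L[ℝ] V) (φ : V → ℝ) (Z : V → V) (fl : ℝ → V → V) (I : Type) [Finite I]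
    (τ : TD V m I) (H S₀ S : ℝ) (Q : V → V →L[ℝ] V →L[ℝ] ℝ), Amb E M l Pi φ (1 / 2) →
    T1.Cut M l Pi φ Z fl → Kin M φ fl → Lie M l φ fl → Tw M l φ fl τ K' K'' H S₀ → K' ⊆ U →
    LyQ M l Z fl S U U 9 Q →
    ∃ (B B' : I → Y m → Hor m →L[ℝ] Hor m) (C₀ : ℝ),
      (∀ C, C₀ ≤ C → ∀ i, Fr (cthickening (8 * τ.ρ) (τ.A i)) (B i) (B' i) C Cb) ∧
      ∀ e ∈ links fl τ H S, ‖(B' e.j (e.h e.y)).comp ((hA e.h e.y).comp (B e.i e.y))‖ ≤ Cb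

/-- COH: links from nearby points are coherent -/
def CohStmt : Prop :=
  ∀ (V E : Type) [NormedAddCommGroup V] [NormedSpace ℝ V] [FiniteDimensional ℝ V]
    [NormedAddCommGroup E] [NormedSpace ℝ E] (m : ℕ) (M K' K'' : Set V) (l : V → V →L[ℝ] ℝ)
    (Pi : V → (V →L[ℝ] ℝ) →L[ℝ] V) (φ : V → ℝ) (Z : V → V) (fl : ℝ → V → V) (I : Type) [Finite I]
    (τ : TD V m I) (H S₀ S : ℝ), T1.Cut M l Pi φ Z fl → Tw M l φ fl τ K' K'' H S₀ →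
    ∃ δ, 0 < δ ∧ ∀ e ∈ links fl τ H S, ∀ e' ∈ links fl τ H S, e.i = e'.i → e.k = e'.k →
      ‖e.y - e'.y‖ ≤ δ → e.j = e'.j ∧ e.h e'.y = e'.h e'.y

/-- EDGE: a long chain of links meets a core -/
def EdgeStmt : Prop :=
  ∀ (V E : Type) [NormedAddCommGroup V] [NormedSpace ℝ V] [FiniteDimensional ℝ V]
    [NormedAddCommGroup E] [NormedSpace ℝ E] (m ne : ℕ) (M K' K'' : Set V) (l : V → V →L[ℝ] ℝ)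
    (Pi : V → (V →L[ℝ] ℝ) →L[ℝ] V) (φ : V → ℝ) (Z : V → V) (fl : ℝ → V → V) (I : Type) [Finite I]
    (τ : TD V m I) (H S₀ S : ℝ), T1.Cut M l Pi φ Z fl → Tw M l φ fl τ K' K'' H S₀ → K' ⊆ M →
    0 < ne → S₀ ≤ ne * (H - 1) →
    ∃ δ, 0 < δ ∧ ∀ e : ℕ → Lk I m, (∀ a < ne, e a ∈ links fl τ H S) →
      (∀ a, a + 1 < ne → (e a).j = (e (a + 1)).i ∧ ‖(e a).h (e a).y - (e (a + 1)).y‖ ≤ δ) →
      ∃ a < ne, (e a).h (e a).y ∈ cthickening τ.ρ (τ.A (e a).j)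

/-! ### Periodic pseudo-orbits -/

/-- GLOB: the total Hamiltonian -/
def GlobStmt : Prop :=
  ∀ (V E : Type) [NormedAddCommGroup V] [NormedSpace ℝ V] [FiniteDimensional ℝ V]
    [NormedAddCommGroup E] [NormedSpace ℝ E] (m : ℕ) (M K' K'' : Set V) (l : V → V →L[ℝ] ℝ)
    (Pi : V → (V →L[ℝ] ℝ) →L[ℝ] V) (φ : V → ℝ) (Z : V → V) (fl : ℝ → V → V) (I : Type) [Finite I]
    (τ : TD V m I) (H S₀ : ℝ) (F Λ : I → ℝ × Y m → ℝ), Smp E M l Pi → IsFlow Z fl →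
    Tw M l φ fl τ K' K'' H S₀ →
    (∀ i, ContDiff ℝ ∞ (F i) ∧ ContDiff ℝ ∞ (Λ i) ∧ (∀ x, Ly univ (XY (F i)) (Λ i) x) ∧
      ∀ x : ℝ × Y m, x ∉ τ.reg i 1 (H - 1) 3 → F i x = 0) →
    ∃ G, Glob M l Pi fl τ H F G

/-- SHAD: pseudo-orbits follow the flow for a bounded time -/
def ShadStmt : Prop :=
  ∀ (V : Type) [NormedAddCommGroup V] [NormedSpace ℝ V] [FiniteDimensional ℝ V] (Z : V → V)
    (fl : ℝ → V → V) (D : Set V) (L δ : ℝ), IsFlow Z fl → IsCompact D → 0 < δ →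
    ∃ ε, 0 < ε ∧ ∀ (c : ℝ → V) (a b : ℝ), b ≤ a + L → ContinuousOn c (Icc a b) →
      (∀ t ∈ Ioo a b, Near c t (Z (c t)) ε) → (∀ t ∈ Icc a b, c t ∈ D) →
      ∀ s ∈ Icc a b, ∀ t ∈ Icc a b, ‖c t - fl (t - s) (c s)‖ ≤ δ

/-- CONF: periodic pseudo-orbits stay near the skeleton -/
def ConfStmt : Prop :=
  ∀ (V : Type) [NormedAddCommGroup V] [NormedSpace ℝ V] (M U : Set V) (φ L : V → ℝ) (Z X : V → V)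
    (fl : ℝ → V → V), Attr M φ Z fl U L → IsCompact {x ∈ M | φ x ≤ 2} →
    (∀ x ∈ M, φ x ≤ 2 → -(1 / 2) < L x → X x = Z x) →
    ∃ ε, 0 < ε ∧ ∀ c, Cyc {x ∈ M | φ x ≤ 2} X ε c → ∀ t, c t ∈ Kl M φ L 0

/-- LAST: the last visit to a support or to a top slab -/
def LastStmt : Prop :=
  ∀ (V : Type) [NormedAddCommGroup V] [NormedSpace ℝ V] [FiniteDimensional ℝ V] (m : ℕ)
    (M K' K'' : Set V) (l : V → V →L[ℝ] ℝ) (φ : V → ℝ) (Z X : V → V) (fl : ℝ → V → V) (I : Type)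
    [Finite I] (τ : TD V m I) (H S₀ : ℝ), IsFlow Z fl → Tw M l φ fl τ K' K'' H S₀ →
    IsCompact K' → K' ⊆ M → (∀ x ∈ K', x ∉ Supp fl τ H → X x = Z x) →
    ∃ ε, 0 < ε ∧ ∀ c, Cyc K' X ε c → ∀ t₀, ∃ t' ∈ Icc (t₀ - (S₀ + 1)) t₀,
      c t' ∈ Top fl τ H ∪ Supp fl τ H ∧ ∀ t ∈ Ioc t' t₀, c t ∉ Top fl τ H ∪ Supp fl τ H

/-- PREV: the link to the previous tower -/
def PrevStmt : Prop :=
  ∀ (V : Type) [NormedAddCommGroup V] [NormedSpace ℝ V] [FiniteDimensional ℝ V] (m : ℕ)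
    (M K' K'' : Set V) (l : V → V →L[ℝ] ℝ) (φ : V → ℝ) (Z X : V → V) (fl : ℝ → V → V) (I : Type)
    [Finite I] (τ : TD V m I) (H S₀ δ : ℝ), IsFlow Z fl → Tw M l φ fl τ K' K'' H S₀ →
    IsCompact K' → K' ⊆ M → (∀ x ∈ K', x ∉ Supp fl τ H → X x = Z x) → 0 < δ →
    ∃ ε, 0 < ε ∧ ∀ c, Cyc K' X ε c → ∀ t₀ i, ∀ y ∈ cthickening (5 * τ.ρ) (τ.A i), c t₀ = τ.g i y →
      ∃ t' ≤ t₀, ∃ j, ∃ q ∈ τ.reg j H (H + 1 / 2) 4, c t' = Ps fl (τ.g j) q ∧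
        ∃ t y', ALk fl τ H (S₀ + H + 3) i y t j y' ∧ ‖y' - q.2‖ ≤ δ

/-- BACK: the passage through a tower -/
def BackStmt : Prop :=
  ∀ (V : Type) [NormedAddCommGroup V] [NormedSpace ℝ V] [FiniteDimensional ℝ V] (m : ℕ)
    (M K' K'' : Set V) (l : V → V →L[ℝ] ℝ) (φ : V → ℝ) (Z X : V → V) (fl : ℝ → V → V) (I : Type)
    [Finite I] (τ : TD V m I) (H S₀ ε₀ : ℝ) (j : I) (F : ℝ × Y m → ℝ), IsFlow Z fl →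
    Tw M l φ fl τ K' K'' H S₀ → IsCompact K' → K' ⊆ M → 0 < ε₀ →
    (∀ q ∈ τ.reg j (-1) (H + 1) 9,
      fderiv ℝ (τ.κ j) (Ps fl (τ.g j) q) (X (Ps fl (τ.g j) q)) = XY F q) →
    (∀ x : ℝ × Y m, H - 1 ≤ x.1 → F x = 0) →
    (∀ (γ : ℝ → ℝ × Y m) (s t : ℝ), s ≤ t → Crv (XY F) ε₀ γ s t →
      (∀ r ∈ Icc s t, γ r ∈ τ.reg j 0 (H + 1 / 2) 5) → (γ t).2 ∈ cthickening (4 * τ.ρ) (τ.A j) →
      ‖(γ s).2 - (γ t).2‖ ≤ τ.ρ / 2) →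
    ∃ ε, 0 < ε ∧ ∀ c, Cyc K' X ε c → ∀ t', ∀ q ∈ τ.reg j 1 (H + 1 / 2) 4,
      c t' = Ps fl (τ.g j) q →
      (∃ t ≤ t', (τ.κ j (c t)).1 = 0 ∧ Crv (XY F) ε₀ (fun r => τ.κ j (c r)) t t' ∧
        ∀ r ∈ Icc t t', τ.κ j (c r) ∈ τ.reg j 0 (H + 1 / 2) 5 ∧
          Ps fl (τ.g j) (τ.κ j (c r)) = c r) ∨
      (Cyc (τ.reg j 0 (H + 1 / 2) 5) (XY F) ε₀ (fun r => τ.κ j (c r)) ∧
        ∀ r, 0 < (τ.κ j (c r)).1 ∧ Ps fl (τ.g j) (τ.κ j (c r)) = c r)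

/-- CYC: the rank argument -/
def CycStmt : Prop :=
  ∀ (V : Type) [NormedAddCommGroup V] [NormedSpace ℝ V] [FiniteDimensional ℝ V] (m : ℕ)
    (M K' K'' : Set V) (l : V → V →L[ℝ] ℝ) (φ : V → ℝ) (Z X : V → V) (fl : ℝ → V → V) (I : Type)
    [Finite I] (τ : TD V m I) (H H₁ S₀ R₀ Cg f₀ κ : ℝ) (M₀ b : ℕ) (ι : Type) [Finite ι]
    (tw : ι → I) (η ζ : ι → Y m → Y m) (act : ι → Prop) (col : ι → ℕ) (P : ι → Fin b → Sp m)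
    (rk : ι → ℕ) (F Λ : I → ℝ × Y m → ℝ) (x₀ : V), IsFlow Z fl → Tw M l φ fl τ K' K'' H S₀ →
    IsCompact K' → K' ⊆ M → (∀ x ∈ K', x ∉ Supp fl τ H → X x = Z x) →
    (∀ j, ∀ q ∈ τ.reg j (-1) (H + 1) 9,
      fderiv ℝ (τ.κ j) (Ps fl (τ.g j) q) (X (Ps fl (τ.g j) q)) = XY (F j) q) →
    0 < κ → H₁ ≤ H →
    Cfg τ.A τ.ρ (links fl τ H (S₀ + H + 3)) R₀ Cg f₀ κ M₀ b tw η ζ act col P rk →
    (∀ i, Tow (fun c : {c // tw c = i} => η c) (fun c => act c) (fun c => ⋃ k, Sh Cg (P c k))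
      R₀ (R₀ + 3) 1 κ 0 H₁ (F i) (Λ i)) →
    (∀ i, ∀ q ∈ τ.reg i 0 (H + 1 / 2) 5, XY (F i) q = 0 → Ps fl (τ.g i) q ≠ x₀) →
    ∃ ε, 0 < ε ∧ ∀ c, Cyc K' X ε c → ∀ t, c t ≠ x₀

/-- CORE: the ambient form of the theorem -/
def CoreStmt : Prop :=
  ∀ m : ℕ, ∃ ε T : ℝ, 0 < ε ∧ 0 < T ∧
    ∀ (V : Type) [NormedAddCommGroup V] [NormedSpace ℝ V] [FiniteDimensional ℝ V] (M : Set V)
    (l : V → V →L[ℝ] ℝ) (Pi : V → (V →L[ℝ] ℝ) →L[ℝ] V) (φ : V → ℝ) (Z : V → V) (fl : ℝ → V → V),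
    Amb (Euc (2 * m + 2)) M l Pi φ (1 / 2) → T1.Cut M l Pi φ Z fl → Rate M l φ Z fl ε →
    Aper M φ fl T → ∃ A B G Φ, Wein M l Pi φ A B G Φ

/-! ### Manifolds -/

/-- SKF: the skeleton and the flow in the ambient space -/
def SkFStmt : Prop :=
  ∀ (d : ℕ) (W V : Type) [TopologicalSpace W] [ChartedSpace (Euc d) W] [IsManifold (𝓡 d) ∞ W]
    [T2Space W] [NormedAddCommGroup V] [NormedSpace ℝ V] [FiniteDimensional ℝ V]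
    (l : OneForm (𝓡 d) W) (Z : VField (𝓡 d) W) (φ : W → ℝ) (e : W → V) (l' : V → V →L[ℝ] ℝ)
    (Pi : V → (V →L[ℝ] ℝ) →L[ℝ] V) (φ' : V → ℝ) (F : ℝ → W → W) (Z' : V → V) (fl : ℝ → V → V),
    Emb l Z φ e l' Pi φ' → FlowOf Z F → T1.Cut (e '' {x | φ x < 6}) l' Pi φ' Z' fl →
    ∀ x' ∈ Ksk (e '' {x | φ x < 6}) φ' fl, ∃ x ∈ skeleton Z, e x = x' ∧ ∀ t, φ (F t x) ≤ 2 ∧
      ∀ᶠ y in 𝓝 x, φ (F t y) < 4 ∧ e (F t y) = fl t (e y)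

/-- HYP: the hypotheses pass to the ambient space -/
def HypStmt : Prop :=
  ∀ (d : ℕ) (W V : Type) [TopologicalSpace W] [ChartedSpace (Euc d) W] [IsManifold (𝓡 d) ∞ W]
    [T2Space W] [NormedAddCommGroup V] [NormedSpace ℝ V] [FiniteDimensional ℝ V]
    (l : OneForm (𝓡 d) W) (Z : VField (𝓡 d) W) (φ : W → ℝ) (e : W → V) (l' : V → V →L[ℝ] ℝ)
    (Pi : V → (V →L[ℝ] ℝ) →L[ℝ] V) (φ' : V → ℝ) (F : ℝ → W → W) (Z' : V → V) (fl : ℝ → V → V)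
    (ε : ℝ), Emb l Z φ e l' Pi φ' → FlowOf Z F → T1.Cut (e '' {x | φ x < 6}) l' Pi φ' Z' fl →
    SlowBack d F (skeleton Z) ε → Rate (e '' {x | φ x < 6}) l' φ' Z' fl ε

end Pool.Agent.MP_6d695c_gt.P
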