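import Pool.Agent.MP_6d695c_gt.p.Alg

/-! PROJECT P, row Stk: all layers of traps, one colour after the other. -/

open scoped Manifold ContDiff Topology MeasureTheory
open Set Metric Filter Real

namespace Pool.Agent.MP_6d695c_gt.P

open SW T1 Theta

namespace StkAux

/-- the stack for the colours below `j` -/
theorem upto (hLay : LayStmt) (hJoin : JoinStmt) (m b : ℕ) (R₀ Cg : ℝ) (hC : 0 ≤ Cg) (j : ℕ) :
    ∃ H κ f₀ δ : ℝ, 0 < κ ∧ 0 < f₀ ∧ f₀ ≤ 1 ∧ 0 < δ ∧ δ ≤ 1 ∧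
    ∀ (ι : Type) [Finite ι] (η ζ : ι → Y m → Y m) (act : ι → Prop) (col : ι → ℕ)
      (P : ι → Fin b → Sp m), Nod η ζ (R₀ + 4) Cg → (∀ c i, GoodP Cg f₀ (P c i)) →
      (∀ c c', c ≠ c' → col c = col c' → ∀ y, ‖η c y‖ ≤ R₀ + 4 → R₀ + 4 < ‖η c' y‖) →
      ∃ F Λ, Tow η (fun c => act c ∧ col c < j) (fun c => ⋃ i, Sh Cg (P c i)) (R₀ + δ) (R₀ + 3)
        (1 - δ) κ 0 H F Λ := by
  induction j with
  | zero =>
    obtain ⟨T, κ, f₀, -, hκ, hf, hf1, h⟩ := hLay m b R₀ Cg (1 / 2) hC (by norm_num)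
    refine ⟨0 + T, κ, f₀, 1 / 2, hκ, hf, hf1, by norm_num, by norm_num, ?_⟩
    intro ι _ η ζ act col P hN hP _
    obtain ⟨F, Λ, hT⟩ := h ι η ζ (fun c => act c ∧ col c < 0) P 0 hN hP
      fun c _ _ hc => absurd hc.2 (Nat.not_lt_zero _)
    exact ⟨F, Λ, hT.mono (by norm_num) (by norm_num) le_rfl⟩
  | succ j ih =>
    obtain ⟨H, κ, f₀, δ, hκ, hf, hf1, hδ, hδ1, h1⟩ := ih
    have hβ : 0 < min (κ / 2) (δ / 2) := lt_min (by linarith) (by linarith)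
    have b1 := min_le_left (κ / 2) (δ / 2)
    have b2 := min_le_right (κ / 2) (δ / 2)
    obtain ⟨T, κ₂, f₂, -, hκ₂, hf₂, -, h2⟩ := hLay m b R₀ Cg _ hC hβ
    refine ⟨H + T, min (κ / 2) κ₂, min f₀ f₂, δ - min (κ / 2) (δ / 2),
      lt_min (by linarith) hκ₂, lt_min hf hf₂, (min_le_left _ _).trans hf1, by linarith,
      by linarith, ?_⟩
    intro ι _ η ζ act col P hN hP hs
    obtain ⟨F₁, Λ₁, t1⟩ := h1 ι η ζ act col P hN (fun c i => (hP c i).mono (min_le_left _ _)) hs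
    obtain ⟨F₂, Λ₂, t2⟩ := h2 ι η ζ (fun c => act c ∧ col c = j) P H hN
      (fun c i => (hP c i).mono (min_le_right _ _))
      fun c c' hne hc hc' => hs c c' hne (hc.2.trans hc'.2.symm)
    have c1 := min_le_left (κ / 2) κ₂
    obtain ⟨Λ, t⟩ := hJoin m ι η (fun c => act c ∧ col c < j + 1) _ _ _
      (R₀ + (δ - min (κ / 2) (δ / 2))) _ _ _ _ _ (min (κ / 2) κ₂) _ _ _ _ _ _ _ _ _ t1 t2
      (fun c => by rw [Nat.lt_succ_iff_lt_or_eq, and_or_left]) (by linarith) hβ.le (by linarith)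
      (by linarith) (by linarith) (min_le_right _ _)
    exact ⟨_, Λ, t.mono le_rfl (by linarith) le_rfl⟩

end StkAux

theorem stk (hLay : LayStmt) (hJoin : JoinStmt) : StkStmt := by
  intro m M₀ b R₀ Cg hC
  obtain ⟨H, κ, f₀, δ, hκ, hf, hf1, hδ, -, h⟩ := StkAux.upto hLay hJoin m b R₀ Cg hC M₀
  refine ⟨H, κ, f₀, hκ, hf, hf1, ?_⟩
  intro ι _ η ζ act col P hN hP hc hs
  obtain ⟨F, Λ, t⟩ := h ι η ζ act col P hN hP hs
  have e : (fun c => act c ∧ col c < M₀) = act := funext fun c => by simp [hc c]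
  rw [e] at t
  exact ⟨F, Λ, t.mono (by linarith) (by linarith) le_rfl⟩

end Pool.Agent.MP_6d695c_gt.P
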