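import Pool.Agent.MP_6d695c_gt.p.Alg

/-! PROJECT P: traps with disjoint supports are added. -/

open scoped Manifold ContDiff Topology MeasureTheory
open Set Metric Filter Real

namespace Pool.Agent.MP_6d695c_gt.P

open SW T1 Theta

namespace SumAux

variable {m : ℕ} {ι : Type} [Fintype ι] {C : ι → Set (Y m)}

/-- near `x` only the sets over `x` matter -/
theorem away (hC : ∀ c, IsClosed (C c)) (x : ℝ × Y m) :
    ∀ᶠ y in 𝓝 x, ∀ c, x.2 ∉ C c → y.2 ∉ C c := by
  refine eventually_all.2 fun c => ?_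
  by_cases h : x.2 ∈ C c
  · exact .of_forall fun _ h' => absurd h h'
  · exact (continuous_snd.continuousAt.eventually ((hC c).isOpen_compl.mem_nhds h)).mono
      fun _ hy _ => hy

theorem sum_one (hC : ∀ c, IsClosed (C c)) (hd : ∀ c c', c ≠ c' → Disjoint (C c) (C c'))
    {g : ι → ℝ × Y m → ℝ} (hg : ∀ c (x : ℝ × Y m), x.2 ∉ C c → g c x = 0) {x : ℝ × Y m} {c : ι}
    (hx : x.2 ∈ C c) : (fun y => ∑ c, g c y) =ᶠ[𝓝 x] g c :=
  (away hC x).mono fun y hy => Finset.sum_eq_single c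
    (fun c' _ h => hg c' y (hy c' fun h' => Set.disjoint_left.1 (hd c' c h) h' hx))
    fun h => absurd (Finset.mem_univ c) h

theorem sum_zero (hC : ∀ c, IsClosed (C c)) {g : ι → ℝ × Y m → ℝ}
    (hg : ∀ c (x : ℝ × Y m), x.2 ∉ C c → g c x = 0) {x : ℝ × Y m} (hx : ∀ c, x.2 ∉ C c) :
    ∀ᶠ y in 𝓝 x, ∑ c, g c y = 0 :=
  (away hC x).mono fun y hy => Finset.sum_eq_zero fun c _ => hg c y (hy c (hx c))

theorem XY_congr {f f' : ℝ × Y m → ℝ} {x : ℝ × Y m} (h : f =ᶠ[𝓝 x] f') :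
    ∀ᶠ y in 𝓝 x, XY f y = XY f' y :=
  (h.fderiv (𝕜 := ℝ)).mono fun y hy => by rw [XY, XY, XS, XS, hy]

/-- cut-off functions with disjoint supports -/
theorem cuts (hC : ∀ c, IsCompact (C c)) (hd : ∀ c c', c ≠ c' → Disjoint (C c) (C c')) :
    ∃ χ : ι → Y m → ℝ, (∀ c, ContDiff ℝ ∞ (χ c)) ∧ (∀ c, ∀ x ∈ C c, ∀ᶠ y in 𝓝 x, χ c y = 1) ∧
      (∀ c x, χ c x ∈ Icc (0 : ℝ) 1) ∧ ∀ c c' x, c' ≠ c → χ c x ≠ 0 → χ c' x = 0 := by
  obtain ⟨N, h1, h2⟩ := Pairwise.exists_mem_filter_basis_of_disjoint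
    (l := fun c => 𝓝ˢ (C c))
    (fun c c' h => disjoint_nhdsSet_nhdsSet (hC c).isClosed (hC c').isClosed (hd c c' h))
    fun c => hasBasis_nhdsSet (C c)
  choose χ a1 _ a3 a4 a5 using fun c => exists_cut (hC c) (h1 c).1 (h1 c).2
  refine ⟨χ, a1, a4, a5, fun c c' x h hx => by_contra fun hx' => ?_⟩
  exact Set.disjoint_left.1 (h2 h) (a3 c' (subset_tsupport _ hx')) (a3 c (subset_tsupport _ hx))

theorem der {χ : ι → Y m → ℝ} {Λ : ι → ℝ × Y m → ℝ} (h1 : ∀ c, ContDiff ℝ ∞ (χ c))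
    (h2 : ∀ c, ContDiff ℝ ∞ (Λ c)) (x : ℝ × Y m) :
    fderiv ℝ (fun y : ℝ × Y m => y.1 + ∑ c, χ c y.2 * (Λ c y - y.1)) x (1, 0) =
      1 + ∑ c, χ c x.2 * (fderiv ℝ (Λ c) x (1, 0) - 1) := by
  have d := (hasFDerivAt_fst (𝕜 := ℝ) (p := x)).fun_add
    (HasFDerivAt.fun_sum (u := Finset.univ) fun c _ =>
      (((h1 c).differentiable (by simp) x.2).hasFDerivAt.comp x hasFDerivAt_snd).fun_mul
        (((h2 c).differentiable (by simp) x).hasFDerivAt.fun_sub hasFDerivAt_fst))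
  have e := d.fderiv
  simp only [Function.comp] at e
  rw [e]
  simp

end SumAux

open SumAux in
theorem sumP : SumStmt := by
  intro m ι _ C a b f Λ h hd
  have hC := fun c => (h c).cpt.isClosed
  have hf : ∀ c (x : ℝ × Y m), x.2 ∉ C c → f c x = 0 := fun c x hx =>
    (h c).out x (Or.inr (Or.inr hx))
  refine ⟨?_, fun u E hu hE => ?_⟩
  · obtain ⟨χ, a1, a2, a3, a4⟩ := cuts (fun c => (h c).cpt) hd
    choose B hB using fun c => (h c).bd
    refine ⟨fun y => y.1 + ∑ c, χ c y.2 * (Λ c y - y.1), ContDiff.sum fun c _ => (h c).sf,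
      contDiff_fst.add (ContDiff.sum fun c _ =>
        ((a1 c).comp contDiff_snd).mul ((h c).sΛ.sub contDiff_fst)),
      isCompact_iUnion fun c => (h c).cpt, fun x hx => Finset.sum_eq_zero fun c _ => (h c).out x
        (hx.imp_right (Or.imp_right fun n k => n (mem_iUnion.2 ⟨c, k⟩))), fun x => ?_,
      ∑ c, B c, fun x => ?_⟩
    · by_cases hx : ∃ c, x.2 ∈ C c
      · obtain ⟨c, hx⟩ := hx
        have e1 := XY_congr (sum_one hC hd hf hx)
        have e2 : (fun y : ℝ × Y m => y.1 + ∑ c, χ c y.2 * (Λ c y - y.1)) =ᶠ[𝓝 x] Λ c := by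
          filter_upwards [continuous_snd.continuousAt.eventually (a2 c _ hx)] with y hy
          rw [Finset.sum_eq_single c (fun c' _ k => by
            rw [a4 c c' _ k (by rw [hy]; exact one_ne_zero), zero_mul])
            fun k => absurd (Finset.mem_univ c) k, hy]
          ring
        refine (((h c).lyap x).congr trivial (e1.filter_mono nhdsWithin_le_nhds)).le trivial
          (((e2.fderiv (𝕜 := ℝ)).mono fun y hy => ?_).filter_mono nhdsWithin_le_nhds)
        rw [hy]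
      · rw [not_exists] at hx
        have e1 : XY (fun x => ∑ c, f c x) x = (1, 0) := XS_of_zero (sum_zero hC hf hx)
        have e2 : ∀ c, 0 < fderiv ℝ (Λ c) x (1, 0) := fun c => by
          have e : XY (f c) x = (1, 0) :=
            XS_of_zero ((away hC x).mono fun y hy => hf c y (hy c (hx c)))
          have := ((h c).lyap x).pos (by rw [e]; simp)
          rwa [e] at this
        left
        rw [e1, SumAux.der a1 fun c => (h c).sΛ]
        by_cases k : ∃ c, χ c x.2 ≠ 0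
        · obtain ⟨c, k⟩ := k
          rw [Finset.sum_eq_single c (fun c' _ k' => by rw [a4 c c' _ k' k, zero_mul])
            fun k => absurd (Finset.mem_univ c) k]
          have := mul_pos (lt_of_le_of_ne (a3 c x.2).1 k.symm) (e2 c)
          nlinarith [(a3 c x.2).2]
        · simp only [not_exists, not_not] at k
          simp [k]
    · rw [add_sub_cancel_left]
      refine (Finset.abs_sum_le_sum_abs _ _).trans (Finset.sum_le_sum fun c _ => ?_)
      rw [abs_mul, abs_of_nonneg (a3 c x.2).1]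
      exact (mul_le_of_le_one_left (abs_nonneg _) (a3 c x.2).2).trans (hB c x)
  · have su : ContDiff ℝ ∞ fun x : ℝ × Y m => u x.2 := hu.comp contDiff_snd
    refine ⟨su.add (ContDiff.sum fun c _ => ?_), fun x => ?_⟩
    · simpa using (hE c).2.1.sub su
    by_cases hx : ∃ c, x.2 ∈ C c
    · obtain ⟨c, hx⟩ := hx
      have e : (fun x : ℝ × Y m => u x.2 + ∑ c, E c x) =ᶠ[𝓝 x] fun x => u x.2 + E c x :=
        (sum_one hC hd (fun c => (hE c).1) hx).mono fun y hy => congrArg (u y.2 + ·) hy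
      rw [(XY_congr (sum_one hC hd hf hx)).self_of_nhds, e.fderiv_eq]
      exact (hE c).2.2 x
    · rw [not_exists] at hx
      have e1 : XY (fun x => ∑ c, f c x) x = (1, 0) := XS_of_zero (sum_zero hC hf hx)
      have e : (fun x : ℝ × Y m => u x.2 + ∑ c, E c x) =ᶠ[𝓝 x] u ∘ Prod.snd :=
        (sum_zero hC (fun c => (hE c).1) hx).mono fun y hy => by simp [hy]
      rw [e1, e.fderiv_eq,
        ((hu.differentiable (by simp) x.2).hasFDerivAt.comp x hasFDerivAt_snd).fderiv]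
      simp

end Pool.Agent.MP_6d695c_gt.P
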