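import Pool.Agent.MP_6d695c_gt.p.Alg

/-! PROJECT P, row SymH: the horizontal differential of a contact map is conformally symplectic. -/

open scoped Manifold ContDiff Topology MeasureTheory
open Set Metric Filter Real

namespace Pool.Agent.MP_6d695c_gt.P

open SW T1 Theta

namespace SymHAux

variable {m : ℕ}

/-- the derivative of the contact form -/
noncomputable def LL (m : ℕ) : Y m →L[ℝ] Y m →L[ℝ] ℝ :=
  ∑ j : Fin m, ((ContinuousLinearMap.proj (R := ℝ) (φ := fun _ : Fin m => ℝ) j).comp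
      ((ContinuousLinearMap.snd ℝ (Fin m → ℝ) (Fin m → ℝ)).comp
        (ContinuousLinearMap.snd ℝ ℝ (Hor m)))).smulRight
    ((ContinuousLinearMap.proj (R := ℝ) (φ := fun _ : Fin m => ℝ) j).comp
      ((ContinuousLinearMap.fst ℝ (Fin m → ℝ) (Fin m → ℝ)).comp
        (ContinuousLinearMap.snd ℝ ℝ (Hor m))))

theorem LL_apply (y v : Y m) : LL m y v = ∑ j, y.2.2 j * v.2.1 j := by
  simp [LL]

theorem al0_app (y v : Y m) : al0 y v = v.1 + ∑ j, y.2.2 j * v.2.1 j := by
  simp [al0, Lt_apply]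

theorem al0_eq : (al0 : Y m → Y m →L[ℝ] ℝ) =
    fun y => ContinuousLinearMap.fst ℝ ℝ (Hor m) + LL m y := by
  funext y
  refine ContinuousLinearMap.ext fun v => ?_
  rw [al0_app, add_apply, LL_apply]
  rfl

theorem al0_has (y : Y m) : HasFDerivAt (al0 : Y m → Y m →L[ℝ] ℝ) (LL m) y := by
  rw [al0_eq]
  exact (LL m).hasFDerivAt.const_add _

theorem dd_al0 (y u v : Y m) : dd al0 y u v = om u.2 v.2 := by
  simp only [dd, (al0_has y).fderiv, LL_apply, om, Finset.sum_sub_distrib]
  congr 1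
  exact Finset.sum_congr rfl fun j _ => mul_comm _ _

theorem al0_eR (y : Y m) : al0 y (eR m) = 1 := by
  simp [al0_app, eR]

theorem al0_Lt (y : Y m) (u : Hor m) : al0 y (Lt y (0, u)) = 0 := by
  simp [al0_app, Lt_apply]

end SymHAux

open SymHAux in
theorem symH : SymHStmt := by
  intro m C f h y hC hc u v
  obtain ⟨e, hey, he⟩ := hc.ct
  have hC0 : 0 < C⁻¹ := inv_pos.2 (by linarith)
  have h2 : ContDiffAt ℝ 2 h y := hc.sm.contDiffAt.of_le (ENat.LEInfty.out)
  have h0 : DifferentiableAt ℝ h y := h2.differentiableAt two_ne_zero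
  have h1 : DifferentiableAt ℝ (fderiv ℝ h) y :=
    (h2.fderiv_right (m := 1) (by norm_num)).differentiableAt one_ne_zero
  have hal : ∀ z : Y m, DifferentiableAt ℝ (al0 : Y m → Y m →L[ℝ] ℝ) z := fun z =>
    (al0_has z).differentiableAt
  have hP : DifferentiableAt ℝ (fun z => (al0 (h z)).comp (fderiv ℝ h z)) y :=
    ((hal (h y)).comp y h0).clm_comp h1
  have hnear : ∀ᶠ z in 𝓝 y, ‖z - y‖ ≤ C⁻¹ := by
    filter_upwards [closedBall_mem_nhds y hC0] with z hz
    rwa [mem_closedBall, dist_eq_norm] at hz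
  have hev : (fun z => (al0 (h z)).comp (fderiv ℝ h z)) =ᶠ[𝓝 y] fun z => e z • al0 z := by
    filter_upwards [hnear] with z hz
    exact ContinuousLinearMap.ext fun w => he z hz w
  have hed : DifferentiableAt ℝ e y := by
    have h3 : DifferentiableAt ℝ (fun z => ((al0 (h z)).comp (fderiv ℝ h z)) (eR m)) y :=
      hP.clm_apply (differentiableAt_const _)
    refine h3.congr_of_eventuallyEq ?_
    filter_upwards [hnear] with z hz
    rw [ContinuousLinearMap.comp_apply, he z hz, al0_eR, mul_one]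
  have k1 := dd_pullback (l := al0) (hal (h y)) h2 (Lt y (0, u)) (Lt y (0, v))
  rw [Darb.dd_congr hev, Darb.dd_smul hed (hal y), al0_Lt, al0_Lt, dd_al0, dd_al0, hey] at k1
  have k2 : om (hA h y u) (hA h y v) =
      om (fderiv ℝ h y (Lt y (0, u))).2 (fderiv ℝ h y (Lt y (0, v))).2 := rfl
  have k3 : om (Lt y (0, u)).2 (Lt y (0, v)).2 = om u v := rfl
  rw [k2, ← k1, k3]
  ring

end Pool.Agent.MP_6d695c_gt.P
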