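import Pool.Agent.MP_6d695c_gt.p.Alg

/-! PROJECT P, row TRFP: a plug is pulled back by an automorphism, with explicit data. -/

open scoped Manifold ContDiff Topology MeasureTheory
open Set Metric Filter Real

namespace Pool.Agent.MP_6d695c_gt.P

open SW T1 Theta

theorem trfP : TrfPStmt := by
  intro m G ℓ u' u ρ κ ϕ γ Lm η T B k M f Λ Ξ E A' U hP hA hκ hu' hu hρ hC hU h1 h2
  obtain ⟨χ, sχ, χ1, χ0, χr, -⟩ := exists_step (u := Lm + 1 / 2) (v := Lm + 1) (by linarith)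
  set A : ℝ × Y m → ℝ × Y m := fun x => (x.1 + κ x.2, ϕ x.2) with hAd
  have hX := (T1.aut T1.prel m k A A' hA).1 f hP.sf
  have sA := hA.sA
  have comp : ∀ F : ℝ × Y m → ℝ, ContDiff ℝ ∞ F → ∀ x,
      fderiv ℝ (fun x => F (A x)) x (XY (fun x => k⁻¹ * f (A x)) x) =
        fderiv ℝ F (A x) (XY f (A x)) := fun F hF x => by
    rw [fderiv_fun_comp x (hF.differentiable (by simp) _) (sA.differentiable (by simp) x),
      ContinuousLinearMap.comp_apply, hX]
  have out : ∀ x : ℝ × Y m, Lm + 1 / 4 < ρ x.2 → f (A x) = 0 ∧ Ξ (A x) = 0 := fun x hx =>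
    hP.out (A x) (le_of_not_gt fun h => (h1 _ h).not_gt hx)
  have sW : ContDiff ℝ ∞ fun x : ℝ × Y m => u' x.2 + E x :=
    (hu'.comp contDiff_snd).add hP.slow.sE
  have su : ContDiff ℝ ∞ fun x : ℝ × Y m => u x.2 := hu.comp contDiff_snd
  have sc : ContDiff ℝ ∞ fun x : ℝ × Y m => χ (ρ x.2) := (sχ.comp hρ).comp contDiff_snd
  have cρ : Continuous fun x : ℝ × Y m => ρ x.2 := hρ.continuous.comp continuous_snd
  refine ⟨fun x => Ξ (A x),
    fun x => χ (ρ x.2) * (u' (A x).2 + E (A x) - u x.2), contDiff_const.mul (hP.sf.comp sA),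
    hP.sΛ.comp sA, hP.sΞ.comp sA, hC, hU, fun x hx => ?_, fun x hx => ?_, fun x => ?_, fun x => ?_,
    fun x hx => hP.low _ ?_, fun x hx ho => hP.high _ ?_ ho.1 ho.2, fun x => hP.rng _, fun x => ?_,
    sc.mul ((sW.comp sA).sub su), fun x _ => ?_, fun x _ => ?_⟩
  · have h : Lm + 1 < ρ x.2 := lt_of_not_ge hx
    obtain ⟨e1, e2⟩ := out x (by linarith)
    exact ⟨by rw [e1, mul_zero], e2, by rw [χ0 _ h.le, zero_mul]⟩
  · have h3 := hκ x.2
    have h4 : |x.1| ≤ |x.1 + κ x.2| + |κ x.2| := by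
      simpa using abs_sub (x.1 + κ x.2) (κ x.2)
    rw [hP.far (A x) (by change T ≤ |x.1 + κ x.2|; linarith), mul_zero]
  · exact T1.rel _ _ univ univ univ A A' _ (XY f) _ Λ x 0 isOpen_univ trivial trivial sA.contDiffOn
      (hA.sA'.differentiable (by simp) _) (hP.sΛ.comp sA) hP.sΛ
      (.of_forall fun y => ⟨trivial, hA.li y, tg_univ _ _, hX y, (add_zero _).symm⟩) (hP.lyap _)
  · have h3 := abs_le.1 (hκ x.2)
    have h4 : -B ≤ Λ (A x) - (x.1 + κ x.2) ∧ Λ (A x) - (x.1 + κ x.2) ≤ B := abs_le.1 (hP.bd (A x))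
    exact abs_le.2 ⟨by linarith [h3.1, h4.1], by linarith [h3.2, h4.2]⟩
  · change x.1 + κ x.2 ≤ -T
    linarith [(abs_le.1 (hκ x.2)).2]
  · change T ≤ x.1 + κ x.2
    linarith [(abs_le.1 (hκ x.2)).1]
  · rw [comp Ξ hP.sΞ]; exact hP.mono _
  · have h3 := hP.slow.bd (A x) trivial
    rcases le_or_gt (ρ x.2) (Lm + 1) with h | h
    · have h4 := abs_le.1 (h2 _ h)
      have h5 := abs_le.1 h3
      rw [abs_mul, abs_of_nonneg (χr _).1]
      refine (mul_le_of_le_one_left (abs_nonneg _) (χr _).2).trans (abs_le.2 ⟨?_, ?_⟩)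
      · linarith [h4.1, h5.1]
      · linarith [h4.2, h5.2]
    · rw [χ0 _ h.le, zero_mul, abs_zero]
      linarith [abs_nonneg (E (A x))]
  · have h3 := (comp _ sW x).trans_le (hP.slow.mono (A x) trivial)
    rcases lt_or_ge (ρ x.2) (Lm + 1 / 2) with h | h
    · refine le_of_eq_of_le (congrArg (fun L : (ℝ × Y m) →L[ℝ] ℝ => L _)
        (Filter.EventuallyEq.fderiv_eq ?_)) h3
      filter_upwards [(isOpen_lt cρ continuous_const).mem_nhds h] with y hy
      rw [χ1 _ (le_of_lt hy)]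
      ring
    · have h4 : XY (fun x => k⁻¹ * f (A x)) x = (1, 0) := XS_of_zero (by
        filter_upwards [(isOpen_lt continuous_const cρ).mem_nhds
          (show Lm + 1 / 4 < ρ x.2 by linarith)] with y hy
        rw [(out y hy).1, mul_zero])
      have d1 := (hu.differentiable (by simp) x.2).hasFDerivAt.comp x hasFDerivAt_snd
      have d2 := ((sχ.comp hρ).differentiable (by simp) x.2).hasFDerivAt.comp x hasFDerivAt_snd
      have d3 := ((sW.comp sA).differentiable (by simp) x).hasFDerivAt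
      have d4 := (d1.add (d2.mul (d3.sub d1))).fderiv
      rw [h4] at h3
      change fderiv ℝ _ x (XY _ x) ≤ 0
      rw [h4]
      refine le_of_eq_of_le (congrArg (fun L : (ℝ × Y m) →L[ℝ] ℝ => L (1, 0)) d4) ?_
      simpa [Function.comp_def] using mul_nonpos_of_nonneg_of_nonpos (χr (ρ x.2)).1 h3

end Pool.Agent.MP_6d695c_gt.P
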