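import Pool.Agent.MP_6d695c_gt.p.Alg

/-! PROJECT P, row XBox: the fields in a box. -/

open scoped Manifold ContDiff Topology MeasureTheory
open Set Metric Filter Real

namespace Pool.Agent.MP_6d695c_gt.P

open SW T1 Theta

theorem xbox : XBoxStmt := by
  intro V E _ _ _ _ m M l Pi φ fl g κ a b D N hS hB x hx hN
  have h1 : ∀ x ∈ M, x ∈ N → ∀ v ∈ Tg M x, lam0 (κ x) (fderiv ℝ κ x v) = l x v := by
    intro x hx hN v hv
    have h2 := hB.par.rm x hx hN
    rw [← hB.form (κ x) h2.1, hB.par.ret hx hN hv, h2.2]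
  refine ⟨h1 x hx hN, fun F G hF hG he => ?_⟩
  have h2 := hB.par.rm x hx hN
  obtain ⟨h3, h4⟩ := T1.prel V (ℝ × Y m) E (ℝ × Y m) M N univ l Pi lam0
    (fun x : ℝ × Y m => exp (-x.1) • P0 x.2) κ 1 x hS (T1.model m).1 hB.par.oN hN hx
    hB.sκ.contDiffOn (fun y hy hy' => ⟨trivial, fun v hv => by rw [h1 y hy hy' v hv, one_mul]⟩)
    fun w _ => by
      have h5 := hB.par.tg h2.1
      have h6 := hB.par.dr_dg h2.1 w
      rw [h2.2] at h5 h6
      exact ⟨_, by rw [h5]; exact mem_range_self w, h6⟩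
  have dκ : DifferentiableAt ℝ κ x := hB.sκ.differentiable (by simp) x
  have dF : DifferentiableAt ℝ F (κ x) := hF.differentiable (by simp) _
  have h7 : Pi x (fderiv ℝ G x) = Pi x ((fderiv ℝ F (κ x)).comp (fderiv ℝ κ x)) :=
    hS.congr hx fun v hv => by
      rw [← fderiv_comp x dF dκ]
      exact fderiv_congr_tg (hG.differentiable (by simp) x) (dF.comp x dκ) hx he hv
  rw [map_add, map_add, h7, h3, h4, one_smul]
  exact congrArg₂ (· + ·) ((T1.model m).2.1 (κ x)) rfl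

end Pool.Agent.MP_6d695c_gt.P
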